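import Pool.Agent.Lib.MP_4652a8_nt.GDefs

set_option autoImplicit false

namespace Pool.Agent.Lib.MP_4652a8_nt
open Finset

theorem lcm_le_F {Q : Finset ℕ} {n : ℕ} (hn : n ∈ Q) (m : ℕ) : Nat.lcm m n ≤ F Q m :=
  Finset.le_sup (f := fun n => Nat.lcm m n) hn

theorem F_spec {Q : Finset ℕ} (hQ : DC Q) (m : ℕ) : ∃ n ∈ Q, F Q m = Nat.lcm m n := by
  obtain ⟨n, hn, h⟩ := Finset.exists_mem_eq_sup Q ⟨1, hQ.1⟩ (fun n => Nat.lcm m n)
  exact ⟨n, hn, h⟩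

theorem F_le {Q : Finset ℕ} {m B : ℕ} (h : ∀ n ∈ Q, Nat.lcm m n ≤ B) : F Q m ≤ B :=
  Finset.sup_le h

theorem le_F {Q : Finset ℕ} (hQ : DC Q) (m : ℕ) : m ≤ F Q m := by
  have := lcm_le_F hQ.1 m
  simpa using this

theorem F_pos {Q : Finset ℕ} (hQ : DC Q) {m : ℕ} (hm : 0 < m) : 0 < F Q m :=
  lt_of_lt_of_le hm (le_F hQ m)

theorem dvd_F {Q : Finset ℕ} (hQ : DC Q) (m : ℕ) : m ∣ F Q m := by
  obtain ⟨n, -, h⟩ := F_spec hQ m
  rw [h]; exact Nat.dvd_lcm_left _ _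

theorem F_mono {Q : Finset ℕ} (hQ : DC Q) {d m : ℕ} (hd : d ∣ m) (hm : 0 < m) :
    F Q d ≤ F Q m := by
  obtain ⟨n, hn, h⟩ := F_spec hQ d
  rw [h]
  refine le_trans ?_ (lcm_le_F hn m)
  exact Nat.le_of_dvd (Nat.lcm_pos hm (hQ.2.1 n hn)) 
    (Nat.lcm_dvd (hd.trans (Nat.dvd_lcm_left _ _)) (Nat.dvd_lcm_right _ _))

theorem wt_nonneg (Q : Finset ℕ) (m : ℕ) : 0 ≤ wt Q m := by
  unfold wt; positivity

theorem wt_pos {Q : Finset ℕ} (hQ : DC Q) {m : ℕ} (hm : 0 < m) : 0 < wt Q m := by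
  unfold wt
  have h1 : (0 : ℝ) < (Nat.totient m : ℝ) := by exact_mod_cast Nat.totient_pos.2 hm
  have h2 : (0 : ℝ) < (F Q m : ℝ) := by exact_mod_cast F_pos hQ hm
  positivity

theorem S_nonneg (P Q : Finset ℕ) : 0 ≤ S P Q :=
  Finset.sum_nonneg (fun m _ => wt_nonneg Q m)

theorem S_pos {P Q : Finset ℕ} (hP : DC P) (hQ : DC Q) : 0 < S P Q :=
  Finset.sum_pos (fun m hm => wt_pos hQ (hP.2.1 m hm)) ⟨1, hP.1⟩

theorem ms_nonneg (P Q : Finset ℕ) (q : ℕ) : 0 ≤ ms P Q q :=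
  Finset.sum_nonneg (fun m _ => wt_nonneg Q m)

theorem ms_le_S (P Q : Finset ℕ) (q : ℕ) : ms P Q q ≤ S P Q :=
  Finset.sum_le_sum_of_subset_of_nonneg (Finset.filter_subset _ _) (fun m _ _ => wt_nonneg Q m)

theorem ms_anti (P Q : Finset ℕ) {q q' : ℕ} (h : q ∣ q') : ms P Q q' ≤ ms P Q q := by
  refine Finset.sum_le_sum_of_subset_of_nonneg ?_ (fun m _ _ => wt_nonneg Q m)
  intro m hm
  rw [Finset.mem_filter] at hm ⊢
  exact ⟨hm.1, h.trans hm.2⟩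

theorem ms_one (P Q : Finset ℕ) : ms P Q 1 = S P Q := by
  unfold ms S; simp

theorem ms_eq_zero {P : Finset ℕ} (Q : Finset ℕ) {q : ℕ} (h : ∀ m ∈ P, ¬ q ∣ m) :
    ms P Q q = 0 := by
  unfold ms
  rw [Finset.filter_eq_empty_iff.2 h]; simp

theorem ms_eq_zero_of_notMem {P : Finset ℕ} (hP : DC P) (Q : Finset ℕ) {q : ℕ} (h : q ∉ P) :
    ms P Q q = 0 :=
  ms_eq_zero Q (fun m hm hq => h (hP.2.2 m hm q hq))

theorem S_sub_ms (P Q : Finset ℕ) (q : ℕ) :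
    S P Q - ms P Q q = ∑ m ∈ P.filter (fun m => ¬ q ∣ m), wt Q m := by
  unfold S ms
  rw [← Finset.sum_filter_add_sum_filter_not P (fun m => q ∣ m)]; ring

theorem V_comm (P Q : Finset ℕ) : V P Q = V Q P := by unfold V; ring

theorem bad_nonneg (P Q : Finset ℕ) (L : ℕ) : 0 ≤ bad P Q L := by
  refine Finset.sum_nonneg (fun m _ => mul_nonneg (by positivity) ?_)
  split_ifs
  · exact le_max_right _ _
  · positivity

theorem bad_le_S (P Q : Finset ℕ) (L : ℕ) : bad P Q L ≤ S P Q := by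
  refine Finset.sum_le_sum (fun m _ => ?_)
  unfold wt
  rw [div_eq_mul_one_div (Nat.totient m : ℝ)]
  refine mul_le_mul_of_nonneg_left ?_ (by positivity)
  split_ifs
  · refine max_le ?_ (by positivity)
    have : (0 : ℝ) ≤ 1 / (L : ℝ) := by positivity
    linarith
  · exact le_rfl

end Pool.Agent.Lib.MP_4652a8_nt
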