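import Pool.Agent.Lib.MP_4652a8_nt.GGcd

set_option autoImplicit false

namespace Pool.Agent.Lib.MP_4652a8_nt
open Finset

theorem quantile (A : Finset ℚ) (hA : A.Nonempty) (f : ℚ → ℕ) {e : ℝ} (he : 0 < e) (he1 : e ≤ 1) :
    ∃ a ∈ A, ((A.filter (fun b => f a < f b)).card : ℝ) ≤ e * (A.card : ℝ) ∧
      e * (A.card : ℝ) ≤ ((A.filter (fun b => f a ≤ f b)).card : ℝ) := by
  classical
  have hne : (A.filter (fun a =>
      e * (A.card : ℝ) ≤ ((A.filter (fun b => f a ≤ f b)).card : ℝ))).Nonempty := by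
    obtain ⟨a, ha, hmin⟩ := A.exists_min_image f hA
    refine ⟨a, mem_filter.2 ⟨ha, ?_⟩⟩
    have h1 : A.filter (fun b => f a ≤ f b) = A := filter_true_of_mem hmin
    rw [h1]
    have h0 : (0 : ℝ) ≤ (A.card : ℝ) := Nat.cast_nonneg _
    nlinarith
  obtain ⟨a, ha, hmax⟩ := exists_max_image _ f hne
  obtain ⟨haA, hae⟩ := mem_filter.1 ha
  refine ⟨a, haA, ?_, hae⟩
  by_cases hB : (A.filter (fun b => f a < f b)).Nonempty
  · obtain ⟨c, hc, hcmin⟩ := exists_min_image _ f hB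
    obtain ⟨hcA, hac⟩ := mem_filter.1 hc
    have h1 : A.filter (fun b => f a < f b) = A.filter (fun b => f c ≤ f b) := by
      ext b
      simp only [mem_filter]
      constructor
      · rintro ⟨hb, hab⟩
        exact ⟨hb, hcmin b (mem_filter.2 ⟨hb, hab⟩)⟩
      · rintro ⟨hb, hcb⟩
        exact ⟨hb, lt_of_lt_of_le hac hcb⟩
    rw [h1]
    by_contra hcon
    have h2 := hmax c (mem_filter.2 ⟨hcA, le_of_lt (not_le.1 hcon)⟩)
    omega
  · rw [not_nonempty_iff_eq_empty.1 hB]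
    simp only [card_empty, Nat.cast_zero]
    positivity

theorem gbox_pair {A B A' B' : Finset ℚ} {e : ℝ} (he : 0 < e) {T : ℕ} (hA : A.Nonempty)
    (hB : B.Nonempty) (hA' : A' ⊆ A) (hB' : B' ⊆ B)
    (h1 : e * (A.card : ℝ) ≤ (A'.card : ℝ)) (h2 : e * (B.card : ℝ) ≤ (B'.card : ℝ))
    (hT : (((A ×ˢ B).filter (fun z =>
        T < Nat.gcd (nm z.1) (nm z.2) * Nat.gcd z.1.den z.2.den)).card : ℝ)
      ≤ e ^ 2 / 2 * ((A.card : ℝ) * (B.card : ℝ))) :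
    ∃ a ∈ A', ∃ b ∈ B', Nat.gcd (nm a) (nm b) * Nat.gcd a.den b.den ≤ T := by
  classical
  by_contra hcon
  have hsub : A' ×ˢ B' ⊆ (A ×ˢ B).filter (fun z =>
      T < Nat.gcd (nm z.1) (nm z.2) * Nat.gcd z.1.den z.2.den) := by
    intro z hz
    obtain ⟨hz1, hz2⟩ := mem_product.1 hz
    refine mem_filter.2 ⟨mem_product.2 ⟨hA' hz1, hB' hz2⟩, ?_⟩
    by_contra h
    exact hcon ⟨z.1, hz1, z.2, hz2, not_lt.1 h⟩
  have h3 : ((A' ×ˢ B').card : ℝ) ≤ e ^ 2 / 2 * ((A.card : ℝ) * (B.card : ℝ)) :=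
    le_trans (by exact_mod_cast card_le_card hsub) hT
  rw [card_product] at h3
  push_cast at h3
  have hAp : (0 : ℝ) < (A.card : ℝ) := by exact_mod_cast hA.card_pos
  have hBp : (0 : ℝ) < (B.card : ℝ) := by exact_mod_cast hB.card_pos
  have h4 : (e * (A.card : ℝ)) * (e * (B.card : ℝ)) ≤ (A'.card : ℝ) * (B'.card : ℝ) :=
    mul_le_mul h1 h2 (by positivity) (Nat.cast_nonneg _)
  have h5 : 0 < e ^ 2 * ((A.card : ℝ) * (B.card : ℝ)) := by positivity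
  nlinarith

theorem exists_box (C e : ℝ) (he : 0 < e) (he1 : e ≤ 1) : ∃ T : ℕ, 1 ≤ T ∧
    ∀ (A B : Finset ℚ) (R U : ℕ), Pos A → Pos B → A.Nonempty → B.Nonempty →
      Tail A C → Tail B C → Ok A B R U →
      ∃ J K J' K' : ℕ, Box A e J K ∧ Box B e J' K' ∧ J * K' ≤ R * T ∧ K * J' ≤ U * T := by
  classical
  obtain ⟨T, hT1, hT⟩ := gcd_typical C (e ^ 2 / 2) (by positivity)
  refine ⟨T, hT1, ?_⟩
  intro A B R U hPA hPB hA hB hTA hTB hOk
  have hT' := hT A B hPA hPB hTA hTB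
  obtain ⟨a1, ha1, h11, h12⟩ := quantile A hA nm he he1
  obtain ⟨a2, ha2, h21, h22⟩ := quantile A hA (fun a => a.den) he he1
  obtain ⟨b1, hb1, h31, h32⟩ := quantile B hB nm he he1
  obtain ⟨b2, hb2, h41, h42⟩ := quantile B hB (fun a => a.den) he he1
  refine ⟨nm a1, a2.den, nm b1, b2.den, ⟨nm_pos (hPA a1 ha1), a2.den_pos, h11, h21⟩,
    ⟨nm_pos (hPB b1 hb1), b2.den_pos, h31, h41⟩, ?_, ?_⟩
  · obtain ⟨a, ha, b, hb, hab⟩ := gbox_pair he hA hB (filter_subset _ A) (filter_subset _ B)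
      h12 h42 hT'
    obtain ⟨haA, ha'⟩ := mem_filter.1 ha
    obtain ⟨hbB, hb'⟩ := mem_filter.1 hb
    calc nm a1 * b2.den ≤ nm a * b.den := Nat.mul_le_mul ha' hb'
      _ = nm (a / b) * (Nat.gcd (nm a) (nm b) * Nat.gcd a.den b.den) :=
          cross_nm (hPA a haA) (hPB b hbB)
      _ ≤ R * T := Nat.mul_le_mul (hOk a haA b hbB).1 hab
  · obtain ⟨a, ha, b, hb, hab⟩ := gbox_pair he hA hB (filter_subset _ A) (filter_subset _ B)
      h22 h32 hT'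
    obtain ⟨haA, ha'⟩ := mem_filter.1 ha
    obtain ⟨hbB, hb'⟩ := mem_filter.1 hb
    calc a2.den * nm b1 ≤ a.den * nm b := Nat.mul_le_mul ha' hb'
      _ = (a / b).den * (Nat.gcd (nm a) (nm b) * Nat.gcd a.den b.den) :=
          cross_den (hPA a haA) (hPB b hbB)
      _ ≤ U * T := Nat.mul_le_mul (hOk a haA b hbB).2 hab

end Pool.Agent.Lib.MP_4652a8_nt
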