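import Pool.Agent.Lib.MP_4652a8_nt.GB

set_option autoImplicit false

namespace Pool.Agent.Lib.MP_4652a8_nt
open Finset

theorem sg_nonneg {al : ℝ} (hal : 0 ≤ al) (n : ℕ) : 0 ≤ sg al n := by
  unfold sg
  exact Finset.sum_nonneg fun p _ => div_nonneg hal (Nat.cast_nonneg _)

theorem uu_nonneg (al c : ℝ) (n : ℕ) : 0 ≤ uu al c n := le_max_right _ _

theorem uu_le_one {al c : ℝ} (hal : 0 ≤ al) (hc : 0 ≤ c) (n : ℕ) : uu al c n ≤ 1 := by
  unfold uu
  have := mul_nonneg hc (sg_nonneg hal n)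
  exact max_le (by linarith) zero_le_one

theorem suc_nonneg (al c : ℝ) (P Q : Finset ℕ) (x : ℕ) : 0 ≤ suc al c P Q x := by
  unfold suc
  exact div_nonneg
    (Finset.sum_nonneg fun m _ => mul_nonneg (wt_nonneg Q m) (uu_nonneg al c m)) (S_nonneg P Q)

theorem suc_anti (al c : ℝ) (P Q : Finset ℕ) : Antitone (suc al c P Q) := by
  intro x y hxy
  unfold suc
  refine div_le_div_of_nonneg_right ?_ (S_nonneg P Q)
  refine Finset.sum_le_sum_of_subset_of_nonneg ?_
    (fun m _ _ => mul_nonneg (wt_nonneg Q m) (uu_nonneg al c m))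
  intro m hm
  rw [Finset.mem_filter] at hm ⊢
  exact ⟨hm.1, lt_of_le_of_lt hxy hm.2⟩

theorem suc_eq_zero (al c : ℝ) {P Q : Finset ℕ} {X : ℕ} (hX : ∀ m ∈ P, F Q m / m ≤ X) {x : ℕ}
    (hx : X ≤ x) : suc al c P Q x = 0 := by
  unfold suc
  rw [Finset.filter_eq_empty_iff.2 fun m hm => not_lt.2 ((hX m hm).trans hx)]
  simp

/-- the identity `S * E[u K] = W` -/
theorem S_mul_sum_suc (al c : ℝ) {P Q : Finset ℕ} (hP : DC P) (hQ : DC Q) {X : ℕ}
    (hX : ∀ m ∈ P, F Q m / m ≤ X) :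
    S P Q * ∑ x ∈ range X, suc al c P Q x = Wt al c P := by
  have hS : S P Q ≠ 0 := (S_pos hP hQ).ne'
  unfold suc Wt
  rw [← Finset.sum_div, mul_div_cancel₀ _ hS]
  simp_rw [Finset.sum_filter]
  rw [Finset.sum_comm]
  refine Finset.sum_congr rfl fun m hm => ?_
  rw [← Finset.sum_filter, Finset.sum_const, nsmul_eq_mul]
  have hcard : ((range X).filter fun x => x < F Q m / m) = range (F Q m / m) := by
    ext x
    simp only [Finset.mem_filter, Finset.mem_range]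
    exact ⟨fun h => h.2, fun h => ⟨lt_of_lt_of_le h (hX m hm), h⟩⟩
  rw [hcard, Finset.card_range]
  have hm0 : 0 < m := hP.2.1 m hm
  have hm0' : (m : ℝ) ≠ 0 := by exact_mod_cast hm0.ne'
  have hF : (F Q m : ℝ) ≠ 0 := by exact_mod_cast (F_pos hQ hm0).ne'
  rw [Nat.cast_div (dvd_F hQ m) hm0']
  unfold wt
  field_simp

theorem gc1_one_le_Wt (al c : ℝ) {P : Finset ℕ} (hP : DC P) : 1 ≤ Wt al c P := by
  unfold Wt
  have h := Finset.single_le_sum
    (f := fun n : ℕ => (Nat.totient n : ℝ) / (n : ℝ) * uu al c n)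
    (fun n _ => mul_nonneg (by positivity) (uu_nonneg al c n)) hP.1
  refine le_trans (le_of_eq ?_) h
  simp [uu, sg]

theorem V_le_mul {al c r r' : ℝ} {P Q : Finset ℕ} (hP : DC P) (hQ : DC Q) (hr : 0 ≤ r)
    (hr' : 0 ≤ r') {X : ℕ} (hX : ∀ m ∈ P, F Q m / m ≤ X) (hX' : ∀ n ∈ Q, F P n / n ≤ X)
    (h1 : Wt al c Q ≤ r * ∑ x ∈ range X, suc al c P Q x)
    (h2 : Wt al c P ≤ r' * ∑ x ∈ range X, suc al c Q P x) : V P Q ≤ r * r' := by
  have e1 := S_mul_sum_suc al c hP hQ hX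
  have e2 := S_mul_sum_suc al c hQ hP hX'
  have w1 := gc1_one_le_Wt al c hP
  have w2 := gc1_one_le_Wt al c hQ
  have s1 := S_pos hP hQ
  have s2 := S_pos hQ hP
  set k := ∑ x ∈ range X, suc al c P Q x
  set k' := ∑ x ∈ range X, suc al c Q P x
  have hk : 0 < k := by
    by_contra h
    have := mul_nonpos_of_nonneg_of_nonpos s1.le (not_lt.1 h)
    linarith
  have hk' : 0 < k' := by
    by_contra h
    have := mul_nonpos_of_nonneg_of_nonpos s2.le (not_lt.1 h)
    linarith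
  have hkk : 0 < k * k' := mul_pos hk hk'
  refine le_of_mul_le_mul_right ?_ hkk
  calc V P Q * (k * k') = Wt al c Q * Wt al c P := by
        rw [← e1, ← e2]; unfold V; ring
    _ ≤ (r * k) * (r' * k') := mul_le_mul h1 h2 (by linarith) (mul_nonneg hr hk.le)
    _ = r * r' * (k * k') := by ring

/-- a cheap test passed by all primes -/
def gc1_test (q : ℕ) : Bool := (List.range 32).all fun d => d < 2 || d == q || q % d != 0

theorem gc1_test_of_prime {q : ℕ} (hq : q.Prime) : gc1_test q = true := by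
  unfold gc1_test
  rw [List.all_eq_true]
  intro d _
  by_cases h : q % d = 0
  · rcases (Nat.dvd_prime hq).1 (Nat.dvd_of_mod_eq_zero h) with h1 | h1 <;> simp [h1]
  · simp [h]

theorem gc1_small_nat :
    ∑ q ∈ (range 1000).filter (fun q => 13 ≤ q ∧ gc1_test q = true), (10 ^ 9 / q ^ 2 + 1) ≤
      22400000 := by
  decide +kernel

theorem gc1_small :
    ∑ q ∈ (range 1000).filter (fun q => 13 ≤ q ∧ gc1_test q = true), 1 / (q : ℝ) ^ 2 ≤
      224 / 10000 := by
  have h : ((∑ q ∈ (range 1000).filter (fun q => 13 ≤ q ∧ gc1_test q = true),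
      (10 ^ 9 / q ^ 2 + 1) : ℕ) : ℝ) ≤ 22400000 := by exact_mod_cast gc1_small_nat
  rw [Nat.cast_sum] at h
  have h2 : ∑ q ∈ (range 1000).filter (fun q => 13 ≤ q ∧ gc1_test q = true),
      (10 : ℝ) ^ 9 * (1 / (q : ℝ) ^ 2) ≤
      ∑ q ∈ (range 1000).filter (fun q => 13 ≤ q ∧ gc1_test q = true),
        ((10 ^ 9 / q ^ 2 + 1 : ℕ) : ℝ) := by
    refine Finset.sum_le_sum fun q hq => ?_
    have hq13 : 13 ≤ q := (Finset.mem_filter.1 hq).2.1
    have hq0 : 0 < q ^ 2 := pow_pos (by omega) 2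
    have h3 : 10 ^ 9 < q ^ 2 * (10 ^ 9 / q ^ 2 + 1) := Nat.lt_mul_div_succ _ hq0
    have h4 : ((10 ^ 9 : ℕ) : ℝ) ≤ ((q ^ 2 * (10 ^ 9 / q ^ 2 + 1) : ℕ) : ℝ) := by
      exact_mod_cast h3.le
    have h5 : (0 : ℝ) < (q : ℝ) ^ 2 := by exact_mod_cast hq0
    rw [mul_one_div, div_le_iff₀ h5]
    rw [Nat.cast_mul, Nat.cast_pow, Nat.cast_pow] at h4
    rw [mul_comm]
    exact_mod_cast h4
  rw [← Finset.mul_sum] at h2
  linarith

theorem gc1_tail (n : ℕ) :
    ∑ k ∈ range n, 1 / (2 * ((k : ℝ) + 500) + 1) ^ 2 ≤ 1 / 2000 - 1 / (4 * ((n : ℝ) + 500)) := by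
  induction n with
  | zero => norm_num
  | succ n ih =>
    rw [Finset.sum_range_succ]
    have h0 : (0 : ℝ) ≤ n := Nat.cast_nonneg n
    have h1 : 1 / (2 * ((n : ℝ) + 500) + 1) ^ 2 ≤
        1 / (4 * ((n : ℝ) + 500)) - 1 / (4 * ((n : ℝ) + 1 + 500)) := by
      rw [div_sub_div _ _ (by positivity) (by positivity), div_le_div_iff₀ (by positivity)
        (by positivity)]
      nlinarith
    push_cast
    linarith

theorem sum_inv_sq_primes (T : Finset ℕ) (hT : ∀ p ∈ T, p.Prime ∧ 13 ≤ p) :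
    ∑ p ∈ T, 1 / (p : ℝ) ^ 2 ≤ 23 / 1000 := by
  rw [← Finset.sum_filter_add_sum_filter_not T (fun p => p < 1000)]
  have h1 : ∑ p ∈ T.filter (fun p => p < 1000), 1 / (p : ℝ) ^ 2 ≤ 224 / 10000 := by
    refine le_trans (Finset.sum_le_sum_of_subset_of_nonneg ?_ fun p _ _ => by positivity) gc1_small
    intro p hp
    rw [Finset.mem_filter] at hp
    rw [Finset.mem_filter, Finset.mem_range]
    exact ⟨hp.2, (hT p hp.1).2, gc1_test_of_prime (hT p hp.1).1⟩
  have h2 : ∑ p ∈ T.filter (fun p => ¬ p < 1000), 1 / (p : ℝ) ^ 2 ≤ 1 / 2000 := by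
    set n := T.sup id with hn
    have hsub : T.filter (fun p => ¬ p < 1000) ⊆ (range n).image fun k => 2 * (k + 500) + 1 := by
      intro p hp
      rw [Finset.mem_filter] at hp
      have hle : p ≤ n := Finset.le_sup (f := id) hp.1
      have hodd : p % 2 = 1 := by
        rcases (hT p hp.1).1.eq_two_or_odd with h | h
        · omega
        · exact h
      rw [Finset.mem_image]
      refine ⟨p / 2 - 500, ?_, ?_⟩
      · rw [Finset.mem_range]; omega
      · omega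
    refine le_trans (Finset.sum_le_sum_of_subset_of_nonneg hsub fun p _ _ => by positivity) ?_
    rw [Finset.sum_image (fun a _ b _ h => by omega)]
    have h3 := gc1_tail n
    have h4 : (0 : ℝ) ≤ 1 / (4 * ((n : ℝ) + 500)) := by positivity
    push_cast
    linarith
  linarith

/-- the weight `uu` loses little mass -/
theorem beta_bound {P Q : Finset ℕ} (hc : Cen P Q) :
    (1 - 8973 / 100000) * S P Q ≤ ∑ m ∈ P, wt Q m * uu (105400 / 100000) (7 / 2) m := by
  have hp13 := hc.2.2.2.2.2.2.2.2.2.2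
  set al : ℝ := 105400 / 100000 with hal
  set T : Finset ℕ := P.biUnion fun m => m.primeFactors.filter fun p => 13 ≤ p with hTdef
  have hT : ∀ p ∈ T, p.Prime ∧ 13 ≤ p := by
    intro p hp
    obtain ⟨m, -, hm⟩ := Finset.mem_biUnion.1 hp
    rw [Finset.mem_filter] at hm
    exact ⟨Nat.prime_of_mem_primeFactors hm.1, hm.2⟩
  have hS := S_nonneg P Q
  have h1 : ∑ m ∈ P, wt Q m * sg al m ≤ ∑ p ∈ T, al / (p : ℝ) * ms P Q p := by
    unfold ms
    simp_rw [Finset.mul_sum, Finset.sum_filter]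
    rw [Finset.sum_comm]
    refine Finset.sum_le_sum fun m hm => ?_
    rw [← Finset.sum_filter]
    unfold sg
    rw [Finset.mul_sum]
    have hw := wt_nonneg Q m
    refine le_trans (le_of_eq (Finset.sum_congr rfl fun p _ => mul_comm _ _)) ?_
    refine Finset.sum_le_sum_of_subset_of_nonneg ?_ fun p _ _ => by positivity
    intro p hp
    rw [Finset.mem_filter]
    exact ⟨Finset.mem_biUnion.2 ⟨m, hm, hp⟩,
      Nat.dvd_of_mem_primeFactors (Finset.mem_filter.1 hp).1⟩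
  have h2 : ∑ p ∈ T, al / (p : ℝ) * ms P Q p ≤ al ^ 2 * S P Q * ∑ p ∈ T, 1 / (p : ℝ) ^ 2 := by
    rw [Finset.mul_sum]
    refine Finset.sum_le_sum fun p hp => ?_
    have h3 := hp13 p (hT p hp).1 (hT p hp).2
    have h4 : (0 : ℝ) ≤ al / (p : ℝ) := by positivity
    refine (mul_le_mul_of_nonneg_left h3 h4).trans (le_of_eq ?_)
    rw [hal]
    ring
  have h3 : al ^ 2 * S P Q * ∑ p ∈ T, 1 / (p : ℝ) ^ 2 ≤ al ^ 2 * S P Q * (23 / 1000) :=
    mul_le_mul_of_nonneg_left (sum_inv_sq_primes T hT) (by positivity)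
  have h4 : S P Q - 7 / 2 * ∑ m ∈ P, wt Q m * sg al m ≤ ∑ m ∈ P, wt Q m * uu al (7 / 2) m := by
    unfold S
    rw [Finset.mul_sum, ← Finset.sum_sub_distrib]
    refine Finset.sum_le_sum fun m _ => ?_
    have h5 : 1 - 7 / 2 * sg al m ≤ uu al (7 / 2) m := le_max_left _ _
    have h6 := mul_le_mul_of_nonneg_left h5 (wt_nonneg Q m)
    linarith
  have h5 : al ^ 2 = 1110916 / 1000000 := by rw [hal]; norm_num
  rw [h5] at h2 h3
  linarith

end Pool.Agent.Lib.MP_4652a8_nt
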