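import Pool.Agent.Lib.MP_4652a8_nt.GB

set_option autoImplicit false

namespace Pool.Agent.Lib.MP_4652a8_nt
open Finset

theorem gop4_ms_sub (P Q : Finset ℕ) {q q' : ℕ} (h : q ∣ q') :
    ms P Q q - ms P Q q' = ∑ m ∈ P.filter (fun m => q ∣ m ∧ ¬ q' ∣ m), wt Q m := by
  unfold ms
  have h1 := Finset.sum_filter_add_sum_filter_not (P.filter (fun m => q ∣ m))
    (fun m => q' ∣ m) (fun m => wt Q m)
  rw [Finset.filter_filter, Finset.filter_filter] at h1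
  have h2 : P.filter (fun m => q ∣ m ∧ q' ∣ m) = P.filter (fun m => q' ∣ m) := by
    refine Finset.filter_congr (fun m _ => ?_)
    exact ⟨fun hm => hm.2, fun hm => ⟨h.trans hm, hm⟩⟩
  rw [h2] at h1
  linarith

/-- dividing by `p` moves the layer `a * p` into the layer `a` -/
theorem gop4_shift {P Q : Finset ℕ} (hP : DC P) (hQ : DC Q) {p : ℕ} (hp : 0 < p) (a b : ℕ)
    (c : ℝ) (hc : 0 ≤ c) (g : ℕ → ℝ) (hg : ∀ m, 0 ≤ g m)
    (hφ : ∀ k, 0 < k → a ∣ k → ¬ b ∣ k →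
      (Nat.totient (p * k) : ℝ) * g (p * k) = c * ((Nat.totient k : ℝ) * g k)) :
    ∑ m ∈ P.filter (fun m => p * a ∣ m ∧ ¬ p * b ∣ m), wt Q m * g m ≤
      c * ∑ m ∈ P.filter (fun m => a ∣ m ∧ ¬ b ∣ m), wt Q m * g m := by
  rw [Finset.mul_sum]
  have hsub : P.filter (fun m => p * a ∣ m ∧ ¬ p * b ∣ m) ⊆
      ((P.filter (fun m => a ∣ m ∧ ¬ b ∣ m)).filter (fun k => p * k ∈ P)).image
        (fun k => p * k) := by
    intro m hm
    rw [Finset.mem_filter] at hm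
    obtain ⟨hmP, ⟨u, hu⟩, hb⟩ := hm
    refine Finset.mem_image.2 ⟨a * u, ?_, by rw [hu]; ring⟩
    have hmu : p * (a * u) = m := by rw [hu]; ring
    refine Finset.mem_filter.2 ⟨Finset.mem_filter.2 ⟨?_, Dvd.intro _ rfl, ?_⟩, by rw [hmu]; exact hmP⟩
    · exact hP.2.2 m hmP _ (Dvd.intro_left p hmu)
    · intro hb'
      exact hb (by rw [← hmu]; exact Nat.mul_dvd_mul_left p hb')
  have hnn : ∀ m, 0 ≤ wt Q m * g m := fun m => mul_nonneg (wt_nonneg Q m) (hg m)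
  refine le_trans (Finset.sum_le_sum_of_subset_of_nonneg hsub (fun m _ _ => hnn m)) ?_
  rw [Finset.sum_image (fun x _ y _ hxy => Nat.eq_of_mul_eq_mul_left hp hxy)]
  refine le_trans (Finset.sum_le_sum (g := fun k => c * (wt Q k * g k)) ?_)
    (Finset.sum_le_sum_of_subset_of_nonneg (Finset.filter_subset _ _)
      (fun m _ _ => mul_nonneg hc (hnn m)))
  intro k hk
  rw [Finset.mem_filter, Finset.mem_filter] at hk
  obtain ⟨⟨hkP, ha, hb⟩, hpk⟩ := hk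
  have hk0 : 0 < k := hP.2.1 k hkP
  have hF : F Q k ≤ F Q (p * k) := F_mono hQ (Dvd.intro_left p rfl) (Nat.mul_pos hp hk0)
  have hF0 : (0 : ℝ) < (F Q k : ℝ) := by exact_mod_cast F_pos hQ hk0
  have hF1 : (F Q k : ℝ) ≤ (F Q (p * k) : ℝ) := by exact_mod_cast hF
  have e1 : wt Q (p * k) * g (p * k) =
      (c * ((Nat.totient k : ℝ) * g k)) / (F Q (p * k) : ℝ) := by
    rw [← hφ k hk0 ha hb]; unfold wt; ring
  have e2 : c * (wt Q k * g k) = (c * ((Nat.totient k : ℝ) * g k)) / (F Q k : ℝ) := by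
    unfold wt; ring
  show wt Q (p * k) * g (p * k) ≤ c * (wt Q k * g k)
  rw [e1, e2]
  exact div_le_div_of_nonneg_left
    (mul_nonneg hc (mul_nonneg (by positivity) (hg k))) hF0 hF1

theorem gop4_pm1 {p : ℕ} (hp : p.Prime) : (1 : ℝ) ≤ (p : ℝ) - 1 := by
  have : (2 : ℝ) ≤ (p : ℝ) := by exact_mod_cast hp.two_le
  linarith

theorem gop4_ms_le_Zm (P Q : Finset ℕ) {p : ℕ} (hp : p.Prime) (t : ℕ) :
    ms P Q (p ^ t) ≤ Zm P Q p t := by
  have h1 := gop4_pm1 hp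
  have h2 : ms P Q (p ^ (t + 1)) ≤ ms P Q (p ^ t) := ms_anti P Q (pow_dvd_pow p (Nat.le_succ t))
  unfold Zm
  rw [le_div_iff₀ (by linarith)]
  linarith

theorem Zm_nonneg (P Q : Finset ℕ) {p : ℕ} (hp : p.Prime) (t : ℕ) : 0 ≤ Zm P Q p t := by
  exact le_trans (ms_nonneg P Q _) (gop4_ms_le_Zm P Q hp t)

theorem ms_le_Zm (P Q : Finset ℕ) {p : ℕ} (hp : p.Prime) (t : ℕ) :
    ms P Q (p ^ t) ≤ Zm P Q p t := by
  exact gop4_ms_le_Zm P Q hp t

theorem Zm_one_le {P Q : Finset ℕ} (hP : DC P) (hQ : DC Q) {p : ℕ} (hp : p.Prime) :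
    Zm P Q p 1 ≤ S P Q := by
  have h1 := gop4_pm1 hp
  have h2 := gop4_shift hP hQ hp.pos 1 p ((p : ℝ) - 1) (by linarith) (fun _ => (1 : ℝ))
    (fun _ => zero_le_one) (by
      intro k _ _ hb
      have hc : Nat.Coprime p k := (Nat.Prime.coprime_iff_not_dvd hp).2 hb
      rw [Nat.totient_mul hc, Nat.totient_prime hp]
      push_cast [Nat.cast_sub hp.one_le]
      ring)
  simp only [mul_one] at h2
  rw [← gop4_ms_sub P Q (Dvd.intro p rfl), ← gop4_ms_sub P Q (one_dvd p), ms_one] at h2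
  unfold Zm
  rw [div_le_iff₀ (by linarith), pow_one, show p ^ (1 + 1) = p * p by ring]
  linarith

theorem Zm_succ_le {P Q : Finset ℕ} (hP : DC P) (hQ : DC Q) {p t : ℕ} (hp : p.Prime)
    (ht : 1 ≤ t) : Zm P Q p (t + 1) ≤ Zm P Q p t := by
  have h1 := gop4_pm1 hp
  have h2 := gop4_shift hP hQ hp.pos (p ^ t) (p ^ (t + 1)) (p : ℝ) (by linarith)
    (fun _ => (1 : ℝ)) (fun _ => zero_le_one) (by
      intro k _ ha _
      have hd : p ∣ k := (dvd_pow_self p (by omega)).trans ha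
      rw [Nat.totient_mul_of_prime_of_dvd hp hd]
      push_cast
      ring)
  simp only [mul_one] at h2
  rw [show p * p ^ t = p ^ (t + 1) by ring, show p * p ^ (t + 1) = p ^ (t + 1 + 1) by ring,
    ← gop4_ms_sub P Q (pow_dvd_pow p (Nat.le_succ (t + 1))),
    ← gop4_ms_sub P Q (pow_dvd_pow p (Nat.le_succ t))] at h2
  unfold Zm
  refine div_le_div_of_nonneg_right ?_ (by linarith)
  have h3 : ms P Q (p ^ (t + 1 + 1)) = ms P Q (p ^ (t + 1).succ) := rfl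
  have h4 : ms P Q (p ^ (t + 1)) = ms P Q (p ^ t.succ) := rfl
  have h5 : ms P Q (p ^ (t + 1)) ≤ ms P Q (p ^ t) := ms_anti P Q (pow_dvd_pow p (Nat.le_succ t))
  have h6 : ms P Q (p ^ (t + 1 + 1)) ≤ ms P Q (p ^ (t + 1)) :=
    ms_anti P Q (pow_dvd_pow p (Nat.le_succ _))
  rw [← h3, ← h4] at h2
  nlinarith

theorem Zm_le_S {P Q : Finset ℕ} (hP : DC P) (hQ : DC Q) {p t : ℕ} (hp : p.Prime)
    (ht : 1 ≤ t) : Zm P Q p t ≤ S P Q := by
  induction t, ht using Nat.le_induction with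
  | base => exact Zm_one_le hP hQ hp
  | succ n hn ih => exact le_trans (Zm_succ_le hP hQ hp hn) ih

theorem Zm_eq_zero {P : Finset ℕ} (hP : DC P) (Q : Finset ℕ) {p t : ℕ} (h : p ^ t ∉ P) :
    Zm P Q p t = 0 := by
  have h1 : ms P Q (p ^ t) = 0 := ms_eq_zero_of_notMem hP Q h
  have h2 : ms P Q (p ^ (t + 1)) = 0 :=
    le_antisymm (h1 ▸ ms_anti P Q (pow_dvd_pow p (Nat.le_succ t))) (ms_nonneg P Q _)
  unfold Zm
  rw [h1, h2]; simp

theorem Rm_zero (P Q : Finset ℕ) (p : ℕ) : Rm P Q p 0 = S P Q := by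
  unfold Rm
  simp

theorem Rm_succ (P Q : Finset ℕ) {p : ℕ} (hp : p.Prime) (t : ℕ) :
    Rm P Q p (t + 1) = (p : ℝ) * Rm P Q p t - ((p : ℝ) - 1) * Zm P Q p (t + 1) := by
  have h1 := gop4_pm1 hp
  have h2 : (p : ℝ) - 1 ≠ 0 := by linarith
  unfold Rm Zm
  field_simp
  ring

theorem S_le_Rm {P Q : Finset ℕ} (hP : DC P) (hQ : DC Q) {p : ℕ} (hp : p.Prime) (t : ℕ) :
    S P Q ≤ Rm P Q p t := by
  induction t with
  | zero => exact (Rm_zero P Q p).ge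
  | succ n ih =>
    rw [Rm_succ P Q hp]
    have h1 := gop4_pm1 hp
    have h2 := Zm_le_S hP hQ hp (t := n + 1) (by omega)
    nlinarith

/-- the elements with `2 ∥ m` weigh no more than the odd ones -/
theorem half_le {P Q : Finset ℕ} (hP : DC P) (hQ : DC Q) (g : ℕ → ℝ) (hg : ∀ m, 0 ≤ g m)
    (h2 : ∀ m, ¬ 2 ∣ m → 0 < m → g (2 * m) = g m) :
    ∑ m ∈ P.filter (fun m => 2 ∣ m ∧ ¬ 4 ∣ m), wt Q m * g m ≤
      ∑ m ∈ P.filter (fun m => ¬ 2 ∣ m), wt Q m * g m := by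
  have h := gop4_shift hP hQ (p := 2) (by norm_num) 1 2 1 zero_le_one g hg (by
    intro k hk _ hb
    have hc : Nat.Coprime 2 k := (Nat.Prime.coprime_iff_not_dvd Nat.prime_two).2 hb
    rw [Nat.totient_mul hc, Nat.totient_two, h2 k hb hk]
    push_cast
    ring)
  simpa using h

end Pool.Agent.Lib.MP_4652a8_nt
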