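import Pool.Agent.Lib.MP_4652a8_nt.GCDefs
import Pool.Agent.Lib.MP_4652a8_nt.GOp4
import Pool.Agent.Lib.MP_4652a8_nt.GC1

set_option autoImplicit false

namespace Pool.Agent.Lib.MP_4652a8_nt
open Finset

theorem gc2_cost (C : Cert) {P Q : Finset ℕ} (h : Hyp C P Q) {n : ℕ} (hn : n ∈ Q) (M : ℕ)
    {p : ℕ} (hp : p ∈ [2, 3, 5, 7, 11]) (e : ℕ) :
    ∑ m ∈ P, (if p ^ e ∣ m ∧ p ^ e ∣ n then wt Q m else 0) ≤
      (cost C M (Nat.gcd n M) p e : ℝ) / 100000 * S P Q := by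
  by_cases hpn : p ^ e ∣ n
  · have h1 : Nat.gcd n M % Nat.gcd (p ^ e) M = 0 :=
      Nat.mod_eq_zero_of_dvd
        (Nat.dvd_gcd ((Nat.gcd_dvd_left _ _).trans hpn) (Nat.gcd_dvd_right _ _))
    have h2 : cost C M (Nat.gcd n M) p e = aa C p e := by
      unfold cost
      rw [if_pos h1]
    rw [h2]
    refine le_trans (le_of_eq ?_) (h.1 n hn p hp e hpn)
    unfold ms
    rw [Finset.sum_filter]
    refine Finset.sum_congr rfl (fun m _ => ?_)
    simp [hpn]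
  · have h0 : ∑ m ∈ P, (if p ^ e ∣ m ∧ p ^ e ∣ n then wt Q m else 0) = 0 :=
      Finset.sum_eq_zero (fun m _ => by simp [hpn])
    rw [h0]
    exact mul_nonneg (by positivity) (S_nonneg _ _)

open Classical in
theorem gc2_big (C : Cert) {P Q : Finset ℕ} (h : Hyp C P Q) {n : ℕ} (hn : n ∈ Q) :
    ∑ m ∈ P, (if ∃ q ∈ n.primeFactors.filter (fun p => 13 ≤ p), q ∣ m then wt Q m else 0) ≤
      sg ((C.al : ℝ) / 100000) n * S P Q := by
  calc ∑ m ∈ P, (if ∃ q ∈ n.primeFactors.filter (fun p => 13 ≤ p), q ∣ m then wt Q m else 0)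
      ≤ ∑ m ∈ P, ∑ q ∈ n.primeFactors.filter (fun p => 13 ≤ p),
          (if q ∣ m then wt Q m else 0) := by
        refine Finset.sum_le_sum (fun m _ => ?_)
        have hnn : ∀ q ∈ n.primeFactors.filter (fun p => 13 ≤ p),
            (0 : ℝ) ≤ (if q ∣ m then wt Q m else 0) := by
          intro q _
          split_ifs
          · exact wt_nonneg Q m
          · exact le_rfl
        split_ifs with hex
        · obtain ⟨q, hq, hqm⟩ := hex
          have := Finset.single_le_sum hnn hq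
          rw [if_pos hqm] at this
          exact this
        · exact Finset.sum_nonneg hnn
    _ = ∑ q ∈ n.primeFactors.filter (fun p => 13 ≤ p), ms P Q q := by
        rw [Finset.sum_comm]
        refine Finset.sum_congr rfl (fun q _ => ?_)
        unfold ms
        rw [Finset.sum_filter]
    _ ≤ ∑ q ∈ n.primeFactors.filter (fun p => 13 ≤ p),
          (C.al : ℝ) / 100000 / (q : ℝ) * S P Q := by
        refine Finset.sum_le_sum (fun q hq => ?_)
        rw [Finset.mem_filter] at hq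
        exact h.2.2.1 n hn q (Nat.prime_of_mem_primeFactors hq.1) hq.2
          (Nat.dvd_of_mem_primeFactors hq.1)
    _ = sg ((C.al : ℝ) / 100000) n * S P Q := by
        unfold sg
        rw [Finset.sum_mul]

theorem gc2_pow_dvd {p k e m n : ℕ} (hk : p ^ k ∣ Nat.gcd m n) (h : ¬ (p ^ e ∣ m ∧ p ^ e ∣ n)) :
    p ^ k ∣ p ^ (e - 1) := by
  refine pow_dvd_pow p ?_
  by_contra hlt
  have he : e ≤ k := by omega
  have h1 : p ^ e ∣ Nat.gcd m n := (pow_dvd_pow p he).trans hk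
  exact h ⟨h1.trans (Nat.gcd_dvd_left _ _), h1.trans (Nat.gcd_dvd_right _ _)⟩

theorem gc2_gcd_dvd (t : Tst) {m n : ℕ} (hn : 0 < n)
    (h2 : ¬ (2 ^ t.e2 ∣ m ∧ 2 ^ t.e2 ∣ n)) (h3 : ¬ (3 ^ t.e3 ∣ m ∧ 3 ^ t.e3 ∣ n))
    (h5 : ¬ (5 ^ t.e5 ∣ m ∧ 5 ^ t.e5 ∣ n)) (h7 : ¬ (7 ^ t.e7 ∣ m ∧ 7 ^ t.e7 ∣ n))
    (h11 : ¬ (11 ^ 1 ∣ m ∧ 11 ^ 1 ∣ n))
    (hb : ¬ ∃ q ∈ n.primeFactors.filter (fun p => 13 ≤ p), q ∣ m) : Nat.gcd m n ∣ t.Y := by
  rw [Nat.dvd_iff_prime_pow_dvd_dvd]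
  intro p k hp hk
  rcases Nat.eq_zero_or_pos k with hk0 | hk0
  · subst hk0
    simp
  have hpg : p ∣ Nat.gcd m n := (dvd_pow_self p (by omega)).trans hk
  have hpm : p ∣ m := hpg.trans (Nat.gcd_dvd_left _ _)
  have hpn : p ∣ n := hpg.trans (Nat.gcd_dvd_right _ _)
  have hlt : p < 13 := by
    by_contra hge
    exact hb ⟨p, Finset.mem_filter.2 ⟨Nat.mem_primeFactors.2 ⟨hp, hpn, by omega⟩, by omega⟩, hpm⟩
  have hcase : p = 2 ∨ p = 3 ∨ p = 5 ∨ p = 7 ∨ p = 11 := by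
    have h2le := hp.two_le
    interval_cases p <;> first | omega | (exfalso; revert hp; norm_num)
  unfold Tst.Y
  rcases hcase with rfl | rfl | rfl | rfl | rfl
  · exact (((gc2_pow_dvd hk h2).mul_right _).mul_right _).mul_right _
  · exact (((gc2_pow_dvd hk h3).mul_left _).mul_right _).mul_right _
  · exact ((gc2_pow_dvd hk h5).mul_left _).mul_right _
  · exact (gc2_pow_dvd hk h7).mul_left _
  · exact absurd ⟨by simpa using hpm, by simpa using hpn⟩ h11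

theorem gc2_div_le {Q : Finset ℕ} {m n : ℕ} (hm : 0 < m) (hn : n ∈ Q) :
    n / Nat.gcd m n ≤ F Q m / m := by
  have h1 := lcm_le_F hn m
  have h2 : Nat.lcm m n = m * (n / Nat.gcd m n) := by
    unfold Nat.lcm
    exact Nat.mul_div_assoc m (Nat.gcd_dvd_right m n)
  rw [Nat.le_div_iff_mul_le hm, mul_comm, ← h2]
  exact h1

theorem gc2_lt {Q : Finset ℕ} {m n y : ℕ} (hm : 0 < m) (hn : n ∈ Q) (hn0 : 0 < n) (hy : 1 ≤ y)
    (hg : Nat.gcd m n ≤ y) : (n - 1) / y < F Q m / m := by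
  refine lt_of_lt_of_le ?_ (gc2_div_le hm hn)
  rw [Nat.div_lt_iff_lt_mul (by omega)]
  have h1 : n / Nat.gcd m n * Nat.gcd m n = n := Nat.div_mul_cancel (Nat.gcd_dvd_right m n)
  have h2 : n / Nat.gcd m n * Nat.gcd m n ≤ n / Nat.gcd m n * y := Nat.mul_le_mul_left _ hg
  omega

theorem gc2_good {Q : Finset ℕ} (t : Tst) {m n M : ℕ} (hm : 0 < m) (hn : n ∈ Q) (hn0 : 0 < n)
    (hy : 1 ≤ t.y) (hM : M % t.Y = 0) (hY : Nat.gcd t.Y (Nat.gcd n M) ≤ t.y)
    (hg : Nat.gcd m n ∣ t.Y) : (n - 1) / t.y < F Q m / m := by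
  refine gc2_lt hm hn hn0 hy (le_trans (Nat.le_of_dvd ?_ ?_) hY)
  · refine Nat.gcd_pos_of_pos_left _ ?_
    unfold Tst.Y
    positivity
  · exact Nat.dvd_gcd hg (Nat.dvd_gcd (Nat.gcd_dvd_right _ _)
      (hg.trans (Nat.dvd_of_mod_eq_zero hM)))

theorem gc2_sub_cases (a b c d : ℕ) :
    a - b - c - d = 0 ∨ ((a - b - c - d : ℕ) : ℝ) = (a : ℝ) - b - c - d := by
  by_cases h : b + c + d ≤ a
  · right
    have h1 : a = (a - b - c - d) + b + c + d := by omega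
    have h2 : (a : ℝ) = ((a - b - c - d : ℕ) : ℝ) + b + c + d := by exact_mod_cast h1
    linarith
  · left
    omega

theorem gc2_sg_two (al : ℝ) {m : ℕ} (hm : 0 < m) : sg al (2 * m) = sg al m := by
  unfold sg
  refine Finset.sum_congr ?_ (fun _ _ => rfl)
  ext q
  simp only [Finset.mem_filter, Nat.mem_primeFactors]
  constructor
  · rintro ⟨⟨hq, hd, -⟩, h13⟩
    refine ⟨⟨hq, ?_, by omega⟩, h13⟩
    rcases (Nat.Prime.dvd_mul hq).1 hd with h | h
    · have := Nat.le_of_dvd (by norm_num) h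
      omega
    · exact h
  · rintro ⟨⟨hq, hd, -⟩, h13⟩
    exact ⟨⟨hq, hd.mul_left 2, by omega⟩, h13⟩

theorem gc2_odd_pow {p : ℕ} (hp : Nat.Coprime p 2) (e m : ℕ) : p ^ e ∣ 2 * m ↔ p ^ e ∣ m :=
  ⟨fun h => (Nat.Coprime.pow_left e hp).dvd_of_dvd_mul_left h, fun h => h.mul_left 2⟩

theorem gc2_big_two (n m : ℕ) :
    (∃ q ∈ n.primeFactors.filter (fun p => 13 ≤ p), q ∣ 2 * m) ↔
      ∃ q ∈ n.primeFactors.filter (fun p => 13 ≤ p), q ∣ m := by
  constructor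
  · rintro ⟨q, hq, hd⟩
    refine ⟨q, hq, ?_⟩
    rw [Finset.mem_filter] at hq
    rcases (Nat.Prime.dvd_mul (Nat.prime_of_mem_primeFactors hq.1)).1 hd with h | h
    · have := Nat.le_of_dvd (by norm_num) h
      omega
    · exact h
  · rintro ⟨q, hq, hd⟩
    exact ⟨q, hq, hd.mul_left 2⟩

/-- one of the odd events occurs -/
def gc2_odd (t : Tst) (n m : ℕ) : Prop :=
  (3 ^ t.e3 ∣ m ∧ 3 ^ t.e3 ∣ n) ∨ (5 ^ t.e5 ∣ m ∧ 5 ^ t.e5 ∣ n) ∨ (7 ^ t.e7 ∣ m ∧ 7 ^ t.e7 ∣ n) ∨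
    (11 ^ 1 ∣ m ∧ 11 ^ 1 ∣ n) ∨ ∃ q ∈ n.primeFactors.filter (fun p => 13 ≤ p), q ∣ m

theorem gc2_odd_two (t : Tst) (n m : ℕ) : gc2_odd t n (2 * m) ↔ gc2_odd t n m := by
  unfold gc2_odd
  rw [gc2_odd_pow (by norm_num : Nat.Coprime 3 2), gc2_odd_pow (by norm_num : Nat.Coprime 5 2),
    gc2_odd_pow (by norm_num : Nat.Coprime 7 2), gc2_odd_pow (by norm_num : Nat.Coprime 11 2),
    gc2_big_two]

open Classical in
theorem gc2_odd_mass (C : Cert) {P Q : Finset ℕ} (h : Hyp C P Q) {n : ℕ} (hn : n ∈ Q) (M : ℕ)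
    (t : Tst) :
    ∑ m ∈ P, (if gc2_odd t n m then wt Q m else 0) ≤
      ((oddCost C M (Nat.gcd n M) t : ℝ) / 100000 + sg ((C.al : ℝ) / 100000) n) * S P Q := by
  have h3 := gc2_cost C h hn M (p := 3) (by simp) t.e3
  have h5 := gc2_cost C h hn M (p := 5) (by simp) t.e5
  have h7 := gc2_cost C h hn M (p := 7) (by simp) t.e7
  have h11 := gc2_cost C h hn M (p := 11) (by simp) 1
  have hb := gc2_big C h hn
  have hsum : ∑ m ∈ P, (if gc2_odd t n m then wt Q m else 0) ≤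
      ∑ m ∈ P, ((if 3 ^ t.e3 ∣ m ∧ 3 ^ t.e3 ∣ n then wt Q m else 0) +
        (if 5 ^ t.e5 ∣ m ∧ 5 ^ t.e5 ∣ n then wt Q m else 0) +
        (if 7 ^ t.e7 ∣ m ∧ 7 ^ t.e7 ∣ n then wt Q m else 0) +
        (if 11 ^ 1 ∣ m ∧ 11 ^ 1 ∣ n then wt Q m else 0) +
        (if ∃ q ∈ n.primeFactors.filter (fun p => 13 ≤ p), q ∣ m then wt Q m else 0)) := by
    refine Finset.sum_le_sum (fun m _ => ?_)
    have hw := wt_nonneg Q m
    have hi : ∀ (A : Prop) [Decidable A], (0 : ℝ) ≤ (if A then wt Q m else 0) := by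
      intro A _
      split_ifs
      · exact hw
      · exact le_rfl
    have i3 := hi (3 ^ t.e3 ∣ m ∧ 3 ^ t.e3 ∣ n)
    have i5 := hi (5 ^ t.e5 ∣ m ∧ 5 ^ t.e5 ∣ n)
    have i7 := hi (7 ^ t.e7 ∣ m ∧ 7 ^ t.e7 ∣ n)
    have i11 := hi (11 ^ 1 ∣ m ∧ 11 ^ 1 ∣ n)
    have ib := hi (∃ q ∈ n.primeFactors.filter (fun p => 13 ≤ p), q ∣ m)
    by_cases ho : gc2_odd t n m
    · rw [if_pos ho]
      rcases ho with a | a | a | a | a
      · rw [if_pos a]; linarith
      · rw [if_pos a]; linarith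
      · rw [if_pos a]; linarith
      · rw [if_pos a]; linarith
      · rw [if_pos a]; linarith
    · rw [if_neg ho]
      linarith
  rw [Finset.sum_add_distrib, Finset.sum_add_distrib, Finset.sum_add_distrib,
    Finset.sum_add_distrib] at hsum
  refine hsum.trans ?_
  refine (add_le_add (add_le_add (add_le_add (add_le_add h3 h5) h7) h11) hb).trans (le_of_eq ?_)
  unfold oddCost
  push_cast
  ring

theorem gc2_le_suc {al c r : ℝ} {P Q : Finset ℕ} (hP : DC P) (hQ : DC Q) {x : ℕ}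
    (h : r * S P Q ≤ ∑ m ∈ P, (if x < F Q m / m then wt Q m * uu al c m else 0)) :
    r ≤ suc al c P Q x := by
  unfold suc
  rw [le_div_iff₀ (S_pos hP hQ), Finset.sum_filter]
  exact h

theorem gc2_full (C : Cert) {P Q : Finset ℕ} (hP : DC P) (hQ : DC Q) (h : Hyp C P Q) {n : ℕ}
    (hn : n ∈ Q) (M : ℕ) (t : Tst) (hy : 1 ≤ t.y) (hM : M % t.Y = 0)
    (hY : Nat.gcd t.Y (Nat.gcd n M) ≤ t.y) :
    1 - (C.be : ℝ) / 100000 - (cost C M (Nat.gcd n M) 2 t.e2 : ℝ) / 100000 -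
        (oddCost C M (Nat.gcd n M) t : ℝ) / 100000 - sg ((C.al : ℝ) / 100000) n ≤
      suc ((C.al : ℝ) / 100000) ((C.cn : ℝ) / (C.cd : ℝ)) P Q ((n - 1) / t.y) := by
  classical
  refine gc2_le_suc hP hQ ?_
  have h2 := gc2_cost C h hn M (p := 2) (by simp) t.e2
  have ho := gc2_odd_mass C h hn M t
  have hb := h.2.2.2
  have hn0 := hQ.2.1 n hn
  have hsum : ∑ m ∈ P, (wt Q m * uu ((C.al : ℝ) / 100000) ((C.cn : ℝ) / (C.cd : ℝ)) m -
        (if 2 ^ t.e2 ∣ m ∧ 2 ^ t.e2 ∣ n then wt Q m else 0) -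
        (if gc2_odd t n m then wt Q m else 0)) ≤
      ∑ m ∈ P, (if (n - 1) / t.y < F Q m / m then
        wt Q m * uu ((C.al : ℝ) / 100000) ((C.cn : ℝ) / (C.cd : ℝ)) m else 0) := by
    refine Finset.sum_le_sum (fun m hm => ?_)
    have hw := wt_nonneg Q m
    have hu0 := uu_nonneg ((C.al : ℝ) / 100000) ((C.cn : ℝ) / (C.cd : ℝ)) m
    have hu1 := uu_le_one (al := (C.al : ℝ) / 100000) (c := (C.cn : ℝ) / (C.cd : ℝ))
      (by positivity) (by positivity) m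
    have hwu0 := mul_nonneg hw hu0
    have hwu1 : wt Q m * uu ((C.al : ℝ) / 100000) ((C.cn : ℝ) / (C.cd : ℝ)) m ≤ wt Q m := by
      nlinarith
    by_cases a2 : 2 ^ t.e2 ∣ m ∧ 2 ^ t.e2 ∣ n
    · rw [if_pos a2]
      split_ifs <;> linarith
    · rw [if_neg a2]
      by_cases ao : gc2_odd t n m
      · rw [if_pos ao]
        split_ifs <;> linarith
      · rw [if_neg ao]
        unfold gc2_odd at ao
        simp only [not_or] at ao
        have hg := gc2_gcd_dvd t hn0 a2 ao.1 ao.2.1 ao.2.2.1 ao.2.2.2.1 ao.2.2.2.2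
        rw [if_pos (gc2_good t (hP.2.1 m hm) hn hn0 hy hM hY hg)]
        linarith
  rw [Finset.sum_sub_distrib, Finset.sum_sub_distrib] at hsum
  linarith

theorem gc2_half (C : Cert) {P Q : Finset ℕ} (hP : DC P) (hQ : DC Q) (h : Hyp C P Q) {n : ℕ}
    (hn : n ∈ Q) (M : ℕ) (t : Tst) (hy : 1 ≤ t.y) (hM : M % t.Y = 0)
    (hY : Nat.gcd t.Y (Nat.gcd n M) ≤ t.y) (he : t.e2 = 1) :
    (1 - (C.be : ℝ) / 100000 - 377 / 1000 -
        (oddCost C M (Nat.gcd n M) t : ℝ) / 100000 - sg ((C.al : ℝ) / 100000) n) / 2 ≤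
      suc ((C.al : ℝ) / 100000) ((C.cn : ℝ) / (C.cd : ℝ)) P Q ((n - 1) / t.y) := by
  classical
  refine gc2_le_suc hP hQ ?_
  have h4 := h.2.1
  have ho := gc2_odd_mass C h hn M t
  have hb := h.2.2.2
  have hn0 := hQ.2.1 n hn
  set u : ℕ → ℝ := uu ((C.al : ℝ) / 100000) ((C.cn : ℝ) / (C.cd : ℝ)) with hu
  have hu0 : ∀ m, 0 ≤ u m := fun m => uu_nonneg _ _ m
  have hu1 : ∀ m, u m ≤ 1 := fun m => uu_le_one (by positivity) (by positivity) m
  have hu2 : ∀ m, 0 < m → u (2 * m) = u m := by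
    intro m hm
    simp only [hu]
    unfold uu
    rw [gc2_sg_two _ hm]
  have hh := half_le hP hQ (fun m => if gc2_odd t n m then 0 else u m)
    (fun m => by
      split_ifs
      · exact le_rfl
      · exact hu0 m)
    (fun m _ hm => by
      simp only [gc2_odd_two, hu2 m hm])
  rw [Finset.sum_filter, Finset.sum_filter] at hh
  unfold ms at h4
  rw [Finset.sum_filter] at h4
  have hsum1 : ∑ m ∈ P, (wt Q m * u m - (if 4 ∣ m then wt Q m else 0) -
        (if gc2_odd t n m then wt Q m else 0)) ≤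
      ∑ m ∈ P, ((if 2 ∣ m ∧ ¬ 4 ∣ m then wt Q m * (if gc2_odd t n m then 0 else u m) else 0) +
        (if ¬ 2 ∣ m then wt Q m * (if gc2_odd t n m then 0 else u m) else 0)) := by
    refine Finset.sum_le_sum (fun m _ => ?_)
    have hw := wt_nonneg Q m
    have hwu0 := mul_nonneg hw (hu0 m)
    have hwu1 : wt Q m * u m ≤ wt Q m := by
      have := hu1 m
      nlinarith
    by_cases ao : gc2_odd t n m
    · simp only [if_pos ao, mul_zero, ite_self]
      split_ifs <;> linarith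
    · simp only [if_neg ao]
      by_cases a4 : 4 ∣ m
      · have a2 : 2 ∣ m := (by norm_num : 2 ∣ 4).trans a4
        rw [if_pos a4, if_neg (fun hx => hx.2 a4), if_neg (not_not.2 a2)]
        linarith
      · rw [if_neg a4]
        by_cases a2 : 2 ∣ m
        · rw [if_pos ⟨a2, a4⟩, if_neg (not_not.2 a2)]
          linarith
        · rw [if_neg (fun hx => a2 hx.1), if_pos a2]
          linarith
  have hsum2 : ∑ m ∈ P, (if ¬ 2 ∣ m then wt Q m * (if gc2_odd t n m then 0 else u m) else 0) ≤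
      ∑ m ∈ P, (if (n - 1) / t.y < F Q m / m then wt Q m * u m else 0) := by
    refine Finset.sum_le_sum (fun m hm => ?_)
    have hw := wt_nonneg Q m
    have hwu0 := mul_nonneg hw (hu0 m)
    have hr : (0 : ℝ) ≤ (if (n - 1) / t.y < F Q m / m then wt Q m * u m else 0) := by
      split_ifs
      · exact hwu0
      · exact le_rfl
    by_cases a2 : 2 ∣ m
    · rw [if_neg (not_not.2 a2)]
      exact hr
    · rw [if_pos a2]
      by_cases ao : gc2_odd t n m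
      · rw [if_pos ao, mul_zero]
        exact hr
      · rw [if_neg ao]
        unfold gc2_odd at ao
        simp only [not_or] at ao
        have a2' : ¬ (2 ^ t.e2 ∣ m ∧ 2 ^ t.e2 ∣ n) := by
          rw [he, pow_one]
          exact fun hx => a2 hx.1
        have hg := gc2_gcd_dvd t hn0 a2' ao.1 ao.2.1 ao.2.2.1 ao.2.2.2.1 ao.2.2.2.2
        rw [if_pos (gc2_good t (hP.2.1 m hm) hn hn0 hy hM hY hg)]
  rw [Finset.sum_sub_distrib, Finset.sum_sub_distrib, Finset.sum_add_distrib] at hsum1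
  linarith

/-- every admissible test succeeds -/
theorem testOK_of_hyp (C : Cert) {P Q : Finset ℕ} (hP : DC P) (hQ : DC Q) (h : Hyp C P Q) :
    TestOK C Q (suc ((C.al : ℝ) / 100000) ((C.cn : ℝ) / (C.cd : ℝ)) P Q) := by
  intro n hn M t htv
  unfold tv at htv
  simp only [Bool.and_eq_true, decide_eq_true_eq, Bool.or_eq_true, Bool.not_eq_true'] at htv
  obtain ⟨⟨⟨hy, hM⟩, hY⟩, hhalf⟩ := htv
  have hs0 := suc_nonneg ((C.al : ℝ) / 100000) ((C.cn : ℝ) / (C.cd : ℝ)) P Q ((n - 1) / t.y)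
  have hg0 := sg_nonneg (al := (C.al : ℝ) / 100000) (by positivity) n
  unfold sig0 tau
  by_cases hh : t.half = true
  · have he : t.e2 = 1 := by
      rcases hhalf with h0 | h0
      · rw [hh] at h0
        exact absurd h0 (by simp)
      · exact h0
    have hmain := gc2_half C hP hQ h hn M t hy hM hY he
    rw [if_pos hh, if_pos hh]
    have hd : (((100000 - C.be - 37700 - oddCost C M (Nat.gcd n M) t) / 2 : ℕ) : ℝ) ≤
        ((100000 - C.be - 37700 - oddCost C M (Nat.gcd n M) t : ℕ) : ℝ) / 2 := by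
      exact_mod_cast Nat.cast_div_le (α := ℝ)
        (m := 100000 - C.be - 37700 - oddCost C M (Nat.gcd n M) t) (n := 2)
    rcases gc2_sub_cases 100000 C.be 37700 (oddCost C M (Nat.gcd n M) t) with h0 | h0
    · rw [h0]
      simp only [Nat.zero_div, Nat.cast_zero]
      linarith
    · rw [h0] at hd
      push_cast at hd
      linarith
  · have hmain := gc2_full C hP hQ h hn M t hy hM hY
    rw [if_neg hh, if_neg hh]
    rcases gc2_sub_cases 100000 C.be (cost C M (Nat.gcd n M) 2 t.e2)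
      (oddCost C M (Nat.gcd n M) t) with h0 | h0
    · rw [h0]
      simp only [Nat.cast_zero]
      linarith
    · rw [h0]
      push_cast
      linarith

theorem gc2_pow_test {al c b a : ℝ} (hal : 0 ≤ al) (hc : 0 ≤ c) {P Q : Finset ℕ} (hP : DC P)
    (hQ : DC Q) {p e k : ℕ} (hp : p.Prime) (hpQ : p ^ k ∈ Q) (he : 1 ≤ e) (hek : e ≤ k)
    (ha : ms P Q (p ^ e) ≤ a * S P Q)
    (hb : (1 - b) * S P Q ≤ ∑ m ∈ P, wt Q m * uu al c m) {x : ℕ} (hx : x < p ^ (k + 1 - e)) :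
    1 - b - a ≤ suc al c P Q x := by
  refine gc2_le_suc hP hQ ?_
  unfold ms at ha
  rw [Finset.sum_filter] at ha
  have hsum : ∑ m ∈ P, (wt Q m * uu al c m - (if p ^ e ∣ m then wt Q m else 0)) ≤
      ∑ m ∈ P, (if x < F Q m / m then wt Q m * uu al c m else 0) := by
    refine Finset.sum_le_sum (fun m hm => ?_)
    have hw := wt_nonneg Q m
    have hwu0 := mul_nonneg hw (uu_nonneg al c m)
    have hwu1 : wt Q m * uu al c m ≤ wt Q m := by
      have := uu_le_one hal hc m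
      nlinarith
    by_cases a1 : p ^ e ∣ m
    · rw [if_pos a1]
      split_ifs <;> linarith
    · rw [if_neg a1]
      have hlt : x < F Q m / m := by
        refine lt_of_lt_of_le hx (le_trans ?_ (gc2_div_le (hP.2.1 m hm) hpQ))
        obtain ⟨i, hi, hgi⟩ := (Nat.dvd_prime_pow hp).1 (Nat.gcd_dvd_right m (p ^ k))
        have hie : i < e := by
          by_contra hge
          refine a1 ((pow_dvd_pow p (by omega : e ≤ i)).trans ?_)
          rw [← hgi]
          exact Nat.gcd_dvd_left _ _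
        rw [hgi, Nat.pow_div hi hp.pos]
        exact Nat.pow_le_pow_right hp.pos (by omega)
      rw [if_pos hlt]
      linarith
  rw [Finset.sum_sub_distrib] at hsum
  linarith

/-- a prime in `Q` as a test -/
theorem suc_ge_of_prime {al c b a : ℝ} (hal : 0 ≤ al) (hc : 0 ≤ c) {P Q : Finset ℕ} (hP : DC P)
    (hQ : DC Q) {p : ℕ} (hp : p.Prime) (hpQ : p ∈ Q) (ha : ms P Q p ≤ a * S P Q)
    (hb : (1 - b) * S P Q ≤ ∑ m ∈ P, wt Q m * uu al c m) {x : ℕ} (hx : x < p) :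
    1 - b - a ≤ suc al c P Q x := by
  refine gc2_pow_test hal hc hP hQ (e := 1) (k := 1) hp ?_ le_rfl le_rfl ?_ hb ?_
  · simpa using hpQ
  · simpa using ha
  · simpa using hx

/-- a prime power in `Q` as a test -/
theorem suc_ge_of_pow {c a : ℝ} {P Q : Finset ℕ} (hP : DC P) (hQ : DC Q) {p e k : ℕ}
    (hp : p.Prime) (hpQ : p ^ k ∈ Q) (he : 1 ≤ e) (hek : e ≤ k)
    (ha : ms P Q (p ^ e) ≤ a * S P Q) {x : ℕ} (hx : x < p ^ (k + 1 - e)) :
    1 - a ≤ suc 0 c P Q x := by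
  have hu : ∀ c' : ℝ, ∀ m, uu 0 c' m = 1 := by
    intro c' m
    unfold uu sg
    simp
  have h0 : suc 0 c P Q x = suc 0 0 P Q x := by
    unfold suc
    simp only [hu]
  have hb : (1 - 0) * S P Q ≤ ∑ m ∈ P, wt Q m * uu 0 0 m := by
    simp only [hu, mul_one, sub_zero, one_mul]
    exact le_rfl
  have h1 := gc2_pow_test le_rfl le_rfl hP hQ hp hpQ he hek ha hb hx
  rw [h0]
  linarith

end Pool.Agent.Lib.MP_4652a8_nt
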