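import Pool.Agent.Lib.MP_4652a8_nt.GCDefs
import Pool.Agent.Lib.MP_4652a8_nt.GC1

set_option autoImplicit false

namespace Pool.Agent.Lib.MP_4652a8_nt
open Finset

theorem totient_div_le_HH {n d : ℕ} (hn : 0 < n) (hd : d ∣ n) :
    (Nat.totient n : ℝ) / (n : ℝ) ≤ (HH d : ℝ) / 2310 := by
  have hn' : (0 : ℝ) < n := by exact_mod_cast hn
  have h1 : (Nat.totient n : ℝ) = n * ∏ p ∈ n.primeFactors, (1 - (p : ℝ)⁻¹) := by
    have := Nat.totient_eq_mul_prod_factors n
    have h2 := congrArg (fun q : ℚ => (q : ℝ)) this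
    simpa using h2
  have h2 : (Nat.totient n : ℝ) / (n : ℝ) = ∏ p ∈ n.primeFactors, (1 - (p : ℝ)⁻¹) := by
    rw [h1]; field_simp
  rw [h2]
  have hsub : (({2, 3, 5, 7, 11} : Finset ℕ).filter (fun q => d % q = 0)) ⊆ n.primeFactors := by
    intro q hq
    rw [Finset.mem_filter] at hq
    obtain ⟨hq1, hq2⟩ := hq
    rw [Nat.mem_primeFactors]
    refine ⟨?_, (Nat.dvd_of_mod_eq_zero hq2).trans hd, hn.ne'⟩
    simp only [Finset.mem_insert, Finset.mem_singleton] at hq1
    rcases hq1 with rfl | rfl | rfl | rfl | rfl <;> norm_num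
  have h3 : ∏ p ∈ n.primeFactors, (1 - (p : ℝ)⁻¹) ≤
      ∏ p ∈ (({2, 3, 5, 7, 11} : Finset ℕ).filter (fun q => d % q = 0)), (1 - (p : ℝ)⁻¹) := by
    apply Finset.prod_le_prod_of_subset_of_le_one hsub
    · intro p hp
      have hp1 : (1 : ℝ) ≤ p := by exact_mod_cast (Nat.prime_of_mem_primeFactors hp).one_le
      have := inv_le_one_of_one_le₀ hp1
      linarith
    · intro p hp _
      have : (0 : ℝ) ≤ (p : ℝ)⁻¹ := by positivity
      linarith
  refine h3.trans (le_of_eq ?_)
  rw [Finset.prod_filter]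
  rw [Finset.prod_insert (by decide), Finset.prod_insert (by decide), Finset.prod_insert (by decide),
    Finset.prod_insert (by decide), Finset.prod_singleton]
  unfold HH
  split_ifs <;> norm_num

theorem gc3_psi {C : Cert} (h : chkPsi C = true) {j : ℕ} (hj : j < C.J) :
    (C.psi.getD (j + 1) 0 : ℝ) / 100000 ≤ (C.psi.getD j 0 : ℝ) / 100000 := by
  simp only [chkPsi, List.all_eq_true, List.mem_range, decide_eq_true_eq] at h
  have h1 : (C.psi.getD (j + 1) 0 : ℝ) ≤ (C.psi.getD j 0 : ℝ) := by exact_mod_cast h j hj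
  linarith

theorem gc3_tel (C : Cert) (s : ℝ) : ∑ j ∈ range C.J, zone C j s =
    min s ((C.psi.getD 0 0 : ℝ) / 100000) - min s ((C.psi.getD C.J 0 : ℝ) / 100000) := by
  unfold zone
  exact Finset.sum_range_sub' (fun j => min s ((C.psi.getD j 0 : ℝ) / 100000)) C.J

theorem zone_nonneg {C : Cert} (h : chkPsi C = true) {j : ℕ} (hj : j < C.J) (s : ℝ) :
    0 ≤ zone C j s := by
  have h1 := gc3_psi h hj
  unfold zone
  have := min_le_min (le_refl s) h1
  linarith

theorem zone_mono {C : Cert} (h : chkPsi C = true) {j : ℕ} (hj : j < C.J) :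
    Monotone (zone C j) := by
  have h1 := gc3_psi h hj
  intro s s' hss
  unfold zone
  simp only [min_def]
  split_ifs <;> linarith

theorem sum_zone_le (C : Cert) {s : ℝ} (hs : 0 ≤ s) : ∑ j ∈ range C.J, zone C j s ≤ s := by
  rw [gc3_tel]
  have h1 := min_le_left s ((C.psi.getD 0 0 : ℝ) / 100000)
  have h2 : 0 ≤ min s ((C.psi.getD C.J 0 : ℝ) / 100000) := le_min hs (by positivity)
  linarith

noncomputable def gc3Gam (C : Cert) (w : List ℕ) (s : ℝ) : ℝ :=
  ∑ j ∈ range C.J, (w.getD j 0 : ℝ) * zone C j s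

theorem gc3_nonneg {C : Cert} (h : chkPsi C = true) (w : List ℕ) (s : ℝ) : 0 ≤ gc3Gam C w s := by
  unfold gc3Gam
  apply Finset.sum_nonneg
  intro j hj
  exact mul_nonneg (by positivity) (zone_nonneg h (Finset.mem_range.mp hj) s)

theorem gc3_mono {C : Cert} (h : chkPsi C = true) (w : List ℕ) {s s' : ℝ} (hss : s ≤ s') :
    gc3Gam C w s ≤ gc3Gam C w s' := by
  unfold gc3Gam
  apply Finset.sum_le_sum
  intro j hj
  exact mul_le_mul_of_nonneg_left (zone_mono h (Finset.mem_range.mp hj) hss) (by positivity)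

theorem gc3_range_sum (f : ℕ → ℕ) (k : ℕ) :
    ((List.range k).map f).sum = ∑ j ∈ range k, f j := by
  induction k with
  | zero => simp
  | succ k ih => rw [List.range_succ, List.map_append, List.sum_append, ih, Finset.sum_range_succ]; simp

theorem gc3_yld (C : Cert) (h : chkPsi C = true) (w : List ℕ) (k : ℕ) :
    (yld C w k : ℝ) = 100000 * gc3Gam C w ((k : ℝ) / 100000) := by
  unfold yld gc3Gam
  rw [gc3_range_sum, Nat.cast_sum, Finset.mul_sum]
  apply Finset.sum_congr rfl
  intro j hj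
  simp only [chkPsi, List.all_eq_true, List.mem_range, decide_eq_true_eq] at h
  have h1 := h j (Finset.mem_range.mp hj)
  have h2 : min k (C.psi.getD (j + 1) 0) ≤ min k (C.psi.getD j 0) := min_le_min le_rfl h1
  rw [Nat.cast_mul, Nat.cast_sub h2, Nat.cast_min, Nat.cast_min]
  unfold zone
  rw [min_div_div_right (by norm_num), min_div_div_right (by norm_num)]
  ring

theorem gc3_le_maxw (w : List ℕ) (j : ℕ) : w.getD j 0 ≤ maxw w := by
  unfold maxw
  induction w generalizing j with
  | nil => simp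
  | cons a l ih =>
    cases j with
    | zero => simp
    | succ j =>
      rw [List.getD_cons_succ, List.foldr_cons]
      exact (ih j).trans (le_max_right _ _)

theorem gc3_sub {C : Cert} (h : chkPsi C = true) (w : List ℕ) (s : ℝ) {u : ℝ} (hu : 0 ≤ u) :
    gc3Gam C w s - (maxw w : ℝ) * u ≤ gc3Gam C w (s - u) := by
  have h1 : gc3Gam C w s - gc3Gam C w (s - u) ≤
      ∑ j ∈ range C.J, (maxw w : ℝ) * (zone C j s - zone C j (s - u)) := by
    unfold gc3Gam
    rw [← Finset.sum_sub_distrib]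
    apply Finset.sum_le_sum
    intro j hj
    have h2 := zone_mono h (Finset.mem_range.mp hj) (show s - u ≤ s by linarith)
    have h3 : (w.getD j 0 : ℝ) ≤ (maxw w : ℝ) := by exact_mod_cast gc3_le_maxw w j
    nlinarith
  rw [← Finset.mul_sum, Finset.sum_sub_distrib, gc3_tel, gc3_tel] at h1
  have h2 : min s ((C.psi.getD 0 0 : ℝ) / 100000) - min s ((C.psi.getD C.J 0 : ℝ) / 100000) -
      (min (s - u) ((C.psi.getD 0 0 : ℝ) / 100000) -
        min (s - u) ((C.psi.getD C.J 0 : ℝ) / 100000)) ≤ u := by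
    simp only [min_def]
    split_ifs <;> linarith
  have h3 := mul_le_mul_of_nonneg_left h2 (show (0 : ℝ) ≤ (maxw w : ℝ) by positivity)
  linarith

theorem gc3_cast_sum {α : Type} (l : List α) (f : α → ℕ) :
    (((l.map f).sum : ℕ) : ℝ) = (l.map (fun t => (f t : ℝ))).sum := by
  induction l with
  | nil => simp
  | cons a l ih => simp only [List.map_cons, List.sum_cons, Nat.cast_add, ih]

theorem gc3_shift {x σ : ℝ} {k hi : ℕ} {t : Tst} (hx : 0 ≤ x)
    (h : (k : ℝ) / 100000 - tau t * σ ≤ x) (hσ : σ ≤ (hi : ℝ) / 100000) :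
    ((k - (if t.half then (hi + 1) / 2 else hi) : ℕ) : ℝ) / 100000 ≤ x := by
  have h1 : tau t * σ ≤ ((if t.half then (hi + 1) / 2 else hi : ℕ) : ℝ) / 100000 := by
    unfold tau
    split_ifs
    · have h2 : hi ≤ 2 * ((hi + 1) / 2) := by omega
      have h3 : (hi : ℝ) ≤ 2 * (((hi + 1) / 2 : ℕ) : ℝ) := by exact_mod_cast h2
      linarith
    · linarith
  generalize (if t.half then (hi + 1) / 2 else hi) = m at h1 ⊢
  rcases le_total m k with h2 | h2
  · rw [Nat.cast_sub h2]
    linarith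
  · rw [Nat.sub_eq_zero_of_le h2]
    simpa using hx

theorem gc3_isP (q : ℕ) : isP q = true ↔ q.Prime := by
  simp only [isP, Bool.and_eq_true, decide_eq_true_eq, List.all_eq_true, List.mem_range,
    Bool.or_eq_true]
  rw [Nat.prime_def_lt']
  constructor
  · rintro ⟨h1, h2⟩
    refine ⟨h1, fun m hm hmq hd => ?_⟩
    rcases h2 m hmq with h3 | h3
    · omega
    · exact h3 (Nat.mod_eq_zero_of_dvd hd)
  · rintro ⟨h1, h2⟩
    refine ⟨h1, fun m hm => ?_⟩
    by_cases h3 : m < 2
    · exact Or.inl h3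
    · exact Or.inr (fun h4 => h2 m (by omega) hm (Nat.dvd_of_mod_eq_zero h4))

theorem gc3_bigp_sum {n : ℕ} (hn : 0 < n) (f : ℕ → ℕ) :
    ((bigp n).map f).sum = ∑ p ∈ n.primeFactors.filter (fun p => 13 ≤ p), f p := by
  have hnd : (bigp n).Nodup := List.Nodup.filter _ List.nodup_range
  rw [← List.sum_toFinset f hnd]
  apply Finset.sum_congr _ (fun _ _ => rfl)
  ext q
  simp only [bigp, List.mem_toFinset, List.mem_filter, List.mem_range, Bool.and_eq_true,
    decide_eq_true_eq, Finset.mem_filter, Nat.mem_primeFactors, gc3_isP]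
  constructor
  · rintro ⟨-, ⟨h1, h2⟩, h3⟩
    exact ⟨⟨h3, Nat.dvd_of_mod_eq_zero h2, hn.ne'⟩, h1⟩
  · rintro ⟨⟨h1, h2, -⟩, h3⟩
    exact ⟨Nat.lt_succ_of_le (Nat.le_of_dvd hn h2), ⟨h3, Nat.mod_eq_zero_of_dvd h2⟩, h1⟩

theorem gc3_hi (C : Cert) {n : ℕ} (hn : 0 < n) : sg ((C.al : ℝ) / 100000) n ≤
    ((((bigp n).map (fun q => (C.al + q - 1) / q)).sum : ℕ) : ℝ) / 100000 := by
  rw [gc3_bigp_sum hn, Nat.cast_sum, Finset.sum_div]
  unfold sg
  apply Finset.sum_le_sum
  intro p hp
  have hp13 := (Finset.mem_filter.mp hp).2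
  have hp' : (0 : ℝ) < p := by exact_mod_cast (show 0 < p by omega)
  have h1 : C.al ≤ (C.al + p - 1) / p * p := by
    have h2 := Nat.div_add_mod (C.al + p - 1) p
    have h3 := Nat.mod_lt (C.al + p - 1) (show 0 < p by omega)
    rw [mul_comm]
    omega
  have h2 : (C.al : ℝ) ≤ (((C.al + p - 1) / p : ℕ) : ℝ) * p := by exact_mod_cast h1
  rw [div_div, div_le_div_iff₀ (by positivity) (by norm_num)]
  nlinarith

theorem gc3_lo (C : Cert) {n : ℕ} (hn : 0 < n) (hcd : 1 ≤ C.cd) :
    ((((bigp n).map (fun q => C.cn * C.al / (C.cd * q))).sum : ℕ) : ℝ) / 100000 ≤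
      (C.cn : ℝ) / (C.cd : ℝ) * sg ((C.al : ℝ) / 100000) n := by
  rw [gc3_bigp_sum hn, Nat.cast_sum, Finset.sum_div]
  unfold sg
  rw [Finset.mul_sum]
  apply Finset.sum_le_sum
  intro p hp
  have hp13 := (Finset.mem_filter.mp hp).2
  have hp' : (0 : ℝ) < p := by exact_mod_cast (show 0 < p by omega)
  have hcd' : (0 : ℝ) < C.cd := by exact_mod_cast hcd
  have h1 : ((C.cn * C.al / (C.cd * p) : ℕ) : ℝ) ≤ ((C.cn * C.al : ℕ) : ℝ) / ((C.cd * p : ℕ) : ℝ) :=
    Nat.cast_div_le
  push_cast at h1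
  have h2 : (C.cn : ℝ) / (C.cd : ℝ) * ((C.al : ℝ) / 100000 / p) =
      (C.cn : ℝ) * C.al / (C.cd * p) / 100000 := by
    field_simp
  rw [h2]
  linarith

/-- the weight of `n` is covered by the loads of its tests -/
theorem pointwise {C : Cert} (h : chkStatic C = true) {Q : Finset ℕ} {s : ℕ → ℝ}
    (hs : ∀ x, 0 ≤ s x) (hT : TestOK C Q s) {n : ℕ} (hn : n ∈ Q) (hn0 : 0 < n) :
    (Nat.totient n : ℝ) / (n : ℝ) * uu ((C.al : ℝ) / 100000) ((C.cn : ℝ) / (C.cd : ℝ)) n
        * (2310 * 10000) ≤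
      ((ent C n).map (fun t => ∑ j ∈ range C.J, ld C n t j * zone C j (s ((n - 1) / t.y)))).sum := by
  simp only [chkStatic, Bool.and_eq_true, decide_eq_true_eq, List.all_eq_true, List.mem_range,
    Bool.or_eq_true] at h
  obtain ⟨⟨⟨⟨⟨⟨⟨⟨⟨⟨⟨hM, -⟩, -⟩, hcn⟩, hcd⟩, -⟩, -⟩, hpsi⟩, hdv⟩, hcls⟩, hsm⟩, -⟩ := h
  have hcn' : (0 : ℝ) < C.cn := by exact_mod_cast hcn
  have hcd' : (0 : ℝ) < C.cd := by exact_mod_cast hcd
  have hal : (0 : ℝ) ≤ (C.al : ℝ) / 100000 := by positivity
  have hsg := sg_nonneg hal n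
  have huu := uu_nonneg ((C.al : ℝ) / 100000) ((C.cn : ℝ) / (C.cd : ℝ)) n
  have hrw : ∀ t : Tst, ∑ j ∈ range C.J, ld C n t j * zone C j (s ((n - 1) / t.y)) =
      (Hn C n : ℝ) * ((if t.mode = 1 then sg ((C.al : ℝ) / 100000) n else 1) *
        gc3Gam C t.w (s ((n - 1) / t.y))) := by
    intro t
    unfold gc3Gam ld
    rw [Finset.mul_sum, Finset.mul_sum]
    apply Finset.sum_congr rfl
    intro j _
    ring
  simp only [hrw]
  rw [List.sum_map_mul_left]
  -- it is enough to bound the sum below by `10000 * uu`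
  have hH : (Nat.totient n : ℝ) / (n : ℝ) ≤ (Hn C n : ℝ) / 2310 := by
    unfold Hn
    split_ifs
    · exact totient_div_le_HH hn0 dvd_rfl
    · exact totient_div_le_HH hn0 (Nat.gcd_dvd_left _ _)
  suffices hk : 10000 * uu ((C.al : ℝ) / 100000) ((C.cn : ℝ) / (C.cd : ℝ)) n ≤
      ((ent C n).map (fun t => (if t.mode = 1 then sg ((C.al : ℝ) / 100000) n else 1) *
        gc3Gam C t.w (s ((n - 1) / t.y)))).sum by
    have hH0 : (0 : ℝ) ≤ (Hn C n : ℝ) := by positivity
    have h1 := mul_le_mul_of_nonneg_left hk hH0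
    have h2 := mul_le_mul_of_nonneg_right hH huu
    nlinarith
  by_cases hle : n ≤ C.n1
  · have hc := (hsm (n - 1) (by omega)).1
    rw [show n - 1 + 1 = n by omega] at hc
    simp only [chkSmall, Bool.and_eq_true, decide_eq_true_eq, List.all_eq_true] at hc
    obtain ⟨hc1, hc2⟩ := hc
    have hent : ent C n = look C.small n := by unfold ent; rw [if_pos hle]
    rw [hent]
    have hhi := gc3_hi C hn0
    have hlo := gc3_lo C hn0 hcd
    set hi := ((bigp n).map (fun q => (C.al + q - 1) / q)).sum with hhidef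
    set lo := ((bigp n).map (fun q => C.cn * C.al / (C.cd * q))).sum with hlodef
    have hsum : ((look C.small n).map (fun t =>
        (1 / 100000 : ℝ) * ((yld C t.w (sig0 C 0 n t - (if t.half then (hi + 1) / 2 else hi)) : ℕ) : ℝ))).sum ≤
        ((look C.small n).map (fun t => (if t.mode = 1 then sg ((C.al : ℝ) / 100000) n else 1) *
        gc3Gam C t.w (s ((n - 1) / t.y)))).sum := by
      apply List.sum_le_sum
      intro t ht
      obtain ⟨⟨h1, h2⟩, -⟩ := hc1 t ht
      have h3 := hT n hn 0 t (by rw [Nat.gcd_zero_right]; exact h1)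
      rw [Nat.gcd_zero_right] at h3
      rw [if_neg (show ¬ t.mode = 1 by omega), one_mul, gc3_yld C hpsi]
      have h4 := gc3_shift (hs ((n - 1) / t.y)) h3 hhi
      have h5 := gc3_mono hpsi t.w h4
      linarith
    refine le_trans ?_ hsum
    rw [List.sum_map_mul_left, ← gc3_cast_sum]
    have h6 : ((10000 * (100000 - lo) : ℕ) : ℝ) ≤ _ := Nat.cast_le.mpr hc2
    refine le_trans ?_ (mul_le_mul_of_nonneg_left h6 (by norm_num))
    have h7 : uu ((C.al : ℝ) / 100000) ((C.cn : ℝ) / (C.cd : ℝ)) n ≤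
        ((100000 - lo : ℕ) : ℝ) / 100000 := by
      unfold uu
      apply max_le
      · have h8 : (100000 : ℝ) - lo ≤ ((100000 - lo : ℕ) : ℝ) := by
          have : 100000 ≤ (100000 - lo) + lo := by omega
          have h9 : ((100000 : ℕ) : ℝ) ≤ (((100000 - lo) + lo : ℕ) : ℝ) := Nat.cast_le.mpr this
          push_cast at h9
          linarith
        linarith
      · positivity
    push_cast
    linarith
  · have hd : Nat.gcd n C.M ∈ C.dv := by
      have h1 : Nat.gcd n C.M ∣ C.M := Nat.gcd_dvd_right _ _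
      have h2 : Nat.gcd n C.M ≤ C.M := Nat.le_of_dvd hM h1
      rcases hdv (Nat.gcd n C.M) (by omega) with h3 | h3
      · exact absurd (Nat.mod_eq_zero_of_dvd h1) h3
      · simpa using h3
    have hc := (hcls _ hd).1.2
    simp only [chkCls, Bool.and_eq_true, decide_eq_true_eq, List.all_eq_true] at hc
    obtain ⟨⟨hc1, hc2⟩, hc3⟩ := hc
    have hent : ent C n = look C.cls (Nat.gcd n C.M) := by unfold ent; rw [if_neg hle]
    rw [hent]
    set d := Nat.gcd n C.M with hddef
    set σ := sg ((C.al : ℝ) / 100000) n with hσ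
    by_cases hbig : 1 ≤ (C.cn : ℝ) / (C.cd : ℝ) * σ
    · have h0 : uu ((C.al : ℝ) / 100000) ((C.cn : ℝ) / (C.cd : ℝ)) n = 0 := by
        unfold uu
        exact max_eq_right (by linarith)
      rw [h0, mul_zero]
      apply List.sum_nonneg
      intro x hx
      rw [List.mem_map] at hx
      obtain ⟨t, -, rfl⟩ := hx
      apply mul_nonneg
      · split_ifs
        · exact hsg
        · norm_num
      · exact gc3_nonneg hpsi _ _
    · push Not at hbig
      have h0 : uu ((C.al : ℝ) / 100000) ((C.cn : ℝ) / (C.cd : ℝ)) n =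
          1 - (C.cn : ℝ) / (C.cd : ℝ) * σ := by
        unfold uu
        exact max_eq_left (by linarith)
      rw [h0]
      set k1 := (100000 * C.cd + C.cn - 1) / C.cn with hk1
      have hk : σ ≤ (k1 : ℝ) / 100000 := by
        have h1 : 100000 * C.cd ≤ k1 * C.cn := by
          have h2 := Nat.div_add_mod (100000 * C.cd + C.cn - 1) C.cn
          have h3 := Nat.mod_lt (100000 * C.cd + C.cn - 1) (show 0 < C.cn by omega)
          rw [← hk1] at h2
          rw [mul_comm k1]
          omega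
        have h2 : (100000 : ℝ) * C.cd ≤ k1 * C.cn := by exact_mod_cast h1
        rw [div_mul_eq_mul_div, div_lt_one hcd'] at hbig
        rw [le_div_iff₀ (by norm_num)]
        by_contra hcon
        push Not at hcon
        nlinarith
      have hsum : ((look C.cls d).map (fun t =>
          (1 / 100000 : ℝ) * ((if t.mode = 1 then 0 else yld C t.w (sig0 C C.M d t) : ℕ) : ℝ)
          + (-(σ / 2)) * ((if t.mode = 1 then 0 else (if t.half then 1 else 2) * maxw t.w : ℕ) : ℝ)
          + (σ / 100000) * ((if t.mode = 1 then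
            yld C t.w (sig0 C C.M d t - (if t.half then (k1 + 1) / 2 else k1)) else 0 : ℕ) : ℝ))).sum ≤
          ((look C.cls d).map (fun t => (if t.mode = 1 then σ else 1) *
          gc3Gam C t.w (s ((n - 1) / t.y)))).sum := by
        apply List.sum_le_sum
        intro t ht
        obtain ⟨h1, -⟩ := hc1 t ht
        have h3 := hT n hn C.M t h1
        rw [← hddef, ← hσ] at h3
        by_cases hm : t.mode = 1
        · simp only [if_pos hm]
          rw [gc3_yld C hpsi]
          have h4 := gc3_shift (hs ((n - 1) / t.y)) h3 hk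
          have h5 := gc3_mono hpsi t.w h4
          have h6 := mul_le_mul_of_nonneg_left h5 hsg
          push_cast
          linarith
        · simp only [if_neg hm]
          rw [gc3_yld C hpsi]
          have h5 := gc3_mono hpsi t.w h3
          have h7 : 0 ≤ tau t * σ := by
            apply mul_nonneg _ hsg
            unfold tau
            split_ifs <;> norm_num
          have h6 := gc3_sub hpsi t.w ((sig0 C C.M d t : ℝ) / 100000) h7
          have h8 : σ / 2 * (((if t.half then 1 else 2) * maxw t.w : ℕ) : ℝ) =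
              (maxw t.w : ℝ) * (tau t * σ) := by
            unfold tau
            split_ifs <;> push_cast <;> ring
          simp only [Nat.cast_zero]
          linarith
      refine le_trans ?_ hsum
      rw [List.sum_map_add, List.sum_map_add, List.sum_map_mul_left, List.sum_map_mul_left,
        List.sum_map_mul_left, ← gc3_cast_sum, ← gc3_cast_sum, ← gc3_cast_sum]
      have h6 : ((10000 * 100000 : ℕ) : ℝ) ≤ _ := Nat.cast_le.mpr hc2
      have h7 : ((C.cd * 100000 * _ : ℕ) : ℝ) ≤ _ := Nat.cast_le.mpr hc3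
      rw [Nat.cast_add, Nat.cast_mul, Nat.cast_mul, Nat.cast_mul (2 * C.cd)] at h7
      generalize (((look C.cls d).map (fun t =>
        if t.mode = 1 then 0 else yld C t.w (sig0 C C.M d t))).sum : ℕ) = A at h6 ⊢
      generalize (((look C.cls d).map (fun t =>
        if t.mode = 1 then 0 else (if t.half then 1 else 2) * maxw t.w)).sum : ℕ) = B at h7 ⊢
      generalize (((look C.cls d).map (fun t => if t.mode = 1 then
        yld C t.w (sig0 C C.M d t - (if t.half then (k1 + 1) / 2 else k1)) else 0)).sum : ℕ) = D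
        at h7 ⊢
      push_cast at h6 h7
      have h9 : (B : ℝ) / 2 - (D : ℝ) / 100000 ≤ (C.cn : ℝ) / (C.cd : ℝ) * 10000 := by
        rw [div_mul_eq_mul_div, le_div_iff₀ hcd']
        nlinarith
      have h10 := mul_le_mul_of_nonneg_left h9 hsg
      nlinarith

end Pool.Agent.Lib.MP_4652a8_nt
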