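import Pool.Agent.Lib.MP_4652a8_nt.GCDefs

set_option autoImplicit false

namespace Pool.Agent.Lib.MP_4652a8_nt
open Finset

theorem gc4_frc (x : ℕ) (k : ℕ → Bool) : frc x k = k x := by
  cases x <;> rfl

theorem gc4_frn (x : ℕ) (k : ℕ → ℕ) : frn x k = k x := by
  cases x <;> rfl

theorem gc4_acc_succ (C : Cert) (X : ℕ) : Acc C (X + 1) = stp C (X + 1) + Acc C X := by
  unfold Acc
  rw [Finset.sum_range_succ, add_comm]

theorem gc4_loop_zero (C : Cert) (l : List (ℕ × ℕ)) (e X acc : ℕ) :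
    loop C l e 0 X acc = Nat.beq acc e := rfl

theorem gc4_loop_succ (C : Cert) (l : List (ℕ × ℕ)) (e f X acc : ℕ) :
    loop C l e (f + 1) X acc =
      (okL X l (stp C X + acc) && loop C l e f (X + 1) (stp C X + acc)) := by
  have h1 : loop C l e (f + 1) X acc = frc (stp C X + acc)
      (fun acc' => okL X l acc' && frc (X + 1) (fun X' => loop C l e f X' acc')) := rfl
  rw [h1, gc4_frc, gc4_frc]

theorem loop_spec (C : Cert) (l : List (ℕ × ℕ)) (e f X : ℕ)
    (h : loop C l e f (X + 1) (Acc C X) = true) :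
    (∀ X', X + 1 ≤ X' → X' ≤ X + f → okL X' l (Acc C X') = true) ∧ e = Acc C (X + f) := by
  induction f generalizing X with
  | zero =>
    rw [gc4_loop_zero] at h
    refine ⟨fun X' h1 h2 => by omega, ?_⟩
    have := Nat.eq_of_beq_eq_true h
    simpa using this.symm
  | succ f ih =>
    rw [gc4_loop_succ, ← gc4_acc_succ, Bool.and_eq_true] at h
    obtain ⟨h1, h2⟩ := h
    obtain ⟨h3, h4⟩ := ih (X + 1) h2
    refine ⟨fun X' a b => ?_, ?_⟩
    · rcases Nat.eq_or_lt_of_le a with c | c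
      · rw [← c]; exact h1
      · exact h3 X' (by omega) (by omega)
    · rw [h4]; congr 1; omega

/-- two runs of the loop give `LoopOK` -/
theorem loopOK_of_two (C : Cert) (e1 e2 : ℕ)
    (h1 : loop C (C.rho.zip C.xmin) e1 C.n1 1 0 = true)
    (h2 : loop C (C.rho.zip C.xmin) e2 C.M (C.n1 + 1) e1 = true)
    (h3 : okL C.M (C.rho.map (fun r => (r, 0))) (e2 - e1) = true) : LoopOK C := by
  have a0 : Acc C 0 = 0 := by simp [Acc]
  have h1' : loop C (C.rho.zip C.xmin) e1 C.n1 (0 + 1) (Acc C 0) = true := by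
    rw [a0]; exact h1
  obtain ⟨b1, b2⟩ := loop_spec C _ e1 C.n1 0 h1'
  rw [Nat.zero_add] at b2
  have h2' : loop C (C.rho.zip C.xmin) e2 C.M (C.n1 + 1) (Acc C C.n1) = true := by
    rw [← b2]; exact h2
  obtain ⟨c1, c2⟩ := loop_spec C _ e2 C.M C.n1 h2'
  refine ⟨fun X a b => ?_, ?_⟩
  · by_cases hX : X ≤ C.n1
    · exact b1 X (by omega) (by omega)
    · exact c1 X (by omega) b
  · rw [← b2, ← c2]; exact h3

theorem gc4_okL_nil (X a : ℕ) : okL X [] a = true := rfl

theorem gc4_okL_cons (X a : ℕ) (q : ℕ × ℕ) (l : List (ℕ × ℕ)) :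
    okL X (q :: l) a =
      ((Nat.ble (X + 1) q.2 || Nat.ble (a % 18446744073709551616) (q.1 * X)) &&
        okL X l (a / 18446744073709551616)) := rfl

theorem gc4_digit (X : ℕ) (l : List (ℕ × ℕ)) (v : ℕ → ℕ)
    (hv : ∀ j, j < l.length → v j < 18446744073709551616)
    (h : okL X l (∑ j ∈ range l.length, v j * 18446744073709551616 ^ j) = true) :
    ∀ j, j < l.length → X < (l.getD j (0, 0)).2 ∨ v j ≤ (l.getD j (0, 0)).1 * X := by
  induction l generalizing v with
  | nil => intro j hj; simp at hj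
  | cons q l ih =>
    have hs : ∑ j ∈ range (q :: l).length, v j * 18446744073709551616 ^ j =
        v 0 + 18446744073709551616 *
          ∑ j ∈ range l.length, v (j + 1) * 18446744073709551616 ^ j := by
      rw [List.length_cons, Finset.sum_range_succ', Finset.mul_sum, pow_zero, mul_one, add_comm]
      congr 1
      refine Finset.sum_congr rfl (fun j _ => ?_)
      rw [pow_succ]; ring
    have h0 : v 0 < 18446744073709551616 := hv 0 (by simp)
    rw [hs, gc4_okL_cons, Bool.and_eq_true, Bool.or_eq_true] at h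
    obtain ⟨h1, h2⟩ := h
    have e1 : (v 0 + 18446744073709551616 *
          ∑ j ∈ range l.length, v (j + 1) * 18446744073709551616 ^ j) % 18446744073709551616
          = v 0 := by
      rw [Nat.add_mul_mod_self_left, Nat.mod_eq_of_lt h0]
    have e2 : (v 0 + 18446744073709551616 *
          ∑ j ∈ range l.length, v (j + 1) * 18446744073709551616 ^ j) / 18446744073709551616
          = ∑ j ∈ range l.length, v (j + 1) * 18446744073709551616 ^ j := by
      rw [Nat.add_mul_div_left _ _ (by norm_num), Nat.div_eq_of_lt h0, Nat.zero_add]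
    rw [e1] at h1
    rw [e2] at h2
    have ih' := ih (fun j => v (j + 1))
      (fun j hj => hv (j + 1) (by simp only [List.length_cons]; omega)) h2
    intro j hj
    cases j with
    | zero =>
      simp only [List.getD_cons_zero]
      rcases h1 with h1 | h1
      · left; have := Nat.le_of_ble_eq_true h1; omega
      · right; exact Nat.le_of_ble_eq_true h1
    | succ j =>
      simp only [List.getD_cons_succ]
      exact ih' j (by simp only [List.length_cons] at hj; omega)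

/-- the facts of `chkStatic` used here -/
theorem gc4_static {C : Cert} (h : chkStatic C = true) :
    1 ≤ C.M ∧ C.n1 + C.M < 1000000 ∧ C.rho.length = C.J ∧ C.xmin.length = C.J ∧
    (∀ d, d ∣ C.M → chkRow C C.c1 C.c2 C.c3 C.c4 (look C.cls d) d = true) ∧
    (∀ n, 1 ≤ n → n ≤ C.n1 → chkRow C C.s1 C.s2 C.s3 C.s4 (look C.small n) n = true) ∧
    (∀ j, j < C.J → C.xmin.getD j 0 ≤ C.n1 + 1) := by
  unfold chkStatic at h
  simp only [Bool.and_eq_true, decide_eq_true_eq, List.all_eq_true, List.mem_range,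
    Bool.or_eq_true] at h
  obtain ⟨⟨⟨⟨⟨⟨⟨⟨⟨⟨⟨a1, _⟩, a3⟩, _⟩, _⟩, a6⟩, a7⟩, _⟩, a9⟩, a10⟩, a11⟩, a12⟩ := h
  refine ⟨a1, a3, a6, a7, fun d hd => ?_, fun n h1 h2 => ?_, fun j hj => (a12 j hj).2⟩
  · have hle : d ≤ C.M := Nat.le_of_dvd (by omega) hd
    rcases a9 d (by omega) with b | b
    · exact absurd (Nat.mod_eq_zero_of_dvd hd) b
    · exact (a10 d (List.mem_of_elem_eq_true b)).2
  · have := (a11 (n - 1) (by omega)).2
    rwa [Nat.sub_add_cancel h1] at this

theorem gc4_row {C : Cert} {t1 t2 t3 t4 : Tr} {ts : List Tst} {k : ℕ}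
    (h : chkRow C t1 t2 t3 t4 ts k = true) :
    t1.get k = pk C ts (HH k) 1 ∧ t2.get k = pk C ts (HH k) 2 ∧ t3.get k = pk C ts (HH k) 3 ∧
      t4.get k = pk C ts (HH k) 4 ∧
      ∀ y ∈ ({1, 2, 3, 4} : Finset ℕ), ∀ j, j < C.J → vec ts (HH k) y j < 1099511627776 := by
  unfold chkRow at h
  simp only [Bool.and_eq_true, decide_eq_true_eq, List.all_eq_true, List.mem_range] at h
  obtain ⟨⟨⟨⟨a1, a2⟩, a3⟩, a4⟩, a5⟩ := h
  refine ⟨a1, a2, a3, a4, fun y hy j hj => a5 y ?_ j hj⟩
  simp only [Finset.mem_insert, Finset.mem_singleton] at hy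
  simp only [List.mem_cons, List.not_mem_nil, or_false]
  exact hy

theorem gc4_gv_le (C : Cert) (ts tc : Tr) {n : ℕ} (h : n ≤ C.n1) : gv C ts tc n = ts.get n := by
  unfold gv
  rw [gc4_frn, Nat.ble_eq_true_of_le h]

theorem gc4_gv_gt (C : Cert) (ts tc : Tr) {n : ℕ} (h : ¬ n ≤ C.n1) :
    gv C ts tc n = tc.get (Nat.gcd n C.M) := by
  unfold gv
  have hb : Nat.ble n C.n1 = false := by
    cases hb : Nat.ble n C.n1 with
    | false => rfl
    | true => exact absurd (Nat.le_of_ble_eq_true hb) h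
  rw [gc4_frn, hb]
  exact gc4_frn _ _

/-- the load of the number `n` -/
def gc4w (C : Cert) (y n j : ℕ) : ℕ := vec (ent C n) (Hn C n) y j

theorem gc4_pk (C : Cert) (ts : List Tst) (h y : ℕ) :
    pk C ts h y = ∑ j ∈ range C.J, vec ts h y j * 18446744073709551616 ^ j := by
  unfold pk
  generalize C.J = J
  induction J with
  | zero => simp
  | succ J ih => rw [List.range_succ, List.map_append, List.sum_append, ih, Finset.sum_range_succ]; simp

theorem gc4_gv {C : Cert} (h : chkStatic C = true) {n : ℕ} (hn : 1 ≤ n) :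
    gv C C.s1 C.c1 n = ∑ j ∈ range C.J, gc4w C 1 n j * 18446744073709551616 ^ j ∧
    gv C C.s2 C.c2 n = ∑ j ∈ range C.J, gc4w C 2 n j * 18446744073709551616 ^ j ∧
    gv C C.s3 C.c3 n = ∑ j ∈ range C.J, gc4w C 3 n j * 18446744073709551616 ^ j ∧
    gv C C.s4 C.c4 n = ∑ j ∈ range C.J, gc4w C 4 n j * 18446744073709551616 ^ j ∧
    ∀ y ∈ ({1, 2, 3, 4} : Finset ℕ), ∀ j, j < C.J → gc4w C y n j < 1099511627776 := by
  obtain ⟨_, _, _, _, a5, a6, _⟩ := gc4_static h
  by_cases hle : n ≤ C.n1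
  · obtain ⟨b1, b2, b3, b4, b5⟩ := gc4_row (a6 n hn hle)
    simp only [gc4w, ent, Hn, if_pos hle, gc4_gv_le C _ _ hle, ← gc4_pk]
    exact ⟨b1, b2, b3, b4, b5⟩
  · obtain ⟨b1, b2, b3, b4, b5⟩ := gc4_row (a5 (Nat.gcd n C.M) (Nat.gcd_dvd_right _ _))
    simp only [gc4w, ent, Hn, if_neg hle, gc4_gv_gt C _ _ hle, ← gc4_pk]
    exact ⟨b1, b2, b3, b4, b5⟩

/-- the increment of the load at `X + 1` -/
def gc4st (C : Cert) (X j : ℕ) : ℕ :=
  gc4w C 1 (X + 1) j + gc4w C 2 (2 * X + 2) j + gc4w C 2 (2 * X + 1) j +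
    gc4w C 3 (3 * X + 3) j + gc4w C 3 (3 * X + 2) j + gc4w C 3 (3 * X + 1) j +
    gc4w C 4 (4 * X + 4) j + gc4w C 4 (4 * X + 3) j + gc4w C 4 (4 * X + 2) j +
    gc4w C 4 (4 * X + 1) j

theorem gc4_Lx_eq (C : Cert) (X j : ℕ) :
    Lx C X j = ∑ n ∈ Icc 1 (1 * X), gc4w C 1 n j + ∑ n ∈ Icc 1 (2 * X), gc4w C 2 n j +
      ∑ n ∈ Icc 1 (3 * X), gc4w C 3 n j + ∑ n ∈ Icc 1 (4 * X), gc4w C 4 n j := by
  unfold Lx gc4w
  rw [Finset.sum_insert (by decide), Finset.sum_insert (by decide), Finset.sum_insert (by decide),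
    Finset.sum_singleton]
  ring

theorem gc4_Lx_zero (C : Cert) (j : ℕ) : Lx C 0 j = 0 := by
  rw [gc4_Lx_eq]; simp

theorem gc4_Lx_succ (C : Cert) (X j : ℕ) : Lx C (X + 1) j = Lx C X j + gc4st C X j := by
  rw [gc4_Lx_eq, gc4_Lx_eq]
  have e1 : 1 * (X + 1) = 1 * X + 1 := by ring
  have e2 : 2 * (X + 1) = 2 * X + 1 + 1 := by ring
  have e3 : 3 * (X + 1) = 3 * X + 1 + 1 + 1 := by ring
  have e4 : 4 * (X + 1) = 4 * X + 1 + 1 + 1 + 1 := by ring
  rw [e1, e2, e3, e4]
  rw [Finset.sum_Icc_succ_top (by omega), Finset.sum_Icc_succ_top (by omega),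
    Finset.sum_Icc_succ_top (by omega), Finset.sum_Icc_succ_top (by omega),
    Finset.sum_Icc_succ_top (by omega), Finset.sum_Icc_succ_top (by omega),
    Finset.sum_Icc_succ_top (by omega), Finset.sum_Icc_succ_top (by omega),
    Finset.sum_Icc_succ_top (by omega), Finset.sum_Icc_succ_top (by omega)]
  unfold gc4st
  simp only [one_mul, Nat.add_assoc]
  ring

theorem gc4_stp {C : Cert} (h : chkStatic C = true) (X : ℕ) :
    stp C (X + 1) = ∑ j ∈ range C.J, gc4st C X j * 18446744073709551616 ^ j := by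
  unfold stp
  have e1 : 2 * (X + 1) = 2 * X + 2 := by ring
  have e2 : 3 * (X + 1) = 3 * X + 3 := by ring
  have e3 : 4 * (X + 1) = 4 * X + 4 := by ring
  have f1 : 2 * X + 2 - 1 = 2 * X + 1 := by omega
  have f2 : 3 * X + 3 - 1 = 3 * X + 2 := by omega
  have f3 : 3 * X + 3 - 2 = 3 * X + 1 := by omega
  have f4 : 4 * X + 4 - 1 = 4 * X + 3 := by omega
  have f5 : 4 * X + 4 - 2 = 4 * X + 2 := by omega
  have f6 : 4 * X + 4 - 3 = 4 * X + 1 := by omega
  rw [e1, e2, e3, f1, f2, f3, f4, f5, f6]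
  rw [(gc4_gv h (n := X + 1) (by omega)).1,
    (gc4_gv h (n := 2 * X + 2) (by omega)).2.1, (gc4_gv h (n := 2 * X + 1) (by omega)).2.1,
    (gc4_gv h (n := 3 * X + 3) (by omega)).2.2.1, (gc4_gv h (n := 3 * X + 2) (by omega)).2.2.1,
    (gc4_gv h (n := 3 * X + 1) (by omega)).2.2.1,
    (gc4_gv h (n := 4 * X + 4) (by omega)).2.2.2.1, (gc4_gv h (n := 4 * X + 3) (by omega)).2.2.2.1,
    (gc4_gv h (n := 4 * X + 2) (by omega)).2.2.2.1, (gc4_gv h (n := 4 * X + 1) (by omega)).2.2.2.1]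
  simp only [← Finset.sum_add_distrib]
  refine Finset.sum_congr rfl (fun j _ => ?_)
  unfold gc4st
  ring

theorem gc4_acc {C : Cert} (h : chkStatic C = true) (X : ℕ) :
    Acc C X = ∑ j ∈ range C.J, Lx C X j * 18446744073709551616 ^ j := by
  induction X with
  | zero => simp [Acc, gc4_Lx_zero]
  | succ X ih =>
    rw [gc4_acc_succ, ih, gc4_stp h, ← Finset.sum_add_distrib]
    refine Finset.sum_congr rfl (fun j _ => ?_)
    rw [gc4_Lx_succ]; ring

theorem gc4_Lx_bound {C : Cert} (h : chkStatic C = true) {j : ℕ} (hj : j < C.J) (X : ℕ) :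
    Lx C X j ≤ 10995116277760 * X := by
  induction X with
  | zero => simp [gc4_Lx_zero]
  | succ X ih =>
    rw [gc4_Lx_succ]
    have b : ∀ y ∈ ({1, 2, 3, 4} : Finset ℕ), ∀ n, 1 ≤ n → gc4w C y n j < 1099511627776 :=
      fun y hy n hn => (gc4_gv h hn).2.2.2.2 y hy j hj
    have b1 := b 1 (by decide) (X + 1) (by omega)
    have b2 := b 2 (by decide) (2 * X + 2) (by omega)
    have b3 := b 2 (by decide) (2 * X + 1) (by omega)
    have b4 := b 3 (by decide) (3 * X + 3) (by omega)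
    have b5 := b 3 (by decide) (3 * X + 2) (by omega)
    have b6 := b 3 (by decide) (3 * X + 1) (by omega)
    have b7 := b 4 (by decide) (4 * X + 4) (by omega)
    have b8 := b 4 (by decide) (4 * X + 3) (by omega)
    have b9 := b 4 (by decide) (4 * X + 2) (by omega)
    have b10 := b 4 (by decide) (4 * X + 1) (by omega)
    unfold gc4st
    omega

theorem gc4_w_per (C : Cert) (y j n k : ℕ) (hn : C.n1 < n) :
    gc4w C y (n + k * C.M) j = gc4w C y n j := by
  have h1 : ¬ n ≤ C.n1 := by omega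
  have h2 : ¬ n + k * C.M ≤ C.n1 := by omega
  unfold gc4w ent Hn
  rw [if_neg h1, if_neg h2, if_neg h1, if_neg h2, Nat.gcd_add_mul_right_left]

theorem gc4_st_per (C : Cert) (j X : ℕ) (hX : C.n1 ≤ X) :
    gc4st C (X + C.M) j = gc4st C X j := by
  unfold gc4st
  have e1 : X + C.M + 1 = X + 1 + 1 * C.M := by ring
  have e2 : ∀ i, 2 * (X + C.M) + i = 2 * X + i + 2 * C.M := fun i => by ring
  have e3 : ∀ i, 3 * (X + C.M) + i = 3 * X + i + 3 * C.M := fun i => by ring
  have e4 : ∀ i, 4 * (X + C.M) + i = 4 * X + i + 4 * C.M := fun i => by ring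
  rw [e1, e2, e2, e3, e3, e3, e4, e4, e4, e4]
  rw [gc4_w_per C 1 j _ _ (by omega), gc4_w_per C 2 j (2 * X + 2) _ (by omega),
    gc4_w_per C 2 j (2 * X + 1) _ (by omega), gc4_w_per C 3 j (3 * X + 3) _ (by omega),
    gc4_w_per C 3 j (3 * X + 2) _ (by omega), gc4_w_per C 3 j (3 * X + 1) _ (by omega),
    gc4_w_per C 4 j (4 * X + 4) _ (by omega), gc4_w_per C 4 j (4 * X + 3) _ (by omega),
    gc4_w_per C 4 j (4 * X + 2) _ (by omega), gc4_w_per C 4 j (4 * X + 1) _ (by omega)]

theorem gc4_Lx_per (C : Cert) (j X : ℕ) (hX : C.n1 ≤ X) :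
    Lx C (X + C.M) j + Lx C C.n1 j = Lx C X j + Lx C (C.n1 + C.M) j := by
  induction X, hX using Nat.le_induction with
  | base => ring
  | succ X hX ih =>
    have e : X + 1 + C.M = X + C.M + 1 := by ring
    rw [e, gc4_Lx_succ, gc4_Lx_succ, gc4_st_per C j X hX]
    omega

theorem gc4_Lx_mono (C : Cert) (j X k : ℕ) : Lx C X j ≤ Lx C (X + k) j := by
  induction k with
  | zero => exact le_rfl
  | succ k ih =>
    rw [← Nat.add_assoc, gc4_Lx_succ]; omega

/-- the exact loads are bounded for all `X` -/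
theorem Lx_le {C : Cert} (h : chkStatic C = true) (hl : LoopOK C) {j : ℕ} (hj : j < C.J) {X : ℕ}
    (hX : C.xmin.getD j 0 ≤ X) : Lx C X j ≤ C.rho.getD j 0 * X := by
  obtain ⟨a1, a2, a3, a4, _, _, a7⟩ := gc4_static h
  obtain ⟨l1, l2⟩ := hl
  have hb : ∀ Y, Y ≤ C.n1 + C.M → ∀ i, i < C.J → Lx C Y i < 18446744073709551616 := by
    intro Y hY i hi
    have := gc4_Lx_bound h hi Y
    omega
  -- the period
  have hD : Lx C (C.n1 + C.M) j - Lx C C.n1 j ≤ C.rho.getD j 0 * C.M := by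
    have hlen : (C.rho.map (fun r => ((r, 0) : ℕ × ℕ))).length = C.J := by
      rw [List.length_map, a3]
    have hdiff : Acc C (C.n1 + C.M) - Acc C C.n1 =
        ∑ i ∈ range (C.rho.map (fun r => ((r, 0) : ℕ × ℕ))).length,
          (Lx C (C.n1 + C.M) i - Lx C C.n1 i) * 18446744073709551616 ^ i := by
      rw [hlen, gc4_acc h, gc4_acc h]
      have : ∑ i ∈ range C.J, Lx C (C.n1 + C.M) i * 18446744073709551616 ^ i =
          ∑ i ∈ range C.J, Lx C C.n1 i * 18446744073709551616 ^ i +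
          ∑ i ∈ range C.J, (Lx C (C.n1 + C.M) i - Lx C C.n1 i) * 18446744073709551616 ^ i := by
        rw [← Finset.sum_add_distrib]
        refine Finset.sum_congr rfl (fun i _ => ?_)
        rw [← add_mul, Nat.add_sub_cancel' (gc4_Lx_mono C i C.n1 C.M)]
      rw [this, Nat.add_sub_cancel_left]
    rw [hdiff] at l2
    have := gc4_digit C.M _ (fun i => Lx C (C.n1 + C.M) i - Lx C C.n1 i)
      (fun i hi => lt_of_le_of_lt (Nat.sub_le _ _) (hb _ le_rfl i (by rwa [hlen] at hi))) l2 j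
      (by rw [hlen]; exact hj)
    have hg : (C.rho.map (fun r => ((r, 0) : ℕ × ℕ))).getD j (0, 0) = (C.rho.getD j 0, 0) := by
      have hj' : j < C.rho.length := by rw [a3]; exact hj
      simp [List.getD_eq_getElem?_getD, List.getElem?_eq_getElem hj']
    rw [hg] at this
    rcases this with t | t
    · simp at t
    · exact t
  induction X using Nat.strong_induction_on with
  | _ X ih =>
    by_cases hle : X ≤ C.n1 + C.M
    · rcases Nat.eq_zero_or_pos X with h0 | h0
      · rw [h0, gc4_Lx_zero]; exact Nat.zero_le _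
      · have hlen : (C.rho.zip C.xmin).length = C.J := by
          rw [List.length_zip, a3, a4, min_self]
        have hok := l1 X h0 hle
        rw [gc4_acc h, ← hlen] at hok
        have := gc4_digit X _ (fun i => Lx C X i)
          (fun i hi => hb X hle i (by rwa [hlen] at hi)) hok j (by rw [hlen]; exact hj)
        have hg : (C.rho.zip C.xmin).getD j (0, 0) = (C.rho.getD j 0, C.xmin.getD j 0) := by
          have hj1 : j < C.rho.length := by rw [a3]; exact hj
          have hj2 : j < C.xmin.length := by rw [a4]; exact hj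
          have hj3 : j < (C.rho.zip C.xmin).length := by rw [hlen]; exact hj
          simp [List.getD_eq_getElem?_getD, List.getElem?_eq_getElem hj1,
            List.getElem?_eq_getElem hj2, List.getElem?_eq_getElem hj3]
        rw [hg] at this
        rcases this with t | t
        · exact absurd hX (not_le.mpr t)
        · exact t
    · obtain ⟨Y, rfl⟩ : ∃ Y, X = Y + C.M := ⟨X - C.M, by omega⟩
      have hY : C.n1 + 1 ≤ Y := by omega
      have i1 := ih Y (by omega) (le_trans (a7 j hj) hY)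
      have i2 := gc4_Lx_per C j Y (by omega)
      have i3 := gc4_Lx_mono C j C.n1 C.M
      rw [mul_add]
      omega

end Pool.Agent.Lib.MP_4652a8_nt
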