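import Pool.Agent.Lib.MP_4652a8_nt.GC1
import Pool.Agent.Lib.MP_4652a8_nt.GC4

set_option autoImplicit false

namespace Pool.Agent.Lib.MP_4652a8_nt
open Finset

theorem gc5_static {C : Cert} (h : chkStatic C = true) :
    1 ≤ C.M ∧ C.M ∣ 2310 ^ 4 ∧ (∀ d, d ∣ C.M → d ∈ C.dv) ∧
      (∀ d ∈ C.dv, chkCls C d = true) ∧ (∀ n, 0 < n → n ≤ C.n1 → chkSmall C n = true) ∧
      (∀ j, j < C.J → C.rho.getD j 0 + SL C j ≤ C.rN) := by
  unfold chkStatic at h
  simp only [Bool.and_eq_true, decide_eq_true_eq, List.all_eq_true, List.mem_range,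
    Bool.or_eq_true] at h
  obtain ⟨⟨⟨⟨⟨⟨⟨⟨⟨⟨⟨h1, h2⟩, -⟩, -⟩, -⟩, -⟩, -⟩, -⟩, h3⟩, h4⟩, h5⟩, h6⟩ := h
  refine ⟨h1, Nat.dvd_of_mod_eq_zero h2, ?_, ?_, ?_, ?_⟩
  · intro d hd
    have hle : d ≤ C.M := Nat.le_of_dvd h1 hd
    rcases h3 d (by omega) with h7 | h7
    · exact absurd (Nat.mod_eq_zero_of_dvd hd) h7
    · exact List.mem_of_elem_eq_true h7
  · intro d hd
    exact (h4 d hd).1.2
  · intro n hn hn1
    have := (h5 (n - 1) (by omega)).1
    rwa [Nat.sub_add_cancel hn] at this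
  · intro j hj
    exact (h6 j hj).1

theorem gc5_small {C : Cert} {n : ℕ} (h : chkSmall C n = true) {t : Tst}
    (ht : t ∈ look C.small n) : 1 ≤ t.y ∧ t.mode = 0 ∧ t.y ≤ 4 := by
  unfold chkSmall tv at h
  simp only [Bool.and_eq_true, decide_eq_true_eq, List.all_eq_true] at h
  have := h.1 t ht
  exact ⟨this.1.1.1.1.1, this.1.2, this.2⟩

theorem gc5_cls {C : Cert} {d : ℕ} (h : chkCls C d = true) {t : Tst}
    (ht : t ∈ look C.cls d) : 1 ≤ t.y ∧ (t.mode = 0 → t.y ≤ 4) := by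
  unfold chkCls tv at h
  simp only [Bool.and_eq_true, decide_eq_true_eq, List.all_eq_true, Bool.or_eq_true] at h
  have := h.1.1 t ht
  refine ⟨this.1.1.1.1, fun h0 => ?_⟩
  rcases this.2 with h1 | h1
  · exact absurd h0 h1
  · exact h1

theorem gc5_ent {C : Cert} (h : chkStatic C = true) {n : ℕ} (hn : 0 < n) {t : Tst}
    (ht : t ∈ ent C n) : 1 ≤ t.y ∧ (t.mode = 0 → t.y ≤ 4) := by
  obtain ⟨-, -, h3, h4, h5, -⟩ := gc5_static h
  unfold ent at ht
  split_ifs at ht with hle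
  · have := gc5_small (h5 n hn hle) ht
    exact ⟨this.1, fun _ => this.2.2⟩
  · exact gc5_cls (h4 _ (h3 _ (Nat.gcd_dvd_right _ _))) ht

/-- the mode zero part of the load of one number -/
theorem gc5_zero (ts : List Tst) (hts : ∀ t ∈ ts, 1 ≤ t.y ∧ (t.mode = 0 → t.y ≤ 4))
    (hh n X j : ℕ) :
    (ts.map (fun t => if t.mode = 0 then
        (if n ≤ t.y * X then (hh : ℝ) * (t.w.getD j 0 : ℝ) else 0) else 0)).sum =
      ∑ y ∈ ({1, 2, 3, 4} : Finset ℕ), if n ≤ y * X then (vec ts hh y j : ℝ) else 0 := by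
  induction ts with
  | nil => simp [vec]
  | cons t ts ih =>
    rw [List.map_cons, List.sum_cons, ih (fun s hs => hts s (List.mem_cons_of_mem _ hs))]
    have hv : ∀ y, (vec (t :: ts) hh y j : ℝ) =
        (if t.mode = 0 ∧ t.y = y then (hh : ℝ) * (t.w.getD j 0 : ℝ) else 0) +
          (vec ts hh y j : ℝ) := by
      intro y
      unfold vec
      rw [List.map_cons, List.sum_cons]
      split_ifs <;> push_cast <;> ring
    have hs : ∀ y, (if n ≤ y * X then (vec (t :: ts) hh y j : ℝ) else 0) =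
        (if y = t.y then (if t.mode = 0 then
          (if n ≤ t.y * X then (hh : ℝ) * (t.w.getD j 0 : ℝ) else 0) else 0) else 0) +
          (if n ≤ y * X then (vec ts hh y j : ℝ) else 0) := by
      intro y
      rw [hv y]
      by_cases h1 : y = t.y
      · subst h1
        by_cases h2 : t.mode = 0 <;> by_cases h3 : n ≤ t.y * X <;> simp [h2, h3]
      · have h1' : ¬ t.y = y := fun e => h1 e.symm
        by_cases h3 : n ≤ y * X <;> simp [h1, h1', h3]
    rw [Finset.sum_congr rfl (fun y _ => hs y), Finset.sum_add_distrib, Finset.sum_ite_eq']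
    have ht := hts t List.mem_cons_self
    by_cases h2 : t.mode = 0
    · have hy : t.y ∈ ({1, 2, 3, 4} : Finset ℕ) := by
        have := ht.1
        have := ht.2 h2
        simp only [Finset.mem_insert, Finset.mem_singleton]
        omega
      rw [if_pos hy]
    · simp [h2]

theorem gc5_cnt (N : ℕ) {q : ℕ} (Q : Finset ℕ) (hQ : ∀ n ∈ Q, 0 < n ∧ n ≤ N ∧ q ∣ n) :
    (Q.card : ℝ) ≤ (N : ℝ) / (q : ℝ) := by
  have h1 : Q ⊆ (Finset.Ioc 0 N).filter (fun x => q ∣ x) := by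
    intro n hn
    obtain ⟨a, b, c⟩ := hQ n hn
    exact Finset.mem_filter.2 ⟨Finset.mem_Ioc.2 ⟨a, b⟩, c⟩
  have h2 := Finset.card_le_card h1
  rw [Nat.Ioc_filter_dvd_card_eq_div] at h2
  exact le_trans (by exact_mod_cast h2) Nat.cast_div_le

theorem gc5_sg {al : ℝ} (hal : 0 ≤ al) (N : ℕ) {d : ℕ} (hd : d ∣ 2310 ^ 4) (Q : Finset ℕ)
    (hQ : ∀ n ∈ Q, 0 < n ∧ n ≤ N ∧ d ∣ n) :
    ∑ n ∈ Q, sg al n ≤ al * (23 / 1000) * ((N : ℝ) / (d : ℝ)) := by
  set T := (Finset.range (N + 1)).filter (fun p => p.Prime ∧ 13 ≤ p) with hT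
  have h1 : ∀ n ∈ Q, sg al n = ∑ p ∈ T, if p ∣ n then al / (p : ℝ) else 0 := by
    intro n hn
    obtain ⟨a, b, -⟩ := hQ n hn
    unfold sg
    rw [← Finset.sum_filter]
    refine Finset.sum_congr ?_ (fun _ _ => rfl)
    ext p
    simp only [hT, Finset.mem_filter, Nat.mem_primeFactors, Finset.mem_range]
    constructor
    · rintro ⟨⟨hp, hpn, -⟩, h13⟩
      have := Nat.le_of_dvd a hpn
      exact ⟨⟨by omega, hp, h13⟩, hpn⟩
    · rintro ⟨⟨-, hp, h13⟩, hpn⟩
      exact ⟨⟨hp, hpn, a.ne'⟩, h13⟩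
  rw [Finset.sum_congr rfl h1, Finset.sum_comm]
  have h2 : ∀ p ∈ T, (∑ n ∈ Q, if p ∣ n then al / (p : ℝ) else 0) ≤
      al * ((N : ℝ) / (d : ℝ)) * (1 / (p : ℝ) ^ 2) := by
    intro p hp
    obtain ⟨-, hpp, h13⟩ := Finset.mem_filter.1 hp
    rw [← Finset.sum_filter, Finset.sum_const, nsmul_eq_mul]
    have hcop : Nat.Coprime d p := by
      refine Nat.Coprime.coprime_dvd_left hd (Nat.Coprime.pow_left 4 ?_)
      refine Nat.Coprime.symm ((Nat.Prime.coprime_iff_not_dvd hpp).2 ?_)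
      intro hdv
      have e : (2310 : ℕ) = 2 * (3 * (5 * (7 * 11))) := by norm_num
      rw [e] at hdv
      simp only [Nat.Prime.dvd_mul hpp] at hdv
      rcases hdv with h | h | h | h | h <;> have := Nat.le_of_dvd (by norm_num) h <;> omega
    have h3 := gc5_cnt N (q := d * p) (Q.filter (fun n => p ∣ n)) (by
      intro n hn
      obtain ⟨hn1, hn2⟩ := Finset.mem_filter.1 hn
      obtain ⟨a, b, c⟩ := hQ n hn1
      exact ⟨a, b, Nat.Coprime.mul_dvd_of_dvd_of_dvd hcop c hn2⟩)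
    have hp0 : (0 : ℝ) < (p : ℝ) := by exact_mod_cast hpp.pos
    refine le_trans (mul_le_mul_of_nonneg_right h3 (div_nonneg hal hp0.le)) (le_of_eq ?_)
    push_cast
    rw [← div_div]
    field_simp
  refine le_trans (Finset.sum_le_sum h2) ?_
  rw [← Finset.mul_sum]
  have h4 := sum_inv_sq_primes T (fun p hp => (Finset.mem_filter.1 hp).2)
  have h5 : 0 ≤ al * ((N : ℝ) / (d : ℝ)) := mul_nonneg hal (by positivity)
  calc al * ((N : ℝ) / (d : ℝ)) * ∑ p ∈ T, 1 / (p : ℝ) ^ 2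
      ≤ al * ((N : ℝ) / (d : ℝ)) * (23 / 1000) := mul_le_mul_of_nonneg_left h4 h5
    _ = al * (23 / 1000) * ((N : ℝ) / (d : ℝ)) := by ring

theorem gc5_div_le (a b : ℕ) : (a : ℝ) / (b : ℝ) ≤ ((a / b + 1 : ℕ) : ℝ) := by
  rcases Nat.eq_zero_or_pos b with rfl | hb
  · simp
  · have hb' : (0 : ℝ) < (b : ℝ) := by exact_mod_cast hb
    rw [div_le_iff₀ hb']
    have : a ≤ (a / b + 1) * b := by
      have := Nat.lt_div_mul_add (a := a) hb
      nlinarith
    exact_mod_cast this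

/-- the load of a test of positive mode -/
noncomputable def gc5_f (C : Cert) (X j d n : ℕ) (t : Tst) : ℝ :=
  if t.mode = 0 then 0 else
    (if n ≤ t.y * X then (HH d : ℝ) * (t.w.getD j 0 : ℝ) *
      (if t.mode = 1 then sg ((C.al : ℝ) / 100000) n else 1) else 0)

theorem gc5_f_nonneg (C : Cert) (X j d n : ℕ) (t : Tst) : 0 ≤ gc5_f C X j d n t := by
  unfold gc5_f
  have := sg_nonneg (al := (C.al : ℝ) / 100000) (by positivity) n
  split_ifs <;> positivity

theorem gc5_test (C : Cert) (X j : ℕ) {d : ℕ} (hd : d ∣ 2310 ^ 4) (Q : Finset ℕ)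
    (hQ : ∀ n ∈ Q, 0 < n ∧ d ∣ n) (t : Tst) :
    ∑ n ∈ Q, gc5_f C X j d n t ≤
      ((if t.mode = 0 then 0
        else if t.mode = 1 then
          HH d * t.w.getD j 0 * t.y * C.al * 2300 / (d * 100000 * 100000) + 1
        else HH d * t.w.getD j 0 * t.y / d + 1 : ℕ) : ℝ) * (X : ℝ) := by
  unfold gc5_f
  by_cases h0 : t.mode = 0
  · simp [h0]
  simp only [if_neg h0]
  rw [← Finset.sum_filter, ← Finset.mul_sum]
  have hQ' : ∀ n ∈ Q.filter (fun n => n ≤ t.y * X), 0 < n ∧ n ≤ t.y * X ∧ d ∣ n := by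
    intro n hn
    obtain ⟨a, b⟩ := Finset.mem_filter.1 hn
    exact ⟨(hQ n a).1, b, (hQ n a).2⟩
  have hw : (0 : ℝ) ≤ (HH d : ℝ) * (t.w.getD j 0 : ℝ) := by positivity
  have hX : (0 : ℝ) ≤ (X : ℝ) := by positivity
  by_cases h1 : t.mode = 1
  · simp only [if_pos h1]
    have h2 := gc5_sg (al := (C.al : ℝ) / 100000) (by positivity) (t.y * X) hd _ hQ'
    refine le_trans (mul_le_mul_of_nonneg_left h2 hw) ?_
    refine le_trans (le_of_eq ?_) (mul_le_mul_of_nonneg_right (gc5_div_le _ _) hX)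
    push_cast
    ring
  · simp only [if_neg h1]
    rw [Finset.sum_const, nsmul_eq_mul, mul_one]
    have h2 := gc5_cnt (t.y * X) _ hQ'
    refine le_trans (mul_le_mul_of_nonneg_left h2 hw) ?_
    refine le_trans (le_of_eq ?_) (mul_le_mul_of_nonneg_right (gc5_div_le _ _) hX)
    push_cast
    ring

theorem gc5_swap {ι : Type} (Q : Finset ℕ) (l : List ι) (f : ℕ → ι → ℝ) :
    ∑ n ∈ Q, (l.map (fun t => f n t)).sum = (l.map (fun t => ∑ n ∈ Q, f n t)).sum := by
  induction l with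
  | nil => simp
  | cons t l ih => simp only [List.map_cons, List.sum_cons, Finset.sum_add_distrib, ih]

theorem gc5_list_le {ι : Type} (l : List ι) (f : ι → ℝ) (g : ι → ℕ) (X : ℝ)
    (h : ∀ t ∈ l, f t ≤ (g t : ℝ) * X) : (l.map f).sum ≤ ((l.map g).sum : ℕ) * X := by
  induction l with
  | nil => simp
  | cons t l ih =>
    simp only [List.map_cons, List.sum_cons, Nat.cast_add, add_mul]
    exact add_le_add (h t List.mem_cons_self) (ih (fun s hs => h s (List.mem_cons_of_mem _ hs)))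

theorem gc5_single (l : List ℕ) (f : ℕ → ℝ) (hf : ∀ d, 0 ≤ f d) {a : ℕ} (ha : a ∈ l) :
    f a ≤ (l.map (fun d => if a = d then f d else 0)).sum := by
  have h1 : (if a = a then f a else 0) ∈ l.map (fun d => if a = d then f d else 0) :=
    List.mem_map.2 ⟨a, ha, rfl⟩
  rw [if_pos rfl] at h1
  refine List.single_le_sum ?_ _ h1
  intro x hx
  obtain ⟨d, -, rfl⟩ := List.mem_map.1 hx
  split_ifs
  · exact hf d
  · exact le_rfl

theorem gc5_pos {C : Cert} (h : chkStatic C = true) {Q : Finset ℕ} (hQ : ∀ n ∈ Q, 0 < n)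
    (j X : ℕ) :
    ∑ n ∈ Q, ((look C.cls (Nat.gcd n C.M)).map
        (fun t => gc5_f C X j (Nat.gcd n C.M) n t)).sum ≤ (SL C j : ℝ) * (X : ℝ) := by
  obtain ⟨-, h2, h3, -, -, -⟩ := gc5_static h
  have hnn : ∀ n d, 0 ≤ ((look C.cls d).map (fun t => gc5_f C X j d n t)).sum := by
    intro n d
    refine List.sum_nonneg ?_
    intro x hx
    obtain ⟨t, -, rfl⟩ := List.mem_map.1 hx
    exact gc5_f_nonneg C X j d n t
  refine le_trans (Finset.sum_le_sum (fun n _ =>
    gc5_single C.dv (fun d => ((look C.cls d).map (fun t => gc5_f C X j d n t)).sum)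
      (hnn n) (h3 _ (Nat.gcd_dvd_right n C.M)))) ?_
  rw [gc5_swap Q C.dv (fun n d => if Nat.gcd n C.M = d then
    ((look C.cls d).map (fun t => gc5_f C X j d n t)).sum else 0)]
  unfold SL
  refine gc5_list_le _ _ _ _ ?_
  intro d _
  rw [← Finset.sum_filter, gc5_swap]
  refine gc5_list_le _ _ _ _ ?_
  intro t _
  by_cases hd : d ∣ C.M
  · refine gc5_test C X j (hd.trans h2) _ ?_ t
    intro n hn
    obtain ⟨a, b⟩ := Finset.mem_filter.1 hn
    exact ⟨hQ n a, b ▸ Nat.gcd_dvd_left n C.M⟩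
  · have he : Q.filter (fun n => Nat.gcd n C.M = d) = ∅ := by
      refine Finset.filter_eq_empty_iff.2 (fun n _ hn => hd ?_)
      rw [← hn]; exact Nat.gcd_dvd_right n C.M
    rw [he, Finset.sum_empty]
    positivity

theorem gc5_split {C : Cert} (h : chkStatic C = true) {n : ℕ} (hn : 0 < n) (j X : ℕ) :
    ((ent C n).map (fun t => if n ≤ t.y * X then ld C n t j else 0)).sum ≤
      (∑ y ∈ ({1, 2, 3, 4} : Finset ℕ),
        if n ≤ y * X then (vec (ent C n) (Hn C n) y j : ℝ) else 0) +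
      ((look C.cls (Nat.gcd n C.M)).map (fun t => gc5_f C X j (Nat.gcd n C.M) n t)).sum := by
  rw [← gc5_zero (ent C n) (fun t ht => gc5_ent h hn ht) (Hn C n) n X j]
  obtain ⟨-, -, -, -, h5, -⟩ := gc5_static h
  by_cases hle : n ≤ C.n1
  · have e1 : ((ent C n).map (fun t => if n ≤ t.y * X then ld C n t j else 0)) =
        (ent C n).map (fun t => if t.mode = 0 then
          (if n ≤ t.y * X then (Hn C n : ℝ) * (t.w.getD j 0 : ℝ) else 0) else 0) := by
      refine List.map_congr_left ?_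
      intro t ht
      have ht' : t ∈ look C.small n := by
        unfold ent at ht
        rwa [if_pos hle] at ht
      have hm := (gc5_small (h5 n hn hle) ht').2.1
      unfold ld
      simp [hm]
    rw [e1]
    refine le_add_of_nonneg_right (List.sum_nonneg ?_)
    intro x hx
    obtain ⟨t, -, rfl⟩ := List.mem_map.1 hx
    exact gc5_f_nonneg C X j _ n t
  · have e0 : ent C n = look C.cls (Nat.gcd n C.M) := by
      unfold ent; rw [if_neg hle]
    have e2 : Hn C n = HH (Nat.gcd n C.M) := by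
      unfold Hn; rw [if_neg hle]
    rw [← e0, ← List.sum_map_add]
    refine le_of_eq (congrArg List.sum (List.map_congr_left ?_))
    intro t _
    unfold ld gc5_f
    rw [e2]
    by_cases hm : t.mode = 0
    · simp [hm]
    · simp [hm]

theorem ent_y_pos {C : Cert} (h : chkStatic C = true) {n : ℕ} (hn : 0 < n) {t : Tst}
    (ht : t ∈ ent C n) : 1 ≤ t.y := by
  exact (gc5_ent h hn ht).1

/-- the loads of all tests up to `X` -/
theorem load_le {C : Cert} (h : chkStatic C = true) (hl : LoopOK C) {Q : Finset ℕ}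
    (hQ : ∀ n ∈ Q, 0 < n) {j : ℕ} (hj : j < C.J) {X : ℕ} (hX : C.xmin.getD j 0 ≤ X) :
    ∑ n ∈ Q, ((ent C n).map (fun t => if n ≤ t.y * X then ld C n t j else 0)).sum
      ≤ (C.rN : ℝ) * (X : ℝ) := by
  refine le_trans (Finset.sum_le_sum (fun n hn => gc5_split h (hQ n hn) j X)) ?_
  rw [Finset.sum_add_distrib]
  have h1 := gc5_pos h hQ j X
  have h2 : (∑ n ∈ Q, ∑ y ∈ ({1, 2, 3, 4} : Finset ℕ),
      if n ≤ y * X then (vec (ent C n) (Hn C n) y j : ℝ) else 0) ≤ (Lx C X j : ℝ) := by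
    rw [Finset.sum_comm]
    unfold Lx
    push_cast
    refine Finset.sum_le_sum (fun y _ => ?_)
    rw [← Finset.sum_filter]
    refine Finset.sum_le_sum_of_subset_of_nonneg ?_ (fun n _ _ => by positivity)
    intro n hn
    obtain ⟨a, b⟩ := Finset.mem_filter.1 hn
    exact Finset.mem_Icc.2 ⟨hQ n a, b⟩
  have h3 : (Lx C X j : ℝ) ≤ (C.rho.getD j 0 : ℝ) * (X : ℝ) := by
    exact_mod_cast Lx_le h hl hj hX
  have h4 : (C.rho.getD j 0 : ℝ) + (SL C j : ℝ) ≤ (C.rN : ℝ) := by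
    exact_mod_cast (gc5_static h).2.2.2.2.2 j hj
  have hX0 : (0 : ℝ) ≤ (X : ℝ) := by positivity
  have h5 := mul_le_mul_of_nonneg_right h4 hX0
  linarith

end Pool.Agent.Lib.MP_4652a8_nt
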