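import Pool.Agent.Lib.MP_4652a8_nt.GC3
import Pool.Agent.Lib.MP_4652a8_nt.GC5

set_option autoImplicit false

namespace Pool.Agent.Lib.MP_4652a8_nt
open Finset

theorem gc6_abel (l G : ℕ → ℝ) (N : ℕ) : ∑ x ∈ range N, l x * G x =
    ∑ X ∈ range N, (∑ x ∈ range (X + 1), l x) * (G X - G (X + 1)) +
      (∑ x ∈ range N, l x) * G N := by
  induction N with
  | zero => simp
  | succ N ih =>
    rw [Finset.sum_range_succ, ih, Finset.sum_range_succ _ N, Finset.sum_range_succ l N]
    ring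

theorem gc6_swap {α ι : Type} (L : List α) (T : Finset ι) (f : α → ι → ℝ) :
    ∑ x ∈ T, (L.map (fun t => f t x)).sum = (L.map (fun t => ∑ x ∈ T, f t x)).sum := by
  induction L with
  | nil => simp
  | cons a L ih => simp only [List.map_cons, List.sum_cons, Finset.sum_add_distrib, ih]

theorem gc6_psi {C : Cert} (h : chkStatic C = true) : chkPsi C = true := by
  simp only [chkStatic, Bool.and_eq_true] at h
  exact h.1.1.1.1.2

/-- Abel summation against an antitone weight that is constant on `[0, X0)` -/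
theorem abel_le (l G : ℕ → ℝ) (r : ℝ) (X0 N : ℕ) (hG : Antitone G) (hG0 : ∀ x, N ≤ x → G x = 0)
    (hc : ∀ x, x < X0 → G x = G 0) (hl : ∀ X, 1 ≤ X → X0 ≤ X → ∑ x ∈ range X, l x ≤ r * X) :
    ∑ x ∈ range N, l x * G x ≤ r * ∑ x ∈ range N, G x := by
  have h1 : ∑ x ∈ range N, (l x - r) * G x ≤ 0 := by
    rw [gc6_abel, hG0 N le_rfl, mul_zero, add_zero]
    refine Finset.sum_nonpos fun X _ => ?_
    rcases lt_or_ge (X + 1) X0 with h | h
    · rw [hc X (by omega), hc (X + 1) h, sub_self, mul_zero]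
    · refine mul_nonpos_of_nonpos_of_nonneg ?_ (sub_nonneg.2 (hG X.le_succ))
      rw [Finset.sum_sub_distrib, Finset.sum_const, Finset.card_range, nsmul_eq_mul, mul_comm]
      exact sub_nonpos.2 (hl (X + 1) (by omega) h)
  simp only [sub_mul, Finset.sum_sub_distrib, ← Finset.mul_sum] at h1
  exact sub_nonpos.1 h1

theorem gc6_zone {C : Cert} (h : chkStatic C = true) (hl : LoopOK C) {Q : Finset ℕ}
    (hQ : ∀ n ∈ Q, 0 < n) {s : ℕ → ℝ} (ha : Antitone s) {N : ℕ} (h0 : ∀ x, N ≤ x → s x = 0)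
    {j : ℕ} (hj : j < C.J) (hf : C.xmin.getD j 0 ≤ 1 ∨
      ∀ x, x < C.xmin.getD j 0 → (C.psi.getD j 0 : ℝ) / 100000 ≤ s x) :
    ∑ n ∈ Q, ((ent C n).map (fun t => ld C n t j * zone C j (s ((n - 1) / t.y)))).sum ≤
      (C.rN : ℝ) * ∑ x ∈ range N, zone C j (s x) := by
  have hp := gc6_psi h
  have hz : ∀ x, N ≤ x → zone C j (s x) = 0 := by
    intro x hx
    rw [h0 x hx, zone, min_eq_left (by positivity), min_eq_left (by positivity), sub_self]
  have h1 := abel_le (fun x => ∑ n ∈ Q,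
      ((ent C n).map (fun t => if (n - 1) / t.y = x then ld C n t j else 0)).sum)
    (fun x => zone C j (s x)) C.rN (C.xmin.getD j 0) N
    (fun x y hxy => zone_mono hp hj (ha hxy)) hz ?_ ?_
  · refine le_of_eq_of_le ?_ h1
    simp only [Finset.sum_mul]
    rw [Finset.sum_comm]
    refine Finset.sum_congr rfl fun n _ => ?_
    simp only [← List.sum_map_mul_right]
    rw [gc6_swap]
    refine congrArg List.sum (List.map_congr_left fun t _ => ?_)
    simp only [ite_mul, zero_mul]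
    rw [Finset.sum_ite_eq]
    split_ifs with hx
    · rfl
    · rw [hz _ (not_lt.1 fun e => hx (Finset.mem_range.2 e)), mul_zero]
  · intro x hx
    rcases hf with hf | hf
    · rw [show x = 0 by omega]
    · have h2 : (C.psi.getD (j + 1) 0 : ℝ) / 100000 ≤ (C.psi.getD j 0 : ℝ) / 100000 := by
        have h3 := List.all_eq_true.1 hp j (List.mem_range.2 hj)
        exact div_le_div_of_nonneg_right (by exact_mod_cast of_decide_eq_true h3) (by norm_num)
      have h4 := hf x hx
      have h5 := hf 0 (by omega)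
      simp only [zone]
      rw [min_eq_right h4, min_eq_right h5, min_eq_right (h2.trans h4), min_eq_right (h2.trans h5)]
  · intro X _ hX
    refine le_of_eq_of_le ?_ (load_le h hl hQ hj hX)
    rw [Finset.sum_comm]
    refine Finset.sum_congr rfl fun n hn => ?_
    rw [gc6_swap]
    refine congrArg List.sum (List.map_congr_left fun t ht => ?_)
    rw [Finset.sum_ite_eq]
    refine if_congr ?_ rfl rfl
    have h2 := hQ n hn
    rw [Finset.mem_range, Nat.div_lt_iff_lt_mul (ent_y_pos h h2 ht), mul_comm]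
    omega

/-- soundness of a certificate -/
theorem cert_sound {C : Cert} (h : chkStatic C = true) (hl : LoopOK C) {Q : Finset ℕ}
    (hQ : ∀ n ∈ Q, 0 < n) {s : ℕ → ℝ} (hs : ∀ x, 0 ≤ s x) (ha : Antitone s) {N : ℕ}
    (h0 : ∀ x, N ≤ x → s x = 0) (hT : TestOK C Q s)
    (hf : ∀ j, j < C.J → C.xmin.getD j 0 ≤ 1 ∨
      ∀ x, x < C.xmin.getD j 0 → (C.psi.getD j 0 : ℝ) / 100000 ≤ s x) :
    Wt ((C.al : ℝ) / 100000) ((C.cn : ℝ) / (C.cd : ℝ)) Q ≤
      (C.rN : ℝ) / (2310 * 10000) * ∑ x ∈ range N, s x := by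
  have h1 : Wt ((C.al : ℝ) / 100000) ((C.cn : ℝ) / (C.cd : ℝ)) Q * (2310 * 10000) ≤
      (C.rN : ℝ) * ∑ x ∈ range N, s x := by
    unfold Wt
    rw [Finset.sum_mul]
    refine (Finset.sum_le_sum fun n hn => pointwise h hs hT hn (hQ n hn)).trans ?_
    simp only [← gc6_swap]
    rw [Finset.sum_comm]
    refine (Finset.sum_le_sum fun j hj => gc6_zone h hl hQ ha h0 (Finset.mem_range.1 hj)
      (hf j (Finset.mem_range.1 hj))).trans ?_
    rw [← Finset.mul_sum, Finset.sum_comm]
    exact mul_le_mul_of_nonneg_left (Finset.sum_le_sum fun x _ => sum_zone_le C (hs x))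
      (Nat.cast_nonneg _)
  rw [div_mul_eq_mul_div, le_div_iff₀ (by norm_num)]
  exact h1

end Pool.Agent.Lib.MP_4652a8_nt
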