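import Pool.Agent.Lib.MP_4652a8_nt.GDefs

set_option autoImplicit false

namespace Pool.Agent.Lib.MP_4652a8_nt
open Finset

/-! ### Certificates for the inequality `Wt Q ≤ r * ∑ x, s x`.
Probabilities are numerators over `100000`, weights are numerators over `10000`. -/

structure Tst where
  e2 : ℕ
  e3 : ℕ
  e5 : ℕ
  e7 : ℕ
  half : Bool
  mode : ℕ
  y : ℕ
  w : List ℕ

inductive Tr where
  | leaf : Tr
  | node : Tr → ℕ → ℕ → Tr → Tr

structure Cert where
  M : ℕ
  n1 : ℕ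
  a5 : ℕ
  a25 : ℕ
  a7 : ℕ
  a49 : ℕ
  a11 : ℕ
  be : ℕ
  al : ℕ
  cn : ℕ
  cd : ℕ
  psi : List ℕ
  xmin : List ℕ
  rho : List ℕ
  rN : ℕ
  dv : List ℕ
  small : List (ℕ × List Tst)
  cls : List (ℕ × List Tst)
  s1 : Tr
  s2 : Tr
  s3 : Tr
  s4 : Tr
  c1 : Tr
  c2 : Tr
  c3 : Tr
  c4 : Tr

/-- bound (over `100000`) for the probability that `p ^ e` divides `m` -/
def aa (C : Cert) (p e : ℕ) : ℕ :=
  if p = 2 then (if e = 1 then 60000 else if e = 2 then 37700 else if e = 3 then 20300 else 100000)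
  else if p = 3 then (if e = 1 then 42000 else if e = 2 then 16500 else 100000)
  else if p = 5 then (if e = 1 then C.a5 else if e = 2 then C.a25 else 100000)
  else if p = 7 then (if e = 1 then C.a7 else if e = 2 then C.a49 else 100000)
  else if p = 11 then (if e = 1 then C.a11 else 100000)
  else 100000

def cost (C : Cert) (M d p e : ℕ) : ℕ := if d % Nat.gcd (p ^ e) M = 0 then aa C p e else 0

def Tst.Y (t : Tst) : ℕ := 2 ^ (t.e2 - 1) * 3 ^ (t.e3 - 1) * 5 ^ (t.e5 - 1) * 7 ^ (t.e7 - 1)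

/-- the test is admissible for the numbers `n` with `gcd n M = d` -/
def tv (M d : ℕ) (t : Tst) : Bool :=
  decide (1 ≤ t.y) && decide (M % t.Y = 0) && decide (Nat.gcd t.Y d ≤ t.y) &&
    (!t.half || decide (t.e2 = 1))

def oddCost (C : Cert) (M d : ℕ) (t : Tst) : ℕ :=
  cost C M d 3 t.e3 + cost C M d 5 t.e5 + cost C M d 7 t.e7 + cost C M d 11 1

/-- guaranteed success (over `100000`) of the test, before the primes `≥ 13` -/
def sig0 (C : Cert) (M d : ℕ) (t : Tst) : ℕ :=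
  if t.half then (100000 - C.be - 37700 - oddCost C M d t) / 2
  else 100000 - C.be - cost C M d 2 t.e2 - oddCost C M d t

noncomputable def tau (t : Tst) : ℝ := if t.half then 1 / 2 else 1

def Cert.J (C : Cert) : ℕ := C.psi.length - 1

def yld (C : Cert) (w : List ℕ) (s : ℕ) : ℕ :=
  ((List.range C.J).map (fun j =>
    w.getD j 0 * (min s (C.psi.getD j 0) - min s (C.psi.getD (j + 1) 0)))).sum

def maxw (w : List ℕ) : ℕ := w.foldr max 0

def look (l : List (ℕ × List Tst)) (k : ℕ) : List Tst :=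
  match l with
  | [] => []
  | (k', ts) :: l' => if k' = k then ts else look l' k

def isP (q : ℕ) : Bool :=
  decide (2 ≤ q) && (List.range q).all (fun d => decide (d < 2) || decide (q % d ≠ 0))

def bigp (n : ℕ) : List ℕ :=
  (List.range (n + 1)).filter (fun q => decide (13 ≤ q) && decide (n % q = 0) && isP q)

def chkPsi (C : Cert) : Bool :=
  (List.range C.J).all (fun j => decide (C.psi.getD (j + 1) 0 ≤ C.psi.getD j 0))

def chkSmall (C : Cert) (n : ℕ) : Bool :=
  let ts := look C.small n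
  let hi := ((bigp n).map (fun q => (C.al + q - 1) / q)).sum
  let lo := ((bigp n).map (fun q => C.cn * C.al / (C.cd * q))).sum
  ts.all (fun t => tv 0 n t && decide (t.mode = 0) && decide (t.y ≤ 4)) &&
    decide (10000 * (100000 - lo) ≤
      (ts.map (fun t => yld C t.w (sig0 C 0 n t - (if t.half then (hi + 1) / 2 else hi)))).sum)

def chkCls (C : Cert) (d : ℕ) : Bool :=
  let ts := look C.cls d
  let k1 := (100000 * C.cd + C.cn - 1) / C.cn
  ts.all (fun t => tv C.M d t && (decide (t.mode ≠ 0) || decide (t.y ≤ 4))) &&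
    decide (10000 * 100000 ≤
      (ts.map (fun t => if t.mode = 1 then 0 else yld C t.w (sig0 C C.M d t))).sum) &&
    decide (C.cd * 100000 *
        (ts.map (fun t => if t.mode = 1 then 0 else (if t.half then 1 else 2) * maxw t.w)).sum ≤
      2 * C.cn * 10000 * 100000 + 2 * C.cd *
        (ts.map (fun t => if t.mode = 1 then
          yld C t.w (sig0 C C.M d t - (if t.half then (k1 + 1) / 2 else k1)) else 0)).sum)

/-- `2310 * ∏ (1 - 1/q)` over the primes `q ≤ 11` dividing `d` -/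
def HH (d : ℕ) : ℕ :=
  (if d % 2 = 0 then 1 else 2) * (if d % 3 = 0 then 2 else 3) * (if d % 5 = 0 then 4 else 5) *
    (if d % 7 = 0 then 6 else 7) * (if d % 11 = 0 then 10 else 11)

def vec (ts : List Tst) (h y j : ℕ) : ℕ :=
  h * (ts.map (fun t => if t.mode = 0 ∧ t.y = y then t.w.getD j 0 else 0)).sum

def pk (C : Cert) (ts : List Tst) (h y : ℕ) : ℕ :=
  ((List.range C.J).map (fun j => vec ts h y j * 18446744073709551616 ^ j)).sum

noncomputable def Tr.get (t : Tr) (d : ℕ) : ℕ :=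
  Tr.rec (motive := fun _ => ℕ) 0
    (fun _ k v _ a b => Bool.rec b (Bool.rec a v (Nat.ble k d)) (Nat.ble d k)) t

noncomputable def chkRow (C : Cert) (t1 t2 t3 t4 : Tr) (ts : List Tst) (k : ℕ) : Bool :=
  decide (t1.get k = pk C ts (HH k) 1) && decide (t2.get k = pk C ts (HH k) 2) &&
    decide (t3.get k = pk C ts (HH k) 3) && decide (t4.get k = pk C ts (HH k) 4) &&
    [1, 2, 3, 4].all (fun y => (List.range C.J).all
      (fun j => decide (vec ts (HH k) y j < 1099511627776)))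

/-- linear bound for the loads of the tests of mode `≥ 1` -/
def SL (C : Cert) (j : ℕ) : ℕ :=
  (C.dv.map (fun d => ((look C.cls d).map (fun t =>
    if t.mode = 0 then 0
    else if t.mode = 1 then HH d * t.w.getD j 0 * t.y * C.al * 2300 / (d * 100000 * 100000) + 1
    else HH d * t.w.getD j 0 * t.y / d + 1)).sum)).sum

/-- all checks except the long loop -/
noncomputable def chkStatic (C : Cert) : Bool :=
  decide (1 ≤ C.M) && decide (2310 ^ 4 % C.M = 0) && decide (C.n1 + C.M < 1000000) && decide (1 ≤ C.cn) && decide (1 ≤ C.cd) &&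
    decide (C.rho.length = C.J) && decide (C.xmin.length = C.J) && chkPsi C &&
    (List.range (C.M + 1)).all (fun d => decide (C.M % d ≠ 0) || C.dv.elem d) &&
    C.dv.all (fun d => decide (1 ≤ d) && chkCls C d &&
      chkRow C C.c1 C.c2 C.c3 C.c4 (look C.cls d) d) &&
    (List.range C.n1).all (fun i => chkSmall C (i + 1) &&
      chkRow C C.s1 C.s2 C.s3 C.s4 (look C.small (i + 1)) (i + 1)) &&
    (List.range C.J).all (fun j => decide (C.rho.getD j 0 + SL C j ≤ C.rN) &&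
      decide (C.xmin.getD j 0 ≤ C.n1 + 1))

def frc (x : ℕ) (k : ℕ → Bool) : Bool := match x with | 0 => k 0 | n + 1 => k (n + 1)

def frn (x : ℕ) (k : ℕ → ℕ) : ℕ := match x with | 0 => k 0 | n + 1 => k (n + 1)

noncomputable def gv (C : Cert) (ts tc : Tr) (n : ℕ) : ℕ :=
  frn n (fun n' => Bool.rec (frn (Nat.gcd n' C.M) (fun d => tc.get d)) (ts.get n')
    (Nat.ble n' C.n1))

/-- packed increment of the loads at `X` -/
noncomputable def stp (C : Cert) (X : ℕ) : ℕ :=
  gv C C.s1 C.c1 X + gv C C.s2 C.c2 (2 * X) + gv C C.s2 C.c2 (2 * X - 1) +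
    gv C C.s3 C.c3 (3 * X) + gv C C.s3 C.c3 (3 * X - 1) + gv C C.s3 C.c3 (3 * X - 2) +
    gv C C.s4 C.c4 (4 * X) + gv C C.s4 C.c4 (4 * X - 1) + gv C C.s4 C.c4 (4 * X - 2) +
    gv C C.s4 C.c4 (4 * X - 3)

/-- digit `j` of the argument is at most `rho j * X` whenever `xmin j ≤ X` -/
noncomputable def okL (X : ℕ) (l : List (ℕ × ℕ)) : ℕ → Bool :=
  List.rec (motive := fun _ => ℕ → Bool) (fun _ => true)
    (fun q _ ih a => (Nat.ble (X + 1) q.2 || Nat.ble (a % 18446744073709551616) (q.1 * X)) &&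
      ih (a / 18446744073709551616)) l

noncomputable def loop (C : Cert) (l : List (ℕ × ℕ)) (e f : ℕ) : ℕ → ℕ → Bool :=
  Nat.rec (motive := fun _ => ℕ → ℕ → Bool) (fun _ acc => Nat.beq acc e)
    (fun _ ih X acc => frc (stp C X + acc)
      (fun acc' => okL X l acc' && frc (X + 1) (fun X' => ih X' acc'))) f

/-- packed loads up to `X` -/
noncomputable def Acc (C : Cert) (X : ℕ) : ℕ := ∑ x ∈ range X, stp C (x + 1)

/-- what the long loop verifies -/
def LoopOK (C : Cert) : Prop :=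
  (∀ X, 1 ≤ X → X ≤ C.n1 + C.M → okL X (C.rho.zip C.xmin) (Acc C X) = true) ∧
    okL C.M (C.rho.map (fun r => (r, 0))) (Acc C (C.n1 + C.M) - Acc C C.n1) = true

/-- the tests used for `n` -/
def ent (C : Cert) (n : ℕ) : List Tst :=
  if n ≤ C.n1 then look C.small n else look C.cls (Nat.gcd n C.M)

def Hn (C : Cert) (n : ℕ) : ℕ := if n ≤ C.n1 then HH n else HH (Nat.gcd n C.M)

/-- exact load of zone `j` up to `X` -/
def Lx (C : Cert) (X j : ℕ) : ℕ :=
  ∑ y ∈ ({1, 2, 3, 4} : Finset ℕ), ∑ n ∈ Icc 1 (y * X), vec (ent C n) (Hn C n) y j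

/-- the part of `s` in zone `j` -/
noncomputable def zone (C : Cert) (j : ℕ) (s : ℝ) : ℝ :=
  min s ((C.psi.getD j 0 : ℝ) / 100000) - min s ((C.psi.getD (j + 1) 0 : ℝ) / 100000)

/-- weight of test `t` for the number `n` in zone `j` -/
noncomputable def ld (C : Cert) (n : ℕ) (t : Tst) (j : ℕ) : ℝ :=
  (Hn C n : ℝ) * (t.w.getD j 0 : ℝ) * (if t.mode = 1 then sg ((C.al : ℝ) / 100000) n else 1)

/-- every admissible test succeeds with the guaranteed probability -/
def TestOK (C : Cert) (Q : Finset ℕ) (s : ℕ → ℝ) : Prop :=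
  ∀ n ∈ Q, ∀ (M : ℕ) (t : Tst), tv M (Nat.gcd n M) t = true →
    (sig0 C M (Nat.gcd n M) t : ℝ) / 100000 - tau t * sg ((C.al : ℝ) / 100000) n
      ≤ s ((n - 1) / t.y)

/-- the probabilistic hypotheses under which the tests succeed -/
def Hyp (C : Cert) (P Q : Finset ℕ) : Prop :=
  (∀ n ∈ Q, ∀ p ∈ [2, 3, 5, 7, 11], ∀ e : ℕ, p ^ e ∣ n →
      ms P Q (p ^ e) ≤ (aa C p e : ℝ) / 100000 * S P Q) ∧
    ms P Q 4 ≤ (377 / 1000) * S P Q ∧
    (∀ n ∈ Q, ∀ p : ℕ, p.Prime → 13 ≤ p → p ∣ n →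
      ms P Q p ≤ (C.al : ℝ) / 100000 / (p : ℝ) * S P Q) ∧
    (1 - (C.be : ℝ) / 100000) * S P Q ≤
      ∑ m ∈ P, wt Q m * uu ((C.al : ℝ) / 100000) ((C.cn : ℝ) / (C.cd : ℝ)) m

end Pool.Agent.Lib.MP_4652a8_nt
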