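import Pool.Agent.Lib.MP_4652a8_nt.GDefs

set_option autoImplicit false

namespace Pool.Agent.Lib.MP_4652a8_nt
open Finset

theorem gcentre_geo {r : ℝ} (hr : 0 ≤ r) (hr1 : r < 1) (T : Finset ℤ) (l : ℤ) (D : ℕ)
    (h : ∀ i ∈ T, D ≤ (i - l).natAbs) : ∑ i ∈ T, r ^ (i - l).natAbs ≤ 2 * (r ^ D / (1 - r)) := by
  rw [Finset.sum_comp (fun n : ℕ => r ^ n) (fun i : ℤ => (i - l).natAbs)]
  set U := T.image fun i : ℤ => (i - l).natAbs with hU
  have h1 : ∑ n ∈ U, (T.filter fun i => (i - l).natAbs = n).card • r ^ n ≤ ∑ n ∈ U, 2 * r ^ n := by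
    refine Finset.sum_le_sum fun n _ => ?_
    rw [nsmul_eq_mul]
    refine mul_le_mul_of_nonneg_right ?_ (pow_nonneg hr n)
    have h2 : (T.filter fun i => (i - l).natAbs = n) ⊆ {l + n, l - n} := by
      intro i hi
      have := (Finset.mem_filter.1 hi).2
      simp only [Finset.mem_insert, Finset.mem_singleton]
      omega
    have h3 := (Finset.card_le_card h2).trans Finset.card_le_two
    exact_mod_cast h3
  refine h1.trans ?_
  rw [← Finset.mul_sum]
  refine mul_le_mul_of_nonneg_left ?_ (by norm_num)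
  refine le_trans ?_ (geom_sum_Ico_le_of_lt_one (m := D) (n := U.sup id + 1) hr hr1)
  refine Finset.sum_le_sum_of_subset_of_nonneg ?_ fun n _ _ => pow_nonneg hr n
  intro n hn
  have h4 : n ≤ U.sup id := Finset.le_sup (f := id) hn
  obtain ⟨i, hi, rfl⟩ := Finset.mem_image.1 hn
  rw [Finset.mem_Ico]
  exact ⟨h i hi, by omega⟩

theorem gcentre_amgm {a b K : ℝ} (ha : 0 ≤ a) (hb : 0 ≤ b) (hK : 1 ≤ K) {d : ℕ}
    (h : a * b * 2 ^ d ≤ K) : a * b ≤ K * (3 / 4) ^ d * a + K * (3 / 4) ^ d * b := by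
  set s : ℝ := K * (3 / 4) ^ d with hs
  have hs0 : 0 ≤ s := by positivity
  have h2 : (0 : ℝ) < 2 ^ d := by positivity
  have h3 : a * b ≤ s ^ 2 := by
    refine le_of_mul_le_mul_right ?_ h2
    refine h.trans ?_
    have h4 : (1 : ℝ) ≤ ((3 / 4) ^ d) ^ 2 * 2 ^ d := by
      rw [← pow_mul, mul_comm d 2, pow_mul, ← mul_pow]
      exact one_le_pow₀ (by norm_num)
    calc K ≤ K ^ 2 * 1 := by nlinarith
      _ ≤ K ^ 2 * (((3 / 4) ^ d) ^ 2 * 2 ^ d) := mul_le_mul_of_nonneg_left h4 (by positivity)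
      _ = s ^ 2 * 2 ^ d := by rw [hs]; ring
  rcases le_total a b with hab | hab
  · have h5 : a ≤ s := by
      by_contra h6
      have h7 : s < a := not_le.1 h6
      nlinarith
    nlinarith [mul_nonneg hs0 ha]
  · have h5 : b ≤ s := by
      by_contra h6
      have h7 : s < b := not_le.1 h6
      nlinarith
    nlinarith [mul_nonneg hs0 hb]

theorem gcentre_lower (α β : ℤ → ℝ) (I J : Finset ℤ) (hα : ∀ i, 0 ≤ α i) (hβ : ∀ j, 0 ≤ β j)
    (sα : ∑ i ∈ I, α i = 1) (sβ : ∑ j ∈ J, β j = 1) {K : ℝ} (hK : 1 ≤ K)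
    (h : ∀ i j, α i * β j * 2 ^ (i - j).natAbs ≤ K) {D : ℕ} (hD : 16 * K * (3 / 4) ^ D ≤ 1 / 2)
    {M : ℝ} (hM : ∀ i ∈ I, α i ≤ M) (hM0 : 0 ≤ M) : 1 / 2 ≤ (2 * D + 1) * M := by
  have hK0 : 0 ≤ K := by linarith
  have key : ∀ i ∈ I, ∀ j ∈ J, α i * β j ≤
      (if (i - j).natAbs < D then M * β j else 0) +
        ((if D ≤ (j - i).natAbs then K * (3 / 4) ^ (j - i).natAbs * α i else 0) +
        (if D ≤ (i - j).natAbs then K * (3 / 4) ^ (i - j).natAbs * β j else 0)) := by
    intro i hi j _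
    have e : (j - i).natAbs = (i - j).natAbs := by omega
    rw [e]
    by_cases hd : (i - j).natAbs < D
    · rw [if_pos hd, if_neg (by omega), if_neg (by omega)]
      have := mul_le_mul_of_nonneg_right (hM i hi) (hβ j)
      linarith
    · rw [if_neg hd, if_pos (by omega), if_pos (by omega), zero_add]
      exact gcentre_amgm (hα i) (hβ j) hK (h i j)
  have h1 : (1 : ℝ) = ∑ i ∈ I, ∑ j ∈ J, α i * β j := by
    rw [← Finset.sum_mul_sum, sα, sβ, one_mul]
  have h2 := Finset.sum_le_sum fun i hi => Finset.sum_le_sum fun j hj => key i hi j hj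
  rw [← h1] at h2
  simp only [Finset.sum_add_distrib] at h2
  have far : ∀ (T : Finset ℤ) (l : ℤ) (w : ℝ), 0 ≤ w →
      ∑ i ∈ T, (if D ≤ (i - l).natAbs then K * (3 / 4) ^ (i - l).natAbs * w else 0) ≤
        8 * K * (3 / 4) ^ D * w := by
    intro T l w hw
    rw [← Finset.sum_filter, ← Finset.sum_mul, ← Finset.mul_sum]
    refine mul_le_mul_of_nonneg_right ?_ hw
    have h3 := gcentre_geo (r := 3 / 4) (by norm_num) (by norm_num)
      (T.filter fun i => D ≤ (i - l).natAbs) l D fun i hi => (Finset.mem_filter.1 hi).2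
    have h4 := mul_le_mul_of_nonneg_left h3 hK0
    refine h4.trans (le_of_eq ?_)
    ring
  have a1 : ∑ i ∈ I, ∑ j ∈ J, (if (i - j).natAbs < D then M * β j else 0) ≤ (2 * D + 1) * M := by
    rw [Finset.sum_comm]
    calc ∑ j ∈ J, ∑ i ∈ I, (if (i - j).natAbs < D then M * β j else 0)
        ≤ ∑ j ∈ J, (2 * D + 1) * M * β j := by
          refine Finset.sum_le_sum fun j _ => ?_
          rw [← Finset.sum_filter, Finset.sum_const, nsmul_eq_mul, mul_assoc]
          refine mul_le_mul_of_nonneg_right ?_ (mul_nonneg hM0 (hβ j))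
          have h3 : (I.filter fun i => (i - j).natAbs < D) ⊆ Finset.Icc (j - D) (j + D) := by
            intro i hi
            have := (Finset.mem_filter.1 hi).2
            rw [Finset.mem_Icc]
            omega
          have h4 := Finset.card_le_card h3
          rw [Int.card_Icc] at h4
          have h5 : (I.filter fun i => (i - j).natAbs < D).card ≤ 2 * D + 1 := by omega
          exact_mod_cast h5
      _ = (2 * D + 1) * M := by rw [← Finset.mul_sum, sβ, mul_one]
  have a2 : ∑ i ∈ I, ∑ j ∈ J,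
      (if D ≤ (j - i).natAbs then K * (3 / 4) ^ (j - i).natAbs * α i else 0) ≤
      8 * K * (3 / 4) ^ D := by
    refine (Finset.sum_le_sum fun i _ => far J i (α i) (hα i)).trans (le_of_eq ?_)
    rw [← Finset.mul_sum, sα, mul_one]
  have a3 : ∑ i ∈ I, ∑ j ∈ J,
      (if D ≤ (i - j).natAbs then K * (3 / 4) ^ (i - j).natAbs * β j else 0) ≤
      8 * K * (3 / 4) ^ D := by
    rw [Finset.sum_comm]
    refine (Finset.sum_le_sum fun j _ => far I j (β j) (hβ j)).trans (le_of_eq ?_)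
    rw [← Finset.mul_sum, sβ, mul_one]
  linarith

theorem gcentre_tail (A : Finset ℚ) (x : ℚ → ℤ) {q C0 : ℝ} (hq : 2 ≤ q) (hC : 0 ≤ C0) (l : ℤ)
    (h : ∀ i : ℤ, ((A.filter (fun a => x a = i)).card : ℝ) * q ^ (i - l).natAbs ≤ C0)
    (t : ℕ) (p : ℚ → Prop) [DecidablePred p] (hp : ∀ a, p a → t ≤ (x a - l).natAbs) :
    ((A.filter p).card : ℝ) * q ^ t ≤ 4 * C0 := by
  have hq0 : 0 < q := by linarith
  set T := (A.filter p).image x with hT
  have h1 : (A.filter p).card ≤ ∑ i ∈ T, (A.filter (fun a => x a = i)).card := by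
    rw [Finset.card_eq_sum_card_image x (A.filter p)]
    refine Finset.sum_le_sum fun i _ => Finset.card_le_card ?_
    exact Finset.filter_subset_filter _ (Finset.filter_subset _ _)
  have h2 : ((A.filter p).card : ℝ) ≤ ∑ i ∈ T, ((A.filter (fun a => x a = i)).card : ℝ) := by
    exact_mod_cast h1
  have h3 : ∑ i ∈ T, ((A.filter (fun a => x a = i)).card : ℝ) ≤
      ∑ i ∈ T, C0 * q⁻¹ ^ (i - l).natAbs := by
    refine Finset.sum_le_sum fun i _ => ?_
    rw [inv_pow, ← div_eq_mul_inv, le_div_iff₀ (pow_pos hq0 _)]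
    exact h i
  have hi : q⁻¹ ≤ 1 / 2 := by
    rw [one_div]
    exact inv_anti₀ (by norm_num) hq
  have h4 := gcentre_geo (r := q⁻¹) (by positivity) (by linarith) T l t (by
    intro i hi
    obtain ⟨a, ha, rfl⟩ := Finset.mem_image.1 hi
    exact hp a (Finset.mem_filter.1 ha).2)
  have h5 : q⁻¹ ^ t / (1 - q⁻¹) ≤ 2 * q⁻¹ ^ t := by
    rw [div_le_iff₀ (by linarith)]
    have : 0 ≤ q⁻¹ ^ t := by positivity
    nlinarith
  rw [← Finset.mul_sum] at h3
  have h6 : ((A.filter p).card : ℝ) ≤ 4 * C0 * q⁻¹ ^ t := by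
    have h7 := mul_le_mul_of_nonneg_left (h4.trans (by linarith : _ ≤ 4 * q⁻¹ ^ t)) hC
    linarith
  rwa [inv_pow, ← div_eq_mul_inv, le_div_iff₀ (pow_pos hq0 _)] at h6

theorem gcentre_sum (A : Finset ℚ) (hA : A.Nonempty) (x : ℚ → ℤ) :
    ∑ i ∈ A.image x, ((A.filter (fun a => x a = i)).card : ℝ) / (A.card : ℝ) = 1 := by
  have h0 : (A.card : ℝ) ≠ 0 := by exact_mod_cast hA.card_pos.ne'
  rw [← Finset.sum_div, div_eq_one_iff_eq h0, Finset.card_eq_sum_card_image x A, Nat.cast_sum]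

/-- two integer-valued statistics whose joint slices decay geometrically have a common centre -/
theorem centre (C : ℝ) : ∃ C' : ℝ, 1 ≤ C' ∧ ∀ (A B : Finset ℚ) (x y : ℚ → ℤ) (q : ℝ), 2 ≤ q →
    A.Nonempty → B.Nonempty →
    (∀ i j : ℤ, ((A.filter (fun a => x a = i)).card : ℝ) * ((B.filter (fun b => y b = j)).card : ℝ)
        * q ^ (i - j).natAbs ≤ C * ((A.card : ℝ) * (B.card : ℝ))) →
    ∃ l : ℤ, ∀ t : ℕ,
      ((A.filter (fun a => l + t ≤ x a)).card : ℝ) * q ^ t ≤ C' * (A.card : ℝ) ∧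
      ((A.filter (fun a => x a ≤ l - t)).card : ℝ) * q ^ t ≤ C' * (A.card : ℝ) ∧
      ((B.filter (fun b => l + t ≤ y b)).card : ℝ) * q ^ t ≤ C' * (B.card : ℝ) ∧
      ((B.filter (fun b => y b ≤ l - t)).card : ℝ) * q ^ t ≤ C' * (B.card : ℝ) := by
  set K : ℝ := max C 1 with hKdef
  have hK : 1 ≤ K := le_max_right _ _
  have hCK : C ≤ K := le_max_left _ _
  obtain ⟨D, hD⟩ : ∃ D : ℕ, 16 * K * (3 / 4) ^ D ≤ 1 / 2 := by
    obtain ⟨D, hD⟩ := exists_pow_lt_of_lt_one (x := 1 / (32 * K)) (y := (3 / 4 : ℝ))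
      (by positivity) (by norm_num)
    refine ⟨D, ?_⟩
    rw [lt_div_iff₀ (by positivity)] at hD
    linarith
  set E : ℝ := 2 * (2 * D + 1) with hE
  have hE1 : 1 ≤ E := by
    have : (0 : ℝ) ≤ D := Nat.cast_nonneg D
    rw [hE]; linarith
  have hKE : 1 ≤ K * E := one_le_mul_of_one_le_of_one_le hK hE1
  have hKEE : 1 ≤ K * E * E := one_le_mul_of_one_le_of_one_le hKE hE1
  have hall : 1 ≤ K * E * (K * E * E) := one_le_mul_of_one_le_of_one_le hKE hKEE
  refine ⟨4 * (K * E * (K * E * E)), by linarith, ?_⟩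
  intro A B x y q hq hA hB h
  have hq1 : 1 ≤ q := by linarith
  have hA0 : (0 : ℝ) < A.card := by exact_mod_cast hA.card_pos
  have hB0 : (0 : ℝ) < B.card := by exact_mod_cast hB.card_pos
  set α : ℤ → ℝ := fun i => ((A.filter (fun a => x a = i)).card : ℝ) / (A.card : ℝ) with hαdef
  set β : ℤ → ℝ := fun j => ((B.filter (fun b => y b = j)).card : ℝ) / (B.card : ℝ) with hβdef
  have hα : ∀ i, 0 ≤ α i := fun i => by rw [hαdef]; positivity
  have hβ : ∀ j, 0 ≤ β j := fun j => by rw [hβdef]; positivity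
  have hq' : ∀ i j, α i * β j * q ^ (i - j).natAbs ≤ K := by
    intro i j
    refine le_trans ?_ hCK
    simp only [hαdef, hβdef]
    rw [div_mul_div_comm, div_mul_eq_mul_div, div_le_iff₀ (by positivity)]
    exact h i j
  have h2 : ∀ i j, α i * β j * 2 ^ (i - j).natAbs ≤ K := fun i j =>
    le_trans (mul_le_mul_of_nonneg_left (pow_le_pow_left₀ (by norm_num) hq _)
      (mul_nonneg (hα i) (hβ j))) (hq' i j)
  have h2' : ∀ j i, β j * α i * 2 ^ (j - i).natAbs ≤ K := by
    intro j i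
    have e : (j - i).natAbs = (i - j).natAbs := by omega
    rw [e, mul_comm (β j)]
    exact h2 i j
  obtain ⟨i0, -, hi0⟩ := Finset.exists_max_image (A.image x) α (hA.image x)
  obtain ⟨j0, -, hj0⟩ := Finset.exists_max_image (B.image y) β (hB.image y)
  have la := gcentre_lower α β _ _ hα hβ (gcentre_sum A hA x) (gcentre_sum B hB y) hK h2 hD hi0
    (hα i0)
  have lb := gcentre_lower β α _ _ hβ hα (gcentre_sum B hB y) (gcentre_sum A hA x) hK h2' hD hj0
    (hβ j0)
  have la' : 1 ≤ E * α i0 := by rw [hE]; linarith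
  have lb' : 1 ≤ E * β j0 := by rw [hE]; linarith
  have hE0 : 0 ≤ E := by linarith
  have b1 : ∀ j, β j * q ^ (j - i0).natAbs ≤ K * E := by
    intro j
    have e : (j - i0).natAbs = (i0 - j).natAbs := by omega
    rw [e]
    have h3 := mul_le_mul_of_nonneg_right (hq' i0 j) hE0
    have h4 : 0 ≤ β j * q ^ (i0 - j).natAbs := mul_nonneg (hβ j) (by positivity)
    have h5 := mul_le_mul_of_nonneg_right la' h4
    nlinarith
  have b2 : ∀ i, α i * q ^ (i - j0).natAbs ≤ K * E := by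
    intro i
    have h3 := mul_le_mul_of_nonneg_right (hq' i j0) hE0
    have h4 : 0 ≤ α i * q ^ (i - j0).natAbs := mul_nonneg (hα i) (by positivity)
    have h5 := mul_le_mul_of_nonneg_right lb' h4
    nlinarith
  have b3 : q ^ (j0 - i0).natAbs ≤ K * E * E := by
    have h3 := mul_le_mul_of_nonneg_right (b1 j0) hE0
    have h4 : 0 ≤ q ^ (j0 - i0).natAbs := by positivity
    have h5 := mul_le_mul_of_nonneg_right lb' h4
    nlinarith
  have c1 : ∀ i, α i * q ^ (i - i0).natAbs ≤ K * E * (K * E * E) := by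
    intro i
    have h3 : q ^ (i - i0).natAbs ≤ q ^ (i - j0).natAbs * q ^ (j0 - i0).natAbs := by
      rw [← pow_add]
      exact pow_le_pow_right₀ hq1 (by omega)
    calc α i * q ^ (i - i0).natAbs
        ≤ α i * (q ^ (i - j0).natAbs * q ^ (j0 - i0).natAbs) :=
          mul_le_mul_of_nonneg_left h3 (hα i)
      _ = α i * q ^ (i - j0).natAbs * q ^ (j0 - i0).natAbs := by ring
      _ ≤ K * E * (K * E * E) := mul_le_mul (b2 i) b3 (by positivity) (by linarith)
  have c2 : ∀ j, β j * q ^ (j - i0).natAbs ≤ K * E * (K * E * E) := fun j =>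
    (b1 j).trans (le_mul_of_one_le_right (by linarith) hKEE)
  have d1 : ∀ i : ℤ, ((A.filter (fun a => x a = i)).card : ℝ) * q ^ (i - i0).natAbs ≤
      K * E * (K * E * E) * A.card := by
    intro i
    have := c1 i
    simp only [hαdef] at this
    rwa [div_mul_eq_mul_div, div_le_iff₀ hA0] at this
  have d2 : ∀ j : ℤ, ((B.filter (fun b => y b = j)).card : ℝ) * q ^ (j - i0).natAbs ≤
      K * E * (K * E * E) * B.card := by
    intro j
    have := c2 j
    simp only [hβdef] at this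
    rwa [div_mul_eq_mul_div, div_le_iff₀ hB0] at this
  have p1 : 0 ≤ K * E * (K * E * E) * A.card := mul_nonneg (by linarith) hA0.le
  have p2 : 0 ≤ K * E * (K * E * E) * B.card := mul_nonneg (by linarith) hB0.le
  refine ⟨i0, fun t => ⟨?_, ?_, ?_, ?_⟩⟩
  · rw [mul_assoc 4]
    exact gcentre_tail A x hq p1 i0 d1 t _ fun a ha => by omega
  · rw [mul_assoc 4]
    exact gcentre_tail A x hq p1 i0 d1 t _ fun a ha => by omega
  · rw [mul_assoc 4]
    exact gcentre_tail B y hq p2 i0 d2 t _ fun a ha => by omega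
  · rw [mul_assoc 4]
    exact gcentre_tail B y hq p2 i0 d2 t _ fun a ha => by omega

end Pool.Agent.Lib.MP_4652a8_nt
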