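import Pool.Agent.Lib.MP_4652a8_nt.GDefs

set_option autoImplicit false

namespace Pool.Agent.Lib.MP_4652a8_nt
open Finset

theorem gcnt_mul_card {p : ℕ} (hp : 0 < p) (y : ℕ) (R : ℕ → Prop) [DecidablePred R] :
    ((Icc 1 y).filter (fun j => R j ∧ p ∣ j)).card =
      ((Icc 1 (y / p)).filter (fun i => R (p * i))).card := by
  symm
  refine Finset.card_bij (fun i _ => p * i) ?_ ?_ ?_
  · intro i hi
    obtain ⟨h1, h2⟩ := Finset.mem_filter.1 hi
    obtain ⟨h3, h4⟩ := Finset.mem_Icc.1 h1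
    refine Finset.mem_filter.2 ⟨Finset.mem_Icc.2 ⟨Nat.mul_pos hp h3, ?_⟩, h2, Dvd.intro _ rfl⟩
    rw [Nat.le_div_iff_mul_le hp] at h4
    rw [mul_comm]; exact h4
  · intro a _ b _ hab
    exact Nat.eq_of_mul_eq_mul_left hp hab
  · intro j hj
    obtain ⟨h1, h2, i, rfl⟩ := Finset.mem_filter.1 hj
    obtain ⟨h3, h4⟩ := Finset.mem_Icc.1 h1
    refine ⟨i, Finset.mem_filter.2 ⟨Finset.mem_Icc.2 ⟨?_, ?_⟩, h2⟩, rfl⟩
    · exact Nat.pos_of_mul_pos_left h3
    · rw [Nat.le_div_iff_mul_le hp, mul_comm]; exact h4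

theorem gcnt_sieve (T : Finset ℕ) (hT : ∀ q ∈ T, q.Prime) : ∀ Y : ℝ, 0 ≤ Y →
    |(((Icc 1 ⌊Y⌋₊).filter (fun j => ∀ q ∈ T, ¬ q ∣ j)).card : ℝ) -
        (∏ q ∈ T, (1 - (q : ℝ)⁻¹)) * Y| ≤ 2 ^ T.card := by
  induction T using Finset.induction_on with
  | empty =>
    intro Y hY
    have h1 := Nat.floor_le hY
    have h2 := Nat.lt_floor_add_one Y
    simp only [Finset.notMem_empty, false_imp_iff, implies_true, Finset.filter_true,
      Nat.card_Icc, Nat.add_sub_cancel, Finset.prod_empty, one_mul, Finset.card_empty, pow_zero]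
    rw [abs_le]
    constructor <;> linarith
  | insert p T hpT ih =>
    intro Y hY
    have hp : p.Prime := hT p (Finset.mem_insert_self _ _)
    have hT' : ∀ q ∈ T, q.Prime := fun q hq => hT q (Finset.mem_insert_of_mem hq)
    have hp0 : (0 : ℝ) < (p : ℝ) := by exact_mod_cast hp.pos
    have h1 := ih hT' Y hY
    have h2 := ih hT' (Y / p) (by positivity)
    have h3 := Finset.card_filter_add_card_filter_not
      (s := (Icc 1 ⌊Y⌋₊).filter (fun j => ∀ q ∈ T, ¬ q ∣ j)) (fun j => p ∣ j)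
    rw [Finset.filter_filter, Finset.filter_filter, gcnt_mul_card hp.pos,
      ← Nat.floor_div_natCast] at h3
    have e1 : (Icc 1 ⌊Y / p⌋₊).filter (fun i => ∀ q ∈ T, ¬ q ∣ p * i) =
        (Icc 1 ⌊Y / p⌋₊).filter (fun i => ∀ q ∈ T, ¬ q ∣ i) := by
      refine Finset.filter_congr (fun i _ => ?_)
      refine forall₂_congr (fun q hq => not_congr ?_)
      rw [Nat.Prime.dvd_mul (hT' q hq)]
      constructor
      · rintro (h | h)
        · exact absurd (((Nat.prime_dvd_prime_iff_eq (hT' q hq) hp).1 h) ▸ hq) hpT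
        · exact h
      · exact Or.inr
    have e2 : (Icc 1 ⌊Y⌋₊).filter (fun j => (∀ q ∈ T, ¬ q ∣ j) ∧ ¬ p ∣ j) =
        (Icc 1 ⌊Y⌋₊).filter (fun j => ∀ q ∈ insert p T, ¬ q ∣ j) := by
      refine Finset.filter_congr (fun i _ => ?_)
      rw [Finset.forall_mem_insert]
      exact and_comm
    rw [e1, e2] at h3
    have h4 : (((Icc 1 ⌊Y / p⌋₊).filter (fun i => ∀ q ∈ T, ¬ q ∣ i)).card : ℝ) +
        (((Icc 1 ⌊Y⌋₊).filter (fun j => ∀ q ∈ insert p T, ¬ q ∣ j)).card : ℝ) =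
        (((Icc 1 ⌊Y⌋₊).filter (fun j => ∀ q ∈ T, ¬ q ∣ j)).card : ℝ) := by
      exact_mod_cast h3
    rw [Finset.prod_insert hpT, Finset.card_insert_of_notMem hpT, pow_succ]
    have e3 : (1 - (p : ℝ)⁻¹) * (∏ q ∈ T, (1 - (q : ℝ)⁻¹)) * Y =
        (∏ q ∈ T, (1 - (q : ℝ)⁻¹)) * Y - (∏ q ∈ T, (1 - (q : ℝ)⁻¹)) * (Y / p) := by
      rw [div_eq_mul_inv]; ring
    rw [e3]
    rw [abs_le] at h1 h2 ⊢
    constructor <;> linarith [h1.1, h1.2, h2.1, h2.2]

theorem gcnt_pow (k : ℕ) (hk : 0 < k) {j : ℕ} (hj : 0 < j) :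
    k ^ j.primeFactors.card ≤ k ^ k * j := by
  rw [← Finset.card_filter_add_card_filter_not (s := j.primeFactors) (fun p => p < k), pow_add]
  refine Nat.mul_le_mul (Nat.pow_le_pow_right hk ?_) ?_
  · refine le_trans (Finset.card_le_card (t := range k) ?_) (by simp)
    intro p hp
    exact Finset.mem_range.2 (Finset.mem_filter.1 hp).2
  · rw [← Finset.prod_const]
    refine le_trans (Finset.prod_le_prod' (g := fun p => p) ?_) ?_
    · intro p hp
      exact not_lt.1 (Finset.mem_filter.1 hp).2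
    · refine Nat.le_of_dvd hj (dvd_trans ?_ (Nat.prod_primeFactors_dvd j))
      exact Finset.prod_dvd_prod_of_subset _ _ _ (Finset.filter_subset _ _)

theorem gcnt_tot_mul (a b : ℕ) : Nat.totient (a * b) ≤ a * Nat.totient b := by
  induction a using induction_on_primes with
  | zero => simp
  | one => simp
  | prime_mul p a hp ih =>
    rw [mul_assoc, mul_assoc]
    refine le_trans ?_ (Nat.mul_le_mul_left p ih)
    by_cases h : p ∣ a * b
    · exact (Nat.totient_mul_of_prime_of_dvd hp h).le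
    · rw [Nat.totient_mul_of_prime_of_not_dvd hp h]
      exact Nat.mul_le_mul_right _ (Nat.sub_le _ _)

/-- integers in `[1, Y]` coprime to `m` -/
theorem count_coprime {m : ℕ} (hm : 0 < m) {Y : ℝ} (hY : 0 ≤ Y) :
    |(((Icc 1 ⌊Y⌋₊).filter (fun j => Nat.Coprime j m)).card : ℝ) -
        (Nat.totient m : ℝ) / (m : ℝ) * Y| ≤ 2 ^ m.primeFactors.card := by
  have h1 := gcnt_sieve m.primeFactors (fun q hq => Nat.prime_of_mem_primeFactors hq) Y hY
  have e1 : (Icc 1 ⌊Y⌋₊).filter (fun j => Nat.Coprime j m) =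
      (Icc 1 ⌊Y⌋₊).filter (fun j => ∀ q ∈ m.primeFactors, ¬ q ∣ j) := by
    refine Finset.filter_congr (fun j _ => ?_)
    constructor
    · intro h q hq hqj
      have hq' := Nat.prime_of_mem_primeFactors hq
      exact hq'.one_lt.ne' (Nat.eq_one_of_dvd_coprimes h hqj (Nat.dvd_of_mem_primeFactors hq))
    · intro h
      refine Nat.coprime_of_dvd (fun q hq hqj hqm => ?_)
      exact h q (Nat.mem_primeFactors.2 ⟨hq, hqm, hm.ne'⟩) hqj
  have hm' : (0 : ℝ) < (m : ℝ) := by exact_mod_cast hm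
  have e2 : (Nat.totient m : ℝ) / (m : ℝ) = ∏ q ∈ m.primeFactors, (1 - (q : ℝ)⁻¹) := by
    have h2 := congrArg (fun x : ℚ => (x : ℝ)) (Nat.totient_eq_mul_prod_factors m)
    push_cast at h2
    rw [h2]
    field_simp
  rw [e1, e2]
  exact h1

theorem pow_omega_le {j : ℕ} (hj : 0 < j) : 256 ^ j.primeFactors.card ≤ 256 ^ 256 * j := by
  exact gcnt_pow 256 (by norm_num) hj

theorem totient_ge {j : ℕ} (hj : 0 < j) : j ≤ 2 ^ j.primeFactors.card * Nat.totient j := by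
  have h1 := Nat.totient_mul_prod_primeFactors j
  have h2 : ∏ p ∈ j.primeFactors, p ≤ 2 ^ j.primeFactors.card * ∏ p ∈ j.primeFactors, (p - 1) := by
    rw [← Finset.prod_const, ← Finset.prod_mul_distrib]
    refine Finset.prod_le_prod' (fun p hp => ?_)
    have := (Nat.prime_of_mem_primeFactors hp).two_le
    omega
  have h3 : 0 < ∏ p ∈ j.primeFactors, p :=
    Finset.prod_pos (fun p hp => (Nat.prime_of_mem_primeFactors hp).pos)
  refine Nat.le_of_mul_le_mul_right ?_ h3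
  calc j * ∏ p ∈ j.primeFactors, p
      ≤ j * (2 ^ j.primeFactors.card * ∏ p ∈ j.primeFactors, (p - 1)) := Nat.mul_le_mul_left _ h2
    _ = 2 ^ j.primeFactors.card * (j * ∏ p ∈ j.primeFactors, (p - 1)) := by ring
    _ = 2 ^ j.primeFactors.card * Nat.totient j * ∏ p ∈ j.primeFactors, p := by
      rw [← h1]; ring

theorem sum_inv_divisors_le {L : ℕ} (hL : 0 < L) :
    ∑ s ∈ L.divisors, 1 / (s : ℝ) ≤ (L : ℝ) / (Nat.totient L : ℝ) := by
  have h0 : (0 : ℝ) < (Nat.totient L : ℝ) := by exact_mod_cast Nat.totient_pos.2 hL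
  rw [le_div_iff₀ h0, Finset.sum_mul]
  have h1 : ∑ s ∈ L.divisors, Nat.totient (L / s) = L := by
    rw [Nat.sum_div_divisors L Nat.totient, Nat.sum_totient]
  have h2 : (L : ℝ) = ∑ s ∈ L.divisors, (Nat.totient (L / s) : ℝ) := by
    exact_mod_cast h1.symm
  refine le_trans (Finset.sum_le_sum (fun s hs => ?_)) h2.ge
  have hd : s ∣ L := Nat.dvd_of_mem_divisors hs
  have hs0 : (0 : ℝ) < (s : ℝ) := by exact_mod_cast Nat.pos_of_mem_divisors hs
  have h3 := gcnt_tot_mul s (L / s)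
  rw [Nat.mul_div_cancel' hd] at h3
  have h4 : (Nat.totient L : ℝ) ≤ (s : ℝ) * (Nat.totient (L / s) : ℝ) := by exact_mod_cast h3
  rw [one_div, inv_mul_le_iff₀ hs0]
  exact h4

/-- multiples of `p` in `[1, X]` coprime to `L` -/
theorem count_rough_mul {L p : ℕ} (hL : 0 < L) (hp : 0 < p) (X : ℕ) :
    (((Icc 1 X).filter (fun j => Nat.Coprime j L ∧ p ∣ j)).card : ℝ) ≤
      (Nat.totient L : ℝ) / (L : ℝ) * (X : ℝ) / (p : ℝ) + (L : ℝ) := by
  rw [gcnt_mul_card hp X (fun j => Nat.Coprime j L)]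
  have h1 : ((Icc 1 (X / p)).filter (fun i => Nat.Coprime (p * i) L)).card ≤
      ((Ico 1 (1 + X / p)).filter (fun i => Nat.Coprime L i)).card := by
    refine Finset.card_le_card (fun i hi => ?_)
    obtain ⟨h2, h3⟩ := Finset.mem_filter.1 hi
    obtain ⟨h4, h5⟩ := Finset.mem_Icc.1 h2
    exact Finset.mem_filter.2 ⟨Finset.mem_Ico.2 ⟨h4, by omega⟩,
      (Nat.Coprime.coprime_mul_left h3).symm⟩
  have h2 := le_trans h1 (Nat.Ico_filter_coprime_le 1 (X / p) hL.ne')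
  have h3 : (((Icc 1 (X / p)).filter (fun i => Nat.Coprime (p * i) L)).card : ℝ) ≤
      (Nat.totient L : ℝ) * (((X / p / L : ℕ) : ℝ) + 1) := by exact_mod_cast h2
  have h4 : ((X / p / L : ℕ) : ℝ) ≤ (X : ℝ) / (p : ℝ) / (L : ℝ) :=
    le_trans Nat.cast_div_le (div_le_div_of_nonneg_right Nat.cast_div_le (by positivity))
  have h5 : (Nat.totient L : ℝ) ≤ (L : ℝ) := by exact_mod_cast Nat.totient_le L
  have h6 : (0 : ℝ) ≤ (Nat.totient L : ℝ) := by positivity
  have h7 := mul_le_mul_of_nonneg_left h4 h6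
  have e : (Nat.totient L : ℝ) / (L : ℝ) * (X : ℝ) / (p : ℝ) =
      (Nat.totient L : ℝ) * ((X : ℝ) / (p : ℝ) / (L : ℝ)) := by ring
  rw [e]
  linarith

end Pool.Agent.Lib.MP_4652a8_nt
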