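import Mathlib

set_option autoImplicit false

namespace Pool.Agent.Lib.MP_4652a8_nt
open Finset

/-! ### The model: two divisor-closed families of denominators -/

/-- finite divisor-closed set of positive integers containing `1` -/
def DC (P : Finset ℕ) : Prop := 1 ∈ P ∧ (∀ m ∈ P, 0 < m) ∧ ∀ m ∈ P, ∀ d, d ∣ m → d ∈ P

/-- the largest `lcm m n`, `n ∈ Q` -/
def F (Q : Finset ℕ) (m : ℕ) : ℕ := Q.sup (fun n => Nat.lcm m n)

noncomputable def wt (Q : Finset ℕ) (m : ℕ) : ℝ := (Nat.totient m : ℝ) / (F Q m : ℝ)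

noncomputable def S (P Q : Finset ℕ) : ℝ := ∑ m ∈ P, wt Q m

/-- mass of the multiples of `q` -/
noncomputable def ms (P Q : Finset ℕ) (q : ℕ) : ℝ := ∑ m ∈ P.filter (fun m => q ∣ m), wt Q m

noncomputable def V (P Q : Finset ℕ) : ℝ := S P Q * S Q P

def up (P : Finset ℕ) (L : ℕ) : Finset ℕ := P.image (fun m => m / Nat.gcd m L)

def dn (Q : Finset ℕ) (L : ℕ) : Finset ℕ := (Q.filter (fun n => L ∣ n)).image (fun n => n / L)

noncomputable def Rm (P Q : Finset ℕ) (p t : ℕ) : ℝ :=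
  (p : ℝ) ^ t * (S P Q - ms P Q p) + ms P Q (p ^ (t + 1))

noncomputable def Zm (P Q : Finset ℕ) (p t : ℕ) : ℝ :=
  ((p : ℝ) * ms P Q (p ^ t) - ms P Q (p ^ (t + 1))) / ((p : ℝ) - 1)

noncomputable def bad (P Q : Finset ℕ) (L : ℕ) : ℝ :=
  ∑ m ∈ P, (Nat.totient m : ℝ) *
    (if m ∣ L then max (1 / (F Q m : ℝ) - 1 / (L : ℝ)) 0 else 1 / (F Q m : ℝ))

/-- no raise/delete operation gains -/
def Stuck (P Q : Finset ℕ) : Prop :=
  ∀ p t : ℕ, p.Prime → 1 ≤ t →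
    Rm P Q p t * Zm Q P p t < S P Q * (S Q P + (1 / 1000) * (S Q P - Zm Q P p t))

/-- induction hypothesis of the model theorem -/
def IH (k : ℕ) : Prop := ∀ P Q : Finset ℕ, DC P → DC Q → P.card + Q.card < k → V P Q ≤ 1

/-- the constraints that the induction hypothesis gives -/
def Con (P Q : Finset ℕ) : Prop :=
  ∀ p t : ℕ, p.Prime → 1 ≤ t → Rm P Q p t * Zm Q P p t ≤ 1

/-- the law of `m ∈ P` is centred at every prime -/
def Cen (P Q : Finset ℕ) : Prop :=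
  ms P Q 2 ≤ (600 / 1000) * S P Q ∧ ms P Q 4 ≤ (377 / 1000) * S P Q ∧
  ms P Q 8 ≤ (203 / 1000) * S P Q ∧ ms P Q 3 ≤ (420 / 1000) * S P Q ∧
  ms P Q 9 ≤ (165 / 1000) * S P Q ∧ ms P Q 5 ≤ (224 / 1000) * S P Q ∧
  ms P Q 25 ≤ (58 / 1000) * S P Q ∧ ms P Q 7 ≤ (155 / 1000) * S P Q ∧
  ms P Q 49 ≤ (27 / 1000) * S P Q ∧ ms P Q 11 ≤ (965 / 10000) * S P Q ∧
  ∀ p : ℕ, p.Prime → 13 ≤ p → ms P Q p ≤ (1054 / 1000) / (p : ℝ) * S P Q

/-! ### Weights for the identity trick -/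

/-- `∑ α / p` over the primes `p ≥ 13` dividing `n` -/
noncomputable def sg (al : ℝ) (n : ℕ) : ℝ :=
  ∑ p ∈ n.primeFactors.filter (fun p => 13 ≤ p), al / (p : ℝ)

noncomputable def uu (al c : ℝ) (n : ℕ) : ℝ := max (1 - c * sg al n) 0

noncomputable def Wt (al c : ℝ) (Q : Finset ℕ) : ℝ :=
  ∑ n ∈ Q, (Nat.totient n : ℝ) / (n : ℝ) * uu al c n

/-- weighted probability that `F Q m / m > x` -/
noncomputable def suc (al c : ℝ) (P Q : Finset ℕ) (x : ℕ) : ℝ :=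
  (∑ m ∈ P.filter (fun m => x < F Q m / m), wt Q m * uu al c m) / S P Q

/-! ### Finite sets of positive rationals -/

def Pos (A : Finset ℚ) : Prop := ∀ a ∈ A, 0 < a

/-- numerator as a natural number -/
def nm (a : ℚ) : ℕ := a.num.natAbs

/-- all quotients have numerator at most `R` and denominator at most `T` -/
def Ok (A B : Finset ℚ) (R T : ℕ) : Prop := ∀ a ∈ A, ∀ b ∈ B, nm (a / b) ≤ R ∧ (a / b).den ≤ T

def sc (c : ℚ) (A : Finset ℚ) : Finset ℚ := A.image (fun a => c * a)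

def iv (A : Finset ℚ) : Finset ℚ := A.image (fun a => a⁻¹)

/-- number of `i ∈ [1, N]` with `c * i ∈ A` -/
def near (A : Finset ℚ) (c : ℚ) (N : ℕ) : ℕ :=
  ((Finset.Icc 1 N).filter (fun i : ℕ => c * (i : ℚ) ∈ A)).card

/-- slice bound -/
def Slice (A B : Finset ℚ) (C : ℝ) : Prop :=
  ∀ p : ℕ, p.Prime → ∀ i j : ℤ,
    ((A.filter (fun a => padicValRat p a = i)).card : ℝ) *
      ((B.filter (fun b => padicValRat p b = j)).card : ℝ) * (p : ℝ) ^ (i - j).natAbs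
      ≤ C * ((A.card : ℝ) * (B.card : ℝ))

/-- geometric tails of all valuations -/
def Tail (A : Finset ℚ) (C : ℝ) : Prop :=
  ∀ p : ℕ, p.Prime → ∀ t : ℕ,
    ((A.filter (fun a => p ^ t ∣ nm a)).card : ℝ) * (p : ℝ) ^ t ≤ C * (A.card : ℝ) ∧
    ((A.filter (fun a => p ^ t ∣ a.den)).card : ℝ) * (p : ℝ) ^ t ≤ C * (A.card : ℝ)

/-- most of `A` has numerator at most `J` and denominator at most `K` -/
def Box (A : Finset ℚ) (e : ℝ) (J K : ℕ) : Prop :=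
  1 ≤ J ∧ 1 ≤ K ∧ ((A.filter (fun a => J < nm a)).card : ℝ) ≤ e * (A.card : ℝ) ∧
    ((A.filter (fun a => K < a.den)).card : ℝ) ≤ e * (A.card : ℝ)

/-- `∏ (1 - p^(-1/2))⁻¹` over the primes dividing `j` -/
noncomputable def gt (j : ℕ) : ℝ := ∏ p ∈ j.primeFactors, (1 - 1 / Real.sqrt (p : ℝ))⁻¹

end Pool.Agent.Lib.MP_4652a8_nt
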