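import Pool.Agent.Lib.MP_4652a8_nt.GDefs

set_option autoImplicit false

namespace Pool.Agent.Lib.MP_4652a8_nt
open Finset

theorem gexb_x_pos {p : ℕ} (hp : p.Prime) : 0 < 1 / Real.sqrt (p : ℝ) := by
  have h : (0 : ℝ) < (p : ℝ) := by exact_mod_cast hp.pos
  have := Real.sqrt_pos.2 h
  positivity

theorem gexb_x_le {p : ℕ} (hp : p.Prime) : 1 / Real.sqrt (p : ℝ) ≤ 71 / 100 := by
  have h2 : (2 : ℝ) ≤ (p : ℝ) := by exact_mod_cast hp.two_le
  have h3 : (100 / 71 : ℝ) ≤ Real.sqrt (p : ℝ) := by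
    apply Real.le_sqrt_of_sq_le
    linarith [show (100 / 71 : ℝ) ^ 2 ≤ 2 by norm_num]
  rw [div_le_iff₀ (by linarith)]
  linarith

theorem gexb_one_le {p : ℕ} (hp : p.Prime) : 1 ≤ (1 - 1 / Real.sqrt (p : ℝ))⁻¹ := by
  have h1 := gexb_x_pos hp
  have h2 := gexb_x_le hp
  exact (one_le_inv₀ (by linarith)).2 (by linarith)

theorem one_le_gt (j : ℕ) : 1 ≤ gt j := by
  unfold gt
  exact Finset.one_le_prod (fun p hp => gexb_one_le (Nat.prime_of_mem_primeFactors hp))

theorem gexb_gt_mul {a b : ℕ} (hab : Nat.Coprime a b) : gt (a * b) = gt a * gt b := by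
  unfold gt
  rw [hab.primeFactors_mul, Finset.prod_union hab.disjoint_primeFactors]

theorem gexb_geom {x : ℝ} (h0 : 0 ≤ x) (h1 : x < 1) (k : ℕ) :
    ∑ i ∈ range k, x ^ i ≤ (1 - x)⁻¹ := by
  have h2 : (∑ i ∈ range k, x ^ i) * (1 - x) = 1 - x ^ k := by
    have := geom_sum_mul_neg x k
    exact this
  have h3 : 0 ≤ x ^ k := pow_nonneg h0 k
  rw [inv_eq_one_div, le_div_iff₀ (by linarith), h2]
  linarith

theorem sum_inv_sqrt_le_gt {j : ℕ} (hj : 0 < j) :
    ∑ d ∈ j.divisors, 1 / Real.sqrt (d : ℝ) ≤ gt j := by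
  induction j using Nat.recOnPosPrimePosCoprime with
  | prime_pow p n hp hn =>
    rw [Nat.sum_divisors_prime_pow hp]
    unfold gt
    rw [Nat.primeFactors_prime_pow hn.ne' hp, Finset.prod_singleton]
    have h1 := gexb_x_pos hp
    have h2 := gexb_x_le hp
    refine le_trans (le_of_eq ?_) (gexb_geom h1.le (by linarith) (n + 1))
    refine Finset.sum_congr rfl (fun i _ => ?_)
    have h3 : Real.sqrt (((p ^ i : ℕ) : ℝ)) = Real.sqrt (p : ℝ) ^ i := by
      rw [Real.sqrt_eq_iff_mul_self_eq (by positivity) (by positivity), ← mul_pow,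
        Real.mul_self_sqrt (by positivity)]
      push_cast
      rfl
    rw [h3, one_div_pow]
  | zero => exact absurd hj (lt_irrefl 0)
  | one =>
    unfold gt
    simp
  | coprime a b ha hb hab iha ihb =>
    have iha' := iha (by omega)
    have ihb' := ihb (by omega)
    rw [gexb_gt_mul hab, Nat.divisors_mul, Finset.mul_def]
    refine le_trans (Finset.sum_image_le_of_nonneg (fun _ _ => by positivity)) ?_
    rw [Finset.sum_product]
    have h1 : ∑ x ∈ a.divisors, ∑ y ∈ b.divisors, 1 / Real.sqrt (((x, y).1 * (x, y).2 : ℕ) : ℝ) =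
        (∑ x ∈ a.divisors, 1 / Real.sqrt (x : ℝ)) * ∑ y ∈ b.divisors, 1 / Real.sqrt (y : ℝ) := by
      rw [Finset.sum_mul_sum]
      refine Finset.sum_congr rfl (fun x _ => Finset.sum_congr rfl (fun y _ => ?_))
      push_cast
      rw [Real.sqrt_mul (by positivity), one_div_mul_one_div]
    rw [h1]
    exact mul_le_mul iha' ihb' (Finset.sum_nonneg (fun _ _ => by positivity))
      (le_trans zero_le_one (one_le_gt a))

theorem div_totient_le_gt {j : ℕ} (hj : 0 < j) : (j : ℝ) / (Nat.totient j : ℝ) ≤ gt j := by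
  have h1 : (Nat.totient j : ℝ) = (j : ℝ) * ∏ p ∈ j.primeFactors, (1 - (p : ℝ)⁻¹) := by
    have := congrArg (fun q : ℚ => (q : ℝ)) (Nat.totient_eq_mul_prod_factors j)
    simpa using this
  have hj' : (0 : ℝ) < (j : ℝ) := by exact_mod_cast hj
  rw [h1, div_mul_cancel_left₀ hj'.ne', ← Finset.prod_inv_distrib]
  unfold gt
  have hle : ∀ p ∈ j.primeFactors, (p : ℝ)⁻¹ ≤ 1 / Real.sqrt (p : ℝ) := by
    intro p hp
    have hp' := Nat.prime_of_mem_primeFactors hp
    have h2 : (1 : ℝ) ≤ (p : ℝ) := by exact_mod_cast hp'.one_le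
    rw [inv_eq_one_div]
    refine one_div_le_one_div_of_le (Real.sqrt_pos.2 (by linarith)) ?_
    rw [Real.sqrt_le_left (by linarith)]
    nlinarith
  refine Finset.prod_le_prod (fun p hp => ?_) (fun p hp => ?_)
  · have h2 := gexb_x_le (Nat.prime_of_mem_primeFactors hp)
    have h3 := hle p hp
    exact inv_nonneg.2 (by linarith)
  · have h2 := gexb_x_le (Nat.prime_of_mem_primeFactors hp)
    have h3 := hle p hp
    exact inv_anti₀ (by linarith) (by linarith)

/-- the excess of the eighth power of a local factor -/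
noncomputable def gexb_gam (p : ℕ) : ℝ := ((1 - 1 / Real.sqrt (p : ℝ))⁻¹) ^ 8 - 1

theorem gexb_gam_nonneg {p : ℕ} (hp : p.Prime) : 0 ≤ gexb_gam p := by
  unfold gexb_gam
  have := one_le_pow₀ (n := 8) (gexb_one_le hp)
  linarith

theorem gexb_gam_le {p : ℕ} (hp : p.Prime) :
    gexb_gam p ≤ 200000 * (1 / Real.sqrt (p : ℝ)) := by
  unfold gexb_gam
  have h1 := gexb_x_pos hp
  have h2 := gexb_x_le hp
  generalize 1 / Real.sqrt (p : ℝ) = x at h1 h2
  have h3 : 1 + (8 : ℕ) * (-x) ≤ (1 + -x) ^ 8 := one_add_mul_le_pow (by linarith) 8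
  have h4 : (29 / 100 : ℝ) ^ 8 ≤ (1 - x) ^ 8 := pow_le_pow_left₀ (by norm_num) (by linarith) 8
  have h5 : (1 / 25000 : ℝ) ≤ (1 - x) ^ 8 := le_trans (by norm_num) h4
  have h6 : (1 + -x) = 1 - x := by ring
  rw [h6] at h3
  push_cast at h3
  rw [inv_pow, sub_le_iff_le_add, inv_eq_one_div, div_le_iff₀ (by linarith)]
  nlinarith [mul_le_mul_of_nonneg_left h5 h1.le]

theorem gexb_pow_eq (j : ℕ) :
    gt j ^ 8 = ∑ T ∈ j.primeFactors.powerset, ∏ p ∈ T, gexb_gam p := by
  unfold gt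
  rw [← Finset.prod_pow, ← Finset.prod_one_add]
  refine Finset.prod_congr rfl (fun p _ => ?_)
  unfold gexb_gam
  ring

theorem gt_moment : ∃ C : ℝ, 0 ≤ C ∧ ∀ Y : ℕ, ∑ j ∈ Icc 1 Y, gt j ^ 8 ≤ C * (Y : ℝ) := by
  have hsum : Summable (fun n : ℕ => 1 / (n : ℝ) ^ (3 / 2 : ℝ)) :=
    Real.summable_one_div_nat_rpow.2 (by norm_num)
  refine ⟨Real.exp (200000 * ∑' n : ℕ, 1 / (n : ℝ) ^ (3 / 2 : ℝ)), (Real.exp_pos _).le,
    fun Y => ?_⟩
  set PY : Finset ℕ := (range (Y + 1)).filter Nat.Prime with hPY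
  have hPYp : ∀ p ∈ PY, p.Prime := fun p hp => (Finset.mem_filter.1 hp).2
  have hg0 : ∀ T ∈ PY.powerset, 0 ≤ ∏ p ∈ T, gexb_gam p := fun T hT =>
    Finset.prod_nonneg (fun p hp => gexb_gam_nonneg (hPYp p (Finset.mem_powerset.1 hT hp)))
  calc ∑ j ∈ Icc 1 Y, gt j ^ 8
      ≤ ∑ j ∈ Icc 1 Y, ∑ T ∈ PY.powerset,
          (if (∏ p ∈ T, p) ∣ j then ∏ p ∈ T, gexb_gam p else 0) := by
        refine Finset.sum_le_sum (fun j hj => ?_)
        rw [gexb_pow_eq, ← Finset.sum_filter]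
        rw [Finset.mem_Icc] at hj
        refine Finset.sum_le_sum_of_subset_of_nonneg (fun T hT => ?_)
          (fun T hT _ => hg0 T (Finset.mem_filter.1 hT).1)
        rw [Finset.mem_powerset] at hT
        refine Finset.mem_filter.2 ⟨Finset.mem_powerset.2 (fun p hp => ?_), ?_⟩
        · have hp' := hT hp
          have := Nat.le_of_mem_primeFactors hp'
          exact Finset.mem_filter.2 ⟨Finset.mem_range.2 (by omega),
            Nat.prime_of_mem_primeFactors hp'⟩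
        · exact (Finset.prod_dvd_prod_of_subset _ _ _ hT).trans (Nat.prod_primeFactors_dvd j)
    _ = ∑ T ∈ PY.powerset, ((Y / ∏ p ∈ T, p : ℕ) : ℝ) * ∏ p ∈ T, gexb_gam p := by
        rw [Finset.sum_comm]
        refine Finset.sum_congr rfl (fun T _ => ?_)
        rw [← Finset.sum_filter, Finset.sum_const, nsmul_eq_mul,
          ← Nat.Ioc_filter_dvd_card_eq_div]
        have : Icc 1 Y = Ioc 0 Y := by
          ext x
          simp only [Finset.mem_Icc, Finset.mem_Ioc]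
          omega
        rw [this]
    _ ≤ ∑ T ∈ PY.powerset, (Y : ℝ) * ∏ p ∈ T, (gexb_gam p / (p : ℝ)) := by
        refine Finset.sum_le_sum (fun T hT => ?_)
        have h1 : ((Y / ∏ p ∈ T, p : ℕ) : ℝ) ≤ (Y : ℝ) / ((∏ p ∈ T, p : ℕ) : ℝ) :=
          Nat.cast_div_le
        refine le_trans (mul_le_mul_of_nonneg_right h1 (hg0 T hT)) (le_of_eq ?_)
        rw [Finset.prod_div_distrib, Nat.cast_prod]
        ring
    _ = (Y : ℝ) * ∏ p ∈ PY, (1 + gexb_gam p / (p : ℝ)) := by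
        rw [← Finset.mul_sum, Finset.prod_one_add]
    _ ≤ (Y : ℝ) * Real.exp (200000 * ∑' n : ℕ, 1 / (n : ℝ) ^ (3 / 2 : ℝ)) := by
        refine mul_le_mul_of_nonneg_left ?_ (by positivity)
        have h1 : ∏ p ∈ PY, (1 + gexb_gam p / (p : ℝ)) ≤
            ∏ p ∈ PY, Real.exp (200000 * (1 / (p : ℝ) ^ (3 / 2 : ℝ))) := by
          refine Finset.prod_le_prod (fun p hp => ?_) (fun p hp => ?_)
          · have := gexb_gam_nonneg (hPYp p hp)
            positivity
          · have hp0 : (0 : ℝ) < (p : ℝ) := by exact_mod_cast (hPYp p hp).pos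
            have h2 := gexb_gam_le (hPYp p hp)
            have h3 : (p : ℝ) ^ (3 / 2 : ℝ) = Real.sqrt (p : ℝ) * p := by
              rw [Real.sqrt_eq_rpow, ← Real.rpow_add_one hp0.ne']
              norm_num
            have h4 : gexb_gam p / (p : ℝ) ≤ 200000 * (1 / (p : ℝ) ^ (3 / 2 : ℝ)) := by
              rw [h3, div_le_iff₀ hp0]
              refine le_trans h2 (le_of_eq ?_)
              have := Real.sqrt_pos.2 hp0
              field_simp
            have h5 := Real.add_one_le_exp (200000 * (1 / (p : ℝ) ^ (3 / 2 : ℝ)))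
            linarith
        refine le_trans h1 ?_
        rw [← Real.exp_sum, ← Finset.mul_sum]
        refine Real.exp_le_exp.2 (mul_le_mul_of_nonneg_left ?_ (by norm_num))
        exact hsum.sum_le_tsum PY (fun n _ => by positivity)
    _ = Real.exp (200000 * ∑' n : ℕ, 1 / (n : ℝ) ^ (3 / 2 : ℝ)) * (Y : ℝ) := mul_comm _ _

end Pool.Agent.Lib.MP_4652a8_nt
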