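import Pool.Agent.Lib.MP_4652a8_nt.GQ0
import Pool.Agent.Lib.MP_4652a8_nt.GCnt
import Pool.Agent.Lib.MP_4652a8_nt.GExB

set_option autoImplicit false

namespace Pool.Agent.Lib.MP_4652a8_nt
open Finset

theorem gexa_nm_nat (b : ℕ) : nm (b : ℚ) = b := by
  simp [nm]

/-- the two cross relations against a natural number -/
theorem gexa_cross {N : ℕ} {a : ℚ} (ha : 0 < a) {b : ℕ} (hb : 0 < b)
    (h : nm (a / (b : ℚ)) ≤ N ∧ (a / (b : ℚ)).den ≤ N) :
    nm a ≤ N * Nat.gcd (nm a) b ∧ a.den * b ≤ N * Nat.gcd (nm a) b := by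
  have hb' : (0 : ℚ) < (b : ℚ) := by exact_mod_cast hb
  have h1 := cross_nm ha hb'
  have h2 := cross_den ha hb'
  rw [gexa_nm_nat] at h1 h2
  simp only [Rat.den_natCast, Nat.gcd_one_right, mul_one] at h1 h2
  constructor
  · calc nm a = nm (a / (b : ℚ)) * Nat.gcd (nm a) b := h1
      _ ≤ N * Nat.gcd (nm a) b := Nat.mul_le_mul_right _ h.1
  · calc a.den * b = (a / (b : ℚ)).den * Nat.gcd (nm a) b := h2
      _ ≤ N * Nat.gcd (nm a) b := Nat.mul_le_mul_right _ h.2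

/-- many elements with a large gcd force a large `gt` -/
theorem gexa_gcd_count {N j : ℕ} (hN : 0 < N) (hj : 0 < j) {H : Finset ℕ} (hH : H ⊆ Icc 1 N)
    (hc : (N : ℝ) / 4 ≤ (H.card : ℝ)) {t : ℝ} (ht : 0 < t)
    (hg : ∀ b ∈ H, t ≤ (Nat.gcd j b : ℝ)) : t ≤ 16 * gt j ^ 2 := by
  classical
  have hsub : H ⊆ (j.divisors.filter (fun d : ℕ => t ≤ (d : ℝ))).biUnion
      (fun d => (Ioc 0 N).filter (fun b => d ∣ b)) := by
    intro b hb
    rw [Finset.mem_biUnion]
    refine ⟨Nat.gcd j b, ?_, ?_⟩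
    · rw [Finset.mem_filter, Nat.mem_divisors]
      exact ⟨⟨Nat.gcd_dvd_left _ _, hj.ne'⟩, hg b hb⟩
    · have := hH hb
      rw [Finset.mem_Icc] at this
      rw [Finset.mem_filter, Finset.mem_Ioc]
      exact ⟨⟨by omega, this.2⟩, Nat.gcd_dvd_right _ _⟩
  have h1 : H.card ≤ ∑ d ∈ j.divisors.filter (fun d : ℕ => t ≤ (d : ℝ)), N / d := by
    refine (Finset.card_le_card hsub).trans (Finset.card_biUnion_le.trans ?_)
    refine Finset.sum_le_sum (fun d _ => ?_)
    rw [Nat.Ioc_filter_dvd_card_eq_div]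
  have hst : 0 < Real.sqrt t := Real.sqrt_pos.2 ht
  have hN' : (0 : ℝ) < (N : ℝ) := by exact_mod_cast hN
  have h2 : (H.card : ℝ) ≤ (N : ℝ) / Real.sqrt t * gt j := by
    calc (H.card : ℝ) ≤ ((∑ d ∈ j.divisors.filter (fun d : ℕ => t ≤ (d : ℝ)), N / d : ℕ) : ℝ) := by
          exact_mod_cast h1
      _ = ∑ d ∈ j.divisors.filter (fun d : ℕ => t ≤ (d : ℝ)), ((N / d : ℕ) : ℝ) := by
          push_cast; rfl
      _ ≤ ∑ d ∈ j.divisors.filter (fun d : ℕ => t ≤ (d : ℝ)),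
            (N : ℝ) / Real.sqrt t * (1 / Real.sqrt (d : ℝ)) := by
          refine Finset.sum_le_sum (fun d hd => ?_)
          rw [Finset.mem_filter] at hd
          have hd0 : (0 : ℝ) < (d : ℝ) := lt_of_lt_of_le ht hd.2
          have hsd : 0 < Real.sqrt (d : ℝ) := Real.sqrt_pos.2 hd0
          have hle : Real.sqrt t ≤ Real.sqrt (d : ℝ) := Real.sqrt_le_sqrt hd.2
          refine Nat.cast_div_le.trans ?_
          rw [div_mul_div_comm, mul_one]
          apply div_le_div_of_nonneg_left hN'.le (mul_pos hst hsd)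
          calc Real.sqrt t * Real.sqrt (d : ℝ) ≤ Real.sqrt (d : ℝ) * Real.sqrt (d : ℝ) :=
                mul_le_mul_of_nonneg_right hle hsd.le
            _ = (d : ℝ) := Real.mul_self_sqrt hd0.le
      _ ≤ ∑ d ∈ j.divisors, (N : ℝ) / Real.sqrt t * (1 / Real.sqrt (d : ℝ)) := by
          refine Finset.sum_le_sum_of_subset_of_nonneg (Finset.filter_subset _ _) ?_
          intro d _ _
          positivity
      _ = (N : ℝ) / Real.sqrt t * ∑ d ∈ j.divisors, 1 / Real.sqrt (d : ℝ) := by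
          rw [Finset.mul_sum]
      _ ≤ (N : ℝ) / Real.sqrt t * gt j :=
          mul_le_mul_of_nonneg_left (sum_inv_sqrt_le_gt hj) (by positivity)
  have h3 : Real.sqrt t ≤ 4 * gt j := by
    have h4 : (N : ℝ) / 4 ≤ (N : ℝ) / Real.sqrt t * gt j := hc.trans h2
    rw [div_mul_eq_mul_div, div_le_div_iff₀ (by norm_num) hst] at h4
    have h5 : (N : ℝ) * Real.sqrt t ≤ (N : ℝ) * (4 * gt j) := by linarith
    exact le_of_mul_le_mul_left h5 hN'
  calc t = Real.sqrt t * Real.sqrt t := (Real.mul_self_sqrt ht.le).symm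
    _ ≤ (4 * gt j) * (4 * gt j) := mul_le_mul h3 h3 hst.le (hst.le.trans h3)
    _ = 16 * gt j ^ 2 := by ring

theorem gexa_omega {N j : ℕ} (hN : 2 ^ 1100 ≤ N) (hj : 0 < j) (hjN : j ≤ N * N) :
    8 * (2 ^ j.primeFactors.card * 2 ^ j.primeFactors.card) ≤ N := by
  have h1 := pow_omega_le hj
  set w := j.primeFactors.card
  have h2 : (8 * (2 ^ w * 2 ^ w)) ^ 4 = 2 ^ 12 * 256 ^ w := by
    have : (256 : ℕ) = 2 ^ 8 := by norm_num
    rw [this, ← pow_mul, ← pow_add, mul_pow, ← pow_mul]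
    have h8 : (8 : ℕ) ^ 4 = 2 ^ 12 := by norm_num
    rw [h8]
    congr 2
    ring
  have h3 : (2 : ℕ) ^ 12 * 256 ^ 256 ≤ 2 ^ 1100 * 2 ^ 1100 := by
    have : (256 : ℕ) = 2 ^ 8 := by norm_num
    rw [this, ← pow_mul, ← pow_add, ← pow_add]
    exact Nat.pow_le_pow_right (by omega) (by omega)
  have h4 : (8 * (2 ^ w * 2 ^ w)) ^ 4 ≤ N ^ 4 := by
    calc (8 * (2 ^ w * 2 ^ w)) ^ 4 = 2 ^ 12 * 256 ^ w := h2
      _ ≤ 2 ^ 12 * (256 ^ 256 * j) := Nat.mul_le_mul_left _ h1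
      _ = (2 ^ 12 * 256 ^ 256) * j := by rw [Nat.mul_assoc]
      _ ≤ (2 ^ 1100 * 2 ^ 1100) * (N * N) := Nat.mul_le_mul h3 hjN
      _ ≤ (N * N) * (N * N) := Nat.mul_le_mul_right _ (Nat.mul_le_mul hN hN)
      _ = N ^ 4 := by ring
  exact (Nat.pow_le_pow_iff_left (by norm_num)).1 h4

/-- integers of the upper half coprime to `j` -/
theorem gexa_upper {N j : ℕ} (hj : 0 < j)
    (hw : 8 * (2 ^ j.primeFactors.card * 2 ^ j.primeFactors.card) ≤ N) :
    (Nat.totient j : ℝ) / (j : ℝ) * (N : ℝ) / 4 ≤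
      (((Icc 1 N).filter (fun i => Nat.Coprime i j ∧ N < 2 * i)).card : ℝ) := by
  have hN0 : (0 : ℝ) ≤ (N : ℝ) := by positivity
  have h1 := count_coprime hj hN0
  have h2 := count_coprime hj (Y := (N : ℝ) / 2) (by positivity)
  have e1 : ⌊(N : ℝ)⌋₊ = N := Nat.floor_natCast N
  have e2 : ⌊(N : ℝ) / 2⌋₊ = N / 2 := by
    have := Nat.floor_div_natCast (K := ℝ) (N : ℝ) 2
    rw [Nat.floor_natCast] at this
    exact_mod_cast this
  rw [e1] at h1
  rw [e2] at h2
  have hsplit : ((Icc 1 N).filter (fun i => Nat.Coprime i j)).card ≤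
      ((Icc 1 (N / 2)).filter (fun i => Nat.Coprime i j)).card +
        ((Icc 1 N).filter (fun i => Nat.Coprime i j ∧ N < 2 * i)).card := by
    refine le_trans (Finset.card_le_card ?_) (Finset.card_union_le _ _)
    intro i hi
    simp only [Finset.mem_union, Finset.mem_filter, Finset.mem_Icc] at hi ⊢
    by_cases h : N < 2 * i
    · exact Or.inr ⟨hi.1, hi.2, h⟩
    · exact Or.inl ⟨⟨hi.1.1, by omega⟩, hi.2⟩
  have hsplit' : (((Icc 1 N).filter (fun i => Nat.Coprime i j)).card : ℝ) ≤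
      (((Icc 1 (N / 2)).filter (fun i => Nat.Coprime i j)).card : ℝ) +
        (((Icc 1 N).filter (fun i => Nat.Coprime i j ∧ N < 2 * i)).card : ℝ) := by
    exact_mod_cast hsplit
  have h3 := (abs_le.1 h1).1
  have h4 := (abs_le.1 h2).2
  have hj' : (0 : ℝ) < (j : ℝ) := by exact_mod_cast hj
  have h5 : (j : ℝ) ≤ 2 ^ j.primeFactors.card * (Nat.totient j : ℝ) := by
    exact_mod_cast totient_ge hj
  have hw' : (8 : ℝ) * (2 ^ j.primeFactors.card * 2 ^ j.primeFactors.card) ≤ (N : ℝ) := by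
    exact_mod_cast hw
  set W : ℝ := 2 ^ j.primeFactors.card with hW
  have hW0 : 0 < W := by positivity
  set r : ℝ := (Nat.totient j : ℝ) / (j : ℝ) with hr
  have hr0 : 0 ≤ r := by positivity
  have h6 : 1 ≤ W * r := by
    rw [hr, ← mul_div_assoc, le_div_iff₀ hj']
    linarith
  have h7 : 8 * W ≤ r * (N : ℝ) := by
    calc 8 * W ≤ 8 * W * (W * r) := le_mul_of_one_le_right (by positivity) h6
      _ = r * (8 * (W * W)) := by ring
      _ ≤ r * (N : ℝ) := mul_le_mul_of_nonneg_left hw' hr0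
  have e3 : r * ((N : ℝ) / 2) = r * (N : ℝ) / 2 := by ring
  rw [e3] at h4
  linarith

/-- an element outside `[1, N]` has a very composite numerator -/
theorem extra_bounds : ∃ N0 : ℕ, ∀ N : ℕ, N0 ≤ N → ∀ (B : Finset ℚ) (a : ℚ), 0 < a →
    (∀ b ∈ B, nm (a / b) ≤ N ∧ (a / b).den ≤ N) → (∀ i ∈ Icc 1 N, a ≠ (i : ℚ)) →
    (3 / 4) * (N : ℝ) ≤ (near B 1 N : ℝ) →
    (N : ℝ) ≤ 4 * ((N : ℝ) - (near B 1 N : ℝ)) * gt (nm a) ∧
      (nm a : ℝ) ≤ 16 * gt (nm a) ^ 2 * (N : ℝ) ∧ (a.den : ℝ) ≤ 32 * gt (nm a) ^ 2 := by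
  classical
  refine ⟨2 ^ 1100, fun N hN B a ha hB hne hnear => ?_⟩
  have hN0 : 0 < N := lt_of_lt_of_le (by positivity) hN
  have hN' : (0 : ℝ) < (N : ℝ) := by exact_mod_cast hN0
  have hj : 0 < nm a := nm_pos ha
  have hk : 0 < a.den := a.den_pos
  -- the upper half of the near elements
  set H : Finset ℕ := (Icc 1 N).filter (fun i : ℕ => (i : ℚ) ∈ B ∧ N < 2 * i) with hHdef
  have hHsub : H ⊆ Icc 1 N := Finset.filter_subset _ _
  have hnear_eq : near B 1 N = ((Icc 1 N).filter (fun i : ℕ => (i : ℚ) ∈ B)).card := by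
    unfold near
    simp only [one_mul]
  have hHcard : (N : ℝ) / 4 ≤ (H.card : ℝ) := by
    have h1 : near B 1 N ≤ N / 2 + H.card := by
      rw [hnear_eq]
      have h2 : (Icc 1 N).filter (fun i : ℕ => (i : ℚ) ∈ B) ⊆ Icc 1 (N / 2) ∪ H := by
        intro i hi
        simp only [hHdef, Finset.mem_union, Finset.mem_filter, Finset.mem_Icc] at hi ⊢
        by_cases h : N < 2 * i
        · exact Or.inr ⟨hi.1, hi.2, h⟩
        · exact Or.inl ⟨hi.1.1, by omega⟩
      refine (Finset.card_le_card h2).trans ((Finset.card_union_le _ _).trans ?_)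
      simp
    have h3 : (near B 1 N : ℝ) ≤ ((N / 2 : ℕ) : ℝ) + (H.card : ℝ) := by exact_mod_cast h1
    have h4 : ((N / 2 : ℕ) : ℝ) ≤ (N : ℝ) / 2 := by
      have := Nat.cast_div_le (α := ℝ) (m := N) (n := 2)
      simpa using this
    linarith
  have hHfacts : ∀ b ∈ H, nm a ≤ N * Nat.gcd (nm a) b ∧ a.den < 2 * Nat.gcd (nm a) b := by
    intro b hb
    simp only [hHdef, Finset.mem_filter, Finset.mem_Icc] at hb
    obtain ⟨h1, h2⟩ := gexa_cross ha (b := b) (by omega) (hB _ hb.2.1)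
    refine ⟨h1, ?_⟩
    have h3 : a.den * N < a.den * (2 * b) := Nat.mul_lt_mul_of_pos_left hb.2.2 hk
    have h4 : N * a.den < N * (2 * Nat.gcd (nm a) b) := by nlinarith
    exact Nat.lt_of_mul_lt_mul_left h4
  have hHne : H.Nonempty := by
    rw [← Finset.card_pos]
    have : (0 : ℝ) < (H.card : ℝ) := lt_of_lt_of_le (by positivity) hHcard
    exact_mod_cast this
  have hjN : nm a ≤ N * N := by
    obtain ⟨b, hb⟩ := hHne
    have h1 := (hHfacts b hb).1
    have h2 := hHsub hb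
    rw [Finset.mem_Icc] at h2
    have h3 : Nat.gcd (nm a) b ≤ N :=
      (Nat.le_of_dvd (by omega) (Nat.gcd_dvd_right _ _)).trans h2.2
    exact h1.trans (Nat.mul_le_mul_left _ h3)
  refine ⟨?_, ?_, ?_⟩
  · have h1 := gexa_upper hj (gexa_omega hN hj hjN)
    have h2 : (Icc 1 N).filter (fun i => Nat.Coprime i (nm a) ∧ N < 2 * i) ⊆
        (Icc 1 N).filter (fun i : ℕ => ¬ (i : ℚ) ∈ B) := by
      intro i hi
      rw [Finset.mem_filter] at hi ⊢
      refine ⟨hi.1, fun hiB => ?_⟩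
      have hiH : i ∈ H := by
        rw [hHdef, Finset.mem_filter]
        exact ⟨hi.1, hiB, hi.2.2⟩
      obtain ⟨h3, h4⟩ := hHfacts i hiH
      have h5 : Nat.gcd (nm a) i = 1 := hi.2.1.symm
      rw [h5] at h3 h4
      have h6 : a.den = 1 := by omega
      have h7 := nm_div_den ha
      rw [h6] at h7
      refine hne (nm a) ?_ ?_
      · rw [Finset.mem_Icc]
        omega
      · simpa using h7.symm
    have h3 := Finset.card_filter_add_card_filter_not (s := Icc 1 N)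
      (fun i : ℕ => (i : ℚ) ∈ B)
    rw [← hnear_eq] at h3
    simp only [Nat.card_Icc, Nat.add_sub_cancel] at h3
    have h4 : (near B 1 N : ℝ) + (((Icc 1 N).filter (fun i : ℕ => ¬ (i : ℚ) ∈ B)).card : ℝ)
        = (N : ℝ) := by exact_mod_cast h3
    have h5 : (((Icc 1 N).filter (fun i => Nat.Coprime i (nm a) ∧ N < 2 * i)).card : ℝ) ≤
        (((Icc 1 N).filter (fun i : ℕ => ¬ (i : ℚ) ∈ B)).card : ℝ) := by
      exact_mod_cast Finset.card_le_card h2
    have h6 : (Nat.totient (nm a) : ℝ) / (nm a : ℝ) * (N : ℝ) / 4 ≤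
        (N : ℝ) - (near B 1 N : ℝ) := by linarith
    have h7 := div_totient_le_gt hj
    have hj' : (0 : ℝ) < (nm a : ℝ) := by exact_mod_cast hj
    have hphi : (0 : ℝ) < (Nat.totient (nm a) : ℝ) := by
      exact_mod_cast Nat.totient_pos.2 hj
    have h8 : 0 ≤ (Nat.totient (nm a) : ℝ) / (nm a : ℝ) * (N : ℝ) / 4 := by positivity
    calc (N : ℝ) = 4 * ((Nat.totient (nm a) : ℝ) / (nm a : ℝ) * (N : ℝ) / 4) *
          ((nm a : ℝ) / (Nat.totient (nm a) : ℝ)) := by field_simp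
      _ ≤ 4 * ((N : ℝ) - (near B 1 N : ℝ)) * gt (nm a) := by
          apply mul_le_mul (by linarith) h7 (by positivity) (by linarith)
  · have hj' : (0 : ℝ) < (nm a : ℝ) := by exact_mod_cast hj
    have h1 := gexa_gcd_count hN0 hj hHsub hHcard (t := (nm a : ℝ) / (N : ℝ)) (by positivity)
      (fun b hb => by
        rw [div_le_iff₀ hN']
        have : (nm a : ℝ) ≤ (N : ℝ) * (Nat.gcd (nm a) b : ℝ) := by
          exact_mod_cast (hHfacts b hb).1
        linarith)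
    rwa [div_le_iff₀ hN'] at h1
  · have hk' : (0 : ℝ) < (a.den : ℝ) := by exact_mod_cast hk
    have h1 := gexa_gcd_count hN0 hj hHsub hHcard (t := (a.den : ℝ) / 2) (by positivity)
      (fun b hb => by
        have : (a.den : ℝ) < 2 * (Nat.gcd (nm a) b : ℝ) := by
          exact_mod_cast (hHfacts b hb).2
        linarith)
    linarith

end Pool.Agent.Lib.MP_4652a8_nt
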