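import Pool.Agent.Lib.MP_4652a8_nt.GExA

set_option autoImplicit false

namespace Pool.Agent.Lib.MP_4652a8_nt
open Finset

theorem gexc_fibre {X : Finset ℚ} (hX : Pos X) (j : ℕ) {b : ℝ} (hb : 0 ≤ b)
    (h : ∀ a ∈ X, nm a = j → (a.den : ℝ) ≤ b) :
    ((X.filter (fun a => nm a = j)).card : ℝ) ≤ b := by
  have h1 : (X.filter (fun a => nm a = j)).card ≤ (Icc 1 ⌊b⌋₊).card := by
    refine Finset.card_le_card_of_injOn (fun a => a.den) (fun a ha => ?_) (fun a ha a' ha' e => ?_)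
    · have ha' := Finset.mem_filter.1 (Finset.mem_coe.1 ha)
      refine Finset.mem_coe.2 (Finset.mem_Icc.2 ⟨a.den_pos, ?_⟩)
      exact Nat.le_floor (h a ha'.1 ha'.2)
    · have h2 := Finset.mem_filter.1 (Finset.mem_coe.1 ha)
      have h3 := Finset.mem_filter.1 (Finset.mem_coe.1 ha')
      exact eq_of_nm_den (hX a h2.1) (hX a' h3.1) (h2.2.trans h3.2.symm) e
  rw [Nat.card_Icc, Nat.add_sub_cancel] at h1
  exact le_trans (by exact_mod_cast h1) (Nat.floor_le hb)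

theorem gexc_level {N j : ℕ} (hN : 1 ≤ N) {g : ℝ} (hg : 1 ≤ g)
    (h : (j : ℝ) ≤ 16 * g ^ 2 * (N : ℝ)) :
    ∃ i, i ≤ j ∧ j ≤ 2 ^ i * N ∧ g ^ 4 ≤ 1024 / 4 ^ i * g ^ 8 := by
  classical
  have hj : j ≤ 2 ^ j * N := by
    have h1 : j < 2 ^ j := Nat.lt_two_pow_self
    nlinarith
  have hex : ∃ i, j ≤ 2 ^ i * N := ⟨j, hj⟩
  refine ⟨Nat.find hex, Nat.find_min' hex hj, Nat.find_spec hex, ?_⟩
  have hg4 : 1 ≤ g ^ 4 := one_le_pow₀ hg
  have key : (4 : ℝ) ^ Nat.find hex ≤ 1024 * g ^ 4 := by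
    rcases Nat.eq_zero_or_pos (Nat.find hex) with h0 | h0
    · rw [h0]
      linarith
    · obtain ⟨k, hk⟩ : ∃ k, Nat.find hex = k + 1 := ⟨Nat.find hex - 1, by omega⟩
      have hm := Nat.find_min hex (m := k) (by omega)
      rw [hk]
      have h1 : ((2 ^ k * N : ℕ) : ℝ) ≤ (j : ℝ) := by exact_mod_cast (not_le.1 hm).le
      push_cast at h1
      have hNr : (0 : ℝ) < N := by exact_mod_cast hN
      have h2 : (2 : ℝ) ^ k ≤ 16 * g ^ 2 := le_of_mul_le_mul_right (h1.trans h) hNr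
      have h3 : ((2 : ℝ) ^ k) ^ 2 ≤ (16 * g ^ 2) ^ 2 := pow_le_pow_left₀ (by positivity) h2 2
      have h4 : (4 : ℝ) ^ (k + 1) = 4 * ((2 : ℝ) ^ k) ^ 2 := by
        rw [← pow_mul, mul_comm k 2, pow_mul, pow_succ]
        norm_num [mul_comm]
      rw [h4]
      nlinarith
  rw [div_mul_eq_mul_div, le_div_iff₀ (by positivity)]
  calc g ^ 4 * 4 ^ Nat.find hex ≤ g ^ 4 * (1024 * g ^ 4) :=
        mul_le_mul_of_nonneg_left key (by positivity)
    _ = 1024 * g ^ 8 := by ring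

theorem gexc_geom (I : ℕ) : ∑ i ∈ range I, (1 / 2 : ℝ) ^ i ≤ 2 := by
  have h : ∑ i ∈ range I, (1 / 2 : ℝ) ^ i = 2 - 2 * (1 / 2 : ℝ) ^ I := by
    induction I with
    | zero => simp
    | succ n ih => rw [Finset.sum_range_succ, ih]; ring
  rw [h]
  have : (0 : ℝ) ≤ (1 / 2 : ℝ) ^ I := by positivity
  linarith

theorem gexc_near_le (A : Finset ℚ) (c : ℚ) (N : ℕ) : near A c N ≤ N := by
  unfold near
  refine le_trans (Finset.card_filter_le _ _) ?_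
  simp

theorem count_extra : ∃ C : ℝ, 0 ≤ C ∧ ∀ (N : ℕ) (G : ℝ) (X : Finset ℚ), 1 ≤ N → 0 < G → Pos X →
    (∀ a ∈ X, G ≤ gt (nm a) ∧ (nm a : ℝ) ≤ 16 * gt (nm a) ^ 2 * (N : ℝ) ∧
      (a.den : ℝ) ≤ 32 * gt (nm a) ^ 2) → (X.card : ℝ) * G ^ 2 ≤ C * (N : ℝ) := by
  classical
  obtain ⟨C, hC, hm⟩ := gt_moment
  refine ⟨32 * (1024 * C * 2), by positivity, fun N G X hN hG hX h => ?_⟩
  have hNr : (0 : ℝ) < N := by exact_mod_cast hN
  set J := X.image nm with hJ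
  have hJm : ∀ j ∈ J, 0 < j ∧ G ≤ gt j ∧ (j : ℝ) ≤ 16 * gt j ^ 2 * (N : ℝ) := by
    intro j hj
    obtain ⟨a, ha, rfl⟩ := Finset.mem_image.1 hj
    exact ⟨nm_pos (hX a ha), (h a ha).1, (h a ha).2.1⟩
  have h1 : (X.card : ℝ) = ∑ j ∈ J, ((X.filter (fun a => nm a = j)).card : ℝ) := by
    exact_mod_cast Finset.card_eq_sum_card_image nm X
  have h2 : (X.card : ℝ) * G ^ 2 ≤ ∑ j ∈ J, 32 * gt j ^ 4 := by
    rw [h1, Finset.sum_mul]
    refine Finset.sum_le_sum (fun j hj => ?_)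
    have t1 : ((X.filter (fun a => nm a = j)).card : ℝ) ≤ 32 * gt j ^ 2 :=
      gexc_fibre hX j (by positivity) (fun a ha e => by
        have := (h a ha).2.2
        rwa [e] at this)
    have t2 : G ^ 2 ≤ gt j ^ 2 := pow_le_pow_left₀ hG.le (hJm j hj).2.1 2
    calc ((X.filter (fun a => nm a = j)).card : ℝ) * G ^ 2 ≤ 32 * gt j ^ 2 * gt j ^ 2 :=
          mul_le_mul t1 t2 (by positivity) (by positivity)
      _ = 32 * gt j ^ 4 := by ring
  have h3 : ∀ j ∈ J, gt j ^ 4 ≤ ∑ i ∈ range (J.sup id + 1),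
      (if j ∈ Icc 1 (2 ^ i * N) then 1024 / 4 ^ i * gt j ^ 8 else 0) := by
    intro j hj
    obtain ⟨i, i1, i2, i3⟩ := gexc_level hN (one_le_gt j) (hJm j hj).2.2
    have hi : i ∈ range (J.sup id + 1) := by
      have : j ≤ J.sup id := Finset.le_sup (f := id) hj
      exact Finset.mem_range.2 (by omega)
    refine le_trans ?_ (Finset.single_le_sum (f := fun i =>
      if j ∈ Icc 1 (2 ^ i * N) then (1024 : ℝ) / 4 ^ i * gt j ^ 8 else 0) (fun k _ => ?_) hi)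
    · rw [if_pos (Finset.mem_Icc.2 ⟨(hJm j hj).1, i2⟩)]
      exact i3
    · split_ifs <;> positivity
  have h4 : ∀ i : ℕ, ∑ j ∈ J, (if j ∈ Icc 1 (2 ^ i * N) then (1024 : ℝ) / 4 ^ i * gt j ^ 8 else 0)
      ≤ 1024 * C * N * (1 / 2 : ℝ) ^ i := by
    intro i
    rw [← Finset.sum_filter]
    have t1 : ∑ j ∈ J.filter (fun j => j ∈ Icc 1 (2 ^ i * N)), (1024 : ℝ) / 4 ^ i * gt j ^ 8 ≤
        ∑ j ∈ Icc 1 (2 ^ i * N), (1024 : ℝ) / 4 ^ i * gt j ^ 8 :=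
      Finset.sum_le_sum_of_subset_of_nonneg (fun j hj => (Finset.mem_filter.1 hj).2)
        (fun j _ _ => by positivity)
    refine t1.trans ?_
    rw [← Finset.mul_sum]
    have t2 := hm (2 ^ i * N)
    push_cast at t2
    have t3 : (4 : ℝ) ^ i = 2 ^ i * 2 ^ i := by
      rw [← mul_pow]
      norm_num
    calc (1024 : ℝ) / 4 ^ i * ∑ j ∈ Icc 1 (2 ^ i * N), gt j ^ 8
        ≤ (1024 : ℝ) / 4 ^ i * (C * (2 ^ i * N)) := mul_le_mul_of_nonneg_left t2 (by positivity)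
      _ = 1024 * C * N * (1 / 2 : ℝ) ^ i := by
        rw [t3, one_div, inv_pow]
        field_simp
  have h5 : ∑ j ∈ J, gt j ^ 4 ≤ 1024 * C * N * 2 := by
    refine (Finset.sum_le_sum h3).trans ?_
    rw [Finset.sum_comm]
    refine (Finset.sum_le_sum (fun i _ => h4 i)).trans ?_
    rw [← Finset.mul_sum]
    exact mul_le_mul_of_nonneg_left (gexc_geom _) (by positivity)
  rw [← Finset.mul_sum] at h2
  linarith

theorem gexc_card (A : Finset ℚ) (N : ℕ) :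
    A.card ≤ near A 1 N +
      (A.filter (fun a => a ∉ (Icc 1 N).image (fun i : ℕ => (i : ℚ)))).card := by
  have hs : A ⊆ ((Icc 1 N).filter (fun i : ℕ => (1 : ℚ) * (i : ℚ) ∈ A)).image (fun i : ℕ => (i : ℚ)) ∪
      A.filter (fun a => a ∉ (Icc 1 N).image (fun i : ℕ => (i : ℚ))) := by
    intro a ha
    rw [Finset.mem_union]
    by_cases h : a ∉ (Icc 1 N).image (fun i : ℕ => (i : ℚ))
    · exact Or.inr (Finset.mem_filter.2 ⟨ha, h⟩)
    · obtain ⟨i, hi, rfl⟩ := Finset.mem_image.1 (not_not.1 h)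
      exact Or.inl (Finset.mem_image.2 ⟨i, Finset.mem_filter.2 ⟨hi, by simpa using ha⟩, rfl⟩)
  refine le_trans (Finset.card_le_card hs) (le_trans (Finset.card_union_le _ _) ?_)
  exact Nat.add_le_add_right Finset.card_image_le _

theorem gexc_side {C lam : ℝ} (hC : 0 ≤ C) (hl4 : lam ≤ 1 / 4) (hlC : 16 * C * lam ≤ 1) {N : ℕ}
    (hN : 1 ≤ N)
    (hc : ∀ (G : ℝ) (X : Finset ℚ), 0 < G → Pos X →
      (∀ a ∈ X, G ≤ gt (nm a) ∧ (nm a : ℝ) ≤ 16 * gt (nm a) ^ 2 * (N : ℝ) ∧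
        (a.den : ℝ) ≤ 32 * gt (nm a) ^ 2) → (X.card : ℝ) * G ^ 2 ≤ C * (N : ℝ))
    (he : ∀ (B : Finset ℚ) (a : ℚ), 0 < a →
      (∀ b ∈ B, nm (a / b) ≤ N ∧ (a / b).den ≤ N) → (∀ i ∈ Icc 1 N, a ≠ (i : ℚ)) →
      (3 / 4) * (N : ℝ) ≤ (near B 1 N : ℝ) →
      (N : ℝ) ≤ 4 * ((N : ℝ) - (near B 1 N : ℝ)) * gt (nm a) ∧
        (nm a : ℝ) ≤ 16 * gt (nm a) ^ 2 * (N : ℝ) ∧ (a.den : ℝ) ≤ 32 * gt (nm a) ^ 2)
    {A B : Finset ℚ} (hA : Pos A) (hOk : Ok A B N N)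
    (hB : (1 - lam) * (N : ℝ) ≤ (near B 1 N : ℝ)) :
    (A.card : ℝ) ≤ (near A 1 N : ℝ) + ((N : ℝ) - (near B 1 N : ℝ)) := by
  have hNr : (0 : ℝ) < N := by exact_mod_cast hN
  have h1 : (A.card : ℝ) ≤ (near A 1 N : ℝ) +
      ((A.filter (fun a => a ∉ (Icc 1 N).image (fun i : ℕ => (i : ℚ)))).card : ℝ) := by
    exact_mod_cast gexc_card A N
  have h34 : (3 / 4) * (N : ℝ) ≤ (near B 1 N : ℝ) := by nlinarith
  have hmu0 : (0 : ℝ) ≤ (N : ℝ) - (near B 1 N : ℝ) := by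
    have : (near B 1 N : ℝ) ≤ N := by exact_mod_cast gexc_near_le B 1 N
    linarith
  have hmul : (N : ℝ) - (near B 1 N : ℝ) ≤ lam * N := by linarith
  have hall : ∀ a ∈ A.filter (fun a => a ∉ (Icc 1 N).image (fun i : ℕ => (i : ℚ))),
      (N : ℝ) ≤ 4 * ((N : ℝ) - (near B 1 N : ℝ)) * gt (nm a) ∧
        (nm a : ℝ) ≤ 16 * gt (nm a) ^ 2 * (N : ℝ) ∧ (a.den : ℝ) ≤ 32 * gt (nm a) ^ 2 := by
    intro a ha
    have ha' := Finset.mem_filter.1 ha
    exact he B a (hA a ha'.1) (hOk a ha'.1)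
      (fun i hi e => ha'.2 (Finset.mem_image.2 ⟨i, hi, e.symm⟩)) h34
  have hpos : Pos (A.filter (fun a => a ∉ (Icc 1 N).image (fun i : ℕ => (i : ℚ)))) :=
    fun a ha => hA a (Finset.mem_filter.1 ha).1
  generalize A.filter (fun a => a ∉ (Icc 1 N).image (fun i : ℕ => (i : ℚ))) = X at h1 hall hpos
  generalize (N : ℝ) - (near B 1 N : ℝ) = mu at *
  suffices h : (X.card : ℝ) ≤ mu by linarith
  rcases X.eq_empty_or_nonempty with rfl | ⟨a, ha⟩
  · simpa using hmu0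
  have hmu : 0 < mu := by
    rcases hmu0.lt_or_eq with h | h
    · exact h
    · have := (hall a ha).1
      rw [← h] at this
      linarith
  have hG : 0 < (N : ℝ) / (4 * mu) := by positivity
  have h2 := hc ((N : ℝ) / (4 * mu)) X hG hpos (fun a ha => ⟨by
    rw [div_le_iff₀ (by positivity)]
    have := (hall a ha).1
    linarith, (hall a ha).2⟩)
  rw [div_pow, ← mul_div_assoc, div_le_iff₀ (by positivity)] at h2
  have h3 : (X.card : ℝ) * N ≤ 16 * C * mu ^ 2 := by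
    refine le_of_mul_le_mul_right ?_ hNr
    nlinarith
  have h4 : 16 * C * mu ≤ N := by
    have t1 : 16 * C * mu ≤ 16 * C * (lam * N) := mul_le_mul_of_nonneg_left hmul (by positivity)
    nlinarith
  refine le_of_mul_le_mul_right ?_ hNr
  nlinarith

/-- local rigidity: near `[1, N]` the two sets have at most `2 N` elements together -/
theorem exact_thm : ∃ lam : ℝ, 0 < lam ∧ ∃ N0 : ℕ, ∀ N : ℕ, N0 ≤ N → ∀ A B : Finset ℚ,
    Pos A → Pos B → Ok A B N N → (1 - lam) * (N : ℝ) ≤ (near A 1 N : ℝ) →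
    (1 - lam) * (N : ℝ) ≤ (near B 1 N : ℝ) → A.card + B.card ≤ 2 * N := by
  obtain ⟨C, hC, hc⟩ := count_extra
  obtain ⟨N0, he⟩ := extra_bounds
  have h16 : 0 < 16 * C + 1 := by positivity
  refine ⟨min (1 / 4) (1 / (16 * C + 1)), lt_min (by norm_num) (by positivity), N0 + 1,
    fun N hN A B hA hB hOk h1 h2 => ?_⟩
  have hlC : 16 * C * min (1 / 4) (1 / (16 * C + 1)) ≤ 1 := by
    refine le_trans (mul_le_mul_of_nonneg_left (min_le_right _ _) (by positivity)) ?_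
    rw [mul_one_div, div_le_one h16]
    linarith
  have hN1 : 1 ≤ N := by omega
  have a1 := gexc_side hC (min_le_left _ _) hlC hN1 (fun G X => hc N G X hN1) (he N (by omega))
    hA hOk h2
  have a2 := gexc_side hC (min_le_left _ _) hlC hN1 (fun G X => hc N G X hN1) (he N (by omega))
    hB (Ok_symm hA hB hOk) h1
  have : (A.card : ℝ) + (B.card : ℝ) ≤ 2 * (N : ℝ) := by linarith
  exact_mod_cast this

end Pool.Agent.Lib.MP_4652a8_nt
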