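import Pool.Agent.Lib.MP_4652a8_nt.GOp1
import Pool.Agent.Lib.MP_4652a8_nt.GOp4

set_option autoImplicit false

namespace Pool.Agent.Lib.MP_4652a8_nt
open Finset

/-- twelve times the mass of the multiples of `q` -/
def gfinSn (P Q : Finset ℕ) (q : ℕ) : ℕ :=
  ∑ m ∈ P.filter (fun m => q ∣ m), Nat.totient m * (12 / F Q m)

theorem gfin_ms {P Q : Finset ℕ} (hQ : DC Q) (h1 : ∀ m ∈ P, m ∣ 12) (h2 : ∀ n ∈ Q, n ∣ 12)
    (q : ℕ) : ms P Q q = (gfinSn P Q q : ℝ) / 12 := by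
  unfold ms gfinSn
  rw [Nat.cast_sum, sum_div]
  refine sum_congr rfl fun m hm => ?_
  have hm' := (mem_filter.1 hm).1
  obtain ⟨n, hn, hF⟩ := F_spec hQ m
  have hd : F Q m ∣ 12 := by
    rw [hF]
    exact Nat.lcm_dvd (h1 m hm') (h2 n hn)
  have hpos : 0 < F Q m := Nat.pos_of_dvd_of_pos hd (by norm_num)
  have hne : (F Q m : ℝ) ≠ 0 := by exact_mod_cast hpos.ne'
  unfold wt
  rw [Nat.cast_mul, Nat.cast_div hd hne]
  push_cast
  field_simp

theorem gfin_table : ∀ P ∈ ({1, 2, 3, 4, 6, 12} : Finset ℕ).powerset,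
    (1 ∈ P ∧ ∀ m ∈ P, ∀ d ∈ ({1, 2, 3, 4, 6, 12} : Finset ℕ), d ∣ m → d ∈ P) →
    ∀ Q ∈ ({1, 2, 3, 4, 6, 12} : Finset ℕ).powerset,
    (1 ∈ Q ∧ ∀ m ∈ Q, ∀ d ∈ ({1, 2, 3, 4, 6, 12} : Finset ℕ), d ∣ m → d ∈ Q) →
    959 * 144 ≤ 1000 * (gfinSn P Q 1 * gfinSn Q P 1) →
    1000 * gfinSn P Q 2 ≤ 600 * gfinSn P Q 1 →
    1000 * gfinSn P Q 3 ≤ 420 * gfinSn P Q 1 →
    (P = {1} ∧ Q = {1}) ∨ (P = {1, 2} ∧ Q = {1, 2}) := by
  decide +kernel

theorem gfin_sub {P : Finset ℕ} (h1 : ∀ m ∈ P, m ∣ 12) :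
    P ∈ ({1, 2, 3, 4, 6, 12} : Finset ℕ).powerset := by
  rw [mem_powerset]
  intro m hm
  have h : m ∈ Nat.divisors 12 := Nat.mem_divisors.2 ⟨h1 m hm, by norm_num⟩
  have h' : Nat.divisors 12 = {1, 2, 3, 4, 6, 12} := by decide
  rwa [h'] at h

/-- the finite case -/
theorem fin_case {P Q : Finset ℕ} (hP : DC P) (hQ : DC Q) (h1 : ∀ m ∈ P, m ∣ 12)
    (h2 : ∀ n ∈ Q, n ∣ 12) (hV : 959 / 1000 ≤ V P Q) (hc : Cen P Q) :
    (P = {1} ∧ Q = {1}) ∨ (P = {1, 2} ∧ Q = {1, 2}) := by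
  obtain ⟨c2, -, -, c3, -⟩ := hc
  unfold V at hV
  rw [← ms_one P Q] at c2 c3 hV
  rw [← ms_one Q P] at hV
  rw [gfin_ms hQ h1 h2, gfin_ms hP h2 h1] at hV
  rw [gfin_ms hQ h1 h2, gfin_ms hQ h1 h2] at c2 c3
  refine gfin_table P (gfin_sub h1) ⟨hP.1, fun m hm d _ hd => hP.2.2 m hm d hd⟩ Q (gfin_sub h2)
    ⟨hQ.1, fun m hm d _ hd => hQ.2.2 m hm d hd⟩ ?_ ?_ ?_
  · have : (959 * 144 : ℝ) ≤ 1000 * ((gfinSn P Q 1 : ℝ) * (gfinSn Q P 1 : ℝ)) := by
      nlinarith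
    exact_mod_cast this
  · have : 1000 * (gfinSn P Q 2 : ℝ) ≤ 600 * (gfinSn P Q 1 : ℝ) := by linarith
    exact_mod_cast this
  · have : 1000 * (gfinSn P Q 3 : ℝ) ≤ 420 * (gfinSn P Q 1 : ℝ) := by linarith
    exact_mod_cast this

theorem gfin_S_one : S {1} {1} = 1 := by
  have h : F {1} 1 = 1 := by decide
  simp [S, wt, h]

theorem gfin_S_two : S {1, 2} {1, 2} = 1 := by
  have h : F {1, 2} 1 = 2 := by decide
  have h' : F {1, 2} 2 = 2 := by decide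
  unfold S
  rw [sum_pair (by norm_num)]
  simp only [wt, h, h', Nat.totient_one, Nat.totient_two]
  norm_num

theorem gfin_totient (b : ℕ) : 2 ^ b ≤ 2 * Nat.totient (2 ^ b) := by
  cases b with
  | zero => simp
  | succ b =>
    rw [Nat.totient_prime_pow_succ Nat.prime_two]
    simp [pow_succ, mul_comm]

/-- a large mass forces both sets to be the divisors of `2 ^ b` -/
theorem gfin_full {P Q : Finset ℕ} (hQ : DC Q) {b : ℕ} (h1 : ∀ m ∈ P, m ∣ 2 ^ b)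
    (h2 : 2 ^ b ∈ Q) (hS : 3 / 4 < S P Q) : 2 ^ b ∈ P ∧ ∀ n ∈ Q, n ∣ 2 ^ b := by
  have hL : 0 < 2 ^ b := by positivity
  have hLr : (0 : ℝ) < ((2 ^ b : ℕ) : ℝ) := by exact_mod_cast hL
  have hF : ∀ m ∈ P, wt Q m ≤ (Nat.totient m : ℝ) / ((2 ^ b : ℕ) : ℝ) := by
    intro m hm
    have h3 := lcm_le_F h2 m
    rw [Nat.lcm_eq_right (h1 m hm)] at h3
    unfold wt
    exact div_le_div_of_nonneg_left (by positivity) hLr (by exact_mod_cast h3)
  have hsum : ∑ m ∈ (Nat.divisors (2 ^ b)).erase (2 ^ b), Nat.totient m + Nat.totient (2 ^ b)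
      = 2 ^ b := by
    rw [sum_erase_add _ _ (Nat.mem_divisors_self _ hL.ne')]
    exact Nat.sum_totient _
  have hrest : ∑ m ∈ P.erase (2 ^ b), wt Q m
      ≤ 1 - (Nat.totient (2 ^ b) : ℝ) / ((2 ^ b : ℕ) : ℝ) := by
    calc ∑ m ∈ P.erase (2 ^ b), wt Q m
        ≤ ∑ m ∈ P.erase (2 ^ b), (Nat.totient m : ℝ) / ((2 ^ b : ℕ) : ℝ) :=
          sum_le_sum fun m hm => hF m (mem_of_mem_erase hm)
      _ ≤ ∑ m ∈ (Nat.divisors (2 ^ b)).erase (2 ^ b),
            (Nat.totient m : ℝ) / ((2 ^ b : ℕ) : ℝ) := by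
          refine sum_le_sum_of_subset_of_nonneg ?_ fun m _ _ => by positivity
          intro m hm
          rw [mem_erase] at hm ⊢
          exact ⟨hm.1, Nat.mem_divisors.2 ⟨h1 m hm.2, hL.ne'⟩⟩
      _ = 1 - (Nat.totient (2 ^ b) : ℝ) / ((2 ^ b : ℕ) : ℝ) := by
          rw [← sum_div, ← Nat.cast_sum, eq_sub_iff_add_eq, ← add_div, ← Nat.cast_add, hsum,
            div_self hLr.ne']
  have hφ : 1 / 2 ≤ (Nat.totient (2 ^ b) : ℝ) / ((2 ^ b : ℕ) : ℝ) := by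
    rw [le_div_iff₀ hLr]
    have : ((2 ^ b : ℕ) : ℝ) ≤ 2 * (Nat.totient (2 ^ b) : ℝ) := by
      exact_mod_cast gfin_totient b
    linarith
  have hmem : 2 ^ b ∈ P := by
    by_contra hc
    rw [erase_eq_of_notMem hc] at hrest
    unfold S at hS
    linarith
  refine ⟨hmem, fun n hn => ?_⟩
  by_contra hc
  have hn0 : 0 < n := hQ.2.1 n hn
  have h4 : 2 * 2 ^ b ≤ F Q (2 ^ b) := by
    refine le_trans ?_ (lcm_le_F hn (2 ^ b))
    obtain ⟨k, hk⟩ := Nat.dvd_lcm_left (2 ^ b) n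
    have hpos : 0 < Nat.lcm (2 ^ b) n := Nat.lcm_pos hL hn0
    have hk0 : k ≠ 0 := by
      rintro rfl
      omega
    have hk1 : k ≠ 1 := by
      rintro rfl
      apply hc
      have := Nat.dvd_lcm_right (2 ^ b) n
      rwa [hk, mul_one] at this
    have hk2 : 2 ≤ k := by omega
    rw [hk, mul_comm]
    exact Nat.mul_le_mul_left _ hk2
  have h5 : wt Q (2 ^ b) ≤ (Nat.totient (2 ^ b) : ℝ) / ((2 ^ b : ℕ) : ℝ) / 2 := by
    unfold wt
    rw [div_div]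
    refine div_le_div_of_nonneg_left (by positivity) (by positivity) ?_
    have : ((2 * 2 ^ b : ℕ) : ℝ) ≤ (F Q (2 ^ b) : ℝ) := by exact_mod_cast h4
    rw [Nat.cast_mul] at this
    push_cast at this ⊢
    linarith
  unfold S at hS
  rw [← sum_erase_add _ _ hmem] at hS
  linarith

/-- the last case: the pair becomes principal after the operation at `2` -/
theorem last_case {P Q : Finset ℕ} (hP : DC P) (hQ : DC Q) (h2 : Stuck Q P)
    (hV : 999 / 1000 ≤ V P Q) {l : ℕ}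
    (h : (up P (2 ^ l) = {1} ∧ dn Q (2 ^ l) = {1}) ∨
      (up P (2 ^ l) = {1, 2} ∧ dn Q (2 ^ l) = {1, 2}))
    (hS : (4 / 5) * S Q P ≤ S (dn Q (2 ^ l)) (up P (2 ^ l))) : P = {1} ∧ Q = {1} := by
  have hL : 0 < 2 ^ l := by positivity
  have hone : S (dn Q (2 ^ l)) (up P (2 ^ l)) = 1 := by
    rcases h with ⟨ha, hb⟩ | ⟨ha, hb⟩
    · rw [ha, hb, gfin_S_one]
    · rw [ha, hb, gfin_S_two]
  have hA : 0 < S P Q := S_pos hP hQ
  have hB : 0 < S Q P := S_pos hQ hP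
  have hbig : 3 / 4 < S P Q := by
    unfold V at hV
    rw [hone] at hS
    by_contra hc
    push Not at hc
    nlinarith
  obtain ⟨b, h1, hbQ⟩ : ∃ b : ℕ, (∀ m ∈ P, m ∣ 2 ^ b) ∧ 2 ^ b ∈ Q := by
    rcases h with ⟨ha, hb⟩ | ⟨ha, hb⟩
    · refine ⟨l, fun m hm => ?_, ?_⟩
      · have h3 : m / Nat.gcd m (2 ^ l) ∈ up P (2 ^ l) := mem_image_of_mem _ hm
        rw [ha, mem_singleton] at h3
        have := (dvd_mul_iff_div_gcd_dvd hL m 1).2 (by rw [h3])
        rwa [mul_one] at this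
      · have := (mem_dn (Q := Q) hL 1).1 (by rw [hb]; simp)
        rwa [mul_one] at this
    · refine ⟨l + 1, fun m hm => ?_, ?_⟩
      · have h3 : m / Nat.gcd m (2 ^ l) ∈ up P (2 ^ l) := mem_image_of_mem _ hm
        rw [ha, mem_insert, mem_singleton] at h3
        rw [pow_succ]
        refine (dvd_mul_iff_div_gcd_dvd hL m 2).2 ?_
        rcases h3 with h3 | h3 <;> rw [h3]
        exact one_dvd _
      · rw [pow_succ]
        exact (mem_dn (Q := Q) hL 2).1 (by rw [hb]; simp)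
  obtain ⟨hbP, h3⟩ := gfin_full hQ h1 hbQ hbig
  cases b with
  | zero =>
    constructor
    · refine eq_singleton_iff_unique_mem.2 ⟨hP.1, fun m hm => ?_⟩
      simpa using h1 m hm
    · refine eq_singleton_iff_unique_mem.2 ⟨hQ.1, fun m hm => ?_⟩
      simpa using h3 m hm
  | succ b =>
    exfalso
    have hF : ∀ m ∈ P, F Q m = 2 ^ (b + 1) := by
      intro m hm
      refine le_antisymm (F_le fun n hn => ?_) ?_
      · exact Nat.le_of_dvd (by positivity) (Nat.lcm_dvd (h1 m hm) (h3 n hn))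
      · have h4 := lcm_le_F hbQ m
        rwa [Nat.lcm_eq_right (h1 m hm)] at h4
    have h2P : 2 ∈ P := hP.2.2 _ hbP 2 (dvd_pow_self 2 (by omega))
    have hf2 : P.filter (fun m => ¬ 2 ∣ m) = {1} := by
      ext m
      simp only [mem_filter, mem_singleton]
      constructor
      · rintro ⟨hm, hn⟩
        obtain ⟨k, -, rfl⟩ := (Nat.dvd_prime_pow Nat.prime_two).1 (h1 m hm)
        cases k with
        | zero => rfl
        | succ k => exact absurd (dvd_pow_self 2 (by omega)) hn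
      · rintro rfl
        exact ⟨hP.1, by norm_num⟩
    have hf4 : P.filter (fun m => ¬ 4 ∣ m) = {1, 2} := by
      ext m
      simp only [mem_filter, mem_insert, mem_singleton]
      constructor
      · rintro ⟨hm, hn⟩
        obtain ⟨k, -, rfl⟩ := (Nat.dvd_prime_pow Nat.prime_two).1 (h1 m hm)
        match k with
        | 0 => exact Or.inl rfl
        | 1 => exact Or.inr rfl
        | k + 2 => exact absurd ⟨2 ^ k, by ring⟩ hn
      · rintro (rfl | rfl)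
        · exact ⟨hP.1, by norm_num⟩
        · exact ⟨h2P, by norm_num⟩
    have e2 := S_sub_ms P Q 2
    have e4 := S_sub_ms P Q 4
    rw [hf2, sum_singleton] at e2
    rw [hf4, sum_pair (by norm_num)] at e4
    have hw : wt Q 2 = wt Q 1 := by
      unfold wt
      rw [hF 1 hP.1, hF 2 h2P, Nat.totient_one, Nat.totient_two]
    have hZ : Zm P Q 2 1 = S P Q := by
      unfold Zm
      norm_num
      linarith
    have hst := h2 2 1 Nat.prime_two le_rfl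
    rw [hZ] at hst
    have hR := S_le_Rm hQ hP Nat.prime_two 1
    nlinarith

end Pool.Agent.Lib.MP_4652a8_nt
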