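import Pool.Agent.Lib.MP_4652a8_nt.GQ0

set_option autoImplicit false

namespace Pool.Agent.Lib.MP_4652a8_nt
open Finset

/-- a number not dividing `w!` has a prime power divisor above `w` -/
theorem ggcd_big {g w : ℕ} (h : ¬ g ∣ w.factorial) :
    ∃ p k : ℕ, p.Prime ∧ p ^ k ∣ g ∧ w < p ^ k := by
  by_contra hc
  push Not at hc
  apply h
  rw [Nat.dvd_iff_prime_pow_dvd_dvd]
  intro p k hp hk
  exact Nat.dvd_factorial (pow_pos hp.pos k) (hc p k hp hk)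

theorem ggcd_prod {x y q C a b : ℝ} (hy : 0 ≤ y) (hq : 0 < q) (hx : 0 ≤ x)
    (h1 : x * q ≤ C * a) (h2 : y * q ≤ C * b) : x * y ≤ C ^ 2 * (a * b) * (q ^ 2)⁻¹ := by
  have h3 : (x * q) * (y * q) ≤ (C * a) * (C * b) :=
    mul_le_mul h1 h2 (by positivity) (le_trans (by positivity) h1)
  rw [← div_eq_mul_inv, le_div_iff₀ (by positivity)]
  nlinarith

/-- for most pairs the common factor is bounded -/
theorem gcd_typical (C e : ℝ) (he : 0 < e) : ∃ T : ℕ, 1 ≤ T ∧ ∀ A B : Finset ℚ, Pos A → Pos B →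
    Tail A C → Tail B C →
    (((A ×ˢ B).filter (fun z =>
        T < Nat.gcd (nm z.1) (nm z.2) * Nat.gcd z.1.den z.2.den)).card : ℝ)
      ≤ e * ((A.card : ℝ) * (B.card : ℝ)) := by
  classical
  obtain ⟨w0, hw0⟩ := exists_nat_ge (2 * C ^ 2 / e)
  set w := w0 + 1 with hw
  have hwpos : (0 : ℝ) < w := by
    rw [hw]
    push_cast
    positivity
  have hwe : 2 * C ^ 2 * (w : ℝ)⁻¹ ≤ e := by
    rw [← div_eq_mul_inv, div_le_iff₀ hwpos]
    rw [div_le_iff₀ he] at hw0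
    have : (w0 : ℝ) ≤ w := by
      rw [hw]
      push_cast
      linarith
    nlinarith
  refine ⟨w.factorial * w.factorial,
    Nat.mul_pos (Nat.factorial_pos w) (Nat.factorial_pos w), fun A B hA hB tA tB => ?_⟩
  set M := w + A.sup (fun a => nm a + a.den) with hM
  set SS := (Ioc w M).filter (fun q => ∃ p k : ℕ, p.Prime ∧ q = p ^ k) with hSS
  have hsub : (A ×ˢ B).filter (fun z => w.factorial * w.factorial <
        Nat.gcd (nm z.1) (nm z.2) * Nat.gcd z.1.den z.2.den) ⊆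
      SS.biUnion (fun q => (A.filter (fun a => q ∣ nm a)) ×ˢ (B.filter (fun a => q ∣ nm a)) ∪
        (A.filter (fun a => q ∣ a.den)) ×ˢ (B.filter (fun a => q ∣ a.den))) := by
    intro z hz
    rw [mem_filter, mem_product] at hz
    obtain ⟨⟨hzA, hzB⟩, hlt⟩ := hz
    have hle : nm z.1 + z.1.den ≤ A.sup (fun a => nm a + a.den) :=
      le_sup (f := fun a => nm a + a.den) hzA
    have hn0 : 0 < nm z.1 := nm_pos (hA _ hzA)
    have hd0 : 0 < z.1.den := z.1.den_pos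
    by_cases h1 : Nat.gcd (nm z.1) (nm z.2) ∣ w.factorial
    · by_cases h2 : Nat.gcd z.1.den z.2.den ∣ w.factorial
      · have := Nat.mul_le_mul (Nat.le_of_dvd (Nat.factorial_pos w) h1)
          (Nat.le_of_dvd (Nat.factorial_pos w) h2)
        omega
      · obtain ⟨p, k, hp, hk, hwk⟩ := ggcd_big h2
        have ha := hk.trans (Nat.gcd_dvd_left _ _)
        have hb := hk.trans (Nat.gcd_dvd_right _ _)
        have := Nat.le_of_dvd hd0 ha
        refine mem_biUnion.2 ⟨p ^ k, mem_filter.2 ⟨mem_Ioc.2 ⟨hwk, by omega⟩, p, k, hp, rfl⟩,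
          mem_union_right _ (mem_product.2 ⟨mem_filter.2 ⟨hzA, ha⟩, mem_filter.2 ⟨hzB, hb⟩⟩)⟩
    · obtain ⟨p, k, hp, hk, hwk⟩ := ggcd_big h1
      have ha := hk.trans (Nat.gcd_dvd_left _ _)
      have hb := hk.trans (Nat.gcd_dvd_right _ _)
      have := Nat.le_of_dvd hn0 ha
      refine mem_biUnion.2 ⟨p ^ k, mem_filter.2 ⟨mem_Ioc.2 ⟨hwk, by omega⟩, p, k, hp, rfl⟩,
        mem_union_left _ (mem_product.2 ⟨mem_filter.2 ⟨hzA, ha⟩, mem_filter.2 ⟨hzB, hb⟩⟩)⟩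
  have hterm : ∀ q ∈ SS,
      (((A.filter (fun a => q ∣ nm a)) ×ˢ (B.filter (fun a => q ∣ nm a)) ∪
        (A.filter (fun a => q ∣ a.den)) ×ˢ (B.filter (fun a => q ∣ a.den))).card : ℝ)
      ≤ 2 * C ^ 2 * ((A.card : ℝ) * (B.card : ℝ)) * ((q : ℝ) ^ 2)⁻¹ := by
    intro q hq
    obtain ⟨-, p, k, hp, rfl⟩ := mem_filter.1 hq
    have hq0 : (0 : ℝ) < ((p ^ k : ℕ) : ℝ) := by exact_mod_cast pow_pos hp.pos k
    have a1 := (tA p hp k).1
    have a2 := (tA p hp k).2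
    have b1 := (tB p hp k).1
    have b2 := (tB p hp k).2
    rw [← Nat.cast_pow] at a1 a2 b1 b2
    have c1 := ggcd_prod (Nat.cast_nonneg _) hq0 (Nat.cast_nonneg _) a1 b1
    have c2 := ggcd_prod (Nat.cast_nonneg _) hq0 (Nat.cast_nonneg _) a2 b2
    have c3 := card_union_le
      ((A.filter (fun a => p ^ k ∣ nm a)) ×ˢ (B.filter (fun a => p ^ k ∣ nm a)))
      ((A.filter (fun a => p ^ k ∣ a.den)) ×ˢ (B.filter (fun a => p ^ k ∣ a.den)))
    rw [card_product, card_product] at c3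
    have c4 := (Nat.cast_le (α := ℝ)).2 c3
    rw [Nat.cast_add, Nat.cast_mul, Nat.cast_mul] at c4
    linarith
  have hAB : 0 ≤ (A.card : ℝ) * (B.card : ℝ) := by positivity
  have hsum : ∑ q ∈ SS, ((q : ℝ) ^ 2)⁻¹ ≤ (w : ℝ)⁻¹ := by
    have h1 : ∑ q ∈ SS, ((q : ℝ) ^ 2)⁻¹ ≤ ∑ q ∈ Ioc w M, ((q : ℝ) ^ 2)⁻¹ :=
      sum_le_sum_of_subset_of_nonneg (filter_subset _ _) fun q _ _ => by positivity
    have h2 := sum_Ioc_inv_sq_le_sub (α := ℝ) (k := w) (n := M) (by omega) (by omega)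
    have h3 : (0 : ℝ) ≤ (M : ℝ)⁻¹ := by positivity
    linarith
  calc (((A ×ˢ B).filter (fun z => w.factorial * w.factorial <
        Nat.gcd (nm z.1) (nm z.2) * Nat.gcd z.1.den z.2.den)).card : ℝ)
      ≤ ((∑ q ∈ SS, ((A.filter (fun a => q ∣ nm a)) ×ˢ (B.filter (fun a => q ∣ nm a)) ∪
        (A.filter (fun a => q ∣ a.den)) ×ˢ (B.filter (fun a => q ∣ a.den))).card : ℕ) : ℝ) := by
        exact_mod_cast (card_le_card hsub).trans card_biUnion_le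
    _ ≤ ∑ q ∈ SS, 2 * C ^ 2 * ((A.card : ℝ) * (B.card : ℝ)) * ((q : ℝ) ^ 2)⁻¹ := by
        rw [Nat.cast_sum]
        exact sum_le_sum hterm
    _ = 2 * C ^ 2 * ((A.card : ℝ) * (B.card : ℝ)) * ∑ q ∈ SS, ((q : ℝ) ^ 2)⁻¹ := by
        rw [mul_sum]
    _ ≤ 2 * C ^ 2 * ((A.card : ℝ) * (B.card : ℝ)) * (w : ℝ)⁻¹ :=
        mul_le_mul_of_nonneg_left hsum (by positivity)
    _ = (2 * C ^ 2 * (w : ℝ)⁻¹) * ((A.card : ℝ) * (B.card : ℝ)) := by ring
    _ ≤ _ := mul_le_mul_of_nonneg_right hwe hAB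

end Pool.Agent.Lib.MP_4652a8_nt
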