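import Pool.Agent.Lib.MP_4652a8_nt.GNear
import Pool.Agent.Lib.MP_4652a8_nt.GExC

set_option autoImplicit false

namespace Pool.Agent.Lib.MP_4652a8_nt
open Finset

theorem main_rat : ∃ N0 : ℕ, ∀ N : ℕ, N0 ≤ N → ∀ A B : Finset ℚ, Pos A → Pos B → Ok A B N N →
    min A.card B.card ≤ N := by
  obtain ⟨lam, hl, N1, h1⟩ := exact_thm
  obtain ⟨N2, h2⟩ := near_thm hl
  refine ⟨max N1 N2, fun N hN A B hA hB h => ?_⟩
  by_contra hc
  have hc' : N < min A.card B.card := not_le.1 hc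
  have ha : N < A.card := lt_of_lt_of_le hc' (min_le_left _ _)
  have hb : N < B.card := lt_of_lt_of_le hc' (min_le_right _ _)
  obtain ⟨A', B', p1, p2, p3, p4, p5, p6, p7⟩ :=
    h2 N (le_trans (le_max_right _ _) hN) A B hA hB h ha.le hb.le
  have := h1 N (le_trans (le_max_left _ _) hN) A' B' p1 p2 p3 p6 p7
  omega

theorem main_nat : ∃ N0 : ℕ, ∀ A B : Finset ℕ, (∀ a ∈ A, 0 < a) → (∀ b ∈ B, 0 < b) →
    N0 ≤ min A.card B.card →
    ∃ a ∈ A, ∃ b ∈ B, min A.card B.card ≤ max (a / Nat.gcd a b) (b / Nat.gcd a b) := by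
  obtain ⟨N0, h⟩ := main_rat
  refine ⟨N0 + 1, fun A B hA hB hN => ?_⟩
  by_contra hc
  push Not at hc
  have hinj : Function.Injective (fun n : ℕ => (n : ℚ)) := Nat.cast_injective
  have key := h (min A.card B.card - 1) (by omega) (A.image (fun n : ℕ => (n : ℚ)))
    (B.image (fun n : ℕ => (n : ℚ))) ?_ ?_ ?_
  · rw [Finset.card_image_of_injective _ hinj, Finset.card_image_of_injective _ hinj] at key
    omega
  · intro x hx
    obtain ⟨a, ha, rfl⟩ := Finset.mem_image.1 hx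
    exact_mod_cast hA a ha
  · intro x hx
    obtain ⟨a, ha, rfl⟩ := Finset.mem_image.1 hx
    exact_mod_cast hB a ha
  · intro x hx y hy
    obtain ⟨a, ha, rfl⟩ := Finset.mem_image.1 hx
    obtain ⟨b, hb, rfl⟩ := Finset.mem_image.1 hy
    have h1 := hc a ha b hb
    rw [nm_natDiv (hB b hb), den_natDiv (hB b hb)]
    have h2 := le_max_left (a / Nat.gcd a b) (b / Nat.gcd a b)
    have h3 := le_max_right (a / Nat.gcd a b) (b / Nat.gcd a b)
    constructor <;> omega

end Pool.Agent.Lib.MP_4652a8_nt
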