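import Pool.Agent.Lib.MP_4652a8_nt.GOp1

set_option autoImplicit false

namespace Pool.Agent.Lib.MP_4652a8_nt
open Finset

theorem gop3_sum_dn (Q : Finset ℕ) {L : ℕ} (g : ℕ → ℝ) :
    ∑ n ∈ dn Q L, g n = ∑ n ∈ Q, if L ∣ n then g (n / L) else 0 := by
  unfold dn
  rw [Finset.sum_image, Finset.sum_filter]
  intro a ha b hb hab
  have ha' := (Finset.mem_filter.1 (Finset.mem_coe.1 ha)).2
  have hb' := (Finset.mem_filter.1 (Finset.mem_coe.1 hb)).2
  exact (Nat.div_left_inj ha' hb').1 hab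

theorem gop3_inv_up (P : Finset ℕ) {L : ℕ} (hL : 0 < L) (n : ℕ) :
    1 / (F (up P L) n : ℝ) = L * (1 / (F P (L * n) : ℝ)) := by
  have h : (F P (L * n) : ℝ) = (F (up P L) n : ℝ) * L := by exact_mod_cast (F_up_eq P hL n).symm
  have hL' : (L : ℝ) ≠ 0 := by positivity
  rw [h, one_div, one_div, mul_inv, mul_comm _ ((L : ℝ)⁻¹), ← mul_assoc, mul_inv_cancel₀ hL',
    one_mul]

theorem gop3_tot_dvd {p n : ℕ} (hp : p.Prime) (h : p ∣ n) (t : ℕ) :
    Nat.totient (p ^ t * n) = p ^ t * Nat.totient n := by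
  induction t with
  | zero => simp
  | succ k ih =>
    rw [pow_succ', mul_assoc, Nat.totient_mul_of_prime_of_dvd hp (Dvd.dvd.mul_left h _), ih,
      mul_assoc]

theorem gop3_wt_dvd (P : Finset ℕ) {p n : ℕ} (hp : p.Prime) (h : p ∣ n) (t : ℕ) :
    wt (up P (p ^ t)) n = wt P (p ^ t * n) := by
  unfold wt
  rw [div_eq_mul_one_div, gop3_inv_up P (pow_pos hp.pos t), gop3_tot_dvd hp h]
  push_cast
  ring

theorem gop3_wt_not (P : Finset ℕ) {p n t : ℕ} (hp : p.Prime) (h : ¬ p ∣ n) (ht : 1 ≤ t) :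
    wt (up P (p ^ t)) n = (p : ℝ) * wt P (p ^ t * n) / ((p : ℝ) - 1) := by
  have h1 : (1 : ℝ) < p := by exact_mod_cast hp.one_lt
  have h2 : (p : ℝ) - 1 ≠ 0 := by linarith
  obtain ⟨k, rfl⟩ : ∃ k, t = k + 1 := ⟨t - 1, by omega⟩
  unfold wt
  rw [div_eq_mul_one_div, gop3_inv_up P (pow_pos hp.pos _),
    Nat.totient_mul (Nat.Coprime.pow_left _ ((Nat.Prime.coprime_iff_not_dvd hp).2 h)),
    Nat.totient_prime_pow_succ hp, div_eq_mul_one_div _ (F P (p ^ (k + 1) * n) : ℝ)]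
  push_cast [Nat.cast_sub hp.one_le]
  field_simp
  ring

theorem S_dn {P Q : Finset ℕ} (hP : DC P) (hQ : DC Q) {p t : ℕ} (hp : p.Prime) (ht : 1 ≤ t) :
    S (dn Q (p ^ t)) (up P (p ^ t)) = Zm Q P p t := by
  have h1 : (1 : ℝ) < p := by exact_mod_cast hp.one_lt
  have h2 : (p : ℝ) - 1 ≠ 0 := by linarith
  have hL : 0 < p ^ t := pow_pos hp.pos t
  unfold S Zm ms
  rw [gop3_sum_dn, Finset.sum_filter, Finset.sum_filter, Finset.mul_sum, ← Finset.sum_sub_distrib,
    Finset.sum_div]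
  refine Finset.sum_congr rfl fun n _ => ?_
  by_cases h : p ^ t ∣ n
  · obtain ⟨k, rfl⟩ := h
    rw [if_pos (dvd_mul_right _ _), if_pos (dvd_mul_right _ _), Nat.mul_div_cancel_left _ hL]
    have e : p ^ (t + 1) ∣ p ^ t * k ↔ p ∣ k := by
      rw [pow_succ]
      exact Nat.mul_dvd_mul_iff_left hL
    by_cases hk : p ∣ k
    · rw [if_pos (e.2 hk), gop3_wt_dvd P hp hk]
      field_simp
    · rw [if_neg (fun h => hk (e.1 h)), gop3_wt_not P hp hk ht, sub_zero]
  · rw [if_neg h, if_neg h, if_neg (fun h' => h ((pow_dvd_pow p (Nat.le_succ t)).trans h'))]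
    simp

theorem ms_dn {P Q : Finset ℕ} (hP : DC P) (hQ : DC Q) {p t j : ℕ} (hp : p.Prime) (hj : 1 ≤ j) :
    ms (dn Q (p ^ t)) (up P (p ^ t)) (p ^ j) = ms Q P (p ^ (t + j)) := by
  have hL : 0 < p ^ t := pow_pos hp.pos t
  unfold ms
  rw [Finset.sum_filter, gop3_sum_dn, Finset.sum_filter]
  refine Finset.sum_congr rfl fun n _ => ?_
  by_cases h : p ^ t ∣ n
  · obtain ⟨k, rfl⟩ := h
    rw [if_pos (dvd_mul_right _ _), Nat.mul_div_cancel_left _ hL]
    have e : p ^ (t + j) ∣ p ^ t * k ↔ p ^ j ∣ k := by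
      rw [pow_add]
      exact Nat.mul_dvd_mul_iff_left hL
    by_cases hk : p ^ j ∣ k
    · rw [if_pos hk, if_pos (e.2 hk),
        gop3_wt_dvd P hp ((dvd_pow_self p (by omega)).trans hk)]
    · rw [if_neg hk, if_neg (fun h => hk (e.1 h))]
  · rw [if_neg h, if_neg (fun h' => h ((pow_dvd_pow p (Nat.le_add_right t j)).trans h'))]

theorem bad_dn {P Q : Finset ℕ} (hP : DC P) (hQ : DC Q) {p t L' : ℕ} (hp : p.Prime)
    (hL : 0 < L') :
    bad Q P (p ^ t * L') ≤ bad (dn Q (p ^ t)) (up P (p ^ t)) L' +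
      (S Q P - S (dn Q (p ^ t)) (up P (p ^ t))) := by
  have hL0 : 0 < p ^ t := pow_pos hp.pos t
  have hL0' : (0 : ℝ) < ((p ^ t : ℕ) : ℝ) := by exact_mod_cast hL0
  have hL' : (0 : ℝ) < (L' : ℝ) := by exact_mod_cast hL
  set G : ℕ → ℝ := fun k =>
    ((if k ∣ L' then max (1 / (F (up P (p ^ t)) k : ℝ) - 1 / (L' : ℝ)) 0
      else 1 / (F (up P (p ^ t)) k : ℝ)) - 1 / (F (up P (p ^ t)) k : ℝ)) / ((p ^ t : ℕ) : ℝ)
    with hG
  have key : ∀ n ∈ Q, (Nat.totient n : ℝ) *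
      (if n ∣ p ^ t * L' then max (1 / (F P n : ℝ) - 1 / ((p ^ t * L' : ℕ) : ℝ)) 0
        else 1 / (F P n : ℝ)) ≤ wt P n +
      (if n / Nat.gcd n (p ^ t) ∈ dn Q (p ^ t) then
        (Nat.totient n : ℝ) * G (n / Nat.gcd n (p ^ t)) else 0) := by
    intro n hn
    have hφ : (0 : ℝ) ≤ (Nat.totient n : ℝ) := by positivity
    unfold wt
    rw [div_eq_mul_one_div (Nat.totient n : ℝ)]
    by_cases hm : n / Nat.gcd n (p ^ t) ∈ dn Q (p ^ t)
    · rw [if_pos hm, ← mul_add]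
      refine mul_le_mul_of_nonneg_left ?_ hφ
      have hν : 0 < p ^ t * (n / Nat.gcd n (p ^ t)) := hQ.2.1 _ ((mem_dn hL0 _).1 hm)
      have hd : n ∣ p ^ t * (n / Nat.gcd n (p ^ t)) :=
        (dvd_mul_iff_div_gcd_dvd hL0 n _).2 dvd_rfl
      have hF : (F P n : ℝ) ≤ (F P (p ^ t * (n / Nat.gcd n (p ^ t))) : ℝ) := by
        exact_mod_cast F_mono hP hd hν
      have hF0 : (0 : ℝ) < (F P n : ℝ) := by exact_mod_cast F_pos hP (hQ.2.1 n hn)
      have hab := one_div_le_one_div_of_le hF0 hF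
      simp only [hG]
      by_cases hc : n ∣ p ^ t * L'
      · rw [if_pos hc, if_pos ((dvd_mul_iff_div_gcd_dvd hL0 n _).1 hc), gop3_inv_up P hL0]
        generalize 1 / (F P n : ℝ) = a at hab ⊢
        generalize 1 / (F P (p ^ t * (n / Nat.gcd n (p ^ t))) : ℝ) = b at hab ⊢
        rw [Nat.cast_mul]
        generalize ((p ^ t : ℕ) : ℝ) = c at hL0' ⊢
        have e1 : (c * b - 1 / (L' : ℝ) - c * b) / c = -(1 / (c * L')) := by
          field_simp
          ring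
        have e2 : (0 - c * b) / c = -b := by
          field_simp
          ring
        have h1 : (c * b - 1 / (L' : ℝ) - c * b) / c ≤ (max (c * b - 1 / (L' : ℝ)) 0 - c * b) / c := by
          gcongr
          exact le_max_left _ _
        have h2 : (0 - c * b) / c ≤ (max (c * b - 1 / (L' : ℝ)) 0 - c * b) / c := by
          gcongr
          exact le_max_right _ _
        refine max_le ?_ ?_ <;> linarith
      · rw [if_neg hc, if_neg (fun h => hc ((dvd_mul_iff_div_gcd_dvd hL0 n _).2 h)), sub_self,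
          zero_div, add_zero]
    · rw [if_neg hm, add_zero]
      refine mul_le_mul_of_nonneg_left ?_ hφ
      split_ifs
      · refine max_le ?_ (by positivity)
        have : (0 : ℝ) ≤ 1 / ((p ^ t * L' : ℕ) : ℝ) := by positivity
        linarith
      · exact le_rfl
  have h2 : ∑ n ∈ Q, (if n / Nat.gcd n (p ^ t) ∈ dn Q (p ^ t) then
        (Nat.totient n : ℝ) * G (n / Nat.gcd n (p ^ t)) else 0) =
      bad (dn Q (p ^ t)) (up P (p ^ t)) L' - S (dn Q (p ^ t)) (up P (p ^ t)) := by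
    rw [← Finset.sum_filter, ← Finset.sum_fiberwise_eq_sum_filter]
    unfold bad S
    rw [← Finset.sum_sub_distrib]
    refine Finset.sum_congr rfl fun k hk => ?_
    have h3 : ((∑ m ∈ Q.filter (fun m => m / Nat.gcd m (p ^ t) = k), Nat.totient m : ℕ) : ℝ) =
        ((p ^ t * Nat.totient k : ℕ) : ℝ) := by
      rw [fiber_eq hQ hp t k ((mem_dn hL0 k).1 hk)]
    rw [Finset.sum_congr rfl (g := fun m => (Nat.totient m : ℝ) * G k)
      (fun m hm => by rw [(Finset.mem_filter.1 hm).2]), ← Finset.sum_mul, ← Nat.cast_sum, h3,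
      Nat.cast_mul]
    unfold wt
    rw [div_eq_mul_one_div (Nat.totient k : ℝ), ← mul_sub]
    simp only [hG]
    field_simp
  have h3 := Finset.sum_le_sum key
  rw [Finset.sum_add_distrib, h2] at h3
  unfold bad S at *
  linarith

end Pool.Agent.Lib.MP_4652a8_nt
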