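import Pool.Agent.Lib.MP_4652a8_nt.GOp2
import Pool.Agent.Lib.MP_4652a8_nt.GOp3
import Pool.Agent.Lib.MP_4652a8_nt.GOp4

set_option autoImplicit false

namespace Pool.Agent.Lib.MP_4652a8_nt
open Finset

/-- the conclusion of the model theorem for one pair -/
def Mdl (P Q : Finset ℕ) : Prop :=
  V P Q ≤ 1 ∧ (999 / 1000 ≤ V P Q → ∃ L : ℕ, 0 < L ∧
    bad P Q L * S Q P + bad Q P L * S P Q ≤ 2000 * (1 - V P Q))

theorem Mdl_symm {P Q : Finset ℕ} (h : Mdl P Q) : Mdl Q P := by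
  obtain ⟨h1, h2⟩ := h
  refine ⟨by rw [V_comm]; exact h1, fun h3 => ?_⟩
  rw [V_comm] at h3
  obtain ⟨L, hL, h4⟩ := h2 h3
  refine ⟨L, hL, ?_⟩
  rw [V_comm Q P]
  linarith

theorem gstep_S_one : S {1} {1} = 1 := by
  simp [S, wt, F]

theorem gstep_bad_one : bad {1} {1} 1 = 0 := by
  simp [bad, F]

theorem Mdl_one : Mdl {1} {1} := by
  have hV : V {1} {1} = 1 := by simp [V, gstep_S_one]
  refine ⟨hV.le, fun _ => ⟨1, Nat.one_pos, ?_⟩⟩
  rw [hV, gstep_bad_one]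
  norm_num

/-- one gaining operation transfers the conclusion -/
theorem Mdl_step {P Q : Finset ℕ} (hP : DC P) (hQ : DC Q) {p t : ℕ} (hp : p.Prime) (ht : 1 ≤ t)
    (hg : S P Q * (S Q P + (1 / 1000) * (S Q P - Zm Q P p t)) ≤ Rm P Q p t * Zm Q P p t)
    (ih : ∀ P' Q' : Finset ℕ, DC P' → DC Q' → P'.card + Q'.card < P.card + Q.card → Mdl P' Q') :
    Mdl P Q := by
  have hA : 0 < S P Q := S_pos hP hQ
  have hB : 0 < S Q P := S_pos hQ hP
  have hZB : Zm Q P p t ≤ S Q P := Zm_le_S hQ hP hp ht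
  have hZ0 : 0 ≤ Zm Q P p t := Zm_nonneg Q P hp t
  have hmem : p ^ t ∈ Q := by
    by_contra hn
    have hz : Zm Q P p t = 0 := Zm_eq_zero hQ P hn
    rw [hz] at hg
    have h1 : 0 < S P Q * (S Q P + (1 / 1000) * (S Q P - 0)) := by
      apply mul_pos hA
      linarith
    linarith
  have h2 : 2 ≤ p ^ t := by
    calc 2 ≤ p := hp.two_le
      _ = p ^ 1 := (pow_one p).symm
      _ ≤ p ^ t := Nat.pow_le_pow_right hp.pos ht
  have hP' : DC (up P (p ^ t)) := DC_up hP _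
  have hQ' : DC (dn Q (p ^ t)) := DC_dn hQ hmem
  have hcard : (up P (p ^ t)).card + (dn Q (p ^ t)).card < P.card + Q.card := by
    have h3 := card_up_le P (p ^ t)
    have h4 := card_dn_lt hQ h2
    omega
  obtain ⟨hV1, hV2⟩ := ih _ _ hP' hQ' hcard
  have hSd : S (dn Q (p ^ t)) (up P (p ^ t)) = Zm Q P p t := S_dn hP hQ hp ht
  have hSu : Rm P Q p t ≤ S (up P (p ^ t)) (dn Q (p ^ t)) := S_up hP hQ hp hmem
  have hSR : S P Q ≤ Rm P Q p t := S_le_Rm hP hQ hp t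
  have hVV : V (up P (p ^ t)) (dn Q (p ^ t)) =
      S (up P (p ^ t)) (dn Q (p ^ t)) * Zm Q P p t := by
    unfold V; rw [hSd]
  have hgain : V P Q + (1 / 1000) * (S P Q * (S Q P - Zm Q P p t)) ≤
      V (up P (p ^ t)) (dn Q (p ^ t)) := by
    rw [hVV]
    have h5 := mul_le_mul_of_nonneg_right hSu hZ0
    unfold V
    linarith
  have hD : 0 ≤ S P Q * (S Q P - Zm Q P p t) := mul_nonneg hA.le (by linarith)
  refine ⟨by linarith, fun hv => ?_⟩
  obtain ⟨L', hL', hb⟩ := hV2 (by linarith)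
  refine ⟨p ^ t * L', Nat.mul_pos (by omega) hL', ?_⟩
  have hbu := bad_up hP hQ hp hmem hL'
  have hbd := bad_dn (t := t) hP hQ hp hL'
  have hbS := bad_le_S P Q (p ^ t * L')
  have hb0 := bad_nonneg (dn Q (p ^ t)) (up P (p ^ t)) L'
  rw [hSd] at hb hbd
  have e1 : bad P Q (p ^ t * L') * Zm Q P p t ≤
      bad (up P (p ^ t)) (dn Q (p ^ t)) L' * Zm Q P p t := mul_le_mul_of_nonneg_right hbu hZ0
  have e2 : bad P Q (p ^ t * L') * (S Q P - Zm Q P p t) ≤ S P Q * (S Q P - Zm Q P p t) :=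
    mul_le_mul_of_nonneg_right hbS (by linarith)
  have e3 : bad Q P (p ^ t * L') * S P Q ≤
      (bad (dn Q (p ^ t)) (up P (p ^ t)) L' + (S Q P - Zm Q P p t)) * S P Q :=
    mul_le_mul_of_nonneg_right hbd hA.le
  have e4 : bad (dn Q (p ^ t)) (up P (p ^ t)) L' * S P Q ≤
      bad (dn Q (p ^ t)) (up P (p ^ t)) L' * S (up P (p ^ t)) (dn Q (p ^ t)) :=
    mul_le_mul_of_nonneg_left (hSR.trans hSu) hb0
  nlinarith [e1, e2, e3, e4, hb, hgain]

end Pool.Agent.Lib.MP_4652a8_nt
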