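import Pool.Agent.Lib.MP_4652a8_nt.GStuck
import Pool.Agent.Lib.MP_4652a8_nt.GStep

set_option autoImplicit false

namespace Pool.Agent.Lib.MP_4652a8_nt
open Finset

/-- the model theorem with stability -/
theorem model_thm : ∀ (k : ℕ) (P Q : Finset ℕ), DC P → DC Q → P.card + Q.card = k → Mdl P Q := by
  intro k
  induction k using Nat.strong_induction_on with
  | _ k ih =>
    intro P Q hP hQ hk
    have ih' : ∀ P' Q' : Finset ℕ, DC P' → DC Q' → P'.card + Q'.card < P.card + Q.card →
        Mdl P' Q' := fun P' Q' h1 h2 h3 => ih _ (hk ▸ h3) P' Q' h1 h2 rfl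
    by_cases h1 : Stuck P Q
    · by_cases h2 : Stuck Q P
      · by_cases hV : 999 / 1000 ≤ V P Q
        · obtain ⟨rfl, rfl⟩ := stuck_bound hP hQ (fun P' Q' a b c => (ih' P' Q' a b c).1) h1 h2 hV
          exact Mdl_one
        · exact ⟨by linarith [not_le.1 hV], fun h => absurd h hV⟩
      · unfold Stuck at h2
        push Not at h2
        obtain ⟨p, t, hp, ht, hg⟩ := h2
        refine Mdl_symm (Mdl_step hQ hP hp ht hg ?_)
        intro P' Q' a b c
        exact ih' P' Q' a b (by omega)
    · unfold Stuck at h1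
      push Not at h1
      obtain ⟨p, t, hp, ht, hg⟩ := h1
      exact Mdl_step hP hQ hp ht hg ih'

end Pool.Agent.Lib.MP_4652a8_nt
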