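import Pool.Agent.Lib.MP_4652a8_nt.GDefs

set_option autoImplicit false

namespace Pool.Agent.Lib.MP_4652a8_nt
open Finset

theorem gn2_one {G t u v gu : ℝ} (hG : 0 ≤ G) (hv0 : 0 ≤ v) (hv1 : v ≤ 1) (hvu : v ≤ u)
    (h : 2 * G + u ≤ gu) (hs : (1 + gu) * (1 - v) ≤ 1 + 1 / 1000)
    (hc : 1 / 1000 ≤ 2 * G * (1 - t) - t ^ 2) : t ≤ v := by
  by_contra hlt
  rw [not_le] at hlt
  have h1 : (1 + 2 * G + v) * (1 - v) ≤ (1 + gu) * (1 - v) :=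
    mul_le_mul_of_nonneg_right (by linarith) (by linarith)
  have h2 : 0 ≤ G * (t - v) := mul_nonneg hG (by linarith)
  have h3 : 0 < (t - v) * (t + v) := mul_pos (by linarith) (by linarith)
  nlinarith

theorem gn2_step {G t u u' gu gu' : ℝ} (hG : 0 ≤ G) (hu0 : 0 ≤ u) (hu0' : 0 ≤ u') (hu1 : u ≤ 1)
    (hu1' : u' ≤ 1) (h : 2 * G + u ≤ gu) (h' : 2 * G + u' ≤ gu')
    (hs : (1 + gu) * (1 - u') ≤ 1 + 1 / 1000) (hs' : (1 + gu') * (1 - u) ≤ 1 + 1 / 1000)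
    (hc : 1 / 1000 ≤ 2 * G * (1 - t) - t ^ 2) : t ≤ u ∧ t ≤ u' := by
  rcases le_total u u' with h1 | h1
  · have := gn2_one hG hu0 hu1 h1 h' hs' hc
    exact ⟨this, this.trans h1⟩
  · have := gn2_one hG hu0' hu1' h1 h hs hc
    exact ⟨this.trans h1, this⟩

theorem gn2_next (y y' g g' : ℕ → ℝ) (hp : ∀ r, 0 ≤ y r) (hp' : ∀ r, 0 ≤ y' r)
    (hy1 : ∀ r, y r ≤ 1) (hy1' : ∀ r, y' r ≤ 1)
    (hg : ∀ r, g (r + 1) = 2 * g r + y (r + 1)) (hg' : ∀ r, g' (r + 1) = 2 * g' r + y' (r + 1))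
    (hs : ∀ r, 1 ≤ r → (1 + g r) * (1 - y' r) ≤ 1 + 1 / 1000)
    (hs' : ∀ r, 1 ≤ r → (1 + g' r) * (1 - y r) ≤ 1 + 1 / 1000) (r : ℕ) {G : ℝ} (t : ℝ)
    (hG : 0 ≤ G ∧ G ≤ g r ∧ G ≤ g' r) (ht : 0 ≤ t)
    (hc : 1 / 1000 ≤ 2 * G * (1 - t) - t ^ 2 ∨ (t ≤ y (r + 1) ∧ t ≤ y' (r + 1))) :
    (t ≤ y (r + 1) ∧ t ≤ y' (r + 1)) ∧
      (0 ≤ 2 * G + t ∧ 2 * G + t ≤ g (r + 1) ∧ 2 * G + t ≤ g' (r + 1)) := by
  have h1 := hg r
  have h2 := hg' r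
  have h3 : t ≤ y (r + 1) ∧ t ≤ y' (r + 1) := by
    rcases hc with hc | hc
    · exact gn2_step hG.1 (hp _) (hp' _) (hy1 _) (hy1' _) (by linarith [hG.2.1])
        (by linarith [hG.2.2]) (hs _ (by omega)) (hs' _ (by omega)) hc
    · exact hc
  exact ⟨h3, by linarith [hG.1], by linarith [hG.2.1, h3.1], by linarith [hG.2.2, h3.2]⟩

theorem gn2_snd {x lo hi g0 a Z : ℝ} (h0 : 0 ≤ x) (hlo : lo ≤ x) (hhi : x ≤ hi) (h1 : x ≤ 1)
    (hg : x ≤ g0) (ha : a ≤ Z) (hZ : 0 ≤ Z) :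
    1 - hi ^ 2 - (1 - lo) * Z ≤ (1 - x) * (1 + g0 - a) := by
  have h2 : (1 - x) * (1 + x - Z) ≤ (1 - x) * (1 + g0 - a) :=
    mul_le_mul_of_nonneg_left (by linarith) (by linarith)
  have h3 : x ^ 2 ≤ hi ^ 2 := pow_le_pow_left₀ h0 hhi 2
  have h4 : 0 ≤ (x - lo) * Z := mul_nonneg (by linarith) hZ
  nlinarith

/-- numerical analysis of the two-adic profile of a stuck pair, relative to the level `ℓ` -/
theorem two_adic_num (y y' g g' a a' : ℕ → ℝ)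
    (h0 : 0 ≤ y' 0) (h01 : y' 0 ≤ y 0) (h05 : y' 0 ≤ 1 / 5)
    (hy : ∀ r, y r ≤ y (r + 1)) (hy' : ∀ r, y' r ≤ y' (r + 1))
    (hy1 : ∀ r, y r ≤ 1) (hy1' : ∀ r, y' r ≤ 1)
    (h1 : 1 / 5 ≤ y 1) (h1' : 1 / 5 ≤ y' 1)
    (hg0 : y 0 ≤ g 0) (hg0' : y' 0 ≤ g' 0)
    (hg : ∀ r, g (r + 1) = 2 * g r + y (r + 1)) (hg' : ∀ r, g' (r + 1) = 2 * g' r + y' (r + 1))
    (hs : ∀ r, 1 ≤ r → (1 + g r) * (1 - y' r) ≤ 1 + 1 / 1000)
    (hs' : ∀ r, 1 ≤ r → (1 + g' r) * (1 - y r) ≤ 1 + 1 / 1000)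
    (ha : ∀ r, 1 ≤ r → a r = (1 - y r + a (r + 1)) / 2)
    (ha' : ∀ r, 1 ≤ r → a' r = (1 - y' r + a' (r + 1)) / 2)
    (hb : ∀ r, 1 ≤ r → 0 ≤ a r ∧ a r ≤ 1 - y r) (hb' : ∀ r, 1 ≤ r → 0 ≤ a' r ∧ a' r ≤ 1 - y' r) :
    (a' 1 ≤ 600 / 1000 * (1 - y' 0) ∧ a' 2 ≤ 377 / 1000 * (1 - y' 0) ∧
      a' 3 ≤ 203 / 1000 * (1 - y' 0)) ∧
    (1 - 999 / 1000 * (1 - y' 0) * (1 + g 0 - a 1) ≤ 600 / 1000 ∧
      1 - 999 / 1000 * (1 - y' 0) * (1 + g 0 - a 2) ≤ 377 / 1000 ∧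
      1 - 999 / 1000 * (1 - y' 0) * (1 + g 0 - a 3) ≤ 203 / 1000) := by
  have hp' : ∀ r, 0 ≤ y' r := fun r => by
    induction r with
    | zero => exact h0
    | succ k ih => exact ih.trans (hy' k)
  have hp : ∀ r, 0 ≤ y r := fun r => by
    induction r with
    | zero => exact h0.trans h01
    | succ k ih => exact ih.trans (hy k)
  have nx := fun (r : ℕ) {G : ℝ} (t : ℝ) => gn2_next y y' g g' hp hp' hy1 hy1' hg hg' hs hs' r (G := G) t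
  have a1 : a 1 = (1 - y 1 + a 2) / 2 := ha 1 le_rfl
  have a2 : a 2 = (1 - y 2 + a 3) / 2 := ha 2 (by norm_num)
  have a3 : a 3 = (1 - y 3 + a 4) / 2 := ha 3 (by norm_num)
  have a4 : a 4 = (1 - y 4 + a 5) / 2 := ha 4 (by norm_num)
  have a5 : a 5 = (1 - y 5 + a 6) / 2 := ha 5 (by norm_num)
  have a6 : a 6 ≤ 1 - y 6 := (hb 6 (by norm_num)).2
  have b1 : a' 1 = (1 - y' 1 + a' 2) / 2 := ha' 1 le_rfl
  have b2 : a' 2 = (1 - y' 2 + a' 3) / 2 := ha' 2 (by norm_num)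
  have b3 : a' 3 = (1 - y' 3 + a' 4) / 2 := ha' 3 (by norm_num)
  have b4 : a' 4 = (1 - y' 4 + a' 5) / 2 := ha' 4 (by norm_num)
  have b5 : a' 5 = (1 - y' 5 + a' 6) / 2 := ha' 5 (by norm_num)
  have b6 : a' 6 ≤ 1 - y' 6 := (hb' 6 (by norm_num)).2
  simp only [mul_assoc (999 / 1000 : ℝ)]
  have hx : y' 0 ≤ 2 / 100 ∨ (2 / 100 ≤ y' 0 ∧ y' 0 ≤ 4 / 100) ∨
      (4 / 100 ≤ y' 0 ∧ y' 0 ≤ 8 / 100) ∨ 8 / 100 ≤ y' 0 := by
    rcases le_total (y' 0) (2 / 100) with c1 | c1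
    · exact Or.inl c1
    rcases le_total (y' 0) (4 / 100) with c2 | c2
    · exact Or.inr (Or.inl ⟨c1, c2⟩)
    rcases le_total (y' 0) (8 / 100) with c3 | c3
    · exact Or.inr (Or.inr (Or.inl ⟨c2, c3⟩))
    · exact Or.inr (Or.inr (Or.inr c3))
  rcases hx with c | ⟨c, c'⟩ | ⟨c, c'⟩ | c
  · have s0 : (0 : ℝ) ≤ 0 ∧ 0 ≤ g 0 ∧ 0 ≤ g' 0 :=
      ⟨by norm_num, h0.trans (h01.trans hg0), h0.trans hg0'⟩
    have s1 := nx 0 (1 / 5) s0 (by norm_num) (Or.inr ⟨h1, h1'⟩)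
    have s2 := nx 1 (462 / 1000) s1.2 (by norm_num) (Or.inl (by norm_num))
    have s3 := nx 2 (708 / 1000) s2.2 (by norm_num) (Or.inl (by norm_num))
    have s4 := nx 3 (850 / 1000) s3.2 (by norm_num) (Or.inl (by norm_num))
    have s5 := nx 4 (925 / 1000) s4.2 (by norm_num) (Or.inl (by norm_num))
    have s6 := nx 5 (962 / 1000) s5.2 (by norm_num) (Or.inl (by norm_num))
    norm_num only [Nat.reduceAdd] at s1 s2 s3 s4 s5 s6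
    obtain ⟨⟨t1, t1'⟩, -⟩ := s1
    obtain ⟨⟨t2, t2'⟩, -⟩ := s2
    obtain ⟨⟨t3, t3'⟩, -⟩ := s3
    obtain ⟨⟨t4, t4'⟩, -⟩ := s4
    obtain ⟨⟨t5, t5'⟩, -⟩ := s5
    obtain ⟨⟨t6, t6'⟩, -⟩ := s6
    have u1 := gn2_snd (lo := 0) (hi := 2 / 100) (g0 := g 0) (a := a 1) (Z := 58391 / 100000) h0
      h0 c (hy1' 0) (h01.trans hg0)
      (by linarith only [a1, a2, a3, a4, a5, a6, t1, t2, t3, t4, t5, t6]) (by norm_num)
    have u2 := gn2_snd (lo := 0) (hi := 2 / 100) (g0 := g 0) (a := a 2) (Z := 36782 / 100000) h0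
      h0 c (hy1' 0) (h01.trans hg0)
      (by linarith only [a1, a2, a3, a4, a5, a6, t1, t2, t3, t4, t5, t6]) (by norm_num)
    have u3 := gn2_snd (lo := 0) (hi := 2 / 100) (g0 := g 0) (a := a 3) (Z := 19763 / 100000) h0
      h0 c (hy1' 0) (h01.trans hg0)
      (by linarith only [a1, a2, a3, a4, a5, a6, t1, t2, t3, t4, t5, t6]) (by norm_num)
    refine ⟨⟨?_, ?_, ?_⟩, by linarith only [u1], by linarith only [u2], by linarith only [u3]⟩ <;>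
      linarith only [b1, b2, b3, b4, b5, b6, t1', t2', t3', t4', t5', t6', c]
  · have s0 : (0 : ℝ) ≤ 2 / 100 ∧ 2 / 100 ≤ g 0 ∧ 2 / 100 ≤ g' 0 :=
      ⟨by norm_num, c.trans (h01.trans hg0), c.trans hg0'⟩
    have s1 := nx 0 (1 / 5) s0 (by norm_num) (Or.inr ⟨h1, h1'⟩)
    have s2 := nx 1 (492 / 1000) s1.2 (by norm_num) (Or.inl (by norm_num))
    have s3 := nx 2 (727 / 1000) s2.2 (by norm_num) (Or.inl (by norm_num))
    have s4 := nx 3 (861 / 1000) s3.2 (by norm_num) (Or.inl (by norm_num))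
    have s5 := nx 4 (930 / 1000) s4.2 (by norm_num) (Or.inl (by norm_num))
    have s6 := nx 5 (965 / 1000) s5.2 (by norm_num) (Or.inl (by norm_num))
    norm_num only [Nat.reduceAdd] at s1 s2 s3 s4 s5 s6
    obtain ⟨⟨t1, t1'⟩, -⟩ := s1
    obtain ⟨⟨t2, t2'⟩, -⟩ := s2
    obtain ⟨⟨t3, t3'⟩, -⟩ := s3
    obtain ⟨⟨t4, t4'⟩, -⟩ := s4
    obtain ⟨⟨t5, t5'⟩, -⟩ := s5
    obtain ⟨⟨t6, t6'⟩, -⟩ := s6
    have u1 := gn2_snd (lo := 2 / 100) (hi := 4 / 100) (g0 := g 0) (a := a 1) (Z := 57310 / 100000) h0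
      c c' (hy1' 0) (h01.trans hg0)
      (by linarith only [a1, a2, a3, a4, a5, a6, t1, t2, t3, t4, t5, t6]) (by norm_num)
    have u2 := gn2_snd (lo := 2 / 100) (hi := 4 / 100) (g0 := g 0) (a := a 2) (Z := 34619 / 100000) h0
      c c' (hy1' 0) (h01.trans hg0)
      (by linarith only [a1, a2, a3, a4, a5, a6, t1, t2, t3, t4, t5, t6]) (by norm_num)
    have u3 := gn2_snd (lo := 2 / 100) (hi := 4 / 100) (g0 := g 0) (a := a 3) (Z := 18438 / 100000) h0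
      c c' (hy1' 0) (h01.trans hg0)
      (by linarith only [a1, a2, a3, a4, a5, a6, t1, t2, t3, t4, t5, t6]) (by norm_num)
    refine ⟨⟨?_, ?_, ?_⟩, by linarith only [u1], by linarith only [u2], by linarith only [u3]⟩ <;>
      linarith only [b1, b2, b3, b4, b5, b6, t1', t2', t3', t4', t5', t6', c']
  · have s0 : (0 : ℝ) ≤ 4 / 100 ∧ 4 / 100 ≤ g 0 ∧ 4 / 100 ≤ g' 0 :=
      ⟨by norm_num, c.trans (h01.trans hg0), c.trans hg0'⟩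
    have s1 := nx 0 (243 / 1000) s0 (by norm_num) (Or.inl (by norm_num))
    have s2 := nx 1 (542 / 1000) s1.2 (by norm_num) (Or.inl (by norm_num))
    have s3 := nx 2 (757 / 1000) s2.2 (by norm_num) (Or.inl (by norm_num))
    have s4 := nx 3 (877 / 1000) s3.2 (by norm_num) (Or.inl (by norm_num))
    have s5 := nx 4 (938 / 1000) s4.2 (by norm_num) (Or.inl (by norm_num))
    have s6 := nx 5 (969 / 1000) s5.2 (by norm_num) (Or.inl (by norm_num))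
    norm_num only [Nat.reduceAdd] at s1 s2 s3 s4 s5 s6
    obtain ⟨⟨t1, t1'⟩, -⟩ := s1
    obtain ⟨⟨t2, t2'⟩, -⟩ := s2
    obtain ⟨⟨t3, t3'⟩, -⟩ := s3
    obtain ⟨⟨t4, t4'⟩, -⟩ := s4
    obtain ⟨⟨t5, t5'⟩, -⟩ := s5
    obtain ⟨⟨t6, t6'⟩, -⟩ := s6
    have u1 := gn2_snd (lo := 4 / 100) (hi := 8 / 100) (g0 := g 0) (a := a 1) (Z := 53397 / 100000) h0
      c c' (hy1' 0) (h01.trans hg0)
      (by linarith only [a1, a2, a3, a4, a5, a6, t1, t2, t3, t4, t5, t6]) (by norm_num)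
    have u2 := gn2_snd (lo := 4 / 100) (hi := 8 / 100) (g0 := g 0) (a := a 2) (Z := 31094 / 100000) h0
      c c' (hy1' 0) (h01.trans hg0)
      (by linarith only [a1, a2, a3, a4, a5, a6, t1, t2, t3, t4, t5, t6]) (by norm_num)
    have u3 := gn2_snd (lo := 4 / 100) (hi := 8 / 100) (g0 := g 0) (a := a 3) (Z := 16388 / 100000) h0
      c c' (hy1' 0) (h01.trans hg0)
      (by linarith only [a1, a2, a3, a4, a5, a6, t1, t2, t3, t4, t5, t6]) (by norm_num)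
    refine ⟨⟨?_, ?_, ?_⟩, by linarith only [u1], by linarith only [u2], by linarith only [u3]⟩ <;>
      linarith only [b1, b2, b3, b4, b5, b6, t1', t2', t3', t4', t5', t6', c']
  · have s0 : (0 : ℝ) ≤ 8 / 100 ∧ 8 / 100 ≤ g 0 ∧ 8 / 100 ≤ g' 0 :=
      ⟨by norm_num, c.trans (h01.trans hg0), c.trans hg0'⟩
    have s1 := nx 0 (326 / 1000) s0 (by norm_num) (Or.inl (by norm_num))
    have s2 := nx 1 (612 / 1000) s1.2 (by norm_num) (Or.inl (by norm_num))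
    have s3 := nx 2 (798 / 1000) s2.2 (by norm_num) (Or.inl (by norm_num))
    have s4 := nx 3 (898 / 1000) s3.2 (by norm_num) (Or.inl (by norm_num))
    have s5 := nx 4 (948 / 1000) s4.2 (by norm_num) (Or.inl (by norm_num))
    have s6 := nx 5 (974 / 1000) s5.2 (by norm_num) (Or.inl (by norm_num))
    norm_num only [Nat.reduceAdd] at s1 s2 s3 s4 s5 s6
    obtain ⟨⟨t1, t1'⟩, -⟩ := s1
    obtain ⟨⟨t2, t2'⟩, -⟩ := s2
    obtain ⟨⟨t3, t3'⟩, -⟩ := s3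
    obtain ⟨⟨t4, t4'⟩, -⟩ := s4
    obtain ⟨⟨t5, t5'⟩, -⟩ := s5
    obtain ⟨⟨t6, t6'⟩, -⟩ := s6
    have u1 := gn2_snd (lo := 8 / 100) (hi := 1 / 5) (g0 := g 0) (a := a 1) (Z := 46807 / 100000) h0
      c h05 (hy1' 0) (h01.trans hg0)
      (by linarith only [a1, a2, a3, a4, a5, a6, t1, t2, t3, t4, t5, t6]) (by norm_num)
    have u2 := gn2_snd (lo := 8 / 100) (hi := 1 / 5) (g0 := g 0) (a := a 2) (Z := 26213 / 100000) h0
      c h05 (hy1' 0) (h01.trans hg0)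
      (by linarith only [a1, a2, a3, a4, a5, a6, t1, t2, t3, t4, t5, t6]) (by norm_num)
    have u3 := gn2_snd (lo := 8 / 100) (hi := 1 / 5) (g0 := g 0) (a := a 3) (Z := 13625 / 100000) h0
      c h05 (hy1' 0) (h01.trans hg0)
      (by linarith only [a1, a2, a3, a4, a5, a6, t1, t2, t3, t4, t5, t6]) (by norm_num)
    refine ⟨⟨?_, ?_, ?_⟩, by linarith only [u1], by linarith only [u2], by linarith only [u3]⟩ <;>
      linarith only [b1, b2, b3, b4, b5, b6, t1', t2', t3', t4', t5', t6', h05]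

end Pool.Agent.Lib.MP_4652a8_nt
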