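import Pool.Agent.Lib.MP_4652a8_nt.GDefs

set_option autoImplicit false

namespace Pool.Agent.Lib.MP_4652a8_nt
open Finset

/-- the hypotheses on the level probabilities at an odd prime -/
structure OddHyp (p v : ℝ) (a b : ℕ → ℝ) : Prop where
  hv : 959 / 1000 ≤ v
  ha : ∀ t, 1 ≤ t → 0 ≤ a (t + 1) ∧ a (t + 1) ≤ a t
  hb : ∀ t, 1 ≤ t → 0 ≤ b (t + 1) ∧ b (t + 1) ≤ b t
  ha1 : a 1 ≤ 62 / 100
  hb1 : b 1 ≤ 1
  hab : ∀ t : ℕ, 1 ≤ t →
    (p ^ t * (1 - a 1) + a (t + 1)) * ((p * b t - b (t + 1)) / (p - 1)) * v ≤ 1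
  hba : ∀ t : ℕ, 1 ≤ t →
    (p ^ t * (1 - b 1) + b (t + 1)) * ((p * a t - a (t + 1)) / (p - 1)) * v ≤ 1
  hz : (p * b 1 - b 2) / (p - 1) ≤ 1

theorem gno_root {p v w W c U : ℝ} (hp : 3 ≤ p) (hv : 959 / 1000 ≤ v) (hW : 0 ≤ W)
    (hwW : w ≤ W) (hw : w ≤ 62 / 100 * p) (h : (p - w) * W * v ≤ p - 1)
    (hU : p - 1 ≤ U * (38 / 100 * p * (959 / 1000))) (hcU : c + U ≤ p)
    (hc : p - 1 < (p - c) * c * (959 / 1000)) : W ≤ c := by
  have h0 : 0 ≤ p - w := by linarith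
  have h1 : (p - w) * W * (959 / 1000) ≤ p - 1 :=
    le_trans (mul_le_mul_of_nonneg_left hv (mul_nonneg h0 hW)) h
  have h2 : (38 / 100 * p) * W ≤ (p - w) * W := mul_le_mul_of_nonneg_right (by linarith) hW
  have h3 : (p - W) * W ≤ (p - w) * W := mul_le_mul_of_nonneg_right (by linarith) hW
  have h4 : W ≤ U := by
    have h5 : W * (38 / 100 * p * (959 / 1000)) ≤ U * (38 / 100 * p * (959 / 1000)) := by
      nlinarith
    exact le_of_mul_le_mul_right h5 (by positivity)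
  by_contra hcon
  push Not at hcon
  have h6 : 0 ≤ (W - c) * (p - W - c) := mul_nonneg (by linarith) (by linarith)
  nlinarith

theorem gno_u {p v c U : ℝ} {a b : ℕ → ℝ} (h : OddHyp p v a b) (hp : 3 ≤ p)
    (hU : p - 1 ≤ U * (38 / 100 * p * (959 / 1000))) (hcU : c + U ≤ p)
    (hc : p - 1 < (p - c) * c * (959 / 1000)) :
    p * a 1 - a 2 ≤ c ∧ p * b 1 - b 2 ≤ c := by
  have hp1 : 0 < p - 1 := by linarith
  have ha := h.ha 1 le_rfl
  have hb := h.hb 1 le_rfl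
  have h1 := h.hab 1 le_rfl
  have h2 := h.hba 1 le_rfl
  have ha1 := h.ha1
  simp only [pow_one, Nat.reduceAdd] at ha hb h1 h2
  have e1 : (p - (p * a 1 - a 2)) * (p * b 1 - b 2) * v ≤ p - 1 := by
    have e : (p - (p * a 1 - a 2)) * (p * b 1 - b 2) * v =
        ((p * (1 - a 1) + a 2) * ((p * b 1 - b 2) / (p - 1)) * v) * (p - 1) := by
      field_simp; ring
    rw [e]
    nlinarith
  have e2 : (p - (p * b 1 - b 2)) * (p * a 1 - a 2) * v ≤ p - 1 := by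
    have e : (p - (p * b 1 - b 2)) * (p * a 1 - a 2) * v =
        ((p * (1 - b 1) + b 2) * ((p * a 1 - a 2) / (p - 1)) * v) * (p - 1) := by
      field_simp; ring
    rw [e]
    nlinarith
  have hu0 : 0 ≤ p * a 1 - a 2 := by nlinarith [ha.1, ha.2]
  have hu1 : 0 ≤ p * b 1 - b 2 := by nlinarith [hb.1, hb.2]
  have hu2 : p * a 1 - a 2 ≤ 62 / 100 * p := by nlinarith [ha.1, ha.2]
  rcases le_total (p * a 1 - a 2) (p * b 1 - b 2) with hle | hle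
  · have := gno_root hp h.hv hu1 hle hu2 e1 hU hcU hc
    exact ⟨hle.trans this, this⟩
  · have := gno_root hp h.hv hu0 hle (hle.trans hu2) e2 hU hcU hc
    exact ⟨this, hle.trans this⟩

theorem gno_aux {p v q x y s s' al Z : ℝ} (hp : 3 ≤ p) (hv : 959 / 1000 ≤ v) (hq : 0 < q)
    (hx : x ≤ al) (hal : al < 1) (hy : 0 ≤ y) (hs' : 0 ≤ s') (hss : s' ≤ s)
    (h : (q * (1 - x) + y) * ((p * s - s') / (p - 1)) * v ≤ 1)
    (hZ : 1 ≤ Z * (q * (1 - al) * (959 / 1000))) : p * s - s' ≤ (p - 1) * Z := by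
  have hp1 : 0 < p - 1 := by linarith
  have hz0 : 0 ≤ (p * s - s') / (p - 1) := div_nonneg (by nlinarith) hp1.le
  have hK : q * (1 - al) ≤ q * (1 - x) + y := by nlinarith
  have hK0 : 0 < q * (1 - al) := mul_pos hq (by linarith)
  have h1 : (q * (1 - al)) * ((p * s - s') / (p - 1)) * (959 / 1000) ≤ 1 := by
    refine le_trans ?_ h
    exact mul_le_mul (mul_le_mul_of_nonneg_right hK hz0) hv (by norm_num)
      (mul_nonneg (by linarith) hz0)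
  have h2 : (p * s - s') / (p - 1) ≤ Z := by
    have h3 : ((p * s - s') / (p - 1)) * (q * (1 - al) * (959 / 1000)) ≤
        Z * (q * (1 - al) * (959 / 1000)) := by nlinarith
    exact le_of_mul_le_mul_right h3 (by positivity)
  rw [div_le_iff₀ hp1] at h2
  linarith

theorem gno_zt {p v al Z : ℝ} {a b : ℕ → ℝ} (h : OddHyp p v a b) (hp : 3 ≤ p) (t : ℕ)
    (ht : 1 ≤ t) (ha : a 1 ≤ al) (hb : b 1 ≤ al) (hal : al < 1)
    (hZ : 1 ≤ Z * (p ^ t * (1 - al) * (959 / 1000))) :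
    p * a t - a (t + 1) ≤ (p - 1) * Z ∧ p * b t - b (t + 1) ≤ (p - 1) * Z := by
  have hq : 0 < p ^ t := pow_pos (by linarith) t
  exact ⟨gno_aux hp h.hv hq hb hal (h.hb t ht).1 (h.ha t ht).1 (h.ha t ht).2 (h.hba t ht) hZ,
    gno_aux hp h.hv hq ha hal (h.ha t ht).1 (h.hb t ht).1 (h.hb t ht).2 (h.hab t ht) hZ⟩

theorem odd_num3 {v : ℝ} {a b : ℕ → ℝ} (h : OddHyp 3 v a b) :
    a 1 ≤ 420 / 1000 ∧ a 2 ≤ 165 / 1000 ∧ b 1 ≤ 420 / 1000 ∧ b 2 ≤ 165 / 1000 := by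
  have ha1 := h.ha 1 (by norm_num)
  have hb1 := h.hb 1 (by norm_num)
  have ha2 := h.ha 2 (by norm_num)
  have hb2 := h.hb 2 (by norm_num)
  have ha3 := h.ha 3 (by norm_num)
  have hb3 := h.hb 3 (by norm_num)
  simp only [Nat.reduceAdd] at ha1 hb1 ha2 hb2 ha3 hb3
  obtain ⟨ha1, ha1'⟩ := ha1
  obtain ⟨hb1, hb1'⟩ := hb1
  obtain ⟨ha2, ha2'⟩ := ha2
  obtain ⟨hb2, hb2'⟩ := hb2
  obtain ⟨ha3, ha3'⟩ := ha3
  obtain ⟨hb3, hb3'⟩ := hb3
  obtain ⟨hu, hu'⟩ := gno_u (c := 1096 / 1000) (U := 183 / 100) h (by norm_num) (by norm_num) (by norm_num)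
    (by norm_num)
  obtain ⟨z1a, z1b⟩ := gno_zt (al := 548 / 1000) (Z := 2564 / 10000) h (by norm_num) 2 (by norm_num)
    (by linarith) (by linarith) (by norm_num) (by norm_num)
  simp only [Nat.reduceAdd] at z1a z1b
  obtain ⟨z2a, z2b⟩ := gno_zt (al := 4509 / 10000) (Z := 2111 / 10000) h (by norm_num) 2 (by norm_num)
    (by linarith) (by linarith) (by norm_num) (by norm_num)
  simp only [Nat.reduceAdd] at z2a z2b
  obtain ⟨z3a, z3b⟩ := gno_zt (al := 4509 / 10000) (Z := 704 / 10000) h (by norm_num) 3 (by norm_num)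
    (by linarith) (by linarith) (by norm_num) (by norm_num)
  simp only [Nat.reduceAdd] at z3a z3b
  obtain ⟨z4a, z4b⟩ := gno_zt (al := 4201 / 10000) (Z := 2 / 10) h (by norm_num) 2 (by norm_num)
    (by linarith) (by linarith) (by norm_num) (by norm_num)
  simp only [Nat.reduceAdd] at z4a z4b
  obtain ⟨z5a, z5b⟩ := gno_zt (al := 4201 / 10000) (Z := 667 / 10000) h (by norm_num) 3 (by norm_num)
    (by linarith) (by linarith) (by norm_num) (by norm_num)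
  simp only [Nat.reduceAdd] at z5a z5b
  refine ⟨?_, ?_, ?_, ?_⟩ <;> linarith

theorem odd_num5 {v : ℝ} {a b : ℕ → ℝ} (h : OddHyp 5 v a b) :
    a 1 ≤ 224 / 1000 ∧ a 2 ≤ 58 / 1000 ∧ b 1 ≤ 224 / 1000 ∧ b 2 ≤ 58 / 1000 := by
  have ha1 := h.ha 1 (by norm_num)
  have hb1 := h.hb 1 (by norm_num)
  have ha2 := h.ha 2 (by norm_num)
  have hb2 := h.hb 2 (by norm_num)
  have ha3 := h.ha 3 (by norm_num)
  have hb3 := h.hb 3 (by norm_num)
  simp only [Nat.reduceAdd] at ha1 hb1 ha2 hb2 ha3 hb3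
  obtain ⟨ha1, ha1'⟩ := ha1
  obtain ⟨hb1, hb1'⟩ := hb1
  obtain ⟨ha2, ha2'⟩ := ha2
  obtain ⟨hb2, hb2'⟩ := hb2
  obtain ⟨ha3, ha3'⟩ := ha3
  obtain ⟨hb3, hb3'⟩ := hb3
  obtain ⟨hu, hu'⟩ := gno_u (c := 106 / 100) (U := 22 / 10) h (by norm_num) (by norm_num) (by norm_num)
    (by norm_num)
  obtain ⟨z1a, z1b⟩ := gno_zt (al := 265 / 1000) (Z := 568 / 10000) h (by norm_num) 2 (by norm_num)
    (by linarith) (by linarith) (by norm_num) (by norm_num)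
  simp only [Nat.reduceAdd] at z1a z1b
  refine ⟨?_, ?_, ?_, ?_⟩ <;> linarith

theorem odd_num7 {v : ℝ} {a b : ℕ → ℝ} (h : OddHyp 7 v a b) :
    a 1 ≤ 155 / 1000 ∧ a 2 ≤ 27 / 1000 ∧ b 1 ≤ 155 / 1000 ∧ b 2 ≤ 27 / 1000 := by
  have ha1 := h.ha 1 (by norm_num)
  have hb1 := h.hb 1 (by norm_num)
  have ha2 := h.ha 2 (by norm_num)
  have hb2 := h.hb 2 (by norm_num)
  have ha3 := h.ha 3 (by norm_num)
  have hb3 := h.hb 3 (by norm_num)
  simp only [Nat.reduceAdd] at ha1 hb1 ha2 hb2 ha3 hb3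
  obtain ⟨ha1, ha1'⟩ := ha1
  obtain ⟨hb1, hb1'⟩ := hb1
  obtain ⟨ha2, ha2'⟩ := ha2
  obtain ⟨hb2, hb2'⟩ := hb2
  obtain ⟨ha3, ha3'⟩ := ha3
  obtain ⟨hb3, hb3'⟩ := hb3
  obtain ⟨hu, hu'⟩ := gno_u (c := 1053 / 1000) (U := 275 / 100) h (by norm_num) (by norm_num) (by norm_num)
    (by norm_num)
  obtain ⟨z1a, z1b⟩ := gno_zt (al := 1755 / 10000) (Z := 259 / 10000) h (by norm_num) 2 (by norm_num)
    (by linarith) (by linarith) (by norm_num) (by norm_num)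
  simp only [Nat.reduceAdd] at z1a z1b
  refine ⟨?_, ?_, ?_, ?_⟩ <;> linarith

theorem odd_num11 {v : ℝ} {a b : ℕ → ℝ} (h : OddHyp 11 v a b) :
    a 1 ≤ 965 / 10000 ∧ b 1 ≤ 965 / 10000 := by
  have ha1 := h.ha 1 (by norm_num)
  have hb1 := h.hb 1 (by norm_num)
  have ha2 := h.ha 2 (by norm_num)
  have hb2 := h.hb 2 (by norm_num)
  have ha3 := h.ha 3 (by norm_num)
  have hb3 := h.hb 3 (by norm_num)
  simp only [Nat.reduceAdd] at ha1 hb1 ha2 hb2 ha3 hb3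
  obtain ⟨ha1, ha1'⟩ := ha1
  obtain ⟨hb1, hb1'⟩ := hb1
  obtain ⟨ha2, ha2'⟩ := ha2
  obtain ⟨hb2, hb2'⟩ := hb2
  obtain ⟨ha3, ha3'⟩ := ha3
  obtain ⟨hb3, hb3'⟩ := hb3
  obtain ⟨hu, hu'⟩ := gno_u (c := 1048 / 1000) (U := 275 / 100) h (by norm_num) (by norm_num) (by norm_num)
    (by norm_num)
  obtain ⟨z1a, z1b⟩ := gno_zt (al := 1048 / 10000) (Z := 97 / 10000) h (by norm_num) 2 (by norm_num)
    (by linarith) (by linarith) (by norm_num) (by norm_num)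
  simp only [Nat.reduceAdd] at z1a z1b
  refine ⟨?_, ?_⟩ <;> linarith

theorem odd_num13 {p v : ℝ} {a b : ℕ → ℝ} (hp : 13 ≤ p) (h : OddHyp p v a b) :
    a 1 ≤ (1054 / 1000) / p ∧ b 1 ≤ (1054 / 1000) / p := by
  have ha1 := h.ha 1 (by norm_num)
  have hb1 := h.hb 1 (by norm_num)
  have ha2 := h.ha 2 (by norm_num)
  have hb2 := h.hb 2 (by norm_num)
  have ha3 := h.ha 3 (by norm_num)
  have hb3 := h.hb 3 (by norm_num)
  simp only [Nat.reduceAdd] at ha1 hb1 ha2 hb2 ha3 hb3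
  obtain ⟨ha1, ha1'⟩ := ha1
  obtain ⟨hb1, hb1'⟩ := hb1
  obtain ⟨ha2, ha2'⟩ := ha2
  obtain ⟨hb2, hb2'⟩ := hb2
  obtain ⟨ha3, ha3'⟩ := ha3
  obtain ⟨hb3, hb3'⟩ := hb3
  obtain ⟨hu, hu'⟩ := gno_u (c := 1047 / 1000) (U := 275 / 100) h (by linarith) (by linarith)
    (by linarith) (by linarith)
  have hp0 : 0 < p := by linarith
  have e1 : a 1 ≤ 8725 / 100000 := by nlinarith
  have e2 : b 1 ≤ 8725 / 100000 := by nlinarith
  have hpp : 169 ≤ p ^ 2 := by nlinarith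
  obtain ⟨z1a, z1b⟩ := gno_zt (al := 8725 / 100000) (Z := 68 / 10000) h (by linarith) 2
    (by norm_num) e1 e2 (by norm_num) (by linarith)
  simp only [Nat.reduceAdd] at z1a z1b
  have e3 : a 2 ≤ 68 / 10000 := by
    have : (p - 1) * a 2 ≤ (p - 1) * (68 / 10000) := by linarith
    exact le_of_mul_le_mul_left this (by linarith)
  have e4 : b 2 ≤ 68 / 10000 := by
    have : (p - 1) * b 2 ≤ (p - 1) * (68 / 10000) := by linarith
    exact le_of_mul_le_mul_left this (by linarith)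
  constructor
  · rw [le_div_iff₀ hp0]; linarith
  · rw [le_div_iff₀ hp0]; linarith

end Pool.Agent.Lib.MP_4652a8_nt
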