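import Pool.Agent.Lib.MP_4652a8_nt.GQ0
import Pool.Agent.Lib.MP_4652a8_nt.GCnt

set_option autoImplicit false

namespace Pool.Agent.Lib.MP_4652a8_nt
open Finset

theorem nm_le_of_mul {x : ℚ} (hx : 0 < x) {L : ℕ} (hL : 0 < L) :
    nm x * (L / Nat.gcd x.den L) = nm ((L : ℚ) * x) ∧
      x.den / Nat.gcd x.den L = ((L : ℚ) * x).den := by
  have h1 : (L : ℚ) * x = ((nm x * L : ℕ) : ℚ) / (x.den : ℚ) := by
    conv_lhs => rw [← nm_div_den hx]
    push_cast
    ring
  have h2 : Nat.gcd (nm x * L) x.den = Nat.gcd x.den L := by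
    rw [Nat.Coprime.gcd_mul_left_cancel L (nm_coprime_den x), Nat.gcd_comm]
  rw [h1, nm_natDiv x.den_pos, den_natDiv x.den_pos, h2]
  exact ⟨(Nat.mul_div_assoc _ (Nat.gcd_dvd_right _ _)).symm, rfl⟩

/-- the column maxima have a small sum -/
theorem sum_top_le {X : Finset ℚ} (hX : Pos X) {L J K : ℕ} (hL : 0 < L)
    (h : ∀ x ∈ X, nm ((L : ℚ) * x) ≤ J ∧ ((L : ℚ) * x).den ≤ K) :
    (Nat.totient L : ℝ) / (L : ℝ) *
      ∑ m ∈ X.image (fun x => x.den), (((X.filter (fun x => x.den = m)).sup nm : ℕ) : ℝ)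
      ≤ (J : ℝ) * (K : ℝ) := by
  have hφ : (0 : ℝ) < Nat.totient L := by exact_mod_cast Nat.totient_pos.mpr hL
  have hL' : (0 : ℝ) < L := by exact_mod_cast hL
  have h1 : ∀ m ∈ X.image (fun x => x.den),
      (((X.filter (fun x => x.den = m)).sup nm : ℕ) : ℝ) ≤
        (J : ℝ) * (1 / ((L / Nat.gcd m L : ℕ) : ℝ)) := by
    intro m _
    have hs : 0 < L / Nat.gcd m L :=
      Nat.div_pos (Nat.le_of_dvd hL (Nat.gcd_dvd_right _ _)) (Nat.gcd_pos_of_pos_right _ hL)
    have h2 : (X.filter (fun x => x.den = m)).sup nm ≤ J / (L / Nat.gcd m L) := by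
      apply Finset.sup_le
      intro x hx
      rw [Finset.mem_filter] at hx
      rw [Nat.le_div_iff_mul_le hs, ← hx.2, (nm_le_of_mul (hX x hx.1) hL).1]
      exact (h x hx.1).1
    have h3 : ((J / (L / Nat.gcd m L) : ℕ) : ℝ) ≤ (J : ℝ) / ((L / Nat.gcd m L : ℕ) : ℝ) :=
      Nat.cast_div_le
    have h4 : (((X.filter (fun x => x.den = m)).sup nm : ℕ) : ℝ) ≤
        ((J / (L / Nat.gcd m L) : ℕ) : ℝ) := by exact_mod_cast h2
    rw [mul_one_div]
    linarith
  have hinj : Set.InjOn (fun m : ℕ => (m / Nat.gcd m L, L / Nat.gcd m L))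
      (X.image (fun x => x.den) : Finset ℕ) := by
    intro m _ m' _ hmm
    simp only [Prod.mk.injEq] at hmm
    obtain ⟨h2, h3⟩ := hmm
    have h4 : Nat.gcd m L = Nat.gcd m' L := by
      have a1 := Nat.div_mul_cancel (Nat.gcd_dvd_right m L)
      have a2 := Nat.div_mul_cancel (Nat.gcd_dvd_right m' L)
      have hs : 0 < L / Nat.gcd m L :=
        Nat.div_pos (Nat.le_of_dvd hL (Nat.gcd_dvd_right _ _)) (Nat.gcd_pos_of_pos_right _ hL)
      rw [← h3] at a2
      exact Nat.eq_of_mul_eq_mul_left hs (a1.trans a2.symm)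
    have a1 := Nat.div_mul_cancel (Nat.gcd_dvd_left m L)
    have a2 := Nat.div_mul_cancel (Nat.gcd_dvd_left m' L)
    rw [← a1, ← a2, h2]
    conv_lhs => rw [h4]
  have h5 : ∑ m ∈ X.image (fun x => x.den), (1 / ((L / Nat.gcd m L : ℕ) : ℝ)) ≤
      ∑ q ∈ Icc 1 K ×ˢ L.divisors, (1 / (q.2 : ℝ)) := by
    rw [← Finset.sum_image (f := fun q : ℕ × ℕ => (1 / (q.2 : ℝ))) hinj]
    apply Finset.sum_le_sum_of_subset_of_nonneg
    · intro q hq
      rw [Finset.mem_image] at hq
      obtain ⟨m, hm, rfl⟩ := hq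
      rw [Finset.mem_image] at hm
      obtain ⟨x, hx, rfl⟩ := hm
      rw [Finset.mem_product, Finset.mem_Icc, Nat.mem_divisors]
      have h6 := (nm_le_of_mul (hX x hx) hL).2
      refine ⟨⟨?_, ?_⟩, Nat.div_dvd_of_dvd (Nat.gcd_dvd_right _ _), hL.ne'⟩
      · simp only [h6]
        exact Rat.den_pos _
      · simp only [h6]
        exact (h x hx).2
    · intro q _ _
      positivity
  rw [Finset.sum_product] at h5
  simp only [Finset.sum_const, Nat.card_Icc, Nat.add_sub_cancel, nsmul_eq_mul] at h5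
  have h6 := sum_inv_divisors_le hL
  have h7 := Finset.sum_le_sum h1
  rw [← Finset.mul_sum] at h7
  have h8 : ∑ m ∈ X.image (fun x => x.den), (((X.filter (fun x => x.den = m)).sup nm : ℕ) : ℝ) ≤
      (J : ℝ) * ((K : ℝ) * ((L : ℝ) / (Nat.totient L : ℝ))) := by
    refine h7.trans (mul_le_mul_of_nonneg_left (h5.trans ?_) (by positivity))
    exact mul_le_mul_of_nonneg_left h6 (by positivity)
  have h9 := mul_le_mul_of_nonneg_left h8
    (show (0 : ℝ) ≤ (Nat.totient L : ℝ) / (L : ℝ) by positivity)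
  refine h9.trans (le_of_eq ?_)
  field_simp

/-- dropping the sparse columns -/
theorem dense_columns {X : Finset ℚ} (hX : Pos X) {L J K : ℕ} (hL : 0 < L) {d W : ℝ} (hd : 0 ≤ d)
    (hW : 0 ≤ W) (h : ∀ x ∈ X, nm ((L : ℚ) * x) ≤ J ∧ ((L : ℚ) * x).den ≤ K)
    (hc : ∀ x ∈ X, Nat.Coprime (nm x) L) :
    (∀ x ∈ X, nm x ≤ J ∧ x.den ≤ K * L) ∧
    ∃ X3 ⊆ X, (X.card : ℝ) - d * ((J : ℝ) * (K : ℝ)) - W * (L : ℝ) * ((K : ℝ) * (L : ℝ))
        ≤ (X3.card : ℝ) ∧
      ∀ x ∈ X3, ∀ j : ℕ, 0 < j → ∑ p ∈ j.primeFactors, 1 / (p : ℝ) ≤ d →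
        (j.primeFactors.card : ℝ) ≤ W → ∃ x' ∈ X, x'.den = x.den ∧ Nat.Coprime j (nm x') := by
  classical
  have hA : ∀ x ∈ X, nm x ≤ J ∧ x.den ≤ K * L := by
    intro x hx
    obtain ⟨h1, h2⟩ := nm_le_of_mul (hX x hx) hL
    have hs : 0 < L / Nat.gcd x.den L :=
      Nat.div_pos (Nat.le_of_dvd hL (Nat.gcd_dvd_right _ _)) (Nat.gcd_pos_of_pos_right _ hL)
    constructor
    · have h3 := (h x hx).1
      rw [← h1] at h3
      exact (Nat.le_mul_of_pos_right _ hs).trans h3
    · have h3 := (h x hx).2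
      rw [← h2] at h3
      rw [← Nat.div_mul_cancel (Nat.gcd_dvd_left x.den L)]
      exact Nat.mul_le_mul h3 (Nat.le_of_dvd hL (Nat.gcd_dvd_right _ _))
  refine ⟨hA, ?_⟩
  set thr : ℕ → ℝ := fun m => d * ((Nat.totient L : ℝ) / (L : ℝ) *
    (((X.filter (fun x => x.den = m)).sup nm : ℕ) : ℝ)) + W * (L : ℝ) with hthr
  have hthr0 : ∀ m, 0 ≤ thr m := by
    intro m
    simp only [hthr]
    positivity
  refine ⟨X.filter (fun x => thr x.den < ((X.filter (fun y => y.den = x.den)).card : ℝ)),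
    Finset.filter_subset _ _, ?_, ?_⟩
  · have h1 := Finset.card_filter_add_card_filter_not (s := X)
      (fun x => thr x.den < ((X.filter (fun y => y.den = x.den)).card : ℝ))
    have h2 : (X.filter (fun x =>
        ¬ thr x.den < ((X.filter (fun y => y.den = x.den)).card : ℝ))).card =
        ∑ m ∈ X.image (fun x => x.den), ((X.filter (fun x =>
          ¬ thr x.den < ((X.filter (fun y => y.den = x.den)).card : ℝ))).filter
            (fun x => x.den = m)).card := by
      apply Finset.card_eq_sum_card_fiberwise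
      intro x hx
      exact Finset.mem_coe.mpr
        (Finset.mem_image_of_mem _ (Finset.mem_filter.mp (Finset.mem_coe.mp hx)).1)
    have h3 : ∀ m ∈ X.image (fun x => x.den), ((((X.filter (fun x =>
          ¬ thr x.den < ((X.filter (fun y => y.den = x.den)).card : ℝ))).filter
            (fun x => x.den = m)).card : ℕ) : ℝ) ≤ thr m := by
      intro m _
      by_cases hm : thr m < ((X.filter (fun y => y.den = m)).card : ℝ)
      · have : ((X.filter (fun x =>
          ¬ thr x.den < ((X.filter (fun y => y.den = x.den)).card : ℝ))).filter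
            (fun x => x.den = m)) = ∅ := by
          apply Finset.filter_eq_empty_iff.mpr
          intro x hx hxm
          have h4 := (Finset.mem_filter.mp hx).2
          rw [hxm] at h4
          exact h4 hm
        rw [this]
        simpa using hthr0 m
      · push Not at hm
        refine le_trans ?_ hm
        exact Nat.cast_le.mpr (Finset.card_le_card
          (Finset.filter_subset_filter _ (Finset.filter_subset _ _)))
    have h4 := Finset.sum_le_sum h3
    rw [← Nat.cast_sum, ← h2] at h4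
    have h5 : (X.image (fun x => x.den)).card ≤ K * L := by
      have : X.image (fun x => x.den) ⊆ Icc 1 (K * L) := by
        intro m hm
        rw [Finset.mem_image] at hm
        obtain ⟨x, hx, rfl⟩ := hm
        exact Finset.mem_Icc.mpr ⟨x.den_pos, (hA x hx).2⟩
      simpa using Finset.card_le_card this
    have h6 : ∑ m ∈ X.image (fun x => x.den), thr m ≤
        d * ((J : ℝ) * (K : ℝ)) + W * (L : ℝ) * ((K : ℝ) * (L : ℝ)) := by
      simp only [hthr]
      rw [Finset.sum_add_distrib, ← Finset.mul_sum, ← Finset.mul_sum, Finset.sum_const,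
        nsmul_eq_mul]
      have h7 := mul_le_mul_of_nonneg_left (sum_top_le hX hL h) hd
      have h8 : ((X.image (fun x => x.den)).card : ℝ) ≤ (K : ℝ) * (L : ℝ) := by exact_mod_cast h5
      have h9 := mul_le_mul_of_nonneg_right h8 (show 0 ≤ W * (L : ℝ) by positivity)
      linarith
    have h10 : ((X.filter (fun x =>
        thr x.den < ((X.filter (fun y => y.den = x.den)).card : ℝ))).card : ℝ) +
        ((X.filter (fun x =>
        ¬ thr x.den < ((X.filter (fun y => y.den = x.den)).card : ℝ))).card : ℝ) = X.card := by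
      exact_mod_cast h1
    linarith
  · intro x hx j hj hjd hjW
    have hx2 := (Finset.mem_filter.mp hx).2
    by_contra hcon
    push Not at hcon
    set top := (X.filter (fun y => y.den = x.den)).sup nm with htop
    have h1 : (X.filter (fun y => y.den = x.den)).card ≤
        (j.primeFactors.biUnion
          (fun p => (Icc 1 top).filter (fun i => Nat.Coprime i L ∧ p ∣ i))).card := by
      apply Finset.card_le_card_of_injOn nm
      · intro y hy
        have hy' := Finset.mem_filter.mp (Finset.mem_coe.mp hy)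
        have h2 := hcon y hy'.1 hy'.2
        obtain ⟨p, hp, hpj, hpy⟩ := Nat.Prime.not_coprime_iff_dvd.mp h2
        apply Finset.mem_coe.mpr
        rw [Finset.mem_biUnion]
        refine ⟨p, Nat.mem_primeFactors.mpr ⟨hp, hpj, hj.ne'⟩, ?_⟩
        rw [Finset.mem_filter, Finset.mem_Icc]
        exact ⟨⟨nm_pos (hX y hy'.1), Finset.le_sup (f := nm) (Finset.mem_coe.mp hy)⟩,
          hc y hy'.1, hpy⟩
      · intro y hy z hz hyz
        have hy' := Finset.mem_filter.mp (Finset.mem_coe.mp hy)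
        have hz' := Finset.mem_filter.mp (Finset.mem_coe.mp hz)
        exact eq_of_nm_den (hX y hy'.1) (hX z hz'.1) hyz (hy'.2.trans hz'.2.symm)
    have h2 := h1.trans Finset.card_biUnion_le
    have h3 : ((X.filter (fun y => y.den = x.den)).card : ℝ) ≤
        ∑ p ∈ j.primeFactors,
          ((Nat.totient L : ℝ) / (L : ℝ) * (top : ℝ) * (1 / (p : ℝ)) + (L : ℝ)) := by
      refine (Nat.cast_le.mpr h2).trans ?_
      rw [Nat.cast_sum]
      apply Finset.sum_le_sum
      intro p hp
      have := count_rough_mul hL (Nat.prime_of_mem_primeFactors hp).pos top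
      rw [mul_one_div]
      exact this
    rw [Finset.sum_add_distrib, ← Finset.mul_sum, Finset.sum_const, nsmul_eq_mul] at h3
    have h4 := mul_le_mul_of_nonneg_left hjd
      (show 0 ≤ (Nat.totient L : ℝ) / (L : ℝ) * (top : ℝ) by positivity)
    have h5 := mul_le_mul_of_nonneg_right hjW (show (0 : ℝ) ≤ (L : ℝ) by positivity)
    simp only [hthr] at hx2
    rw [← htop] at hx2
    linarith

end Pool.Agent.Lib.MP_4652a8_nt
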