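import Pool.Agent.Lib.MP_4652a8_nt.GQ0
import Pool.Agent.Lib.MP_4652a8_nt.GCnt
import Pool.Agent.Lib.MP_4652a8_nt.GB

set_option autoImplicit false

namespace Pool.Agent.Lib.MP_4652a8_nt
open Finset

/-- divisor closure of the denominators -/
def cl (X : Finset ℚ) : Finset ℕ := X.biUnion (fun x => x.den.divisors)

theorem DC_cl {X : Finset ℚ} (hX : X.Nonempty) : DC (cl X) := by
  obtain ⟨x, hx⟩ := hX
  refine ⟨Finset.mem_biUnion.2 ⟨x, hx, Nat.one_mem_divisors.2 x.den_nz⟩, fun m hm => ?_,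
    fun m hm d hd => ?_⟩
  · obtain ⟨y, -, hy⟩ := Finset.mem_biUnion.1 hm
    exact Nat.pos_of_mem_divisors hy
  · obtain ⟨y, hy, hm'⟩ := Finset.mem_biUnion.1 hm
    exact Finset.mem_biUnion.2
      ⟨y, hy, Nat.mem_divisors.2 ⟨hd.trans (Nat.dvd_of_mem_divisors hm'), y.den_nz⟩⟩

theorem den_mem_cl {X : Finset ℚ} {x : ℚ} (hx : x ∈ X) : x.den ∈ cl X := by
  exact Finset.mem_biUnion.2 ⟨x, hx, Nat.mem_divisors_self _ x.den_nz⟩

theorem nm_mul_F_le {x : ℚ} (hx : 0 < x) {Y Y3 : Finset ℚ} (hY : Pos Y) (hne : Y3.Nonempty)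
    {N : ℕ} (hN : ∀ y ∈ Y, nm (x / y) ≤ N)
    (h : ∀ y ∈ Y3, ∃ y' ∈ Y, y'.den = y.den ∧ Nat.Coprime (nm x) (nm y')) :
    nm x * F (cl Y3) x.den ≤ N * x.den := by
  obtain ⟨n, hn, e⟩ := F_spec (DC_cl hne) x.den
  obtain ⟨y, hy, hny⟩ := Finset.mem_biUnion.1 hn
  obtain ⟨y', hy', e', hc⟩ := h y hy
  have h1 := cross_nm hx (hY y' hy')
  rw [hc.gcd_eq_one, one_mul] at h1
  have h2 : Nat.lcm x.den n ≤ Nat.lcm x.den y'.den :=
    Nat.le_of_dvd (Nat.lcm_pos x.den_pos y'.den_pos) (Nat.lcm_dvd (Nat.dvd_lcm_left _ _)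
      ((e' ▸ Nat.dvd_of_mem_divisors hny).trans (Nat.dvd_lcm_right _ _)))
  rw [e]
  refine (Nat.mul_le_mul_left _ h2).trans
    (Nat.le_of_mul_le_mul_left ?_ (Nat.gcd_pos_of_pos_left y'.den x.den_pos))
  calc Nat.gcd x.den y'.den * (nm x * Nat.lcm x.den y'.den) = nm x * y'.den * x.den := by
        rw [mul_left_comm, Nat.gcd_mul_lcm]
        ring
    _ = Nat.gcd x.den y'.den * (nm (x / y') * x.den) := by
        rw [h1]
        ring
    _ ≤ _ := Nat.mul_le_mul_left _ (Nat.mul_le_mul_right _ (hN y' hy'))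

theorem gredc_inj {Z : Finset ℚ} (hZ : Pos Z) {m : ℕ} (hm : ∀ x ∈ Z, x.den = m) {T : Finset ℕ}
    (hT : ∀ x ∈ Z, nm x ∈ T) : Z.card ≤ T.card :=
  Finset.card_le_card_of_injOn nm hT fun x hx y hy e =>
    eq_of_nm_den (hZ x hx) (hZ y hy) e ((hm x hx).trans (hm y hy).symm)

theorem gredc_mem {x : ℚ} (hx : 0 < x) {b : ℝ} (hb : (nm x : ℝ) ≤ b) :
    nm x ∈ (Icc 1 ⌊b⌋₊).filter (fun j => Nat.Coprime j x.den) :=
  Finset.mem_filter.2 ⟨Finset.mem_Icc.2 ⟨nm_pos hx, Nat.le_floor hb⟩, nm_coprime_den x⟩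

theorem gredc_col {Z : Finset ℚ} (hZ : Pos Z) {m : ℕ} (h0 : 0 < m) (hm : ∀ x ∈ Z, x.den = m)
    {b : ℝ} (hb0 : 0 ≤ b) (hb : ∀ x ∈ Z, (nm x : ℝ) ≤ b) :
    (Z.card : ℝ) ≤ (Nat.totient m : ℝ) / (m : ℝ) * b + 2 ^ m.primeFactors.card := by
  have h1 := gredc_inj hZ hm (T := (Icc 1 ⌊b⌋₊).filter (fun j => Nat.Coprime j m))
    fun x hx => hm x hx ▸ gredc_mem (hZ x hx) (hb x hx)
  have h2 := (abs_le.1 (count_coprime h0 hb0)).2
  have h3 : (Z.card : ℝ) ≤ _ := Nat.cast_le.2 h1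
  linarith

theorem gredc_col2 {Z : Finset ℚ} (hZ : Pos Z) {m : ℕ} (h0 : 0 < m) (hm : ∀ x ∈ Z, x.den = m)
    {a b : ℝ} (ha0 : 0 ≤ a) (hab : a ≤ b) (ha : ∀ x ∈ Z, a < (nm x : ℝ))
    (hb : ∀ x ∈ Z, (nm x : ℝ) ≤ b) :
    (Z.card : ℝ) ≤ (Nat.totient m : ℝ) / (m : ℝ) * (b - a) + 2 * 2 ^ m.primeFactors.card := by
  have h1 := gredc_inj hZ hm (T := (Icc 1 ⌊b⌋₊).filter (fun j => Nat.Coprime j m) \
      (Icc 1 ⌊a⌋₊).filter (fun j => Nat.Coprime j m)) fun x hx =>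
    Finset.mem_sdiff.2 ⟨hm x hx ▸ gredc_mem (hZ x hx) (hb x hx), fun e =>
      not_le.2 (ha x hx) ((Nat.le_floor_iff ha0).1
        (Finset.mem_Icc.1 (Finset.mem_filter.1 e).1).2)⟩
  have h4 : (Icc 1 ⌊a⌋₊).filter (fun j => Nat.Coprime j m) ⊆
      (Icc 1 ⌊b⌋₊).filter (fun j => Nat.Coprime j m) :=
    Finset.filter_subset_filter _ (Finset.Icc_subset_Icc_right (Nat.floor_mono hab))
  have h5 := (Nat.add_le_add_right h1 _).trans (Finset.card_sdiff_add_card_eq_card h4).le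
  have h2 := (abs_le.1 (count_coprime h0 (ha0.trans hab))).2
  have h6 := (abs_le.1 (count_coprime h0 ha0)).1
  have h3 := (Nat.cast_le (α := ℝ)).2 h5
  rw [Nat.cast_add] at h3
  rw [mul_sub]
  linarith

theorem gredc_sum {Z : Finset ℚ} {P : Finset ℕ} (hP : DC P) {Mx : ℕ} {W : ℝ} (hW : 0 ≤ W)
    (h : ∀ x ∈ Z, x.den ∈ P ∧ x.den ≤ Mx) (c : ℕ → ℝ) (hc0 : ∀ m ∈ P, 0 ≤ c m)
    (hc : ∀ m ∈ P, m ≤ Mx → ((Z.filter (fun x => x.den = m)).card : ℝ) ≤ c m + W) :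
    (Z.card : ℝ) ≤ ∑ m ∈ P, c m + (Mx : ℝ) * W := by
  have h1 : (P.filter (fun m => m ≤ Mx)).card ≤ Mx := by
    refine (Finset.card_le_card (t := Icc 1 Mx) fun m hm => ?_).trans (by simp)
    exact Finset.mem_Icc.2 ⟨hP.2.1 m (Finset.mem_filter.1 hm).1, (Finset.mem_filter.1 hm).2⟩
  rw [Finset.card_eq_sum_card_fiberwise (f := fun x : ℚ => x.den)
    (t := P.filter (fun m => m ≤ Mx)) fun x hx => Finset.mem_filter.2 (h x hx), Nat.cast_sum]
  refine (Finset.sum_le_sum fun m hm =>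
    hc m (Finset.mem_filter.1 hm).1 (Finset.mem_filter.1 hm).2).trans ?_
  rw [Finset.sum_add_distrib, Finset.sum_const, nsmul_eq_mul]
  exact add_le_add (Finset.sum_le_sum_of_subset_of_nonneg (Finset.filter_subset _ _)
    fun m hm _ => hc0 m hm) (mul_le_mul_of_nonneg_right (Nat.cast_le.2 h1) hW)

theorem gredc_top {Q : Finset ℕ} (hQ : DC Q) {N : ℕ} {x : ℚ}
    (h : nm x * F Q x.den ≤ N * x.den) : (nm x : ℝ) ≤ (N : ℝ) * x.den * (1 / (F Q x.den : ℝ)) := by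
  have h1 : (0 : ℝ) < (F Q x.den : ℝ) := Nat.cast_pos.2 (F_pos hQ x.den_pos)
  rw [mul_one_div, le_div_iff₀ h1]
  exact_mod_cast h

theorem gredc_col_F {Z : Finset ℚ} (hZ : Pos Z) {Q : Finset ℕ} (hQ : DC Q) {N m : ℕ} (h0 : 0 < m)
    (h : ∀ x ∈ Z, nm x * F Q x.den ≤ N * x.den) :
    ((Z.filter (fun x => x.den = m)).card : ℝ) ≤
      (N : ℝ) * ((Nat.totient m : ℝ) * (1 / (F Q m : ℝ))) + 2 ^ m.primeFactors.card := by
  have h1 : (m : ℝ) ≠ 0 := Nat.cast_ne_zero.2 h0.ne'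
  refine le_of_le_of_eq (gredc_col (Z := Z.filter (fun x => x.den = m))
    (fun x hx => hZ x (Finset.mem_filter.1 hx).1) h0 (fun x hx => (Finset.mem_filter.1 hx).2)
    (b := (N : ℝ) * m * (1 / (F Q m : ℝ))) (by positivity) fun x hx => ?_) ?_
  · rw [← (Finset.mem_filter.1 hx).2]
    exact gredc_top hQ (h x (Finset.mem_filter.1 hx).1)
  · field_simp

/-- counting the elements column by column -/
theorem card_le_S {X : Finset ℚ} (hX : Pos X) {P Q : Finset ℕ} (hP : DC P) (hQ : DC Q)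
    {N Mx : ℕ} {W : ℝ} (h : ∀ x ∈ X, x.den ∈ P ∧ x.den ≤ Mx ∧ nm x * F Q x.den ≤ N * x.den)
    (hW : ∀ m : ℕ, 0 < m → m ≤ Mx → (2 : ℝ) ^ m.primeFactors.card ≤ W) (hW0 : 0 ≤ W) :
    (X.card : ℝ) ≤ (N : ℝ) * S P Q + (Mx : ℝ) * W := by
  unfold S
  rw [Finset.mul_sum]
  refine gredc_sum hP hW0 (fun x hx => ⟨(h x hx).1, (h x hx).2.1⟩) _
    (fun m _ => mul_nonneg (Nat.cast_nonneg N) (wt_nonneg Q m)) fun m hm hm' => ?_
  unfold wt
  rw [div_eq_mul_one_div]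
  exact (gredc_col_F hX hQ (hP.2.1 m hm) fun x hx => (h x hx).2.2).trans
    (add_le_add_right (hW m (hP.2.1 m hm) hm') _)

theorem card_le_near {X : Finset ℚ} (hX : Pos X) {P Q : Finset ℕ} (hP : DC P) (hQ : DC Q)
    {N Mx : ℕ} {W : ℝ} (h : ∀ x ∈ X, x.den ∈ P ∧ x.den ≤ Mx ∧ nm x * F Q x.den ≤ N * x.den)
    (hW : ∀ m : ℕ, 0 < m → m ≤ Mx → (2 : ℝ) ^ m.primeFactors.card ≤ W) (hW0 : 0 ≤ W)
    {L : ℕ} (hL : 0 < L) :
    (X.card : ℝ) ≤ (near X (1 / (L : ℚ)) N : ℝ) + (N : ℝ) * bad P Q L + 2 * ((Mx : ℝ) * W) := by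
  have hL' : (L : ℚ) ≠ 0 := Nat.cast_ne_zero.2 hL.ne'
  have hLr : (0 : ℝ) < L := Nat.cast_pos.2 hL
  have key : ∀ x ∈ X, x.den ∣ L → 1 / (L : ℚ) * ((nm x * (L / x.den) : ℕ) : ℚ) = x := by
    intro x hx hd
    have h1 : (x.den : ℚ) ≠ 0 := Nat.cast_ne_zero.2 x.den_nz
    rw [Nat.cast_mul, Nat.cast_div hd h1]
    conv_rhs => rw [← nm_div_den (hX x hx)]
    field_simp
  have h1 : (X.filter (fun x => x.den ∣ L ∧ nm x * L ≤ N * x.den)).card ≤
      near X (1 / (L : ℚ)) N := by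
    refine Finset.card_le_card_of_injOn (fun x => nm x * (L / x.den)) (fun x hx => ?_)
      fun x hx y hy e => ?_
    · obtain ⟨hx, hd, hle⟩ := Finset.mem_filter.1 hx
      refine Finset.mem_filter.2 ⟨Finset.mem_Icc.2 ⟨?_, ?_⟩, ?_⟩
      · exact Nat.mul_pos (nm_pos (hX x hx)) (Nat.div_pos (Nat.le_of_dvd hL hd) x.den_pos)
      · refine Nat.le_of_mul_le_mul_right ?_ x.den_pos
        rwa [mul_assoc, Nat.div_mul_cancel hd]
      · rwa [key x hx hd]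
    · obtain ⟨hx, hd, -⟩ := Finset.mem_filter.1 hx
      obtain ⟨hy, hd', -⟩ := Finset.mem_filter.1 hy
      have e' : nm x * (L / x.den) = nm y * (L / y.den) := e
      rw [← key x hx hd, e', key y hy hd']
  have h2 : ((X.filter (fun x => ¬ (x.den ∣ L ∧ nm x * L ≤ N * x.den))).card : ℝ) ≤
      (N : ℝ) * bad P Q L + (Mx : ℝ) * (2 * W) := by
    have hX' : Pos (X.filter (fun x => ¬ (x.den ∣ L ∧ nm x * L ≤ N * x.den))) :=
      fun x hx => hX x (Finset.mem_filter.1 hx).1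
    have h' : ∀ x ∈ X.filter (fun x => ¬ (x.den ∣ L ∧ nm x * L ≤ N * x.den)),
        x.den ∈ P ∧ x.den ≤ Mx ∧ nm x * F Q x.den ≤ N * x.den :=
      fun x hx => h x (Finset.mem_filter.1 hx).1
    unfold bad
    rw [Finset.mul_sum]
    refine gredc_sum hP (by positivity) (fun x hx => ⟨(h' x hx).1, (h' x hx).2.1⟩) _
      (fun m _ => ?_) fun m hm hm' => ?_
    · split_ifs <;> positivity
    · have h0 := hP.2.1 m hm
      have h3 := hW m h0 hm'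
      have hm0 : (m : ℝ) ≠ 0 := Nat.cast_ne_zero.2 h0.ne'
      split_ifs with hd
      · have h4 : 0 ≤ max (1 / (F Q m : ℝ) - 1 / (L : ℝ)) 0 := le_max_right _ _
        have h5 := le_max_left (1 / (F Q m : ℝ) - 1 / (L : ℝ)) 0
        generalize max (1 / (F Q m : ℝ) - 1 / (L : ℝ)) 0 = δ at h4 h5
        refine (gredc_col2 (fun x hx => hX' x (Finset.mem_filter.1 hx).1) h0
          (fun x hx => (Finset.mem_filter.1 hx).2) (a := (N : ℝ) * m * (1 / L))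
          (b := (N : ℝ) * m * (1 / L + δ)) (by positivity)
          (mul_le_mul_of_nonneg_left (by linarith) (by positivity)) (fun x hx => ?_)
          fun x hx => ?_).trans (add_le_add (le_of_eq ?_) (by linarith))
        · obtain ⟨hx, e⟩ := Finset.mem_filter.1 hx
          have h6 : N * x.den < nm x * L :=
            not_le.1 fun h6 => (Finset.mem_filter.1 hx).2 ⟨e ▸ hd, h6⟩
          rw [mul_one_div, div_lt_iff₀ hLr, ← e]
          exact_mod_cast h6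
        · obtain ⟨hx, e⟩ := Finset.mem_filter.1 hx
          have h6 := gredc_top hQ (h' x hx).2.2
          rw [e] at h6
          exact h6.trans (mul_le_mul_of_nonneg_left (by linarith) (by positivity))
        · field_simp
          ring
      · exact (gredc_col_F hX' hQ h0 fun x hx => (h' x hx).2.2).trans
          (add_le_add_right (by linarith) _)
  have h3 := Finset.card_filter_add_card_filter_not (s := X)
    (fun x => x.den ∣ L ∧ nm x * L ≤ N * x.den)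
  have h4 := (Nat.cast_le (α := ℝ)).2 h1
  rw [← h3, Nat.cast_add]
  linarith

end Pool.Agent.Lib.MP_4652a8_nt
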