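import Pool.Agent.Lib.MP_4652a8_nt.GRedA
import Pool.Agent.Lib.MP_4652a8_nt.GRedB
import Pool.Agent.Lib.MP_4652a8_nt.GRedC

set_option autoImplicit false

namespace Pool.Agent.Lib.MP_4652a8_nt
open Finset

theorem gred_c0 : ∃ c0 : ℕ, ∀ j : ℕ, 0 < j → 256 ^ j.primeFactors.card ≤ c0 * j :=
  ⟨_, fun _ hj => pow_omega_le hj⟩

theorem omega_small (c1 c2 : ℕ) {e : ℝ} (he : 0 < e) : ∃ N0 : ℕ, ∀ N : ℕ, N0 ≤ N → ∃ W : ℝ,
    0 ≤ W ∧ (∀ j : ℕ, 0 < j → j ≤ c1 * N → (2 : ℝ) ^ j.primeFactors.card ≤ W) ∧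
      ∀ K : ℕ, K ^ 2 ≤ c2 * N → W * (K : ℝ) ≤ e * (N : ℝ) := by
  obtain ⟨c0, hc0⟩ := gred_c0
  obtain ⟨N1, hN1⟩ := exists_nat_ge (((c0 : ℝ) * c1 * (c2 : ℝ) ^ 4) / e ^ 8)
  refine ⟨N1 + 1, fun N hN => ?_⟩
  have hZ : (0 : ℝ) ≤ (c0 : ℝ) * ((c1 : ℝ) * N) := by positivity
  have hW8 : (((c0 : ℝ) * ((c1 : ℝ) * N)) ^ ((8 : ℕ) : ℝ)⁻¹) ^ (8 : ℕ) = (c0 : ℝ) * ((c1 : ℝ) * N) :=
    Real.rpow_inv_natCast_pow hZ (by norm_num)
  have hW0 : (0 : ℝ) ≤ ((c0 : ℝ) * ((c1 : ℝ) * N)) ^ ((8 : ℕ) : ℝ)⁻¹ := Real.rpow_nonneg hZ _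
  generalize ((c0 : ℝ) * ((c1 : ℝ) * N)) ^ ((8 : ℕ) : ℝ)⁻¹ = W at hW8 hW0
  refine ⟨W, hW0, fun j hj hjN => ?_, fun K hK => ?_⟩
  · refine le_of_pow_le_pow_left₀ (n := 8) (by norm_num) hW0 ?_
    rw [hW8, ← pow_mul, mul_comm, pow_mul]
    have h1 : ((256 ^ j.primeFactors.card : ℕ) : ℝ) ≤ ((c0 * (c1 * N) : ℕ) : ℝ) := by
      exact_mod_cast le_trans (hc0 j hj) (Nat.mul_le_mul_left _ hjN)
    push_cast at h1
    norm_num
    exact h1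
  · have hN1' : (1 : ℝ) ≤ N := by exact_mod_cast le_trans (Nat.le_add_left 1 N1) hN
    have hNN : (N1 : ℝ) ≤ N := by exact_mod_cast le_trans (Nat.le_succ N1) hN
    have he8 : 0 < e ^ 8 := by positivity
    have h2 : (c0 : ℝ) * c1 * (c2 : ℝ) ^ 4 ≤ e ^ 8 * N := by
      have := le_trans hN1 hNN
      rwa [div_le_iff₀ he8, mul_comm (N : ℝ)] at this
    have hK' : (K : ℝ) ^ 2 ≤ (c2 : ℝ) * N := by exact_mod_cast hK
    have hK8 : (K : ℝ) ^ 8 ≤ ((c2 : ℝ) * N) ^ 4 := by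
      have : (K : ℝ) ^ 8 = ((K : ℝ) ^ 2) ^ 4 := by ring
      rw [this]
      exact pow_le_pow_left₀ (by positivity) hK' 4
    refine le_of_pow_le_pow_left₀ (n := 8) (by norm_num) (by positivity) ?_
    rw [mul_pow, hW8]
    have h6 : (N : ℝ) ^ 6 ≤ (N : ℝ) ^ 8 := pow_le_pow_right₀ hN1' (by norm_num)
    calc (c0 : ℝ) * ((c1 : ℝ) * N) * (K : ℝ) ^ 8
        ≤ (c0 : ℝ) * ((c1 : ℝ) * N) * ((c2 : ℝ) * N) ^ 4 := mul_le_mul_of_nonneg_left hK8 hZ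
      _ = ((c0 : ℝ) * c1 * (c2 : ℝ) ^ 4) * (N : ℝ) ^ 5 := by ring
      _ ≤ (e ^ 8 * N) * (N : ℝ) ^ 5 := mul_le_mul_of_nonneg_right h2 (by positivity)
      _ = e ^ 8 * (N : ℝ) ^ 6 := by ring
      _ ≤ e ^ 8 * (N : ℝ) ^ 8 := mul_le_mul_of_nonneg_left h6 he8.le
      _ = (e * N) ^ 8 := by ring

theorem box_sizes {N T J K J' K' : ℕ} (hN : 0 < N) (hK : 1 ≤ K) (hK' : 1 ≤ K')
    (h1 : N ≤ 2 * (J * K)) (h2 : N ≤ 2 * (J' * K')) (h3 : J * K' ≤ N * T) (h4 : K * J' ≤ N * T)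
    (h5 : K * K' ≤ J * J') :
    K ^ 2 ≤ 2 * T ^ 2 * N ∧ K' ^ 2 ≤ 2 * T ^ 2 * N ∧ J * K ≤ 2 * T ^ 2 * N ∧
      J' * K' ≤ 2 * T ^ 2 * N ∧ J ≤ N * T ∧ J' ≤ N * T := by
  have hJ : 0 < J := by
    rcases Nat.eq_zero_or_pos J with h | h
    · subst h; simp at h1; omega
    · exact h
  have hJ' : 0 < J' := by
    rcases Nat.eq_zero_or_pos J' with h | h
    · subst h; simp at h2; omega
    · exact h
  have a1 : K ≤ 2 * T * K' := by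
    refine Nat.le_of_mul_le_mul_right (c := J') ?_ hJ'
    calc K * J' ≤ N * T := h4
      _ ≤ 2 * (J' * K') * T := Nat.mul_le_mul_right _ h2
      _ = 2 * T * K' * J' := by ring
  have a2 : K' ≤ 2 * T * K := by
    refine Nat.le_of_mul_le_mul_left (c := J) ?_ hJ
    calc J * K' ≤ N * T := h3
      _ ≤ 2 * (J * K) * T := Nat.mul_le_mul_right _ h1
      _ = J * (2 * T * K) := by ring
  have a3 : K * K' ≤ N * T := by
    rw [← Nat.mul_self_le_mul_self_iff]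
    calc K * K' * (K * K') ≤ K * K' * (J * J') := Nat.mul_le_mul_left _ h5
      _ = (J * K') * (K * J') := by ring
      _ ≤ N * T * (N * T) := Nat.mul_le_mul h3 h4
  refine ⟨?_, ?_, ?_, ?_, ?_, ?_⟩
  · calc K ^ 2 = K * K := by ring
      _ ≤ 2 * T * K' * K := Nat.mul_le_mul_right _ a1
      _ = 2 * T * (K * K') := by ring
      _ ≤ 2 * T * (N * T) := Nat.mul_le_mul_left _ a3
      _ = 2 * T ^ 2 * N := by ring
  · calc K' ^ 2 = K' * K' := by ring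
      _ ≤ 2 * T * K * K' := Nat.mul_le_mul_right _ a2
      _ = 2 * T * (K * K') := by ring
      _ ≤ 2 * T * (N * T) := Nat.mul_le_mul_left _ a3
      _ = 2 * T ^ 2 * N := by ring
  · calc J * K ≤ J * (2 * T * K') := Nat.mul_le_mul_left _ a1
      _ = 2 * T * (J * K') := by ring
      _ ≤ 2 * T * (N * T) := Nat.mul_le_mul_left _ h3
      _ = 2 * T ^ 2 * N := by ring
  · calc J' * K' ≤ J' * (2 * T * K) := Nat.mul_le_mul_left _ a2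
      _ = 2 * T * (K * J') := by ring
      _ ≤ 2 * T * (N * T) := Nat.mul_le_mul_left _ h4
      _ = 2 * T ^ 2 * N := by ring
  · calc J = J * 1 := by ring
      _ ≤ J * K' := Nat.mul_le_mul_left _ hK'
      _ ≤ N * T := h3
  · calc J' = 1 * J' := by ring
      _ ≤ K * J' := Nat.mul_le_mul_right _ hK
      _ ≤ N * T := h4

/-- one side: the rescaled typical part and its dense columns -/
theorem gred_side {A A2 : Finset ℚ} (hA : Pos A) {e d W : ℝ} {N L0 J K : ℕ} (he : 0 < e)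
    (he1 : e ≤ 1 / 100) (hd : 0 ≤ d) (hW : 0 ≤ W) (hL0 : 0 < L0) (hNA : N ≤ A.card)
    (hB : Box A e J K) (h2 : A2 ⊆ A) (h2c : (1 - 2 * e) * (A.card : ℝ) ≤ (A2.card : ℝ))
    (h2t : ∀ a ∈ A2, Nat.Coprime (nm (a / L0)) L0 ∧
        ∑ p ∈ (nm (a / L0)).primeFactors, 1 / (p : ℝ) ≤ d)
    (hJK : d * ((J : ℝ) * (K : ℝ)) ≤ e * N)
    (hWK : W * (L0 : ℝ) * ((K : ℝ) * (L0 : ℝ)) ≤ e / 2 * N) :
    ∃ X X3 : Finset ℚ, X ⊆ sc (1 / (L0 : ℚ)) A ∧ X3 ⊆ X ∧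
      (1 - 11 / 2 * e) * (N : ℝ) ≤ (X3.card : ℝ) ∧
      (∀ x ∈ X, nm x ≤ J ∧ x.den ≤ K * L0 ∧ ∑ p ∈ (nm x).primeFactors, 1 / (p : ℝ) ≤ d) ∧
      ∀ x ∈ X3, ∀ j : ℕ, 0 < j → ∑ p ∈ j.primeFactors, 1 / (p : ℝ) ≤ d →
        (j.primeFactors.card : ℝ) ≤ W → ∃ x' ∈ X, x'.den = x.den ∧ Nat.Coprime j (nm x') := by
  classical
  have hLq : (0 : ℚ) < (L0 : ℚ) := by exact_mod_cast hL0
  have hc : (0 : ℚ) < 1 / (L0 : ℚ) := by positivity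
  set A1 := A2.filter (fun a => nm a ≤ J ∧ a.den ≤ K) with hA1
  have h1sub : A1 ⊆ A := (Finset.filter_subset _ _).trans h2
  have hcard : (1 - 4 * e) * (N : ℝ) ≤ (A1.card : ℝ) := by
    have hs : A2 ⊆ A1 ∪ (A.filter (fun a => J < nm a) ∪ A.filter (fun a => K < a.den)) := by
      intro a ha
      simp only [hA1, Finset.mem_union, Finset.mem_filter]
      by_cases c1 : nm a ≤ J
      · by_cases c2 : a.den ≤ K
        · exact Or.inl ⟨ha, c1, c2⟩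
        · exact Or.inr (Or.inr ⟨h2 ha, not_le.1 c2⟩)
      · exact Or.inr (Or.inl ⟨h2 ha, not_le.1 c1⟩)
    have h3 := Finset.card_le_card hs
    have h4 := Finset.card_union_le A1
      (A.filter (fun a => J < nm a) ∪ A.filter (fun a => K < a.den))
    have h5 := Finset.card_union_le (A.filter (fun a => J < nm a)) (A.filter (fun a => K < a.den))
    have h6 : (A2.card : ℝ) ≤ (A1.card : ℝ) + (((A.filter (fun a => J < nm a)).card : ℝ) +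
        ((A.filter (fun a => K < a.den)).card : ℝ)) := by
      exact_mod_cast le_trans h3 (le_trans h4 (Nat.add_le_add_left h5 _))
    have h7 : (N : ℝ) ≤ (A.card : ℝ) := by exact_mod_cast hNA
    have h8 := hB.2.2.1
    have h9 := hB.2.2.2
    have h10 : (1 - 4 * e) * (N : ℝ) ≤ (1 - 4 * e) * (A.card : ℝ) :=
      mul_le_mul_of_nonneg_left h7 (by linarith)
    linarith
  have hmem : ∀ x ∈ sc (1 / (L0 : ℚ)) A1, ∃ a ∈ A1, x = a / L0 ∧ (L0 : ℚ) * x = a := by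
    intro x hx
    obtain ⟨a, ha, rfl⟩ := Finset.mem_image.1 hx
    refine ⟨a, ha, by ring, ?_⟩
    field_simp
  have hpos : Pos (sc (1 / (L0 : ℚ)) A1) := Pos_sc hc (fun a ha => hA a (h1sub ha))
  obtain ⟨hb, X3, h3, h3c, h3d⟩ := dense_columns (X := sc (1 / (L0 : ℚ)) A1) hpos (J := J) (K := K)
    hL0 hd hW
    (by
      intro x hx
      obtain ⟨a, ha, -, e2⟩ := hmem x hx
      rw [e2]
      exact (Finset.mem_filter.1 ha).2)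
    (by
      intro x hx
      obtain ⟨a, ha, e1, -⟩ := hmem x hx
      rw [e1]
      exact (h2t a (Finset.mem_filter.1 ha).1).1)
  refine ⟨sc (1 / (L0 : ℚ)) A1, X3, Finset.image_subset_image h1sub, h3, ?_, ?_, h3d⟩
  · rw [card_sc hc] at h3c
    linarith
  · intro x hx
    refine ⟨(hb x hx).1, (hb x hx).2, ?_⟩
    obtain ⟨a, ha, e1, -⟩ := hmem x hx
    rw [e1]
    exact (h2t a (Finset.mem_filter.1 ha).1).2

theorem gred_near_le {A X : Finset ℚ} {L0 L N : ℕ} (hL0 : 0 < L0)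
    (hX : X ⊆ sc (1 / (L0 : ℚ)) A) :
    near X (1 / (L : ℚ)) N ≤ near A ((L0 : ℚ) / (L : ℚ)) N := by
  classical
  have hLq : (0 : ℚ) < (L0 : ℚ) := by exact_mod_cast hL0
  unfold near
  refine Finset.card_le_card (fun i hi => ?_)
  rw [Finset.mem_filter] at hi ⊢
  refine ⟨hi.1, ?_⟩
  obtain ⟨a, ha, e1⟩ := Finset.mem_image.1 (hX hi.2)
  have : (L0 : ℚ) / (L : ℚ) * (i : ℚ) = a := by
    have e2 : (L0 : ℚ) / (L : ℚ) * (i : ℚ) = (L0 : ℚ) * (1 / (L : ℚ) * (i : ℚ)) := by ring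
    rw [e2, ← e1]
    field_simp
  rw [this]
  exact ha

/-- the two counting bounds on one side -/
theorem gred_count {A X X3 Y Y3 : Finset ℚ} {e d W : ℝ} {N L0 J K c1 : ℕ} (hN : 0 < N)
    (he : 0 < e) (hW : 0 ≤ W) (hL0 : 0 < L0) (hX : Pos X) (hY : Pos Y)
    (hXA : X ⊆ sc (1 / (L0 : ℚ)) A) (h3 : X3 ⊆ X) (hXn : X3.Nonempty) (hYn : Y3.Nonempty)
    (hOk : ∀ x ∈ X, ∀ y ∈ Y, nm (x / y) ≤ N)
    (hc : (1 - 11 / 2 * e) * (N : ℝ) ≤ (X3.card : ℝ))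
    (hx : ∀ x ∈ X, nm x ≤ J ∧ x.den ≤ K * L0 ∧ ∑ p ∈ (nm x).primeFactors, 1 / (p : ℝ) ≤ d)
    (hy : ∀ y ∈ Y3, ∀ j : ℕ, 0 < j → ∑ p ∈ j.primeFactors, 1 / (p : ℝ) ≤ d →
        (j.primeFactors.card : ℝ) ≤ W → ∃ y' ∈ Y, y'.den = y.den ∧ Nat.Coprime j (nm y'))
    (hom : ∀ j : ℕ, 0 < j → j ≤ c1 * N → (2 : ℝ) ^ j.primeFactors.card ≤ W)
    (hJ : J ≤ c1 * N) (hK : K * L0 ≤ c1 * N)
    (hWK : ((K * L0 : ℕ) : ℝ) * W ≤ e / 2 * N) :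
    1 - 7 * e ≤ S (cl X3) (cl Y3) ∧ ∀ L : ℕ, 0 < L →
      (1 - 7 * e - bad (cl X3) (cl Y3) L) * (N : ℝ) ≤ (near A ((L0 : ℚ) / (L : ℚ)) N : ℝ) := by
  have hX3 : Pos X3 := fun x h => hX x (h3 h)
  have hP := DC_cl hXn
  have hQ := DC_cl hYn
  have hNr : (0 : ℝ) < N := by exact_mod_cast hN
  have key : ∀ x ∈ X3, x.den ∈ cl X3 ∧ x.den ≤ K * L0 ∧
      nm x * F (cl Y3) x.den ≤ N * x.den := by
    intro x hx3
    have hxX := h3 hx3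
    refine ⟨den_mem_cl hx3, (hx x hxX).2.1, ?_⟩
    refine nm_mul_F_le (hX x hxX) hY hYn (hOk x hxX) (fun y hy3 => ?_)
    have hj := nm_pos (hX x hxX)
    refine hy y hy3 (nm x) hj (hx x hxX).2.2 (le_trans ?_ (hom _ hj ((hx x hxX).1.trans hJ)))
    exact_mod_cast (Nat.lt_two_pow_self).le
  have hW' : ∀ m : ℕ, 0 < m → m ≤ K * L0 → (2 : ℝ) ^ m.primeFactors.card ≤ W :=
    fun m hm h => hom m hm (h.trans hK)
  have heN : 0 < e * N := mul_pos he hNr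
  constructor
  · have h1 := card_le_S hX3 hP hQ key hW' hW
    have h2 : (1 - 7 * e) * (N : ℝ) ≤ S (cl X3) (cl Y3) * N := by linarith
    exact le_of_mul_le_mul_right h2 hNr
  · intro L hL
    have h1 := card_le_near hX3 hP hQ key hW' hW hL
    have h2 : (near X3 (1 / (L : ℚ)) N : ℝ) ≤ (near A ((L0 : ℚ) / (L : ℚ)) N : ℝ) := by
      exact_mod_cast gred_near_le hL0 (h3.trans hXA)
    linarith

/-- reduction to the model -/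
theorem red0 (C e : ℝ) (T : ℕ) (he : 0 < e) (he1 : e ≤ 1 / 100) (hT : 1 ≤ T) :
    ∃ N0 : ℕ, ∀ N : ℕ, N0 ≤ N → ∀ (A B : Finset ℚ) (J K J' K' : ℕ), Pos A → Pos B →
      Ok A B N N → N ≤ A.card → N ≤ B.card → Tail A C → Tail B C → Box A e J K → Box B e J' K' →
      J * K' ≤ N * T → K * J' ≤ N * T → K * K' ≤ J * J' →
      ∃ (P Q : Finset ℕ) (L0 : ℕ), DC P ∧ DC Q ∧ 0 < L0 ∧ 1 - 7 * e ≤ S P Q ∧ 1 - 7 * e ≤ S Q P ∧
        ∀ L : ℕ, 0 < L →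
          (1 - 7 * e - bad P Q L) * (N : ℝ) ≤ (near A ((L0 : ℚ) / (L : ℚ)) N : ℝ) ∧
          (1 - 7 * e - bad Q P L) * (N : ℝ) ≤ (near B ((L0 : ℚ) / (L : ℚ)) N : ℝ) := by
  have hTr : (1 : ℝ) ≤ T := by exact_mod_cast hT
  have hd : 0 < e / (2 * (T : ℝ) ^ 2) := by positivity
  obtain ⟨L0, hL0, htyp⟩ := typical C e (e / (2 * (T : ℝ) ^ 2)) he hd
  have hLr : (1 : ℝ) ≤ L0 := by exact_mod_cast hL0
  have he' : 0 < e / (2 * (L0 : ℝ) ^ 2) := by positivity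
  obtain ⟨N1, hN1⟩ := omega_small (2 * T ^ 2 * L0 + T) (2 * T ^ 2) he'
  refine ⟨N1 + 1, fun N hN A B J K J' K' hA hB hOk hNA hNB tA tB bA bB h3 h4 h5 => ?_⟩
  have hN0 : 0 < N := by omega
  have hNr : (0 : ℝ) < N := by exact_mod_cast hN0
  obtain ⟨W, hW, hom, hWK⟩ := hN1 N (by omega)
  have e4 : e ≤ 1 / 4 := by linarith
  obtain ⟨s1, s2, s3, s4, s5, s6⟩ := box_sizes hN0 bA.2.1 bB.2.1
    (hNA.trans (card_le_of_Box hA e4 bA)) (hNB.trans (card_le_of_Box hB e4 bB)) h3 h4 h5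
  have dJK : ∀ a b : ℕ, a * b ≤ 2 * T ^ 2 * N →
      e / (2 * (T : ℝ) ^ 2) * ((a : ℝ) * (b : ℝ)) ≤ e * N := by
    intro a b hab
    have h : (a : ℝ) * (b : ℝ) ≤ 2 * (T : ℝ) ^ 2 * N := by exact_mod_cast hab
    calc e / (2 * (T : ℝ) ^ 2) * ((a : ℝ) * (b : ℝ))
        ≤ e / (2 * (T : ℝ) ^ 2) * (2 * (T : ℝ) ^ 2 * N) := mul_le_mul_of_nonneg_left h hd.le
      _ = e * N := by field_simp
  have wK : ∀ k : ℕ, k ^ 2 ≤ 2 * T ^ 2 * N →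
      W * (L0 : ℝ) * ((k : ℝ) * (L0 : ℝ)) ≤ e / 2 * N := by
    intro k hk
    have h := hWK k hk
    calc W * (L0 : ℝ) * ((k : ℝ) * (L0 : ℝ)) = W * (k : ℝ) * (L0 : ℝ) ^ 2 := by ring
      _ ≤ e / (2 * (L0 : ℝ) ^ 2) * N * (L0 : ℝ) ^ 2 :=
          mul_le_mul_of_nonneg_right h (by positivity)
      _ = e / 2 * N := by field_simp
  have wK' : ∀ k : ℕ, k ^ 2 ≤ 2 * T ^ 2 * N → ((k * L0 : ℕ) : ℝ) * W ≤ e / 2 * N := by
    intro k hk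
    refine le_trans ?_ (wK k hk)
    push_cast
    have h0 : 0 ≤ (k : ℝ) * (L0 : ℝ) * W := by positivity
    nlinarith
  have cJ : ∀ j : ℕ, j ≤ N * T → j ≤ (2 * T ^ 2 * L0 + T) * N := by
    intro j hj
    calc j ≤ N * T := hj
      _ ≤ 2 * T ^ 2 * L0 * N + N * T := Nat.le_add_left _ _
      _ = (2 * T ^ 2 * L0 + T) * N := by ring
  have cK : ∀ k : ℕ, k ^ 2 ≤ 2 * T ^ 2 * N → k * L0 ≤ (2 * T ^ 2 * L0 + T) * N := by
    intro k hk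
    have h1 : k ≤ 2 * T ^ 2 * N := le_trans (Nat.le_self_pow (by norm_num) k) hk
    calc k * L0 ≤ 2 * T ^ 2 * N * L0 := Nat.mul_le_mul_right _ h1
      _ ≤ 2 * T ^ 2 * N * L0 + T * N := Nat.le_add_right _ _
      _ = (2 * T ^ 2 * L0 + T) * N := by ring
  obtain ⟨A2, a1, a2, a3⟩ := htyp A hA tA
  obtain ⟨B2, b1, b2, b3⟩ := htyp B hB tB
  obtain ⟨X, X3, x1, x2, x3, x4, x5⟩ := gred_side hA he he1 hd.le hW hL0 hNA bA a1 a2 a3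
    (dJK _ _ s3) (wK _ s1)
  obtain ⟨Y, Y3, y1, y2, y3, y4, y5⟩ := gred_side hB he he1 hd.le hW hL0 hNB bB b1 b2 b3
    (dJK _ _ s4) (wK _ s2)
  have hLq : (0 : ℚ) < (L0 : ℚ) := by exact_mod_cast hL0
  have hc : (0 : ℚ) < 1 / (L0 : ℚ) := by positivity
  have pX : Pos X := fun x hx => Pos_sc hc hA x (x1 hx)
  have pY : Pos Y := fun x hx => Pos_sc hc hB x (y1 hx)
  have hpos : 0 < (1 - 11 / 2 * e) * (N : ℝ) := mul_pos (by linarith) hNr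
  have nX : X3.Nonempty := by
    rw [← Finset.card_pos]
    exact_mod_cast lt_of_lt_of_le hpos x3
  have nY : Y3.Nonempty := by
    rw [← Finset.card_pos]
    exact_mod_cast lt_of_lt_of_le hpos y3
  have o1 := Ok_sc hc hOk
  have o2 := Ok_sc hc (Ok_symm hA hB hOk)
  obtain ⟨r1, r2⟩ := gred_count hN0 he hW hL0 pX pY x1 x2 nX nY
    (fun x hx y hy => (o1 x (x1 hx) y (y1 hy)).1) x3 x4 y5 hom (cJ _ s5) (cK _ s1) (wK' _ s1)
  obtain ⟨r3, r4⟩ := gred_count hN0 he hW hL0 pY pX y1 y2 nY nX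
    (fun x hx y hy => (o2 x (y1 hx) y (x1 hy)).1) y3 y4 x5 hom (cJ _ s6) (cK _ s2) (wK' _ s2)
  exact ⟨cl X3, cl Y3, L0, DC_cl nX, DC_cl nY, hL0, r1, r3, fun L hL => ⟨r2 L hL, r4 L hL⟩⟩

end Pool.Agent.Lib.MP_4652a8_nt
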