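import Pool.Agent.Lib.MP_4652a8_nt.GProd
import Pool.Agent.Lib.MP_4652a8_nt.GRed
import Pool.Agent.Lib.MP_4652a8_nt.GModel

set_option autoImplicit false

namespace Pool.Agent.Lib.MP_4652a8_nt
open Finset

theorem gnear_bad {P Q : Finset ℕ} (hP : DC P) (hQ : DC Q) {e : ℝ} (he : 0 < e)
    (he1 : e ≤ 1 / 14000) (h1 : 1 - 7 * e ≤ S P Q) (h2 : 1 - 7 * e ≤ S Q P) :
    ∃ L : ℕ, 0 < L ∧ bad P Q L ≤ 29000 * e ∧ bad Q P L ≤ 29000 * e := by
  obtain ⟨_, hm⟩ := model_thm _ P Q hP hQ rfl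
  have h7 : 0 ≤ 1 - 7 * e := by linarith
  have hV : (1 - 7 * e) * (1 - 7 * e) ≤ V P Q := by
    unfold V
    exact mul_le_mul h1 h2 h7 (le_trans h7 h1)
  have hV2 : 1 - 14 * e ≤ V P Q := by nlinarith [mul_pos he he]
  obtain ⟨L, hL, hb⟩ := hm (by linarith)
  have b1 := bad_nonneg P Q L
  have b2 := bad_nonneg Q P L
  have s1 : 9995 / 10000 ≤ S P Q := by linarith
  have s2 : 9995 / 10000 ≤ S Q P := by linarith
  have c1 : bad P Q L * (9995 / 10000) ≤ bad P Q L * S Q P := mul_le_mul_of_nonneg_left s2 b1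
  have c2 : bad Q P L * (9995 / 10000) ≤ bad Q P L * S P Q := mul_le_mul_of_nonneg_left s1 b2
  refine ⟨L, hL, ?_, ?_⟩
  · nlinarith
  · nlinarith

theorem gnear_fin {lam e : ℝ} (he : 0 < e) (he1 : e ≤ 1 / 14000) (he2 : e ≤ lam / 30000)
    {N : ℕ} {A B : Finset ℚ} (hA : Pos A) (hB : Pos B) (hO : Ok A B N N)
    (h : ∃ (P Q : Finset ℕ) (L0 : ℕ), DC P ∧ DC Q ∧ 0 < L0 ∧ 1 - 7 * e ≤ S P Q ∧
      1 - 7 * e ≤ S Q P ∧ ∀ L : ℕ, 0 < L →
        (1 - 7 * e - bad P Q L) * (N : ℝ) ≤ (near A ((L0 : ℚ) / (L : ℚ)) N : ℝ) ∧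
        (1 - 7 * e - bad Q P L) * (N : ℝ) ≤ (near B ((L0 : ℚ) / (L : ℚ)) N : ℝ)) :
    ∃ A' B' : Finset ℚ, Pos A' ∧ Pos B' ∧ Ok A' B' N N ∧ A'.card = A.card ∧ B'.card = B.card ∧
      (1 - lam) * (N : ℝ) ≤ (near A' 1 N : ℝ) ∧ (1 - lam) * (N : ℝ) ≤ (near B' 1 N : ℝ) := by
  obtain ⟨P, Q, L0, hP, hQ, hL0, h1, h2, h3⟩ := h
  obtain ⟨L, hL, b1, b2⟩ := gnear_bad hP hQ he he1 h1 h2
  obtain ⟨c1, c2⟩ := h3 L hL
  have hc : (0 : ℚ) < (L0 : ℚ) / (L : ℚ) := by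
    have a1 : (0 : ℚ) < (L0 : ℚ) := by exact_mod_cast hL0
    have a2 : (0 : ℚ) < (L : ℚ) := by exact_mod_cast hL
    positivity
  have hci : (0 : ℚ) < ((L0 : ℚ) / (L : ℚ))⁻¹ := inv_pos.2 hc
  have hN : (0 : ℝ) ≤ (N : ℝ) := by positivity
  refine ⟨sc ((L0 : ℚ) / (L : ℚ))⁻¹ A, sc ((L0 : ℚ) / (L : ℚ))⁻¹ B, Pos_sc hci hA, Pos_sc hci hB,
    Ok_sc hci hO, card_sc hci A, card_sc hci B, ?_, ?_⟩
  · rw [near_sc hc]
    exact le_trans (mul_le_mul_of_nonneg_right (by linarith) hN) c1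
  · rw [near_sc hc]
    exact le_trans (mul_le_mul_of_nonneg_right (by linarith) hN) c2

/-- extremal pairs are close to `[1, N]` after rescaling and possibly inverting -/
theorem near_thm {lam : ℝ} (hl : 0 < lam) : ∃ N0 : ℕ, ∀ N : ℕ, N0 ≤ N → ∀ A B : Finset ℚ,
    Pos A → Pos B → Ok A B N N → N ≤ A.card → N ≤ B.card →
    ∃ A' B' : Finset ℚ, Pos A' ∧ Pos B' ∧ Ok A' B' N N ∧ A'.card = A.card ∧ B'.card = B.card ∧
      (1 - lam) * (N : ℝ) ≤ (near A' 1 N : ℝ) ∧ (1 - lam) * (N : ℝ) ≤ (near B' 1 N : ℝ) := by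
  obtain ⟨C0, hC0, hprod⟩ := prod_bound
  obtain ⟨C', _, htail⟩ := exists_tail C0
  obtain ⟨e, he, he1, he2⟩ : ∃ e : ℝ, 0 < e ∧ e ≤ 1 / 14000 ∧ e ≤ lam / 30000 :=
    ⟨min (1 / 14000) (lam / 30000), lt_min (by norm_num) (by positivity), min_le_left _ _,
      min_le_right _ _⟩
  obtain ⟨T, hT, hbox⟩ := exists_box C' e he (by linarith)
  obtain ⟨N0, hN0⟩ := red0 C' e T he (by linarith) hT
  refine ⟨N0 + 1, fun N hN A B hA hB hO hcA hcB => ?_⟩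
  have neA : A.Nonempty := Finset.card_pos.1 (by omega)
  have neB : B.Nonempty := Finset.card_pos.1 (by omega)
  have hsl : Slice A B C0 := by
    refine slice_of_bound hA hB hO (C0 := C0) (by linarith) hC0
      (fun A' B' R' U' a b c _ => hprod A' B' R' U' a b c) ?_
    have a1 : (N : ℝ) ≤ (A.card : ℝ) := by exact_mod_cast hcA
    have a2 : (N : ℝ) ≤ (B.card : ℝ) := by exact_mod_cast hcB
    have a3 : (0 : ℝ) ≤ (N : ℝ) := by positivity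
    exact mul_le_mul_of_nonneg_left (mul_le_mul a1 a2 a3 (le_trans a3 a1)) (by linarith)
  obtain ⟨c, hc, t1, t2⟩ := htail A B hA hB neA neB hsl
  have pA := Pos_sc hc hA
  have pB := Pos_sc hc hB
  have o1 := Ok_sc hc hO
  have k1 := card_sc hc A
  have k2 := card_sc hc B
  have neA' : (sc c A).Nonempty := Finset.card_pos.1 (by omega)
  have neB' : (sc c B).Nonempty := Finset.card_pos.1 (by omega)
  obtain ⟨J, K, J', K', x1, x2, x3, x4⟩ := hbox (sc c A) (sc c B) N N pA pB neA' neB' t1 t2 o1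
  rcases le_total (K * K') (J * J') with hle | hle
  · obtain ⟨A', B', y1, y2, y3, y4, y5, y6⟩ := gnear_fin he he1 he2 pA pB o1
      (hN0 N (by omega) (sc c A) (sc c B) J K J' K' pA pB o1 (by omega) (by omega) t1 t2 x1 x2
        x3 x4 hle)
    exact ⟨A', B', y1, y2, y3, by omega, by omega, y6⟩
  · have k3 := card_iv (sc c A)
    have k4 := card_iv (sc c B)
    obtain ⟨A', B', y1, y2, y3, y4, y5, y6⟩ := gnear_fin he he1 he2 (Pos_iv pA) (Pos_iv pB)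
      (Ok_iv pA pB o1)
      (hN0 N (by omega) (iv (sc c A)) (iv (sc c B)) K J K' J' (Pos_iv pA) (Pos_iv pB)
        (Ok_iv pA pB o1) (by omega) (by omega) (Tail_iv pA t1) (Tail_iv pB t2) (Box_iv pA x1)
        (Box_iv pB x2) x4 x3 hle)
    exact ⟨A', B', y1, y2, y3, by omega, by omega, y6⟩

end Pool.Agent.Lib.MP_4652a8_nt
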