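import Pool.Agent.Lib.MP_4652a8_nt.GB

set_option autoImplicit false

namespace Pool.Agent.Lib.MP_4652a8_nt
open Finset

theorem gop1_div_pos {m : ℕ} (hm : 0 < m) (L : ℕ) : 0 < m / Nat.gcd m L :=
  Nat.div_pos (Nat.le_of_dvd hm (Nat.gcd_dvd_left m L)) (Nat.gcd_pos_of_pos_left L hm)

theorem gop1_mem_dn {Q : Finset ℕ} {L : ℕ} (hL : 0 < L) (n : ℕ) : n ∈ dn Q L ↔ L * n ∈ Q := by
  unfold dn
  rw [Finset.mem_image]
  constructor
  · rintro ⟨a, ha, rfl⟩
    rw [Finset.mem_filter] at ha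
    rw [Nat.mul_div_cancel' ha.2]
    exact ha.1
  · intro h
    exact ⟨L * n, Finset.mem_filter.2 ⟨h, dvd_mul_right L n⟩, Nat.mul_div_cancel_left n hL⟩

theorem DC_up {P : Finset ℕ} (hP : DC P) (L : ℕ) : DC (up P L) := by
  refine ⟨Finset.mem_image.2 ⟨1, hP.1, by simp⟩, fun m' hm' => ?_, fun m' hm' d hd => ?_⟩
  · obtain ⟨m, hm, rfl⟩ := Finset.mem_image.1 hm'
    exact gop1_div_pos (hP.2.1 m hm) L
  · obtain ⟨m, hm, rfl⟩ := Finset.mem_image.1 hm'
    have h1 : d * Nat.gcd m L ∣ m := by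
      rw [mul_comm]
      exact (Nat.dvd_div_iff_mul_dvd (Nat.gcd_dvd_left m L)).1 hd
    have h2 : Nat.gcd (d * Nat.gcd m L) L = Nat.gcd m L :=
      Nat.dvd_antisymm (Nat.gcd_dvd_gcd_of_dvd_left L h1)
        (Nat.dvd_gcd (dvd_mul_left _ _) (Nat.gcd_dvd_right m L))
    refine Finset.mem_image.2 ⟨_, hP.2.2 m hm _ h1, ?_⟩
    rw [h2, Nat.mul_div_cancel _ (Nat.gcd_pos_of_pos_left L (hP.2.1 m hm))]

theorem DC_dn {Q : Finset ℕ} (hQ : DC Q) {L : ℕ} (hL : L ∈ Q) : DC (dn Q L) := by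
  have h0 := hQ.2.1 L hL
  refine ⟨(gop1_mem_dn h0 1).2 (by rwa [mul_one]), fun n hn => ?_, fun n hn d hd => ?_⟩
  · exact Nat.pos_of_mul_pos_left (hQ.2.1 _ ((gop1_mem_dn h0 n).1 hn))
  · exact (gop1_mem_dn h0 d).2 (hQ.2.2 _ ((gop1_mem_dn h0 n).1 hn) _ (mul_dvd_mul_left L hd))

theorem mem_dn {Q : Finset ℕ} {L : ℕ} (hL : 0 < L) (n : ℕ) : n ∈ dn Q L ↔ L * n ∈ Q := by
  exact gop1_mem_dn hL n

theorem dn_eq_empty {Q : Finset ℕ} (hQ : DC Q) {L : ℕ} (hL : L ∉ Q) : dn Q L = ∅ := by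
  unfold dn
  rw [Finset.filter_eq_empty_iff.2 fun n hn h => hL (hQ.2.2 n hn L h), Finset.image_empty]

theorem card_up_le (P : Finset ℕ) (L : ℕ) : (up P L).card ≤ P.card := by
  exact Finset.card_image_le

theorem card_dn_le (Q : Finset ℕ) (L : ℕ) : (dn Q L).card ≤ Q.card := by
  exact Finset.card_image_le.trans (Finset.card_filter_le _ _)

theorem card_dn_lt {Q : Finset ℕ} (hQ : DC Q) {L : ℕ} (hL : 2 ≤ L) : (dn Q L).card < Q.card := by
  refine Finset.card_image_le.trans_lt (Finset.card_lt_card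
    (Finset.filter_ssubset.2 ⟨1, hQ.1, fun h => ?_⟩))
  have := Nat.le_of_dvd one_pos h
  omega

theorem up_one (P : Finset ℕ) : up P 1 = P := by
  simp [up]

theorem dn_one (Q : Finset ℕ) : dn Q 1 = Q := by
  simp [dn]

theorem lcm_div_gcd_mul {L : ℕ} (hL : 0 < L) (m n : ℕ) :
    Nat.lcm (m / Nat.gcd m L) n * L = Nat.lcm m (L * n) := by
  have _ := hL
  have h1 : m / Nat.gcd m L * L = Nat.lcm m L := by
    rw [Nat.lcm, Nat.div_mul_right_comm (Nat.gcd_dvd_left m L)]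
  rw [← Nat.lcm_mul_right, h1, Nat.lcm_assoc, mul_comm n L,
    Nat.lcm_eq_right (dvd_mul_right L n)]

theorem F_dn_le {Q : Finset ℕ} {L : ℕ} (hL : 0 < L) (m : ℕ) :
    F (dn Q L) (m / Nat.gcd m L) * L ≤ F Q m := by
  rw [← Nat.le_div_iff_mul_le hL]
  refine F_le fun n hn => ?_
  rw [Nat.le_div_iff_mul_le hL, lcm_div_gcd_mul hL]
  exact lcm_le_F ((mem_dn hL n).1 hn) m

theorem F_up_eq (P : Finset ℕ) {L : ℕ} (hL : 0 < L) (n : ℕ) :
    F (up P L) n * L = F P (L * n) := by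
  refine le_antisymm ?_ (F_le fun m hm => ?_)
  · rw [← Nat.le_div_iff_mul_le hL]
    refine F_le fun m' hm' => ?_
    obtain ⟨m, hm, rfl⟩ := Finset.mem_image.1 hm'
    rw [Nat.le_div_iff_mul_le hL, Nat.lcm_comm, lcm_div_gcd_mul hL, Nat.lcm_comm]
    exact lcm_le_F hm _
  · rw [Nat.lcm_comm, ← lcm_div_gcd_mul hL, Nat.lcm_comm]
    have h1 : m / Nat.gcd m L ∈ up P L := Finset.mem_image.2 ⟨m, hm, rfl⟩
    exact Nat.mul_le_mul_right L (lcm_le_F h1 n)

theorem dvd_mul_iff_div_gcd_dvd {L : ℕ} (hL : 0 < L) (m L' : ℕ) :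
    m ∣ L * L' ↔ m / Nat.gcd m L ∣ L' := by
  have hg : 0 < Nat.gcd m L := Nat.gcd_pos_of_pos_right m hL
  have h1 : L * L' = Nat.gcd m L * (L / Nat.gcd m L * L') := by
    rw [← mul_assoc, Nat.mul_div_cancel' (Nat.gcd_dvd_right m L)]
  rw [h1, ← Nat.div_dvd_iff_dvd_mul (Nat.gcd_dvd_left m L) hg]
  exact (Nat.coprime_div_gcd_div_gcd hg).dvd_mul_left

theorem gop1_totient {p m' : ℕ} (hp : p.Prime) (h : p ∣ m') (t : ℕ) :
    Nat.totient (p ^ t * m') = p ^ t * Nat.totient m' := by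
  induction t with
  | zero => simp
  | succ t ih =>
    rw [pow_succ', mul_assoc, Nat.totient_mul_of_prime_of_dvd hp (h.mul_left _), ih, mul_assoc]

theorem gop1_dvd {m L m' : ℕ} (h : m / Nat.gcd m L = m') : m ∣ L * m' := by
  rw [← h]
  conv_lhs => rw [← Nat.mul_div_cancel' (Nat.gcd_dvd_left m L)]
  exact mul_dvd_mul_right (Nat.gcd_dvd_right m L) _

/-- the full fibre -/
theorem gop1_full {p : ℕ} (hp : p.Prime) (t : ℕ) {m' : ℕ} (hm' : 0 < m') :
    ∑ m ∈ (p ^ t * m').divisors.filter (fun m => m / Nat.gcd m (p ^ t) = m'), Nat.totient m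
      = p ^ t * Nat.totient m' := by
  have hq : 0 < p ^ t := pow_pos hp.pos t
  have hne : p ^ t * m' ≠ 0 := (mul_pos hq hm').ne'
  by_cases h : p ∣ m'
  · rw [Finset.sum_eq_single_of_mem (p ^ t * m'), gop1_totient hp h]
    · refine Finset.mem_filter.2 ⟨Nat.mem_divisors_self _ hne, ?_⟩
      rw [Nat.gcd_mul_right_left, Nat.mul_div_cancel_left _ hq]
    · intro m hm hmm
      exfalso
      have h1 := (Finset.mem_filter.1 hm).2
      have hg : 0 < Nat.gcd m (p ^ t) := Nat.gcd_pos_of_pos_right m hq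
      have h2 := Nat.coprime_div_gcd_div_gcd hg
      rw [h1] at h2
      obtain ⟨i, -, hi⟩ := (Nat.dvd_prime_pow hp).1
        (Nat.div_dvd_of_dvd (Nat.gcd_dvd_right m (p ^ t)))
      rcases i with _ | i
      · have h3 := Nat.mul_div_cancel' (Nat.gcd_dvd_right m (p ^ t))
        rw [hi, pow_zero, mul_one] at h3
        have h4 := Nat.mul_div_cancel' (Nat.gcd_dvd_left m (p ^ t))
        rw [h1, h3] at h4
        exact hmm h4.symm
      · rw [hi] at h2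
        exact hp.one_lt.ne' (Nat.eq_one_of_dvd_coprimes h2 h (dvd_pow_self p i.succ_ne_zero))
  · have hc : Nat.Coprime (p ^ t) m' := ((Nat.Prime.coprime_iff_not_dvd hp).2 h).pow_left t
    have h1 : (p ^ t * m').divisors.filter (fun m => m / Nat.gcd m (p ^ t) = m') =
        (p ^ t).divisors.image (fun g => g * m') := by
      ext m
      rw [Finset.mem_filter, Finset.mem_image]
      constructor
      · rintro ⟨-, h2⟩
        refine ⟨Nat.gcd m (p ^ t), Nat.mem_divisors.2 ⟨Nat.gcd_dvd_right _ _, hq.ne'⟩, ?_⟩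
        rw [← h2, Nat.mul_div_cancel' (Nat.gcd_dvd_left m (p ^ t))]
      · rintro ⟨g, hg, rfl⟩
        have h2 := Nat.dvd_of_mem_divisors hg
        refine ⟨Nat.mem_divisors.2 ⟨mul_dvd_mul_right h2 m', hne⟩, ?_⟩
        rw [hc.symm.gcd_mul_right_cancel g, Nat.gcd_eq_left h2,
          Nat.mul_div_cancel_left _ (Nat.pos_of_mem_divisors hg)]
    rw [h1, Finset.sum_image fun a _ b _ e => Nat.eq_of_mul_eq_mul_right hm' e,
      Finset.sum_congr rfl fun g hg =>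
        Nat.totient_mul (hc.coprime_dvd_left (Nat.dvd_of_mem_divisors hg)),
      ← Finset.sum_mul, Nat.sum_totient]

/-- the fibre of `m ↦ m / gcd m (p ^ t)` has total totient at most `p ^ t * φ m'` -/
theorem fiber_le {P : Finset ℕ} (hP : DC P) {p : ℕ} (hp : p.Prime) (t m' : ℕ) :
    ∑ m ∈ P.filter (fun m => m / Nat.gcd m (p ^ t) = m'), Nat.totient m
      ≤ p ^ t * Nat.totient m' := by
  rcases Nat.eq_zero_or_pos m' with rfl | hm'
  · rw [Finset.filter_eq_empty_iff.2 fun m hm => (gop1_div_pos (hP.2.1 m hm) _).ne',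
      Finset.sum_empty]
    exact Nat.zero_le _
  · rw [← gop1_full hp t hm']
    refine Finset.sum_le_sum_of_subset fun m hm => ?_
    have h1 := (Finset.mem_filter.1 hm).2
    exact Finset.mem_filter.2 ⟨Nat.mem_divisors.2
      ⟨gop1_dvd h1, (mul_pos (pow_pos hp.pos t) hm').ne'⟩, h1⟩

theorem fiber_eq {P : Finset ℕ} (hP : DC P) {p : ℕ} (hp : p.Prime) (t m' : ℕ)
    (h : p ^ t * m' ∈ P) :
    ∑ m ∈ P.filter (fun m => m / Nat.gcd m (p ^ t) = m'), Nat.totient m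
      = p ^ t * Nat.totient m' := by
  refine le_antisymm (fiber_le hP hp t m') ?_
  rw [← gop1_full hp t (Nat.pos_of_mul_pos_left (hP.2.1 _ h))]
  refine Finset.sum_le_sum_of_subset fun m hm => ?_
  rw [Finset.mem_filter] at hm ⊢
  exact ⟨hP.2.2 _ h m (Nat.dvd_of_mem_divisors hm.1), hm.2⟩

end Pool.Agent.Lib.MP_4652a8_nt
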