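import Pool.Agent.Lib.MP_4652a8_nt.GOp1

set_option autoImplicit false

namespace Pool.Agent.Lib.MP_4652a8_nt
open Finset

theorem gop2_inj {A B : Finset ℕ} {g : ℕ → ℕ} {w w' : ℕ → ℝ} (hg : Set.InjOn g A)
    (hB : ∀ m ∈ A, g m ∈ B) (h0 : ∀ m, 0 ≤ w' m) (hw : ∀ m ∈ A, w m ≤ w' (g m)) :
    ∑ m ∈ A, w m ≤ ∑ m ∈ B, w' m := by
  refine (Finset.sum_le_sum hw).trans ?_
  rw [← Finset.sum_image (f := w') hg]
  exact Finset.sum_le_sum_of_subset_of_nonneg (Finset.image_subset_iff.2 hB) fun m _ _ => h0 m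

theorem gop2_group {P : Finset ℕ} (hP : DC P) {p : ℕ} (hp : p.Prime) (t : ℕ) {ψ ψ' : ℕ → ℝ}
    (h0 : ∀ m, 0 ≤ ψ' m) (h : ∀ m ∈ P, (p : ℝ) ^ t * ψ m ≤ ψ' (m / Nat.gcd m (p ^ t))) :
    ∑ m ∈ P, (Nat.totient m : ℝ) * ψ m ≤ ∑ m ∈ up P (p ^ t), (Nat.totient m : ℝ) * ψ' m := by
  have hpt : (0 : ℝ) < (p : ℝ) ^ t := pow_pos (by exact_mod_cast hp.pos) t
  rw [← Finset.sum_fiberwise_of_maps_to (t := up P (p ^ t)) (g := fun m => m / Nat.gcd m (p ^ t))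
    fun m hm => Finset.mem_image_of_mem _ hm]
  refine Finset.sum_le_sum fun m' _ => ?_
  have h1 : ∑ m ∈ P.filter (fun m => m / Nat.gcd m (p ^ t) = m'), (Nat.totient m : ℝ) ≤
      (p : ℝ) ^ t * (Nat.totient m' : ℝ) := by exact_mod_cast fiber_le hP hp t m'
  refine le_of_mul_le_mul_left ?_ hpt
  rw [Finset.mul_sum, ← mul_assoc]
  refine le_trans (Finset.sum_le_sum fun m hm => ?_) (le_trans (Finset.sum_mul _ _ _).ge
    (mul_le_mul_of_nonneg_right h1 (h0 m')))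
  obtain ⟨hm1, hm2⟩ := Finset.mem_filter.1 hm
  rw [mul_left_comm, ← hm2]
  exact mul_le_mul_of_nonneg_left (h m hm1) (Nat.cast_nonneg _)

theorem gop2_F {Q : Finset ℕ} (hQ : DC Q) {p t m : ℕ} (hp : p.Prime) (ht : p ^ t ∈ Q)
    (hm : 0 < m) :
    (p : ℝ) ^ t * (1 / (F Q m : ℝ)) ≤ 1 / (F (dn Q (p ^ t)) (m / Nat.gcd m (p ^ t)) : ℝ) := by
  have h1 : (0 : ℝ) < (F (dn Q (p ^ t)) (m / Nat.gcd m (p ^ t)) : ℝ) := by
    exact_mod_cast F_pos (DC_dn hQ ht) (Nat.div_pos (Nat.le_of_dvd hm (Nat.gcd_dvd_left _ _))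
      (Nat.gcd_pos_of_pos_left _ hm))
  have h2 : (0 : ℝ) < (F Q m : ℝ) := by exact_mod_cast F_pos hQ hm
  have h3 : (F (dn Q (p ^ t)) (m / Nat.gcd m (p ^ t)) : ℝ) * (p : ℝ) ^ t ≤ (F Q m : ℝ) := by
    exact_mod_cast F_dn_le (Q := Q) (pow_pos hp.pos t) m
  rw [mul_one_div, div_le_div_iff₀ h2 h1]
  linarith

theorem gop2_tot {p k : ℕ} (hp : p.Prime) (hk : p ∣ k) (t : ℕ) :
    Nat.totient (p ^ t * k) = p ^ t * Nat.totient k := by
  induction t with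
  | zero => simp
  | succ t ih =>
    rw [pow_succ', mul_assoc, Nat.totient_mul_of_prime_of_dvd hp (hk.mul_left _), ih, mul_assoc]

theorem S_up_low {P Q : Finset ℕ} (hP : DC P) (hQ : DC Q) {p t j : ℕ} (hp : p.Prime)
    (ht : p ^ t ∈ Q) (hj : 1 ≤ j) :
    Rm P Q p t - ms P Q (p ^ (t + j)) ≤
      S (up P (p ^ t)) (dn Q (p ^ t)) - ms (up P (p ^ t)) (dn Q (p ^ t)) (p ^ j) := by
  have hpt : 0 < p ^ t := pow_pos hp.pos t
  have h1 : ms P Q (p ^ (t + 1)) - ms P Q (p ^ (t + j)) =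
      ∑ m ∈ (P.filter fun m => p ^ (t + 1) ∣ m).filter (fun m => ¬ p ^ (t + j) ∣ m), wt Q m := by
    have h2 := S_sub_ms (P.filter fun m => p ^ (t + 1) ∣ m) Q (p ^ (t + j))
    rw [← h2, S, ms, ms, ms, Finset.filter_filter]
    congr 2
    refine Finset.filter_congr fun m _ => ⟨fun h => ⟨?_, h⟩, fun h => h.2⟩
    exact (pow_dvd_pow p (by omega)).trans h
  rw [Rm, add_sub_assoc, h1, S_sub_ms, S_sub_ms, Finset.mul_sum,
    ← Finset.sum_filter_not_add_sum_filter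
      ((up P (p ^ t)).filter fun m => ¬ p ^ j ∣ m) (fun m => p ∣ m)]
  refine add_le_add (gop2_inj (g := id) (Set.injOn_id _) ?_ (wt_nonneg _) ?_)
    (gop2_inj (g := fun m => m / p ^ t) ?_ ?_ (wt_nonneg _) ?_)
  · intro m hm
    obtain ⟨hm1, hm2⟩ := Finset.mem_filter.1 hm
    have hg : Nat.gcd m (p ^ t) = 1 := ((hp.coprime_iff_not_dvd.2 hm2).symm.pow_right t)
    refine Finset.mem_filter.2 ⟨Finset.mem_filter.2 ⟨Finset.mem_image.2 ⟨m, hm1, ?_⟩,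
      fun h => hm2 ((dvd_pow_self p (by omega)).trans h)⟩, hm2⟩
    rw [hg, Nat.div_one, id]
  · intro m hm
    obtain ⟨hm1, hm2⟩ := Finset.mem_filter.1 hm
    have hg : Nat.gcd m (p ^ t) = 1 := ((hp.coprime_iff_not_dvd.2 hm2).symm.pow_right t)
    have h2 := gop2_F hQ hp ht (hP.2.1 m hm1)
    rw [hg, Nat.div_one] at h2
    rw [wt, wt, id, div_eq_mul_one_div, div_eq_mul_one_div (Nat.totient m : ℝ) (F (dn _ _) _ : ℝ),
      mul_left_comm]
    exact mul_le_mul_of_nonneg_left h2 (Nat.cast_nonneg _)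
  · intro m hm n hn h
    have hm' := (pow_dvd_pow p (Nat.le_succ t)).trans
      (Finset.mem_filter.1 (Finset.mem_filter.1 (Finset.mem_coe.1 hm)).1).2
    have hn' := (pow_dvd_pow p (Nat.le_succ t)).trans
      (Finset.mem_filter.1 (Finset.mem_filter.1 (Finset.mem_coe.1 hn)).1).2
    exact (Nat.div_left_inj hm' hn').1 h
  · intro m hm
    obtain ⟨hm0, hm3⟩ := Finset.mem_filter.1 hm
    obtain ⟨hm1, k, rfl⟩ := Finset.mem_filter.1 hm0
    have he : p ^ (t + 1) * k = p ^ t * (p * k) := by ring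
    rw [he] at hm1 hm3 ⊢
    refine Finset.mem_filter.2 ⟨Finset.mem_filter.2 ⟨Finset.mem_image.2 ⟨_, hm1, ?_⟩, ?_⟩, ?_⟩
    · rw [Nat.gcd_eq_right (dvd_mul_right _ _)]
    · rw [Nat.mul_div_cancel_left _ hpt]
      exact fun h => hm3 (by rw [pow_add]; exact Nat.mul_dvd_mul_left _ h)
    · rw [Nat.mul_div_cancel_left _ hpt]
      exact dvd_mul_right _ _
  · intro m hm
    obtain ⟨hm0, -⟩ := Finset.mem_filter.1 hm
    obtain ⟨hm1, k, rfl⟩ := Finset.mem_filter.1 hm0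
    have he : p ^ (t + 1) * k = p ^ t * (p * k) := by ring
    rw [he] at hm1 ⊢
    have h2 := gop2_F hQ hp ht (hP.2.1 _ hm1)
    rw [Nat.gcd_eq_right (dvd_mul_right _ _), Nat.mul_div_cancel_left _ hpt] at h2
    simp only [Nat.mul_div_cancel_left _ hpt]
    rw [wt, wt, gop2_tot hp (dvd_mul_right p k), div_eq_mul_one_div,
      div_eq_mul_one_div (Nat.totient (p * k) : ℝ) (F (dn _ _) _ : ℝ), Nat.cast_mul, Nat.cast_pow,
      mul_comm ((p : ℝ) ^ t), mul_assoc]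
    exact mul_le_mul_of_nonneg_left h2 (Nat.cast_nonneg _)

theorem S_up {P Q : Finset ℕ} (hP : DC P) (hQ : DC Q) {p t : ℕ} (hp : p.Prime)
    (ht : p ^ t ∈ Q) : Rm P Q p t ≤ S (up P (p ^ t)) (dn Q (p ^ t)) := by
  have h1 := S_up_low hP hQ hp ht (j := P.sup id + 1) (by omega)
  have h2 : p ^ (t + (P.sup id + 1)) ∉ P := fun h => by
    have h3 := Finset.le_sup (f := id) h
    have h4 := Nat.lt_pow_self (n := t + (P.sup id + 1)) hp.one_lt
    simp only [id] at h3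
    omega
  rw [ms_eq_zero_of_notMem hP Q h2] at h1
  linarith [ms_nonneg (up P (p ^ t)) (dn Q (p ^ t)) (p ^ (P.sup id + 1))]

theorem S_up_odd {P Q : Finset ℕ} (hP : DC P) (hQ : DC Q) {p t q : ℕ} (hp : p.Prime)
    (ht : p ^ t ∈ Q) (hq : Nat.Coprime q p) :
    S P Q - ms P Q q ≤
      S (up P (p ^ t)) (dn Q (p ^ t)) - ms (up P (p ^ t)) (dn Q (p ^ t)) q := by
  have key : ∀ P Q : Finset ℕ, S P Q - ms P Q q =
      ∑ m ∈ P, (Nat.totient m : ℝ) * if q ∣ m then 0 else 1 / (F Q m : ℝ) := by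
    intro P Q
    rw [S_sub_ms, Finset.sum_filter]
    refine Finset.sum_congr rfl fun m _ => ?_
    by_cases h : q ∣ m <;> simp [h, wt, div_eq_mul_inv]
  rw [key, key]
  refine gop2_group hP hp t (fun m => by positivity) fun m hm => ?_
  have h1 : q ∣ m ↔ q ∣ m / Nat.gcd m (p ^ t) := by
    refine ⟨fun h => ?_, fun h => h.trans (Nat.div_dvd_of_dvd (Nat.gcd_dvd_left _ _))⟩
    refine ((hq.pow_right t).coprime_dvd_right (Nat.gcd_dvd_right m _)).dvd_of_dvd_mul_left ?_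
    rwa [Nat.mul_div_cancel' (Nat.gcd_dvd_left _ _)]
  by_cases h : q ∣ m
  · rw [if_pos h, if_pos (h1.1 h), mul_zero]
  · rw [if_neg h, if_neg fun h' => h (h1.2 h')]
    exact gop2_F hQ hp ht (hP.2.1 m hm)

theorem bad_up {P Q : Finset ℕ} (hP : DC P) (hQ : DC Q) {p t L' : ℕ} (hp : p.Prime)
    (ht : p ^ t ∈ Q) (hL : 0 < L') :
    bad P Q (p ^ t * L') ≤ bad (up P (p ^ t)) (dn Q (p ^ t)) L' := by
  have hpt : (0 : ℝ) < (p : ℝ) ^ t := pow_pos (by exact_mod_cast hp.pos) t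
  refine gop2_group hP hp t (fun m => by positivity) fun m hm => ?_
  have h1 := dvd_mul_iff_div_gcd_dvd (pow_pos hp.pos t) m L'
  have h2 := gop2_F hQ hp ht (hP.2.1 m hm)
  by_cases h : m ∣ p ^ t * L'
  · rw [if_pos h, if_pos (h1.1 h), mul_max_of_nonneg _ _ hpt.le, mul_zero, mul_sub]
    refine max_le_max (sub_le_sub h2 (le_of_eq ?_)) le_rfl
    push_cast
    field_simp
  · rw [if_neg h, if_neg fun h' => h (h1.2 h')]
    exact h2

end Pool.Agent.Lib.MP_4652a8_nt
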