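import Pool.Agent.Lib.MP_4652a8_nt.GTail
import Pool.Agent.Lib.MP_4652a8_nt.GBox

set_option autoImplicit false

namespace Pool.Agent.Lib.MP_4652a8_nt
open Finset

theorem gprod_div {x : ℚ} (hx : 0 < x) {p : ℕ} (hp : p.Prime) {k : ℕ}
    (hk : (k : ℤ) ≤ padicValRat p x) :
    nm (x / (p : ℚ) ^ k) * p ^ k = nm x ∧ (x / (p : ℚ) ^ k).den = x.den := by
  haveI := Fact.mk hp
  have hn : nm x ≠ 0 := (nm_pos hx).ne'
  have hle : k ≤ padicValNat p (nm x) := by
    have h1 : padicValRat p x = (padicValNat p (nm x) : ℤ) - (padicValNat p x.den : ℤ) := rfl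
    have h2 : (0 : ℤ) ≤ (padicValNat p x.den : ℤ) := Int.natCast_nonneg _
    have h3 : (k : ℤ) ≤ (padicValNat p (nm x) : ℤ) := by linarith
    exact_mod_cast h3
  obtain ⟨r, hr⟩ := (padicValNat_dvd_iff_le hn).2 hle
  have hp0 : (p : ℚ) ≠ 0 := Nat.cast_ne_zero.2 hp.ne_zero
  have hd0 : (x.den : ℚ) ≠ 0 := Nat.cast_ne_zero.2 x.den_nz
  have hx' : x / (p : ℚ) ^ k = (r : ℚ) / (x.den : ℚ) := by
    conv_lhs => rw [← nm_div_den hx]
    rw [hr]
    push_cast
    field_simp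
  have hcop : Nat.gcd r x.den = 1 := by
    have h1 := nm_coprime_den x
    rw [hr] at h1
    exact Nat.Coprime.coprime_mul_left h1
  rw [hx', nm_natDiv x.den_pos, den_natDiv x.den_pos, hcop, Nat.div_one, Nat.div_one, hr]
  exact ⟨mul_comm _ _, rfl⟩

theorem gprod_side {A B : Finset ℚ} (hA : Pos A) (hB : Pos B) {R U : ℕ} (h : Ok A B R U)
    {C0 : ℝ} (hC0 : 0 ≤ C0)
    (hb : ∀ (A' B' : Finset ℚ) (R' : ℕ), Pos A' → Pos B' → Ok A' B' R' U → R' < R →
      (A'.card : ℝ) * (B'.card : ℝ) ≤ C0 * ((R' : ℝ) * (U : ℝ)))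
    {p : ℕ} (hp : p.Prime) {i j : ℤ} (hij : j < i) :
    ((A.filter (fun a => padicValRat p a = i)).card : ℝ) *
      ((B.filter (fun b => padicValRat p b = j)).card : ℝ) * (p : ℝ) ^ (i - j).natAbs
      ≤ C0 * ((R : ℝ) * (U : ℝ)) := by
  haveI := Fact.mk hp
  set k := (i - j).natAbs with hk
  have hki : (k : ℤ) = i - j := by omega
  have hk1 : 1 ≤ k := by omega
  set Ai := A.filter (fun a => padicValRat p a = i) with hAi
  set Bj := B.filter (fun b => padicValRat p b = j) with hBj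
  have hRU : 0 ≤ C0 * ((R : ℝ) * (U : ℝ)) := by positivity
  rcases Ai.eq_empty_or_nonempty with h0 | ⟨a0, ha0⟩
  · rw [h0]; simpa using hRU
  rcases Bj.eq_empty_or_nonempty with h0 | ⟨b0, hb0⟩
  · rw [h0]; simpa using hRU
  have hPA : Pos Ai := fun a ha => hA a (mem_filter.1 ha).1
  have hPB : Pos Bj := fun b hb => hB b (mem_filter.1 hb).1
  have hR : 0 < R := by
    have h1 := (h a0 (mem_filter.1 ha0).1 b0 (mem_filter.1 hb0).1).1
    have h2 := nm_pos (div_pos (hPA a0 ha0) (hPB b0 hb0))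
    omega
  have hpk : 1 < p ^ k := Nat.one_lt_pow (by omega) hp.one_lt
  have hpq : (0 : ℚ) < ((p : ℚ) ^ k)⁻¹ := by
    have : (0 : ℚ) < p := by exact_mod_cast hp.pos
    positivity
  have hOk : Ok (sc ((p : ℚ) ^ k)⁻¹ Ai) Bj (R / p ^ k) U := by
    intro a' ha' b hb'
    obtain ⟨a, ha, rfl⟩ := mem_image.1 ha'
    have hapos := hPA a ha
    have hbpos := hPB b hb'
    have hval : (k : ℤ) ≤ padicValRat p (a / b) := by
      rw [padicValRat.div hapos.ne' hbpos.ne', (mem_filter.1 ha).2, (mem_filter.1 hb').2, hki]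
    obtain ⟨e1, e2⟩ := gprod_div (div_pos hapos hbpos) hp hval
    have e0 : ((p : ℚ) ^ k)⁻¹ * a / b = a / b / (p : ℚ) ^ k := by ring
    obtain ⟨f1, f2⟩ := h a (mem_filter.1 ha).1 b (mem_filter.1 hb').1
    rw [e0]
    refine ⟨?_, by rw [e2]; exact f2⟩
    rw [Nat.le_div_iff_mul_le (by omega), e1]
    exact f1
  have h1 := hb _ _ _ (Pos_sc hpq hPA) hPB hOk (Nat.div_lt_self hR hpk)
  rw [card_sc hpq] at h1
  have h2 : ((R / p ^ k : ℕ) : ℝ) * (p : ℝ) ^ k ≤ R := by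
    exact_mod_cast Nat.div_mul_le_self R (p ^ k)
  have h3 : (0 : ℝ) ≤ (p : ℝ) ^ k := by positivity
  calc (Ai.card : ℝ) * (Bj.card : ℝ) * (p : ℝ) ^ k
      ≤ C0 * (((R / p ^ k : ℕ) : ℝ) * (U : ℝ)) * (p : ℝ) ^ k := by gcongr
    _ = C0 * ((((R / p ^ k : ℕ) : ℝ) * (p : ℝ) ^ k) * (U : ℝ)) := by ring
    _ ≤ C0 * ((R : ℝ) * (U : ℝ)) := by gcongr

/-- slices inherit a product bound that is known for smaller parameters -/
theorem slice_of_bound {A B : Finset ℚ} (hA : Pos A) (hB : Pos B) {R U : ℕ} (h : Ok A B R U)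
    {C0 C : ℝ} (hC0 : 0 ≤ C0) (hC : 1 ≤ C)
    (hb : ∀ (A' B' : Finset ℚ) (R' U' : ℕ), Pos A' → Pos B' → Ok A' B' R' U' → R' + U' < R + U →
      (A'.card : ℝ) * (B'.card : ℝ) ≤ C0 * ((R' : ℝ) * (U' : ℝ)))
    (hc : C0 * ((R : ℝ) * (U : ℝ)) ≤ C * ((A.card : ℝ) * (B.card : ℝ))) : Slice A B C := by
  intro p hp i j
  rcases lt_trichotomy j i with hij | hij | hij
  · refine (gprod_side hA hB h hC0 ?_ hp hij).trans hc
    intro A' B' R' hA' hB' hO hR
    exact hb A' B' R' U hA' hB' hO (by omega)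
  · subst hij
    have h1 : ((A.filter (fun a => padicValRat p a = j)).card : ℝ) ≤ A.card := by
      exact_mod_cast card_filter_le _ _
    have h2 : ((B.filter (fun b => padicValRat p b = j)).card : ℝ) ≤ B.card := by
      exact_mod_cast card_filter_le _ _
    have h3 : (0 : ℝ) ≤ (A.card : ℝ) * (B.card : ℝ) := by positivity
    simp only [sub_self, Int.natAbs_zero, pow_zero, mul_one]
    calc _ ≤ (A.card : ℝ) * (B.card : ℝ) := by gcongr
      _ ≤ C * ((A.card : ℝ) * (B.card : ℝ)) := le_mul_of_one_le_left h3 hC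
  · have h1 := gprod_side hB hA (Ok_symm hA hB h) hC0 (fun B' A' U' hB' hA' hO hU => by
      have h2 := hb A' B' R U' hA' hB' (Ok_symm hB' hA' hO) (by omega)
      calc (B'.card : ℝ) * (A'.card : ℝ) = (A'.card : ℝ) * (B'.card : ℝ) := mul_comm _ _
        _ ≤ C0 * ((R : ℝ) * (U' : ℝ)) := h2
        _ = C0 * ((U' : ℝ) * (R : ℝ)) := by ring) hp hij
    have e : (i - j).natAbs = (j - i).natAbs := by omega
    rw [e]
    calc _ = ((B.filter (fun b => padicValRat p b = j)).card : ℝ) *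
          ((A.filter (fun a => padicValRat p a = i)).card : ℝ) * (p : ℝ) ^ (j - i).natAbs := by
            ring
      _ ≤ C0 * ((U : ℝ) * (R : ℝ)) := h1
      _ = C0 * ((R : ℝ) * (U : ℝ)) := by ring
      _ ≤ _ := hc

/-- the product bound -/
theorem prod_bound : ∃ C0 : ℝ, 1 ≤ C0 ∧ ∀ (A B : Finset ℚ) (R U : ℕ), Pos A → Pos B →
    Ok A B R U → (A.card : ℝ) * (B.card : ℝ) ≤ C0 * ((R : ℝ) * (U : ℝ)) := by
  obtain ⟨C', -, hT⟩ := exists_tail 1
  obtain ⟨T, hT1, hB⟩ := exists_box C' (1 / 4) (by norm_num) (by norm_num)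
  have hT1' : (1 : ℝ) ≤ T := by exact_mod_cast hT1
  have hC0 : (1 : ℝ) ≤ 4 * (T : ℝ) ^ 2 := by nlinarith
  refine ⟨4 * (T : ℝ) ^ 2, hC0, ?_⟩
  have key : ∀ n : ℕ, ∀ (A B : Finset ℚ) (R U : ℕ), R + U = n → Pos A → Pos B →
      Ok A B R U → (A.card : ℝ) * (B.card : ℝ) ≤ 4 * (T : ℝ) ^ 2 * ((R : ℝ) * (U : ℝ)) := by
    intro n
    induction n using Nat.strong_induction_on with
    | _ n ih =>
      intro A B R U hn hA hBp hO
      by_contra hcon
      push Not at hcon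
      have hnn : (0 : ℝ) ≤ 4 * (T : ℝ) ^ 2 * ((R : ℝ) * (U : ℝ)) := by positivity
      have hAn : A.Nonempty := by
        rw [nonempty_iff_ne_empty]
        rintro rfl
        simp only [card_empty, Nat.cast_zero, zero_mul] at hcon
        linarith
      have hBn : B.Nonempty := by
        rw [nonempty_iff_ne_empty]
        rintro rfl
        simp only [card_empty, Nat.cast_zero, mul_zero] at hcon
        linarith
      have hS : Slice A B 1 := slice_of_bound hA hBp hO (by linarith) le_rfl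
        (fun A' B' R' U' hA' hB' hO' hlt => ih (R' + U') (by omega) A' B' R' U' rfl hA' hB' hO')
        (by linarith)
      obtain ⟨c, hc, t1, t2⟩ := hT A B hA hBp hAn hBn hS
      obtain ⟨J, K, J', K', b1, b2, i1, i2⟩ := hB (sc c A) (sc c B) R U (Pos_sc hc hA)
        (Pos_sc hc hBp) (hAn.image _) (hBn.image _) t1 t2 (Ok_sc hc hO)
      have c1 := card_le_of_Box (Pos_sc hc hA) le_rfl b1
      have c2 := card_le_of_Box (Pos_sc hc hBp) le_rfl b2
      rw [card_sc hc] at c1 c2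
      have c3 : A.card * B.card ≤ 4 * T ^ 2 * (R * U) :=
        calc A.card * B.card ≤ (2 * (J * K)) * (2 * (J' * K')) := Nat.mul_le_mul c1 c2
          _ = 4 * ((J * K') * (K * J')) := by ring
          _ ≤ 4 * ((R * T) * (U * T)) := Nat.mul_le_mul_left _ (Nat.mul_le_mul i1 i2)
          _ = 4 * T ^ 2 * (R * U) := by ring
      have c4 : (A.card : ℝ) * (B.card : ℝ) ≤ 4 * (T : ℝ) ^ 2 * ((R : ℝ) * (U : ℝ)) := by
        exact_mod_cast c3
      linarith
  exact fun A B R U => key (R + U) A B R U rfl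

end Pool.Agent.Lib.MP_4652a8_nt
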