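import Pool.Agent.Lib.MP_4652a8_nt.GDefs

set_option autoImplicit false

namespace Pool.Agent.Lib.MP_4652a8_nt
open Finset

theorem nm_pos {a : ℚ} (ha : 0 < a) : 0 < nm a := by
  exact Int.natAbs_pos.2 (Rat.num_pos.2 ha).ne'

theorem nm_coprime_den (a : ℚ) : Nat.Coprime (nm a) a.den := by
  exact a.reduced

theorem nm_div_den {a : ℚ} (ha : 0 < a) : (nm a : ℚ) / (a.den : ℚ) = a := by
  have h : ((nm a : ℕ) : ℤ) = a.num := Int.natAbs_of_nonneg (Rat.num_pos.2 ha).le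
  have h2 : (nm a : ℚ) = (a.num : ℚ) := by rw [← h]; simp
  rw [h2]
  exact Rat.num_div_den a

theorem eq_of_nm_den {a b : ℚ} (ha : 0 < a) (hb : 0 < b) (h1 : nm a = nm b)
    (h2 : a.den = b.den) : a = b := by
  rw [← nm_div_den ha, ← nm_div_den hb, h1, h2]

theorem gq0_red (r : ℕ) {s : ℕ} (hs : 0 < s) :
    0 < s / Nat.gcd r s ∧ Nat.Coprime (r / Nat.gcd r s) (s / Nat.gcd r s) ∧
      (r : ℚ) / (s : ℚ) = ((r / Nat.gcd r s : ℕ) : ℚ) / ((s / Nat.gcd r s : ℕ) : ℚ) := by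
  have hg : 0 < Nat.gcd r s := Nat.gcd_pos_of_pos_right r hs
  refine ⟨Nat.div_pos (Nat.le_of_dvd hs (Nat.gcd_dvd_right r s)) hg,
    Nat.coprime_div_gcd_div_gcd hg, ?_⟩
  have hg' : ((Nat.gcd r s : ℕ) : ℚ) ≠ 0 := by exact_mod_cast hg.ne'
  rw [Nat.cast_div (Nat.gcd_dvd_left r s) hg', Nat.cast_div (Nat.gcd_dvd_right r s) hg',
    div_div_div_cancel_right₀ hg']

theorem nm_natDiv {r s : ℕ} (hs : 0 < s) : nm ((r : ℚ) / (s : ℚ)) = r / Nat.gcd r s := by
  obtain ⟨h1, h2, h3⟩ := gq0_red r hs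
  have h := Rat.num_div_eq_of_coprime (a := ((r / Nat.gcd r s : ℕ) : ℤ))
    (b := ((s / Nat.gcd r s : ℕ) : ℤ)) (by exact_mod_cast h1) (by simpa only [Int.natAbs_natCast] using h2)
  rw [Int.cast_natCast, Int.cast_natCast] at h
  unfold nm
  rw [h3, h, Int.natAbs_natCast]

theorem den_natDiv {r s : ℕ} (hs : 0 < s) : ((r : ℚ) / (s : ℚ)).den = s / Nat.gcd r s := by
  obtain ⟨h1, h2, h3⟩ := gq0_red r hs
  have h := Rat.den_div_eq_of_coprime (a := ((r / Nat.gcd r s : ℕ) : ℤ))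
    (b := ((s / Nat.gcd r s : ℕ) : ℤ)) (by exact_mod_cast h1) (by simpa only [Int.natAbs_natCast] using h2)
  rw [Int.cast_natCast, Int.cast_natCast] at h
  rw [h3]
  exact_mod_cast h

theorem nm_inv {a : ℚ} (ha : 0 < a) : nm a⁻¹ = a.den := by
  have h : a⁻¹ = (a.den : ℚ) / (nm a : ℚ) := by rw [← inv_div, nm_div_den ha]
  rw [h, nm_natDiv (nm_pos ha), (nm_coprime_den a).symm.gcd_eq_one, Nat.div_one]

theorem den_inv {a : ℚ} (ha : 0 < a) : (a⁻¹).den = nm a := by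
  have h : a⁻¹ = (a.den : ℚ) / (nm a : ℚ) := by rw [← inv_div, nm_div_den ha]
  rw [h, den_natDiv (nm_pos ha), (nm_coprime_den a).symm.gcd_eq_one, Nat.div_one]

theorem gq0_div {a b : ℚ} (ha : 0 < a) (hb : 0 < b) :
    a / b = ((nm a * b.den : ℕ) : ℚ) / ((a.den * nm b : ℕ) : ℚ) := by
  rw [Nat.cast_mul, Nat.cast_mul, ← div_div_div_eq, nm_div_den ha, nm_div_den hb]

theorem gq0_gcd {j k j' k' : ℕ} (h : Nat.Coprime j k) (h' : Nat.Coprime j' k') :
    Nat.gcd (j * k') (k * j') = Nat.gcd j j' * Nat.gcd k k' := by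
  refine Nat.dvd_antisymm ?_ (Nat.dvd_gcd
    (Nat.mul_dvd_mul (Nat.gcd_dvd_left _ _) (Nat.gcd_dvd_right _ _)) ?_)
  · rw [Nat.gcd_comm]
    refine (Nat.gcd_mul_right_dvd_mul_gcd (k * j') j k').trans (Nat.mul_dvd_mul ?_ ?_)
    · rw [Nat.Coprime.gcd_mul_left_cancel j' h.symm, Nat.gcd_comm]
    · rw [Nat.Coprime.gcd_mul_right_cancel k h']
  · rw [mul_comm k]
    exact Nat.mul_dvd_mul (Nat.gcd_dvd_right _ _) (Nat.gcd_dvd_left _ _)

theorem cross_nm {a b : ℚ} (ha : 0 < a) (hb : 0 < b) :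
    nm a * b.den = nm (a / b) * (Nat.gcd (nm a) (nm b) * Nat.gcd a.den b.den) := by
  rw [gq0_div ha hb, nm_natDiv (Nat.mul_pos a.den_pos (nm_pos hb)),
    ← gq0_gcd (nm_coprime_den a) (nm_coprime_den b), Nat.div_mul_cancel (Nat.gcd_dvd_left _ _)]

theorem cross_den {a b : ℚ} (ha : 0 < a) (hb : 0 < b) :
    a.den * nm b = (a / b).den * (Nat.gcd (nm a) (nm b) * Nat.gcd a.den b.den) := by
  rw [gq0_div ha hb, den_natDiv (Nat.mul_pos a.den_pos (nm_pos hb)),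
    ← gq0_gcd (nm_coprime_den a) (nm_coprime_den b), Nat.div_mul_cancel (Nat.gcd_dvd_right _ _)]

theorem card_sc {c : ℚ} (hc : 0 < c) (A : Finset ℚ) : (sc c A).card = A.card := by
  exact Finset.card_image_of_injective _ (mul_right_injective₀ hc.ne')

theorem card_iv (A : Finset ℚ) : (iv A).card = A.card := by
  exact Finset.card_image_of_injective _ inv_injective

theorem Pos_sc {c : ℚ} (hc : 0 < c) {A : Finset ℚ} (hA : Pos A) : Pos (sc c A) := by
  intro x hx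
  obtain ⟨a, ha, rfl⟩ := Finset.mem_image.1 hx
  exact mul_pos hc (hA a ha)

theorem Pos_iv {A : Finset ℚ} (hA : Pos A) : Pos (iv A) := by
  intro x hx
  obtain ⟨a, ha, rfl⟩ := Finset.mem_image.1 hx
  exact inv_pos.2 (hA a ha)

theorem Ok_sc {c : ℚ} (hc : 0 < c) {A B : Finset ℚ} {R T : ℕ} (h : Ok A B R T) :
    Ok (sc c A) (sc c B) R T := by
  intro x hx y hy
  obtain ⟨a, ha, rfl⟩ := Finset.mem_image.1 hx
  obtain ⟨b, hb, rfl⟩ := Finset.mem_image.1 hy
  rw [mul_div_mul_left _ _ hc.ne']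
  exact h a ha b hb

theorem Ok_iv {A B : Finset ℚ} (hA : Pos A) (hB : Pos B) {R T : ℕ} (h : Ok A B R T) :
    Ok (iv A) (iv B) T R := by
  intro x hx y hy
  obtain ⟨a, ha, rfl⟩ := Finset.mem_image.1 hx
  obtain ⟨b, hb, rfl⟩ := Finset.mem_image.1 hy
  have hab : 0 < a / b := div_pos (hA a ha) (hB b hb)
  have e : a⁻¹ / b⁻¹ = (a / b)⁻¹ := by rw [inv_div_inv, inv_div]
  rw [e, nm_inv hab, den_inv hab]
  exact (h a ha b hb).symm

theorem Ok_symm {A B : Finset ℚ} (hA : Pos A) (hB : Pos B) {R T : ℕ} (h : Ok A B R T) :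
    Ok B A T R := by
  intro b hb a ha
  have hab : 0 < a / b := div_pos (hA a ha) (hB b hb)
  rw [← inv_div, nm_inv hab, den_inv hab]
  exact (h a ha b hb).symm

theorem near_sc {c : ℚ} (hc : 0 < c) (A : Finset ℚ) (N : ℕ) :
    near (sc c⁻¹ A) 1 N = near A c N := by
  unfold near
  refine congrArg Finset.card (Finset.filter_congr fun i _ => ?_)
  unfold sc
  rw [Finset.mem_image, one_mul]
  constructor
  · rintro ⟨a, ha, e⟩
    rwa [← e, mul_inv_cancel_left₀ hc.ne']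
  · intro h
    exact ⟨_, h, inv_mul_cancel_left₀ hc.ne' _⟩

theorem gq0_filter_iv (A : Finset ℚ) (q : ℚ → Prop) [DecidablePred q] :
    ((iv A).filter q).card = (A.filter (fun a => q a⁻¹)).card := by
  unfold iv
  rw [Finset.filter_image, Finset.card_image_of_injective _ inv_injective]

theorem Tail_iv {A : Finset ℚ} (hA : Pos A) {C : ℝ} (h : Tail A C) : Tail (iv A) C := by
  intro p hp t
  rw [card_iv, gq0_filter_iv, gq0_filter_iv,
    Finset.filter_congr (p := fun a : ℚ => p ^ t ∣ nm a⁻¹) (q := fun a : ℚ => p ^ t ∣ a.den)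
      (fun a ha => by rw [nm_inv (hA a ha)]),
    Finset.filter_congr (p := fun a : ℚ => p ^ t ∣ (a⁻¹).den) (q := fun a : ℚ => p ^ t ∣ nm a)
      (fun a ha => by rw [den_inv (hA a ha)])]
  exact (h p hp t).symm

theorem Box_iv {A : Finset ℚ} (hA : Pos A) {e : ℝ} {J K : ℕ} (h : Box A e J K) :
    Box (iv A) e K J := by
  unfold Box
  rw [card_iv, gq0_filter_iv, gq0_filter_iv,
    Finset.filter_congr (p := fun a : ℚ => K < nm a⁻¹) (q := fun a : ℚ => K < a.den)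
      (fun a ha => by rw [nm_inv (hA a ha)]),
    Finset.filter_congr (p := fun a : ℚ => J < (a⁻¹).den) (q := fun a : ℚ => J < nm a)
      (fun a ha => by rw [den_inv (hA a ha)])]
  exact ⟨h.2.1, h.1, h.2.2.2, h.2.2.1⟩

theorem card_le_of_Box {A : Finset ℚ} (hA : Pos A) {e : ℝ} (he : e ≤ 1 / 4) {J K : ℕ}
    (h : Box A e J K) : A.card ≤ 2 * (J * K) := by
  obtain ⟨-, -, h1, h2⟩ := h
  have hsub : A ⊆ (A.filter (fun a => nm a ≤ J ∧ a.den ≤ K) ∪ A.filter (fun a => J < nm a)) ∪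
      A.filter (fun a => K < a.den) := by
    intro a ha
    simp only [Finset.mem_union, Finset.mem_filter, ha, true_and]
    omega
  have h3 : (A.filter (fun a => nm a ≤ J ∧ a.den ≤ K)).card ≤ J * K := by
    have h4 : (A.filter (fun a => nm a ≤ J ∧ a.den ≤ K)).card ≤
        (Finset.Icc 1 J ×ˢ Finset.Icc 1 K).card := by
      refine Finset.card_le_card_of_injOn (fun a => (nm a, a.den)) ?_ ?_
      · intro a ha
        obtain ⟨ha, h5, h6⟩ := Finset.mem_filter.1 (Finset.mem_coe.1 ha)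
        exact Finset.mem_coe.2 (Finset.mem_product.2 ⟨Finset.mem_Icc.2 ⟨nm_pos (hA a ha), h5⟩,
          Finset.mem_Icc.2 ⟨a.den_pos, h6⟩⟩)
      · intro a ha b hb hab
        obtain ⟨h5, h6⟩ := Prod.mk.inj hab
        exact eq_of_nm_den (hA a (Finset.mem_filter.1 (Finset.mem_coe.1 ha)).1)
          (hA b (Finset.mem_filter.1 (Finset.mem_coe.1 hb)).1) h5 h6
    simpa using h4
  have h5 := (Finset.card_le_card hsub).trans ((Finset.card_union_le _ _).trans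
    (Nat.add_le_add_right (Finset.card_union_le _ _) _))
  have h6 : (A.card : ℝ) ≤ ((J * K : ℕ) : ℝ) + ((A.filter (fun a => J < nm a)).card : ℝ) +
      ((A.filter (fun a => K < a.den)).card : ℝ) := by
    exact_mod_cast h5.trans (Nat.add_le_add_right (Nat.add_le_add_right h3 _) _)
  have h7 : e * (A.card : ℝ) ≤ 1 / 4 * (A.card : ℝ) :=
    mul_le_mul_of_nonneg_right he (Nat.cast_nonneg _)
  have h8 : (A.card : ℝ) ≤ 2 * ((J * K : ℕ) : ℝ) := by linarith
  exact_mod_cast h8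

end Pool.Agent.Lib.MP_4652a8_nt
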