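import Pool.Agent.Lib.MP_4652a8_nt.GQ0

set_option autoImplicit false

namespace Pool.Agent.Lib.MP_4652a8_nt
open Finset

theorem greda_nm {a : ℚ} (ha : 0 < a) {L : ℕ} (hL : 0 < L) :
    nm (a / L) = nm a / Nat.gcd (nm a) (a.den * L) := by
  rw [← nm_natDiv (Nat.mul_pos a.den_pos hL), Nat.cast_mul, ← div_div, nm_div_den ha]

theorem greda_pow {j M p E : ℕ} (hj : 0 < j) (hp : p.Prime) (hM : p ^ E ∣ M)
    (h : p ∣ j / Nat.gcd j M) : p ^ E ∣ j := by
  have hg : 0 < Nat.gcd j M := Nat.gcd_pos_of_pos_left M hj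
  have hc : Nat.Coprime (p ^ E) (M / Nat.gcd j M) :=
    Nat.Coprime.pow_left E (Nat.Coprime.coprime_dvd_left h (Nat.coprime_div_gcd_div_gcd hg))
  rw [← Nat.div_mul_cancel (Nat.gcd_dvd_right j M)] at hM
  exact (hc.dvd_of_dvd_mul_left hM).trans (Nat.gcd_dvd_left j M)

theorem greda_good {a : ℚ} (ha : 0 < a) {w E : ℕ} {d : ℝ}
    (h1 : ¬ ∃ p ∈ (Finset.Icc 1 w).filter Nat.Prime, p ^ E ∣ nm a)
    (h2 : ¬ d < ∑ p ∈ (nm a).primeFactors.filter (fun p => w < p), 1 / (p : ℝ)) :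
    Nat.Coprime (nm (a / ((w.factorial ^ E : ℕ) : ℚ))) (w.factorial ^ E) ∧
      ∑ p ∈ (nm (a / ((w.factorial ^ E : ℕ) : ℚ))).primeFactors, 1 / (p : ℝ) ≤ d := by
  have hL : 0 < w.factorial ^ E := pow_pos w.factorial_pos E
  rw [greda_nm ha hL]
  have key : ∀ p, p.Prime → p ∣ nm a / Nat.gcd (nm a) (a.den * w.factorial ^ E) → w < p := by
    intro p hp hd
    by_contra hw
    rw [not_lt] at hw
    refine h1 ⟨p, Finset.mem_filter.2 ⟨Finset.mem_Icc.2 ⟨hp.one_le, hw⟩, hp⟩, ?_⟩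
    exact greda_pow (nm_pos ha) hp
      (Dvd.dvd.mul_left (pow_dvd_pow_of_dvd (hp.dvd_factorial.2 hw) E) _) hd
  refine ⟨Nat.coprime_of_dvd fun p hp hd hd' => ?_, le_trans ?_ (not_lt.1 h2)⟩
  · exact absurd (hp.dvd_factorial.1 (hp.dvd_of_dvd_pow hd')) (not_le.2 (key p hp hd))
  · refine Finset.sum_le_sum_of_subset_of_nonneg (fun p hp => ?_) (fun p _ _ => by positivity)
    have hp' := Nat.prime_of_mem_primeFactors hp
    have hd := Nat.dvd_of_mem_primeFactors hp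
    exact Finset.mem_filter.2 ⟨Nat.mem_primeFactors.2 ⟨hp',
      hd.trans (Nat.div_dvd_of_dvd (Nat.gcd_dvd_left _ _)), (nm_pos ha).ne'⟩, key p hp' hd⟩

theorem greda_bad1 {A : Finset ℚ} {C : ℝ} (hT : Tail A C) (w E : ℕ) :
    ((A.filter (fun a => ∃ p ∈ (Finset.Icc 1 w).filter Nat.Prime, p ^ E ∣ nm a)).card : ℝ) ≤
      w * (|C| * (1 / 2) ^ E * A.card) := by
  have hsub : A.filter (fun a => ∃ p ∈ (Finset.Icc 1 w).filter Nat.Prime, p ^ E ∣ nm a) ⊆
      ((Finset.Icc 1 w).filter Nat.Prime).biUnion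
        (fun p => A.filter (fun a => p ^ E ∣ nm a)) := by
    intro a ha
    obtain ⟨ha, p, hp, hd⟩ := Finset.mem_filter.1 ha
    exact Finset.mem_biUnion.2 ⟨p, hp, Finset.mem_filter.2 ⟨ha, hd⟩⟩
  have h1 := (Finset.card_le_card hsub).trans Finset.card_biUnion_le
  have h2 : ∀ p ∈ (Finset.Icc 1 w).filter Nat.Prime,
      ((A.filter (fun a => p ^ E ∣ nm a)).card : ℝ) ≤ |C| * (1 / 2) ^ E * A.card := by
    intro p hp
    have hp' := (Finset.mem_filter.1 hp).2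
    have h3 := (hT p hp' E).1
    have h4 : (2 : ℝ) ^ E ≤ (p : ℝ) ^ E :=
      pow_le_pow_left₀ (by norm_num) (by exact_mod_cast hp'.two_le) E
    have h5 : C * (A.card : ℝ) ≤ |C| * A.card :=
      mul_le_mul_of_nonneg_right (le_abs_self C) (Nat.cast_nonneg _)
    have h6 := mul_le_mul_of_nonneg_left h4
      (Nat.cast_nonneg (α := ℝ) (A.filter (fun a => p ^ E ∣ nm a)).card)
    rw [one_div, inv_pow, mul_right_comm, ← div_eq_mul_inv, le_div_iff₀ (by positivity)]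
    linarith
  have h3 := Finset.sum_le_card_nsmul _ _ _ h2
  have h4 : (((Finset.Icc 1 w).filter Nat.Prime).card : ℝ) ≤ w := by
    have := Finset.card_filter_le (Finset.Icc 1 w) Nat.Prime
    rw [Nat.card_Icc, Nat.add_sub_cancel] at this
    exact_mod_cast this
  rw [nsmul_eq_mul] at h3
  refine le_trans ?_ (h3.trans (mul_le_mul_of_nonneg_right h4 (by positivity)))
  exact_mod_cast h1

theorem greda_bad2 {A : Finset ℚ} (hA : Pos A) {C : ℝ} (hT : Tail A C) {w : ℕ} (hw : 0 < w)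
    (d : ℝ) :
    ((A.filter (fun a => d < ∑ p ∈ (nm a).primeFactors.filter (fun p => w < p),
      1 / (p : ℝ))).card : ℝ) * d ≤ |C| * A.card * (w : ℝ)⁻¹ := by
  set N := max w (A.sup nm) with hN
  have h1 : ∀ a ∈ A, ∑ p ∈ (nm a).primeFactors.filter (fun p => w < p), 1 / (p : ℝ) =
      ∑ p ∈ (Finset.Ioc w N).filter Nat.Prime, if p ∣ nm a then 1 / (p : ℝ) else 0 := by
    intro a ha
    rw [← Finset.sum_filter]
    refine Finset.sum_congr ?_ fun _ _ => rfl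
    ext p
    have h0 := nm_pos (hA a ha)
    have h2 : nm a ≤ N := le_max_of_le_right (Finset.le_sup ha)
    simp only [Finset.mem_filter, Nat.mem_primeFactors, Finset.mem_Ioc]
    constructor
    · rintro ⟨⟨h3, h4, -⟩, h5⟩
      exact ⟨⟨⟨h5, (Nat.le_of_dvd h0 h4).trans h2⟩, h3⟩, h4⟩
    · rintro ⟨⟨⟨h3, -⟩, h4⟩, h5⟩
      exact ⟨⟨h4, h5, h0.ne'⟩, h3⟩
  have h2 : ∀ p ∈ (Finset.Ioc w N).filter Nat.Prime,
      ∑ a ∈ A, (if p ∣ nm a then 1 / (p : ℝ) else 0) ≤ |C| * A.card * ((p : ℝ) ^ 2)⁻¹ := by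
    intro p hp
    have hp' := (Finset.mem_filter.1 hp).2
    have hp0 : (0 : ℝ) < p := by exact_mod_cast hp'.pos
    have h3 := (hT p hp' 1).1
    simp only [pow_one] at h3
    have h5 : C * (A.card : ℝ) ≤ |C| * A.card :=
      mul_le_mul_of_nonneg_right (le_abs_self C) (Nat.cast_nonneg _)
    rw [← Finset.sum_filter, Finset.sum_const, nsmul_eq_mul, ← div_eq_mul_inv,
      le_div_iff₀ (by positivity)]
    have e : ((A.filter (fun a => p ∣ nm a)).card : ℝ) * (1 / (p : ℝ)) * (p : ℝ) ^ 2 =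
        ((A.filter (fun a => p ∣ nm a)).card : ℝ) * p := by field_simp
    rw [e]
    linarith
  have h3 : ∑ p ∈ (Finset.Ioc w N).filter Nat.Prime, ((p : ℝ) ^ 2)⁻¹ ≤ (w : ℝ)⁻¹ := by
    refine (Finset.sum_le_sum_of_subset_of_nonneg (Finset.filter_subset _ _)
      (fun p _ _ => by positivity)).trans
      ((sum_Ioc_inv_sq_le_sub hw.ne' (le_max_left _ _)).trans ?_)
    exact sub_le_self _ (by positivity)
  calc _ ≤ ∑ a ∈ A.filter (fun a => d < ∑ p ∈ (nm a).primeFactors.filter (fun p => w < p),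
          1 / (p : ℝ)), ∑ p ∈ (nm a).primeFactors.filter (fun p => w < p), 1 / (p : ℝ) := by
        rw [← nsmul_eq_mul]
        exact Finset.card_nsmul_le_sum _ _ _ fun a ha => (Finset.mem_filter.1 ha).2.le
    _ ≤ ∑ a ∈ A, ∑ p ∈ (nm a).primeFactors.filter (fun p => w < p), 1 / (p : ℝ) :=
        Finset.sum_le_sum_of_subset_of_nonneg (Finset.filter_subset _ _)
          (fun a _ _ => Finset.sum_nonneg fun p _ => by positivity)
    _ = ∑ p ∈ (Finset.Ioc w N).filter Nat.Prime, ∑ a ∈ A,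
          if p ∣ nm a then 1 / (p : ℝ) else 0 := by
        rw [Finset.sum_congr rfl h1, Finset.sum_comm]
    _ ≤ ∑ p ∈ (Finset.Ioc w N).filter Nat.Prime, |C| * A.card * ((p : ℝ) ^ 2)⁻¹ :=
        Finset.sum_le_sum h2
    _ ≤ _ := by
        rw [← Finset.mul_sum]
        exact mul_le_mul_of_nonneg_left h3 (by positivity)

/-- most elements have, after division by `L`, a numerator coprime to `L` with few prime factors -/
theorem typical (C e d : ℝ) (he : 0 < e) (hd : 0 < d) : ∃ L : ℕ, 0 < L ∧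
    ∀ A : Finset ℚ, Pos A → Tail A C → ∃ A2 ⊆ A, (1 - 2 * e) * (A.card : ℝ) ≤ (A2.card : ℝ) ∧
      ∀ a ∈ A2, Nat.Coprime (nm (a / L)) L ∧
        ∑ p ∈ (nm (a / L)).primeFactors, 1 / (p : ℝ) ≤ d := by
  obtain ⟨w, hw⟩ := exists_nat_gt (|C| / (e * d))
  have hw0 : (0 : ℝ) < w := lt_of_le_of_lt (by positivity) hw
  have hw1 : 0 < w := by exact_mod_cast hw0
  obtain ⟨E, hE⟩ := exists_pow_lt_of_lt_one (x := e / (w * (|C| + 1))) (y := (1 / 2 : ℝ))
    (by positivity) (by norm_num)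
  refine ⟨w.factorial ^ E, pow_pos w.factorial_pos E, fun A hA hT => ?_⟩
  have h1 := greda_bad1 hT w E
  have h2 := greda_bad2 hA hT hw1 d
  set B1 := A.filter (fun a => ∃ p ∈ (Finset.Icc 1 w).filter Nat.Prime, p ^ E ∣ nm a) with hB1
  set B2 := A.filter (fun a => d < ∑ p ∈ (nm a).primeFactors.filter (fun p => w < p),
      1 / (p : ℝ)) with hB2
  refine ⟨A \ (B1 ∪ B2), Finset.sdiff_subset, ?_, fun a ha => ?_⟩
  · have hA0 : (0 : ℝ) ≤ A.card := Nat.cast_nonneg _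
    have h3 : (A.card : ℝ) ≤ ((A \ (B1 ∪ B2)).card : ℝ) + (B1.card + B2.card) := by
      exact_mod_cast Finset.card_le_card_sdiff_add_card.trans
        (Nat.add_le_add_left (Finset.card_union_le B1 B2) _)
    have h4 : (w : ℝ) * (|C| * (1 / 2) ^ E) ≤ e := by
      rw [lt_div_iff₀ (by positivity)] at hE
      have : (0 : ℝ) ≤ (1 / 2) ^ E * w := by positivity
      nlinarith
    have h5 : |C| * (w : ℝ)⁻¹ ≤ e * d := by
      rw [div_lt_iff₀ (by positivity)] at hw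
      rw [← div_eq_mul_inv, div_le_iff₀ hw0]
      linarith
    have h6 : (B1.card : ℝ) ≤ e * A.card := by
      have := mul_le_mul_of_nonneg_right h4 hA0
      linarith
    have h7 : (B2.card : ℝ) ≤ e * A.card := by
      have := mul_le_mul_of_nonneg_right h5 hA0
      refine le_of_mul_le_mul_right ?_ hd
      linarith
    linarith
  · obtain ⟨ha1, ha2⟩ := Finset.mem_sdiff.1 ha
    rw [Finset.mem_union, not_or] at ha2
    exact greda_good (hA a ha1) (fun h => ha2.1 (Finset.mem_filter.2 ⟨ha1, h⟩))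
      (fun h => ha2.2 (Finset.mem_filter.2 ⟨ha1, h⟩))

end Pool.Agent.Lib.MP_4652a8_nt
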