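import Pool.Agent.Lib.MP_4652a8_nt.GOp2
import Pool.Agent.Lib.MP_4652a8_nt.GOp3
import Pool.Agent.Lib.MP_4652a8_nt.GOp4
import Pool.Agent.Lib.MP_4652a8_nt.GNO

set_option autoImplicit false

namespace Pool.Agent.Lib.MP_4652a8_nt
open Finset

theorem con_of_IH {P Q : Finset ℕ} (hP : DC P) (hQ : DC Q) {k : ℕ} (hk : IH k)
    (hc : P.card + Q.card ≤ k) : Con P Q := by
  intro p t hp ht
  by_cases h : p ^ t ∈ Q
  · have h2 : 2 ≤ p ^ t := hp.two_le.trans (Nat.le_self_pow (by omega) p)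
    have h3 := hk _ _ (DC_up hP (p ^ t)) (DC_dn hQ h) (by
      have h4 := card_up_le P (p ^ t)
      have h5 := card_dn_lt hQ h2
      omega)
    refine le_trans ?_ h3
    unfold V
    rw [S_dn hP hQ hp ht]
    exact mul_le_mul_of_nonneg_right (S_up hP hQ hp h) (Zm_nonneg _ _ hp t)
  · rw [Zm_eq_zero hQ P h, mul_zero]
    exact zero_le_one

theorem gst0_num {p m M : ℝ} (hp : 3 ≤ p) (h0 : 0 ≤ M) (hm : m ≤ M) (hM : M ≤ 1)
    (h : (p - (p - 1) * m) * M < 1 + (1 / 1000) * (1 - M)) : M ≤ 5005 / 10000 := by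
  by_contra hc
  have h1 : 5005 / 10000 < M := not_le.1 hc
  have h2 : (p - 1) * m * M ≤ (p - 1) * M * M :=
    mul_le_mul_of_nonneg_right (mul_le_mul_of_nonneg_left hm (by linarith)) h0
  have h3 : 2 * M ≤ (p - 1) * M := mul_le_mul_of_nonneg_right (by linarith) h0
  have h4 : 0 ≤ (1 - M) * ((p - 1) * M - 1 - 1 / 1000) := mul_nonneg (by linarith) (by linarith)
  nlinarith

theorem gst0_stuck {P Q : Finset ℕ} (hP : DC P) (hQ : DC Q) (h1 : Stuck P Q) {p : ℕ}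
    (hp : p.Prime) :
    ((p : ℝ) - (p - 1) * (Zm P Q p 1 / S P Q)) * (Zm Q P p 1 / S Q P) <
      1 + (1 / 1000) * (1 - Zm Q P p 1 / S Q P) := by
  have hA := S_pos hP hQ
  have hB := S_pos hQ hP
  have h2 := h1 p 1 hp le_rfl
  have h3 := Rm_succ P Q hp 0
  rw [Rm_zero, zero_add] at h3
  rw [h3] at h2
  refine lt_of_mul_lt_mul_left ?_ (mul_pos hA hB).le
  have e1 : S P Q * S Q P * (((p : ℝ) - (p - 1) * (Zm P Q p 1 / S P Q)) * (Zm Q P p 1 / S Q P)) =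
      (p * S P Q - (p - 1) * Zm P Q p 1) * Zm Q P p 1 := by field_simp
  have e2 : S P Q * S Q P * (1 + (1 / 1000) * (1 - Zm Q P p 1 / S Q P)) =
      S P Q * (S Q P + (1 / 1000) * (S Q P - Zm Q P p 1)) := by field_simp
  rw [e1, e2]
  exact h2

/-- in a stuck pair the multiples of an odd prime weigh at most about one half -/
theorem stuck_odd {P Q : Finset ℕ} (hP : DC P) (hQ : DC Q) (h1 : Stuck P Q) (h2 : Stuck Q P)
    {p : ℕ} (hp : p.Prime) (h3 : 3 ≤ p) : ms P Q p ≤ (5005 / 10000) * S P Q := by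
  have hA := S_pos hP hQ
  have hB := S_pos hQ hP
  have hp3 : (3 : ℝ) ≤ p := by exact_mod_cast h3
  have h4 : Zm P Q p 1 / S P Q ≤ 5005 / 10000 := by
    rcases le_total (Zm P Q p 1 / S P Q) (Zm Q P p 1 / S Q P) with h | h
    · exact h.trans (gst0_num hp3 (div_nonneg (Zm_nonneg _ _ hp 1) hB.le) h
        ((div_le_one hB).2 (Zm_one_le hQ hP hp)) (gst0_stuck hP hQ h1 hp))
    · exact gst0_num hp3 (div_nonneg (Zm_nonneg _ _ hp 1) hA.le) h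
        ((div_le_one hA).2 (Zm_one_le hP hQ hp)) (gst0_stuck hQ hP h2 hp)
  have h5 := ms_le_Zm P Q hp 1
  rw [pow_one] at h5
  exact h5.trans ((div_le_iff₀ hA).1 h4)

theorem gst0_con {P Q : Finset ℕ} (hP : DC P) (hQ : DC Q) (h1 : Con P Q) {p : ℕ} (hp : p.Prime)
    (t : ℕ) (ht : 1 ≤ t) :
    ((p : ℝ) ^ t * (1 - ms P Q (p ^ 1) / S P Q) + ms P Q (p ^ (t + 1)) / S P Q) *
      ((p * (ms Q P (p ^ t) / S Q P) - ms Q P (p ^ (t + 1)) / S Q P) / (p - 1)) * V P Q ≤ 1 := by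
  have hA := S_pos hP hQ
  have hB := S_pos hQ hP
  have h0 : (p : ℝ) - 1 ≠ 0 := sub_ne_zero.2 (by exact_mod_cast hp.ne_one)
  refine le_of_eq_of_le ?_ (h1 p t hp ht)
  unfold Rm Zm V
  rw [pow_one]
  field_simp

theorem gst0_odd {P Q : Finset ℕ} (hP : DC P) (hQ : DC Q) (h1 : Con P Q) (h2 : Con Q P)
    (hV : 959 / 1000 ≤ V P Q) {p : ℕ} (hp : p.Prime) (hb : ms P Q p ≤ (62 / 100) * S P Q) :
    OddHyp p (V P Q) (fun t => ms P Q (p ^ t) / S P Q) (fun t => ms Q P (p ^ t) / S Q P) := by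
  have hA := S_pos hP hQ
  have hB := S_pos hQ hP
  refine ⟨hV, fun t _ => ⟨div_nonneg (ms_nonneg _ _ _) hA.le, ?_⟩,
    fun t _ => ⟨div_nonneg (ms_nonneg _ _ _) hB.le, ?_⟩, ?_, (div_le_one hB).2 (ms_le_S _ _ _),
    gst0_con hP hQ h1 hp, fun t ht => ?_, ?_⟩
  · exact div_le_div_of_nonneg_right (ms_anti _ _ (pow_dvd_pow p t.le_succ)) hA.le
  · exact div_le_div_of_nonneg_right (ms_anti _ _ (pow_dvd_pow p t.le_succ)) hB.le
  · rw [pow_one]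
    exact (div_le_iff₀ hA).2 hb
  · rw [V_comm]
    exact gst0_con hQ hP h2 hp t ht
  · refine le_of_eq_of_le ?_ ((div_le_one hB).2 (Zm_one_le hQ hP hp))
    unfold Zm
    ring

/-- centredness at all primes from the constraints -/
theorem cen_of_con {P Q : Finset ℕ} (hP : DC P) (hQ : DC Q) (h1 : Con P Q) (h2 : Con Q P)
    (hV : 959 / 1000 ≤ V P Q)
    (hb : ∀ p : ℕ, p.Prime → 3 ≤ p → ms P Q p ≤ (62 / 100) * S P Q)
    (h2P : ms P Q 2 ≤ (600 / 1000) * S P Q ∧ ms P Q 4 ≤ (377 / 1000) * S P Q ∧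
      ms P Q 8 ≤ (203 / 1000) * S P Q)
    (h2Q : ms Q P 2 ≤ (600 / 1000) * S Q P ∧ ms Q P 4 ≤ (377 / 1000) * S Q P ∧
      ms Q P 8 ≤ (203 / 1000) * S Q P) :
    Cen P Q ∧ Cen Q P := by
  have hA := S_pos hP hQ
  have hB := S_pos hQ hP
  have p3 : Nat.Prime 3 := by norm_num
  have p5 : Nat.Prime 5 := by norm_num
  have p7 : Nat.Prime 7 := by norm_num
  have p11 : Nat.Prime 11 := by norm_num
  obtain ⟨a3, a9, b3, b9⟩ := odd_num3 (gst0_odd hP hQ h1 h2 hV p3 (hb 3 p3 (by norm_num)))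
  obtain ⟨a5, a25, b5, b25⟩ := odd_num5 (gst0_odd hP hQ h1 h2 hV p5 (hb 5 p5 (by norm_num)))
  obtain ⟨a7, a49, b7, b49⟩ := odd_num7 (gst0_odd hP hQ h1 h2 hV p7 (hb 7 p7 (by norm_num)))
  obtain ⟨a11, b11⟩ := odd_num11 (gst0_odd hP hQ h1 h2 hV p11 (hb 11 p11 (by norm_num)))
  have h13 : ∀ p : ℕ, p.Prime → 13 ≤ p → ms P Q p ≤ (1054 / 1000) / (p : ℝ) * S P Q ∧
      ms Q P p ≤ (1054 / 1000) / (p : ℝ) * S Q P := by
    intro p hp h
    obtain ⟨a, b⟩ := odd_num13 (by exact_mod_cast h) (gst0_odd hP hQ h1 h2 hV hp (hb p hp (by omega)))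
    rw [pow_one] at a b
    exact ⟨(div_le_iff₀ hA).1 a, (div_le_iff₀ hB).1 b⟩
  exact ⟨⟨h2P.1, h2P.2.1, h2P.2.2, (div_le_iff₀ hA).1 a3, (div_le_iff₀ hA).1 a9,
      (div_le_iff₀ hA).1 a5, (div_le_iff₀ hA).1 a25, (div_le_iff₀ hA).1 a7,
      (div_le_iff₀ hA).1 a49, (div_le_iff₀ hA).1 a11, fun p hp h => (h13 p hp h).1⟩,
    ⟨h2Q.1, h2Q.2.1, h2Q.2.2, (div_le_iff₀ hB).1 b3, (div_le_iff₀ hB).1 b9,
      (div_le_iff₀ hB).1 b5, (div_le_iff₀ hB).1 b25, (div_le_iff₀ hB).1 b7,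
      (div_le_iff₀ hB).1 b49, (div_le_iff₀ hB).1 b11, fun p hp h => (h13 p hp h).2⟩⟩

end Pool.Agent.Lib.MP_4652a8_nt
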