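import Pool.Agent.Lib.MP_4652a8_nt.GSt0
import Pool.Agent.Lib.MP_4652a8_nt.GN2

set_option autoImplicit false

namespace Pool.Agent.Lib.MP_4652a8_nt
open Finset

/-- the mass that survives the deletion at level `l` of the prime `2` -/
noncomputable def zz (P Q : Finset ℕ) (l : ℕ) : ℝ := if l = 0 then S P Q else Zm P Q 2 l

theorem gst1_zz_pos (P Q : Finset ℕ) {t : ℕ} (ht : 1 ≤ t) : zz P Q t = Zm P Q 2 t := by
  unfold zz
  rw [if_neg (by omega)]

theorem gst1_zz_zero (P Q : Finset ℕ) : zz P Q 0 = S P Q := by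
  unfold zz
  rw [if_pos rfl]

theorem gst1_zz_nonneg (P Q : Finset ℕ) (t : ℕ) : 0 ≤ zz P Q t := by
  unfold zz
  split_ifs
  · exact S_nonneg P Q
  · exact Zm_nonneg P Q Nat.prime_two t

theorem gst1_zz_succ_le {P Q : Finset ℕ} (hP : DC P) (hQ : DC Q) (t : ℕ) :
    zz P Q (t + 1) ≤ zz P Q t := by
  rw [gst1_zz_pos P Q (Nat.le_add_left 1 t)]
  rcases Nat.eq_zero_or_pos t with h | h
  · subst h
    rw [gst1_zz_zero]
    exact Zm_one_le hP hQ Nat.prime_two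
  · rw [gst1_zz_pos P Q h]
    exact Zm_succ_le hP hQ Nat.prime_two h

theorem gst1_zz_le_S {P Q : Finset ℕ} (hP : DC P) (hQ : DC Q) (t : ℕ) : zz P Q t ≤ S P Q := by
  rcases Nat.eq_zero_or_pos t with h | h
  · subst h
    rw [gst1_zz_zero]
  · rw [gst1_zz_pos P Q h]
    exact Zm_le_S hP hQ Nat.prime_two h

theorem gst1_Rm_succ (P Q : Finset ℕ) (t : ℕ) :
    Rm P Q 2 (t + 1) = 2 * Rm P Q 2 t - zz P Q (t + 1) := by
  rw [gst1_zz_pos P Q (Nat.le_add_left 1 t), Rm_succ P Q Nat.prime_two t]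
  push_cast
  ring

theorem gst1_g0 {P Q : Finset ℕ} (hP : DC P) (hQ : DC Q) (t : ℕ) :
    2 * S P Q ≤ Rm P Q 2 t + zz P Q t := by
  rcases t with _ | t
  · rw [gst1_zz_zero, Rm_zero]
    linarith
  · rw [gst1_Rm_succ]
    have := S_le_Rm hP hQ Nat.prime_two t
    linarith

theorem gst1_stuck {P Q : Finset ℕ} (hP : DC P) (hQ : DC Q) (h : Stuck P Q) {t : ℕ} (ht : 1 ≤ t) :
    (1 + (Rm P Q 2 t / S P Q - 1)) * (1 - (1 - zz Q P t / S Q P)) ≤ 1 + 1 / 1000 := by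
  have sA := S_pos hP hQ
  have sB := S_pos hQ hP
  have h1 := h 2 t Nat.prime_two ht
  have h2 := Zm_nonneg Q P Nat.prime_two t
  rw [gst1_zz_pos Q P ht]
  have e : (1 + (Rm P Q 2 t / S P Q - 1)) * (1 - (1 - Zm Q P 2 t / S Q P)) =
      Rm P Q 2 t * Zm Q P 2 t / (S P Q * S Q P) := by
    field_simp
    ring
  rw [e, div_le_iff₀ (mul_pos sA sB)]
  nlinarith [mul_nonneg sA.le h2]

theorem gst1_ms {P Q : Finset ℕ} (hP : DC P) (hQ : DC Q) {t : ℕ} (ht : 1 ≤ t) :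
    ms P Q (2 ^ t) / S P Q = (1 - (1 - zz P Q t / S P Q) + ms P Q (2 ^ (t + 1)) / S P Q) / 2 := by
  have sA := S_pos hP hQ
  rw [gst1_zz_pos P Q ht]
  unfold Zm
  push_cast
  field_simp
  ring

theorem gst1_ms_le {P Q : Finset ℕ} (hP : DC P) (hQ : DC Q) {t : ℕ} (ht : 1 ≤ t) :
    0 ≤ ms P Q (2 ^ t) / S P Q ∧ ms P Q (2 ^ t) / S P Q ≤ 1 - (1 - zz P Q t / S P Q) := by
  have sA := S_pos hP hQ
  refine ⟨div_nonneg (ms_nonneg _ _ _) sA.le, ?_⟩
  rw [gst1_zz_pos P Q ht, sub_sub_cancel]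
  exact div_le_div_of_nonneg_right (ms_le_Zm P Q Nat.prime_two t) sA.le

theorem exists_level {P Q : Finset ℕ} (hP : DC P) (hQ : DC Q) :
    ∃ l : ℕ, ((4 / 5) * S P Q ≤ zz P Q l ∨ (4 / 5) * S Q P ≤ zz Q P l) ∧
      Zm P Q 2 (l + 1) ≤ (4 / 5) * S P Q ∧ Zm Q P 2 (l + 1) ≤ (4 / 5) * S Q P := by
  classical
  have hex : ∃ t : ℕ, Zm P Q 2 (t + 1) ≤ (4 / 5) * S P Q ∧ Zm Q P 2 (t + 1) ≤ (4 / 5) * S Q P := by
    refine ⟨P.sup id + Q.sup id, ?_, ?_⟩
    · rw [Zm_eq_zero hP Q]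
      · have := S_nonneg P Q
        linarith
      · intro h
        have h1 : 2 ^ (P.sup id + Q.sup id + 1) ≤ P.sup id := Finset.le_sup (f := id) h
        have h2 : P.sup id + Q.sup id + 1 < 2 ^ (P.sup id + Q.sup id + 1) := Nat.lt_two_pow_self
        omega
    · rw [Zm_eq_zero hQ P]
      · have := S_nonneg Q P
        linarith
      · intro h
        have h1 : 2 ^ (P.sup id + Q.sup id + 1) ≤ Q.sup id := Finset.le_sup (f := id) h
        have h2 : P.sup id + Q.sup id + 1 < 2 ^ (P.sup id + Q.sup id + 1) := Nat.lt_two_pow_self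
        omega
  refine ⟨Nat.find hex, ?_, Nat.find_spec hex⟩
  rcases Nat.eq_zero_or_pos (Nat.find hex) with h | h
  · rw [h, gst1_zz_zero]
    left
    have := S_nonneg P Q
    linarith
  · have hm := Nat.find_min hex (m := Nat.find hex - 1) (by omega)
    rw [Nat.sub_add_cancel h] at hm
    rw [gst1_zz_pos P Q h, gst1_zz_pos Q P h]
    by_contra hc
    push Not at hc
    exact hm ⟨hc.1.le, hc.2.le⟩

/-- after one operation at the prime `2` a stuck pair of large value is centred -/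
theorem post_op {P Q : Finset ℕ} (hP : DC P) (hQ : DC Q) (hk : IH (P.card + Q.card))
    (h1 : Stuck P Q) (h2 : Stuck Q P) (hV : 999 / 1000 ≤ V P Q) {l : ℕ}
    (ha : zz P Q l * S Q P ≤ zz Q P l * S P Q) (hb : (4 / 5) * S Q P ≤ zz Q P l)
    (hc : Zm P Q 2 (l + 1) ≤ (4 / 5) * S P Q) (hd : Zm Q P 2 (l + 1) ≤ (4 / 5) * S Q P) :
    DC (up P (2 ^ l)) ∧ DC (dn Q (2 ^ l)) ∧ 959 / 1000 ≤ V (up P (2 ^ l)) (dn Q (2 ^ l)) ∧
      Cen (up P (2 ^ l)) (dn Q (2 ^ l)) ∧ Cen (dn Q (2 ^ l)) (up P (2 ^ l)) ∧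
      (4 / 5) * S Q P ≤ S (dn Q (2 ^ l)) (up P (2 ^ l)) := by
  have sA := S_pos hP hQ
  have sB := S_pos hQ hP
  have hl : 2 ^ l ∈ Q := by
    rcases Nat.eq_zero_or_pos l with h | h
    · subst h
      simpa using hQ.1
    · by_contra hn
      rw [gst1_zz_pos Q P h, Zm_eq_zero hQ P hn] at hb
      linarith
  have dP := DC_up hP (2 ^ l)
  have dQ := DC_dn hQ hl
  have eB : S (dn Q (2 ^ l)) (up P (2 ^ l)) = zz Q P l := by
    rcases Nat.eq_zero_or_pos l with h | h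
    · subst h
      rw [pow_zero, dn_one, up_one, gst1_zz_zero]
    · rw [gst1_zz_pos Q P h, S_dn hP hQ Nat.prime_two h]
  have eA := S_up hP hQ Nat.prime_two hl
  have hx0 : 0 ≤ 1 - zz Q P l / S Q P := by
    have := (div_le_one sB).2 (gst1_zz_le_S hQ hP l)
    linarith
  have hxy : 1 - zz Q P l / S Q P ≤ 1 - zz P Q l / S P Q := by
    have : zz P Q l / S P Q ≤ zz Q P l / S Q P := by
      rw [div_le_div_iff₀ sA sB]
      exact ha
    linarith
  have hx5 : 1 - zz Q P l / S Q P ≤ 1 / 5 := by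
    have : 4 / 5 ≤ zz Q P l / S Q P := by
      rw [le_div_iff₀ sB]
      exact hb
    linarith
  have hg0 : ∀ {P Q : Finset ℕ}, DC P → DC Q →
      1 - zz P Q l / S P Q ≤ Rm P Q 2 l / S P Q - 1 := by
    intro P Q hP hQ
    have sA := S_pos hP hQ
    have h := gst1_g0 hP hQ l
    have : 2 ≤ (Rm P Q 2 l + zz P Q l) / S P Q := by
      rw [le_div_iff₀ sA]
      exact h
    rw [add_div] at this
    linarith
  have hmono : ∀ {P Q : Finset ℕ}, DC P → DC Q → ∀ r,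
      1 - zz P Q (l + r) / S P Q ≤ 1 - zz P Q (l + (r + 1)) / S P Q := by
    intro P Q hP hQ r
    have := div_le_div_of_nonneg_right (gst1_zz_succ_le hP hQ (l + r)) (S_pos hP hQ).le
    rw [← add_assoc]
    linarith
  have hone : ∀ {P Q : Finset ℕ}, DC P → DC Q → ∀ r, 1 - zz P Q (l + r) / S P Q ≤ 1 := by
    intro P Q hP hQ r
    have := div_nonneg (gst1_zz_nonneg P Q (l + r)) (S_pos hP hQ).le
    linarith
  have hfif : ∀ {P Q : Finset ℕ}, DC P → DC Q → Zm P Q 2 (l + 1) ≤ (4 / 5) * S P Q →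
      1 / 5 ≤ 1 - zz P Q (l + 1) / S P Q := by
    intro P Q hP hQ h
    rw [gst1_zz_pos P Q (Nat.le_add_left 1 l)]
    have : Zm P Q 2 (l + 1) / S P Q ≤ 4 / 5 := by
      rw [div_le_iff₀ (S_pos hP hQ)]
      exact h
    linarith
  have hrec : ∀ {P Q : Finset ℕ}, DC P → DC Q → ∀ r,
      Rm P Q 2 (l + (r + 1)) / S P Q - 1 =
        2 * (Rm P Q 2 (l + r) / S P Q - 1) + (1 - zz P Q (l + (r + 1)) / S P Q) := by
    intro P Q hP hQ r
    have sA := S_pos hP hQ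
    rw [← add_assoc, gst1_Rm_succ]
    field_simp
    ring
  obtain ⟨⟨n1, n2, n3⟩, m1, m2, m3⟩ := two_adic_num
    (fun r => 1 - zz P Q (l + r) / S P Q) (fun r => 1 - zz Q P (l + r) / S Q P)
    (fun r => Rm P Q 2 (l + r) / S P Q - 1) (fun r => Rm Q P 2 (l + r) / S Q P - 1)
    (fun r => ms P Q (2 ^ (l + r)) / S P Q) (fun r => ms Q P (2 ^ (l + r)) / S Q P)
    hx0 hxy hx5 (hmono hP hQ) (hmono hQ hP) (hone hP hQ) (hone hQ hP)
    (hfif hP hQ hc) (hfif hQ hP hd) (hg0 hP hQ) (hg0 hQ hP) (hrec hP hQ) (hrec hQ hP)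
    (fun r hr => gst1_stuck hP hQ h1 (by omega)) (fun r hr => gst1_stuck hQ hP h2 (by omega))
    (fun r hr => gst1_ms hP hQ (by omega)) (fun r hr => gst1_ms hQ hP (by omega))
    (fun r hr => gst1_ms_le hP hQ (by omega)) (fun r hr => gst1_ms_le hQ hP (by omega))
  simp only [add_zero] at n1 n2 n3 m1 m2 m3
  have hg := hg0 hP hQ
  have eR : Rm P Q 2 l = (1 + (Rm P Q 2 l / S P Q - 1)) * S P Q := by
    field_simp
    ring
  have eZ : zz Q P l = (1 - (1 - zz Q P l / S Q P)) * S Q P := by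
    field_simp
    ring
  generalize 1 - zz Q P l / S Q P = x at *
  generalize Rm P Q 2 l / S P Q - 1 = g0 at *
  have sA' := S_pos dP dQ
  have hVV : 999 / 1000 ≤ S P Q * S Q P := hV
  have hV' : 959 / 1000 ≤ V (up P (2 ^ l)) (dn Q (2 ^ l)) := by
    unfold V
    rw [eB, eZ]
    have t1 : (1 + x) * S P Q ≤ S (up P (2 ^ l)) (dn Q (2 ^ l)) := by
      have : (1 + x) * S P Q ≤ (1 + g0) * S P Q :=
        mul_le_mul_of_nonneg_right (by linarith) sA.le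
      linarith
    have t2 : 0 ≤ (1 - x) * S Q P := mul_nonneg (by linarith) sB.le
    have t3 := mul_le_mul_of_nonneg_right t1 t2
    have t4 : 24 / 25 ≤ (1 + x) * (1 - x) := by nlinarith
    have t5 : 24 / 25 * (999 / 1000) ≤ (1 + x) * (1 - x) * (S P Q * S Q P) :=
      mul_le_mul t4 hVV (by norm_num) (by linarith)
    nlinarith
  have hrho : 999 / 1000 * (1 - x) * S (up P (2 ^ l)) (dn Q (2 ^ l)) ≤ S P Q := by
    rcases Nat.eq_zero_or_pos l with h | h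
    · subst h
      rw [pow_zero, dn_one, up_one]
      nlinarith
    · have hlt : (up P (2 ^ l)).card + (dn Q (2 ^ l)).card < P.card + Q.card := by
        have c1 := card_up_le P (2 ^ l)
        have c2 := card_dn_lt hQ (L := 2 ^ l) (by
          calc 2 = 2 ^ 1 := by norm_num
            _ ≤ 2 ^ l := Nat.pow_le_pow_right (by norm_num) h)
        omega
      have hv1 := hk _ _ dP dQ hlt
      unfold V at hv1
      rw [eB, eZ] at hv1
      have t1 : 0 ≤ (1 - x) * S (up P (2 ^ l)) (dn Q (2 ^ l)) := mul_nonneg (by linarith) sA'.le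
      have t2 := mul_le_mul_of_nonneg_right hVV t1
      have t3 := mul_le_mul_of_nonneg_left hv1 sA.le
      nlinarith
  have hup : ∀ (j : ℕ) (c : ℝ), 1 ≤ j →
      1 - 999 / 1000 * (1 - x) * (1 + g0 - ms P Q (2 ^ (l + j)) / S P Q) ≤ c →
      ms (up P (2 ^ l)) (dn Q (2 ^ l)) (2 ^ j) ≤ c * S (up P (2 ^ l)) (dn Q (2 ^ l)) := by
    intro j c hj h
    have t1 := S_up_low hP hQ Nat.prime_two hl hj
    have t2 : ms P Q (2 ^ (l + j)) / S P Q ≤ 1 := (div_le_one sA).2 (ms_le_S _ _ _)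
    have t3 : ms P Q (2 ^ (l + j)) = ms P Q (2 ^ (l + j)) / S P Q * S P Q := by
      field_simp
    generalize ms P Q (2 ^ (l + j)) / S P Q = a at *
    have t4 : 0 ≤ 1 + g0 - a := by linarith
    have t5 := mul_le_mul_of_nonneg_left hrho t4
    have t6 := mul_le_mul_of_nonneg_right h sA'.le
    rw [eR, t3] at t1
    nlinarith
  have hdn : ∀ (j : ℕ) (c : ℝ), 1 ≤ j → ms Q P (2 ^ (l + j)) / S Q P ≤ c * (1 - x) →
      ms (dn Q (2 ^ l)) (up P (2 ^ l)) (2 ^ j) ≤ c * S (dn Q (2 ^ l)) (up P (2 ^ l)) := by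
    intro j c hj h
    rw [ms_dn hP hQ Nat.prime_two hj, eB, eZ]
    rw [div_le_iff₀ sB] at h
    linarith
  have hodd : ∀ p : ℕ, p.Prime → 3 ≤ p →
      ms (up P (2 ^ l)) (dn Q (2 ^ l)) p ≤ (62 / 100) * S (up P (2 ^ l)) (dn Q (2 ^ l)) := by
    intro p hp h3
    have hco : Nat.Coprime p 2 := (Nat.coprime_primes hp Nat.prime_two).2 (by omega)
    have t1 := S_up_odd hP hQ Nat.prime_two hl hco
    have t2 := stuck_odd hP hQ h1 h2 hp h3
    have t3 : 0 ≤ (1 / 5 - x) * S (up P (2 ^ l)) (dn Q (2 ^ l)) := mul_nonneg (by linarith) sA'.le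
    nlinarith
  have c1 := card_up_le P (2 ^ l)
  have c2 := card_dn_le Q (2 ^ l)
  have k1 : Con (up P (2 ^ l)) (dn Q (2 ^ l)) := con_of_IH dP dQ hk (by omega)
  have k2 : Con (dn Q (2 ^ l)) (up P (2 ^ l)) := con_of_IH dQ dP hk (by omega)
  have u1 := hup 1 _ le_rfl m1
  have u2 := hup 2 _ (by norm_num) m2
  have u3 := hup 3 _ (by norm_num) m3
  have v1 := hdn 1 _ le_rfl n1
  have v2 := hdn 2 _ (by norm_num) n2
  have v3 := hdn 3 _ (by norm_num) n3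
  have e1 : (2 : ℕ) ^ 1 = 2 := by norm_num
  have e2 : (2 : ℕ) ^ 2 = 4 := by norm_num
  have e3 : (2 : ℕ) ^ 3 = 8 := by norm_num
  rw [e1] at u1 v1
  rw [e2] at u2 v2
  rw [e3] at u3 v3
  obtain ⟨q1, q2⟩ := cen_of_con dP dQ k1 k2 hV' hodd ⟨u1, u2, u3⟩ ⟨v1, v2, v3⟩
  refine ⟨dP, dQ, hV', q1, q2, ?_⟩
  rw [eB]
  exact hb

end Pool.Agent.Lib.MP_4652a8_nt
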