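import Pool.Agent.Lib.MP_4652a8_nt.GC2
import Pool.Agent.Lib.MP_4652a8_nt.GC6
import Pool.Agent.Lib.MP_4652a8_nt.GCtB
import Pool.Agent.Lib.MP_4652a8_nt.GCtF
import Pool.Agent.Lib.MP_4652a8_nt.GCtP
import Pool.Agent.Lib.MP_4652a8_nt.GCtU

set_option autoImplicit false

namespace Pool.Agent.Lib.MP_4652a8_nt
open Finset

theorem gst3_zero {P Q : Finset ℕ} (hP : DC P) (hQ : DC Q) {p e n : ℕ} (hn : n ∈ Q)
    (he : e ≠ 0) (hd : p ^ e ∣ n) (h : p ∈ Q → p ∉ P) : ms P Q (p ^ e) = 0 := by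
  have h1 : p ∣ p ^ e := dvd_pow_self p he
  refine ms_eq_zero Q (fun m hm hq => ?_)
  exact h (hQ.2.2 n hn p (h1.trans hd)) (hP.2.2 m hm p (h1.trans hq))

theorem gst3_le {x s a : ℝ} {k : ℕ} (hs : 0 ≤ s) (h : x ≤ a * s) (hk : a * 100000 ≤ (k : ℝ)) :
    x ≤ (k : ℝ) / 100000 * s :=
  h.trans (mul_le_mul_of_nonneg_right (by rw [le_div_iff₀ (by norm_num)]; exact hk) hs)

theorem gst3_full (P Q : Finset ℕ) (q : ℕ) : ms P Q q ≤ ((100000 : ℕ) : ℝ) / 100000 * S P Q := by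
  have := ms_le_S P Q q
  norm_num
  exact this

theorem gst3_odd {P Q : Finset ℕ} (hP : DC P) (hQ : DC Q) {p e n a1 a2 : ℕ} {b1 b2 : ℝ}
    (hn : n ∈ Q) (hd : p ^ e ∣ n) (h1 : ms P Q p ≤ b1 * S P Q) (h2 : ms P Q (p ^ 2) ≤ b2 * S P Q)
    (h : (b1 * 100000 ≤ (a1 : ℝ) ∧ b2 * 100000 ≤ (a2 : ℝ)) ∨ (p ∈ Q → p ∉ P)) :
    ms P Q (p ^ e) ≤
      ((if e = 1 then a1 else if e = 2 then a2 else 100000 : ℕ) : ℝ) / 100000 * S P Q := by
  have hs := S_nonneg P Q
  split_ifs with c1 c2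
  · subst c1
    rcases h with h | h
    · rw [pow_one]
      exact gst3_le hs h1 h.1
    · rw [gst3_zero hP hQ hn (by norm_num) hd h]
      positivity
  · subst c2
    rcases h with h | h
    · exact gst3_le hs h2 h.2
    · rw [gst3_zero hP hQ hn (by norm_num) hd h]
      positivity
  · exact gst3_full P Q _

theorem gst3_hyp (C : Cert) {P Q : Finset ℕ} (hP : DC P) (hQ : DC Q) (hc : Cen P Q)
    (h5 : (22400 ≤ C.a5 ∧ 5800 ≤ C.a25) ∨ (5 ∈ Q → 5 ∉ P))
    (h7 : (15500 ≤ C.a7 ∧ 2700 ≤ C.a49) ∨ (7 ∈ Q → 7 ∉ P))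
    (h11 : 9650 ≤ C.a11 ∨ (11 ∈ Q → 11 ∉ P))
    (h13 : C.al = 105400 ∨ ∀ p : ℕ, p.Prime → 13 ≤ p → p ∈ Q → p ∉ P)
    (hbe : (1 - (C.be : ℝ) / 100000) * S P Q ≤
      ∑ m ∈ P, wt Q m * uu ((C.al : ℝ) / 100000) ((C.cn : ℝ) / (C.cd : ℝ)) m) : Hyp C P Q := by
  have hs := S_nonneg P Q
  obtain ⟨c2, c4, c8, c3, c9, c5, c25, c7, c49, c11, c13⟩ := hc
  refine ⟨fun n hn p hp e hd => ?_, c4, fun n hn p hp h13' hd => ?_, hbe⟩
  · simp only [List.mem_cons, List.not_mem_nil, or_false] at hp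
    rcases hp with rfl | rfl | rfl | rfl | rfl
    · have e0 : aa C 2 e =
          if e = 1 then 60000 else if e = 2 then 37700 else if e = 3 then 20300 else 100000 := by
        unfold aa
        rw [if_pos rfl]
      rw [e0]
      split_ifs with k1 k2 k3
      · subst k1
        exact gst3_le hs c2 (by norm_num)
      · subst k2
        exact gst3_le hs c4 (by norm_num)
      · subst k3
        exact gst3_le hs c8 (by norm_num)
      · exact gst3_full P Q _
    · have e0 : aa C 3 e = if e = 1 then 42000 else if e = 2 then 16500 else 100000 := by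
        unfold aa
        rw [if_neg (by norm_num), if_pos rfl]
      rw [e0]
      exact gst3_odd hP hQ hn hd c3 c9 (Or.inl ⟨by norm_num, by norm_num⟩)
    · have e0 : aa C 5 e = if e = 1 then C.a5 else if e = 2 then C.a25 else 100000 := by
        unfold aa
        rw [if_neg (by norm_num), if_neg (by norm_num), if_pos rfl]
      rw [e0]
      refine gst3_odd hP hQ hn hd c5 c25 (h5.imp (fun h => ?_) id)
      have a1 : (22400 : ℝ) ≤ C.a5 := by exact_mod_cast h.1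
      have a2 : (5800 : ℝ) ≤ C.a25 := by exact_mod_cast h.2
      constructor <;> linarith
    · have e0 : aa C 7 e = if e = 1 then C.a7 else if e = 2 then C.a49 else 100000 := by
        unfold aa
        rw [if_neg (by norm_num), if_neg (by norm_num), if_neg (by norm_num), if_pos rfl]
      rw [e0]
      refine gst3_odd hP hQ hn hd c7 c49 (h7.imp (fun h => ?_) id)
      have a1 : (15500 : ℝ) ≤ C.a7 := by exact_mod_cast h.1
      have a2 : (2700 : ℝ) ≤ C.a49 := by exact_mod_cast h.2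
      constructor <;> linarith
    · have e0 : aa C 11 e = if e = 1 then C.a11 else 100000 := by
        unfold aa
        rw [if_neg (by norm_num), if_neg (by norm_num), if_neg (by norm_num),
          if_neg (by norm_num), if_pos rfl]
      rw [e0]
      split_ifs with k1
      · subst k1
        rcases h11 with h | h
        · have a1 : (9650 : ℝ) ≤ C.a11 := by exact_mod_cast h
          rw [pow_one]
          exact gst3_le hs c11 (by linarith)
        · rw [gst3_zero hP hQ hn (by norm_num) hd h]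
          positivity
      · exact gst3_full P Q _
  · rcases h13 with h | h
    · rw [h]
      have := c13 p hp h13'
      have e : ((105400 : ℕ) : ℝ) / 100000 = 1054 / 1000 := by norm_num
      rw [e]
      exact this
    · have h0 : ms P Q p = 0 := by
        have := gst3_zero hP hQ (p := p) (e := 1) hn (by norm_num) (by simpa using hd)
          (h p hp h13')
        simpa using this
      rw [h0]
      positivity

theorem gst3_uu0 (c : ℝ) (P Q : Finset ℕ) : ∑ m ∈ P, wt Q m * uu 0 c m = S P Q := by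
  unfold S
  refine Finset.sum_congr rfl (fun m _ => ?_)
  have : uu 0 c m = 1 := by
    unfold uu sg
    simp
  rw [this, mul_one]

theorem gst3_sound {C : Cert} (h : chkStatic C = true) (hl : LoopOK C) {P Q : Finset ℕ}
    (hP : DC P) (hQ : DC Q) (hy : Hyp C P Q) {al c : ℝ} (hal : (C.al : ℝ) / 100000 = al)
    (hc : (C.cn : ℝ) / (C.cd : ℝ) = c) {X : ℕ} (hX : ∀ m ∈ P, F Q m / m ≤ X)
    (hf : ∀ j, j < C.J → C.xmin.getD j 0 ≤ 1 ∨
      ∀ x, x < C.xmin.getD j 0 → (C.psi.getD j 0 : ℝ) / 100000 ≤ suc al c P Q x)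
    {r : ℝ} (hr : (C.rN : ℝ) / (2310 * 10000) = r) :
    Wt al c Q ≤ r * ∑ x ∈ range X, suc al c P Q x := by
  subst hal hc hr
  exact cert_sound h hl hQ.2.1 (suc_nonneg _ _ P Q) (suc_anti _ _ P Q)
    (fun x hx => suc_eq_zero _ _ hX hx) (testOK_of_hyp C hP hQ hy) hf

theorem gst3_X (P Q : Finset ℕ) :
    ∃ X : ℕ, (∀ m ∈ P, F Q m / m ≤ X) ∧ ∀ n ∈ Q, F P n / n ≤ X :=
  ⟨P.sup (fun m => F Q m / m) + Q.sup (fun n => F P n / n),
    fun m hm => le_trans (Finset.le_sup (f := fun m => F Q m / m) hm) (Nat.le_add_right _ _),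
    fun n hn => le_trans (Finset.le_sup (f := fun n => F P n / n) hn) (Nat.le_add_left _ _)⟩

theorem gst3_big {P Q : Finset ℕ} (hP : DC P) (hQ : DC Q) (h1 : Cen P Q)
    {p : ℕ} (hp : p.Prime) (h11 : 11 ≤ p) (hpQ : p ∈ Q) {X : ℕ} (hX : ∀ m ∈ P, F Q m / m ≤ X) :
    Wt (105400 / 100000) (7 / 2) Q ≤
      (975 / 1000) * ∑ x ∈ range X, suc (105400 / 100000) (7 / 2) P Q x := by
  have e1 : CtB.al = 105400 := rfl
  have e2 : CtB.cn = 7 := rfl
  have e3 : CtB.cd = 2 := rfl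
  have e4 : CtB.be = 8973 := rfl
  have e5 : CtB.rN = 22522500 := rfl
  have hal : (CtB.al : ℝ) / 100000 = 105400 / 100000 := by rw [e1]; norm_num
  have hc : (CtB.cn : ℝ) / (CtB.cd : ℝ) = 7 / 2 := by rw [e2, e3]; norm_num
  have hb := beta_bound h1
  have hs := S_nonneg P Q
  have hy : Hyp CtB P Q := by
    refine gst3_hyp CtB hP hQ h1 (Or.inl ⟨le_rfl, le_rfl⟩) (Or.inl ⟨le_rfl, le_rfl⟩)
      (Or.inl le_rfl) (Or.inl rfl) ?_
    rw [hal, hc, e4]
    exact_mod_cast hb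
  refine gst3_sound CtB_static CtB_loop hP hQ hy hal hc hX ?_ (by rw [e5]; norm_num)
  have hms : ms P Q p ≤ (965 / 10000) * S P Q := by
    rcases Nat.lt_or_ge p 13 with h | h
    · have : p = 11 := by
        have h12 : p ≠ 12 := by
          rintro rfl
          norm_num at hp
        omega
      subst this
      exact h1.2.2.2.2.2.2.2.2.2.1
    · refine (h1.2.2.2.2.2.2.2.2.2.2 p hp h).trans (mul_le_mul_of_nonneg_right ?_ hs)
      have h' : (13 : ℝ) ≤ p := by exact_mod_cast h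
      rw [div_le_iff₀ (by linarith)]
      linarith
  have key : ∀ x, x < 11 → (81377 : ℝ) / 100000 ≤ suc (105400 / 100000) (7 / 2) P Q x := by
    intro x hx
    have := suc_ge_of_prime (by norm_num) (by norm_num) hP hQ hp hpQ hms hb (x := x) (by omega)
    linarith
  have hJ : ∀ j, j < 12 → CtB.xmin.getD j 0 ≤ 1 ∨
      (CtB.xmin.getD j 0 ≤ 11 ∧ CtB.psi.getD j 0 ≤ 81377) := by decide +kernel
  intro j hj
  rcases hJ j hj with h | h
  · exact Or.inl h
  · refine Or.inr (fun x hx => le_trans ?_ (key x (by omega)))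
    have : (CtB.psi.getD j 0 : ℝ) ≤ 81377 := by exact_mod_cast h.2
    linarith

theorem gst3_five {P Q : Finset ℕ} (hP : DC P) (hQ : DC Q) (h1 : Cen P Q)
    (hno : ∀ q : ℕ, q.Prime → 11 ≤ q → q ∈ Q → q ∉ P)
    {p : ℕ} (hp : p = 5 ∨ p = 7) (hpQ : p ∈ Q) {X : ℕ} (hX : ∀ m ∈ P, F Q m / m ≤ X) :
    Wt 0 1000 Q ≤ (92 / 100) * ∑ x ∈ range X, suc 0 1000 P Q x := by
  have e1 : CtF.al = 0 := rfl
  have e2 : CtF.cn = 1000 := rfl
  have e3 : CtF.cd = 1 := rfl
  have e4 : CtF.be = 0 := rfl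
  have e5 : CtF.rN = 21252000 := rfl
  have hal : (CtF.al : ℝ) / 100000 = 0 := by rw [e1]; norm_num
  have hc : (CtF.cn : ℝ) / (CtF.cd : ℝ) = 1000 := by rw [e2, e3]; norm_num
  have hs := S_nonneg P Q
  have hb : (1 - 0) * S P Q ≤ ∑ m ∈ P, wt Q m * uu 0 1000 m := by
    rw [gst3_uu0]
    linarith
  have hy : Hyp CtF P Q := by
    refine gst3_hyp CtF hP hQ h1 (Or.inl ⟨le_rfl, le_rfl⟩) (Or.inl ⟨le_rfl, le_rfl⟩)
      (Or.inr (hno 11 (by norm_num) le_rfl)) (Or.inr (fun q hq h => hno q hq (by omega))) ?_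
    rw [hal, hc, e4]
    simpa using hb
  refine gst3_sound CtF_static CtF_loop hP hQ hy hal hc hX ?_ (by rw [e5]; norm_num)
  have hms : ms P Q p ≤ (224 / 1000) * S P Q := by
    rcases hp with rfl | rfl
    · exact h1.2.2.2.2.2.1
    · have := h1.2.2.2.2.2.2.2.1
      linarith
  have hpp : p.Prime := by
    rcases hp with rfl | rfl <;> norm_num
  have key : ∀ x, x < 5 → (77600 : ℝ) / 100000 ≤ suc 0 1000 P Q x := by
    intro x hx
    have := suc_ge_of_prime le_rfl (by norm_num) hP hQ hpp hpQ hms hb (x := x) (by omega)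
    linarith
  have hJ : ∀ j, j < 7 → CtF.xmin.getD j 0 ≤ 1 ∨
      (CtF.xmin.getD j 0 ≤ 5 ∧ CtF.psi.getD j 0 ≤ 77600) := by decide +kernel
  intro j hj
  rcases hJ j hj with h | h
  · exact Or.inl h
  · refine Or.inr (fun x hx => le_trans ?_ (key x (by omega)))
    have : (CtF.psi.getD j 0 : ℝ) ≤ 77600 := by exact_mod_cast h.2
    linarith

theorem gst3_univ {P Q : Finset ℕ} (hP : DC P) (hQ : DC Q) (h1 : Cen P Q)
    (hno : ∀ q : ℕ, q.Prime → 5 ≤ q → q ∈ Q → q ∉ P) {X : ℕ} (hX : ∀ m ∈ P, F Q m / m ≤ X) :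
    Wt 0 1000 Q ≤ (1075 / 1000) * ∑ x ∈ range X, suc 0 1000 P Q x := by
  have e1 : CtU.al = 0 := rfl
  have e2 : CtU.cn = 1000 := rfl
  have e3 : CtU.cd = 1 := rfl
  have e4 : CtU.be = 0 := rfl
  have e5 : CtU.rN = 24832500 := rfl
  have hal : (CtU.al : ℝ) / 100000 = 0 := by rw [e1]; norm_num
  have hc : (CtU.cn : ℝ) / (CtU.cd : ℝ) = 1000 := by rw [e2, e3]; norm_num
  have hy : Hyp CtU P Q := by
    refine gst3_hyp CtU hP hQ h1 (Or.inr (hno 5 (by norm_num) le_rfl))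
      (Or.inr (hno 7 (by norm_num) (by norm_num)))
      (Or.inr (hno 11 (by norm_num) (by norm_num)))
      (Or.inr (fun q hq h => hno q hq (by omega))) ?_
    rw [hal, hc, e4, gst3_uu0]
    simp
  refine gst3_sound CtU_static CtU_loop hP hQ hy hal hc hX ?_ (by rw [e5]; norm_num)
  have hJ : ∀ j, j < 5 → CtU.xmin.getD j 0 ≤ 1 := by decide +kernel
  exact fun j hj => Or.inl (hJ j hj)

theorem gst3_split {n : ℕ} (hn : 0 < n) (h12 : ¬ n ∣ 12) :
    8 ∣ n ∨ 9 ∣ n ∨ ∃ q : ℕ, q.Prime ∧ 5 ≤ q ∧ q ∣ n := by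
  by_contra hc
  push Not at hc
  obtain ⟨h8, h9, hq⟩ := hc
  apply h12
  rw [Nat.dvd_iff_prime_pow_dvd_dvd]
  intro p k hp hk
  rcases Nat.eq_zero_or_pos k with rfl | hk0
  · simp
  have hpn : p ∣ n := (dvd_pow_self p hk0.ne').trans hk
  have hp5 : p < 5 := by
    by_contra h
    exact hq p hp (not_lt.1 h) hpn
  have hp2 := hp.two_le
  interval_cases p
  · have : k ≤ 2 := by
      by_contra h
      exact h8 ((pow_dvd_pow 2 (show 3 ≤ k by omega)).trans hk)
    exact (pow_dvd_pow 2 this).trans (by norm_num)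
  · have : k ≤ 1 := by
      by_contra h
      exact h9 ((pow_dvd_pow 3 (show 2 ≤ k by omega)).trans hk)
    exact (pow_dvd_pow 3 this).trans (by norm_num)
  · norm_num at hp

theorem gst3_pw {P Q : Finset ℕ} (hP : DC P) (hQ : DC Q) (h1 : Cen P Q)
    (hno : ∀ q : ℕ, q.Prime → 5 ≤ q → q ∈ Q → q ∉ P) {n : ℕ} (hn : n ∈ Q) (h12 : ¬ n ∣ 12)
    {X : ℕ} (hX : ∀ m ∈ P, F Q m / m ≤ X) :
    Wt 0 1000 Q ≤ (88 / 100) * ∑ x ∈ range X, suc 0 1000 P Q x := by
  have e1 : CtP.al = 0 := rfl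
  have e2 : CtP.cn = 1000 := rfl
  have e3 : CtP.cd = 1 := rfl
  have e4 : CtP.be = 0 := rfl
  have e5 : CtP.rN = 20328000 := rfl
  have hal : (CtP.al : ℝ) / 100000 = 0 := by rw [e1]; norm_num
  have hc : (CtP.cn : ℝ) / (CtP.cd : ℝ) = 1000 := by rw [e2, e3]; norm_num
  have hs := S_nonneg P Q
  have hy : Hyp CtP P Q := by
    refine gst3_hyp CtP hP hQ h1 (Or.inr (hno 5 (by norm_num) le_rfl))
      (Or.inr (hno 7 (by norm_num) (by norm_num)))
      (Or.inr (hno 11 (by norm_num) (by norm_num)))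
      (Or.inr (fun q hq h => hno q hq (by omega))) ?_
    rw [hal, hc, e4, gst3_uu0]
    simp
  refine gst3_sound CtP_static CtP_loop hP hQ hy hal hc hX ?_ (by rw [e5]; norm_num)
  have key : (∀ x, x < 2 → (79700 : ℝ) / 100000 ≤ suc 0 1000 P Q x) ∧
      (∀ x, x < 4 → (58000 : ℝ) / 100000 ≤ suc 0 1000 P Q x) ∧
      (∀ x, x < 5 → (40000 : ℝ) / 100000 ≤ suc 0 1000 P Q x) := by
    obtain ⟨c2, c4, c8, c3, c9, -⟩ := h1
    rcases gst3_split (hQ.2.1 n hn) h12 with h | h | ⟨q, hq, hq5, h⟩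
    · have hm : 2 ^ 3 ∈ Q := hQ.2.2 n hn _ h
      refine ⟨fun x hx => ?_, fun x hx => ?_, fun x hx => ?_⟩
      · have := suc_ge_of_pow (c := 1000) hP hQ Nat.prime_two hm (e := 3) (by norm_num) le_rfl c8
          (x := x) (by norm_num; omega)
        linarith
      · have := suc_ge_of_pow (c := 1000) hP hQ Nat.prime_two hm (e := 2) (by norm_num)
          (by norm_num) c4 (x := x) (by norm_num; omega)
        linarith
      · have := suc_ge_of_pow (c := 1000) hP hQ Nat.prime_two hm (e := 1) (by norm_num)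
          (by norm_num) c2 (x := x) (by norm_num; omega)
        linarith
    · have hm : 3 ^ 2 ∈ Q := hQ.2.2 n hn _ h
      refine ⟨fun x hx => ?_, fun x hx => ?_, fun x hx => ?_⟩
      · have := suc_ge_of_pow (c := 1000) hP hQ Nat.prime_three hm (e := 2) (by norm_num) le_rfl
          c9 (x := x) (by norm_num; omega)
        linarith
      · have := suc_ge_of_pow (c := 1000) hP hQ Nat.prime_three hm (e := 1) (by norm_num)
          (by norm_num) c3 (x := x) (by norm_num; omega)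
        linarith
      · have := suc_ge_of_pow (c := 1000) hP hQ Nat.prime_three hm (e := 1) (by norm_num)
          (by norm_num) c3 (x := x) (by norm_num; omega)
        linarith
    · have hm : q ∈ Q := hQ.2.2 n hn _ h
      have h0 : ms P Q q ≤ 0 * S P Q := by
        rw [ms_eq_zero_of_notMem hP Q (hno q hq hq5 hm)]
        simp
      have hb : (1 - 0) * S P Q ≤ ∑ m ∈ P, wt Q m * uu 0 1000 m := by
        rw [gst3_uu0]
        linarith
      have k : ∀ x, x < 5 → (1 : ℝ) ≤ suc 0 1000 P Q x := by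
        intro x hx
        have := suc_ge_of_prime le_rfl (by norm_num) hP hQ hq hm h0 hb (x := x) (by omega)
        linarith
      refine ⟨fun x hx => ?_, fun x hx => ?_, fun x hx => ?_⟩
      · have := k x (by omega)
        linarith
      · have := k x (by omega)
        linarith
      · have := k x hx
        linarith
  have hJ : ∀ j, j < 7 → CtP.xmin.getD j 0 ≤ 1 ∨
      (CtP.xmin.getD j 0 ≤ 2 ∧ CtP.psi.getD j 0 ≤ 79700) ∨
      (CtP.xmin.getD j 0 ≤ 4 ∧ CtP.psi.getD j 0 ≤ 58000) ∨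
      (CtP.xmin.getD j 0 ≤ 5 ∧ CtP.psi.getD j 0 ≤ 40000) := by decide +kernel
  intro j hj
  rcases hJ j hj with h | h | h | h
  · exact Or.inl h
  · refine Or.inr (fun x hx => le_trans ?_ (key.1 x (by omega)))
    have : (CtP.psi.getD j 0 : ℝ) ≤ 79700 := by exact_mod_cast h.2
    linarith
  · refine Or.inr (fun x hx => le_trans ?_ (key.2.1 x (by omega)))
    have : (CtP.psi.getD j 0 : ℝ) ≤ 58000 := by exact_mod_cast h.2
    linarith
  · refine Or.inr (fun x hx => le_trans ?_ (key.2.2 x (by omega)))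
    have : (CtP.psi.getD j 0 : ℝ) ≤ 40000 := by exact_mod_cast h.2
    linarith

theorem case_big {P Q : Finset ℕ} (hP : DC P) (hQ : DC Q) (h1 : Cen P Q) (h2 : Cen Q P)
    {p : ℕ} (hp : p.Prime) (h11 : 11 ≤ p) (hpP : p ∈ P) (hpQ : p ∈ Q) :
    V P Q ≤ (975 / 1000) * (975 / 1000) := by
  obtain ⟨X, x1, x2⟩ := gst3_X P Q
  exact V_le_mul hP hQ (by norm_num) (by norm_num) x1 x2 (gst3_big hP hQ h1 hp h11 hpQ x1)
    (gst3_big hQ hP h2 hp h11 hpP x2)

theorem case_five {P Q : Finset ℕ} (hP : DC P) (hQ : DC Q) (h1 : Cen P Q) (h2 : Cen Q P)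
    (hno : ∀ q : ℕ, q.Prime → 11 ≤ q → q ∈ P → q ∉ Q)
    {p : ℕ} (hp : p.Prime) (h5 : 5 ≤ p) (hpP : p ∈ P) (hpQ : p ∈ Q) :
    V P Q ≤ (92 / 100) * (92 / 100) := by
  obtain ⟨X, x1, x2⟩ := gst3_X P Q
  have h57 : p = 5 ∨ p = 7 := by
    have h11 : p < 11 := by
      by_contra h
      exact hno p hp (not_lt.1 h) hpP hpQ
    interval_cases p <;> first | omega | norm_num at hp
  exact V_le_mul hP hQ (by norm_num) (by norm_num) x1 x2
    (gst3_five hP hQ h1 (fun q hq h a b => hno q hq h b a) h57 hpQ x1)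
    (gst3_five hQ hP h2 hno h57 hpP x2)

theorem case_small {P Q : Finset ℕ} (hP : DC P) (hQ : DC Q) (h1 : Cen P Q) (h2 : Cen Q P)
    (hno : ∀ q : ℕ, q.Prime → 5 ≤ q → q ∈ P → q ∉ Q) {n : ℕ} (hn : n ∈ Q) (h12 : ¬ n ∣ 12) :
    V P Q ≤ (88 / 100) * (1075 / 1000) := by
  obtain ⟨X, x1, x2⟩ := gst3_X P Q
  exact V_le_mul hP hQ (by norm_num) (by norm_num) x1 x2
    (gst3_pw hP hQ h1 (fun q hq h a b => hno q hq h b a) hn h12 x1)
    (gst3_univ hQ hP h2 hno x2)

theorem dvd_twelve {P Q : Finset ℕ} (hP : DC P) (hQ : DC Q) (h1 : Cen P Q) (h2 : Cen Q P)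
    (hV : 959 / 1000 ≤ V P Q) : (∀ m ∈ P, m ∣ 12) ∧ ∀ n ∈ Q, n ∣ 12 := by
  have n11 : ∀ q : ℕ, q.Prime → 11 ≤ q → q ∈ P → q ∉ Q := by
    intro q hq h a b
    have := case_big hP hQ h1 h2 hq h a b
    linarith
  have n5 : ∀ q : ℕ, q.Prime → 5 ≤ q → q ∈ P → q ∉ Q := by
    intro q hq h a b
    have := case_five hP hQ h1 h2 n11 hq h a b
    linarith
  constructor
  · intro m hm
    by_contra h
    have := case_small hQ hP h2 h1 (fun q hq h a b => n5 q hq h b a) hm h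
    rw [V_comm] at this
    linarith
  · intro n hn
    by_contra h
    have := case_small hP hQ h1 h2 n5 hn h
    linarith

end Pool.Agent.Lib.MP_4652a8_nt
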