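import Pool.Agent.Lib.MP_4652a8_nt.GSt1
import Pool.Agent.Lib.MP_4652a8_nt.GSt3
import Pool.Agent.Lib.MP_4652a8_nt.GFin

set_option autoImplicit false

namespace Pool.Agent.Lib.MP_4652a8_nt
open Finset

theorem stuck_aux {P Q : Finset ℕ} (hP : DC P) (hQ : DC Q) (hk : IH (P.card + Q.card))
    (h1 : Stuck P Q) (h2 : Stuck Q P) (hV : 999 / 1000 ≤ V P Q) {l : ℕ}
    (ha : zz P Q l * S Q P ≤ zz Q P l * S P Q) (hb : (4 / 5) * S Q P ≤ zz Q P l)
    (hc : Zm P Q 2 (l + 1) ≤ (4 / 5) * S P Q) (hd : Zm Q P 2 (l + 1) ≤ (4 / 5) * S Q P) :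
    P = {1} ∧ Q = {1} := by
  obtain ⟨d1, d2, hv, c1, c2, hS⟩ := post_op hP hQ hk h1 h2 hV ha hb hc hd
  obtain ⟨t1, t2⟩ := dvd_twelve d1 d2 c1 c2 hv
  exact last_case hP hQ h2 hV (fin_case d1 d2 t1 t2 hv c1) hS

/-- a stuck pair of large value is trivial -/
theorem stuck_bound {P Q : Finset ℕ} (hP : DC P) (hQ : DC Q) (hk : IH (P.card + Q.card))
    (h1 : Stuck P Q) (h2 : Stuck Q P) (hV : 999 / 1000 ≤ V P Q) : P = {1} ∧ Q = {1} := by
  obtain ⟨l, hl, hc, hd⟩ := exists_level hP hQ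
  have sP := S_pos hP hQ
  have sQ := S_pos hQ hP
  rcases le_total (zz P Q l * S Q P) (zz Q P l * S P Q) with ha | ha
  · refine stuck_aux hP hQ hk h1 h2 hV ha ?_ hc hd
    rcases hl with hl | hl
    · have : (4 / 5) * S Q P * S P Q ≤ zz Q P l * S P Q := by nlinarith
      exact le_of_mul_le_mul_right this sP
    · exact hl
  · have hk' : IH (Q.card + P.card) := by rwa [add_comm]
    have hV' : 999 / 1000 ≤ V Q P := by rwa [V_comm]
    refine (stuck_aux hQ hP hk' h2 h1 hV' ha ?_ hd hc).symm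
    rcases hl with hl | hl
    · exact hl
    · have : (4 / 5) * S P Q * S Q P ≤ zz P Q l * S Q P := by nlinarith
      exact le_of_mul_le_mul_right this sQ

end Pool.Agent.Lib.MP_4652a8_nt
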