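import Pool.Agent.Lib.MP_4652a8_nt.GQ0
import Pool.Agent.Lib.MP_4652a8_nt.GCentre

set_option autoImplicit false

namespace Pool.Agent.Lib.MP_4652a8_nt
open Finset

theorem gtail_val (p : ℕ) (z : ℚ) :
    padicValRat p z = (padicValNat p (nm z) : ℤ) - (padicValNat p z.den : ℤ) := rfl

theorem gtail_exists (s : Finset ℕ) (hs : ∀ p ∈ s, p.Prime) (l : ℕ → ℤ) :
    ∃ c : ℚ, 0 < c ∧ ∀ p : ℕ, p.Prime → padicValRat p c = if p ∈ s then l p else 0 := by
  induction s using Finset.induction_on with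
  | empty => exact ⟨1, one_pos, fun p _ => by simp⟩
  | insert q s hq ih =>
    obtain ⟨c, hc, h⟩ := ih fun p hp => hs p (mem_insert_of_mem hp)
    have hqp : q.Prime := hs q (mem_insert_self q s)
    have hq0 : (0 : ℚ) < q := by exact_mod_cast hqp.pos
    refine ⟨c * (q : ℚ) ^ l q, mul_pos hc (zpow_pos hq0 _), fun p hp => ?_⟩
    have := Fact.mk hp
    rw [padicValRat.mul hc.ne' (zpow_pos hq0 _).ne', padicValRat.zpow, h p hp]
    by_cases hpq : p = q
    · subst hpq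
      simp [hq, padicValRat.self hp.one_lt]
    · have := Fact.mk hqp
      have h0 : padicValRat p (q : ℚ) = 0 := by
        rw [padicValRat.of_nat, padicValNat_primes hpq]
        rfl
      simp [h0, hpq]

theorem gtail_nm {p t : ℕ} (hp : p.Prime) (ht : t ≠ 0) {z : ℚ} (hz : 0 < z) (h : p ^ t ∣ nm z) :
    (t : ℤ) ≤ padicValRat p z := by
  have := Fact.mk hp
  have h1 : t ≤ padicValNat p (nm z) := (padicValNat_dvd_iff_le (nm_pos hz).ne').1 h
  have h2 : ¬ p ∣ z.den := fun hd =>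
    hp.one_lt.ne' (Nat.eq_one_of_dvd_coprimes (nm_coprime_den z) ((dvd_pow_self p ht).trans h) hd)
  rw [gtail_val, padicValNat.eq_zero_of_not_dvd h2]
  omega

theorem gtail_den {p t : ℕ} (hp : p.Prime) (ht : t ≠ 0) {z : ℚ} (h : p ^ t ∣ z.den) :
    padicValRat p z ≤ -(t : ℤ) := by
  have := Fact.mk hp
  have h1 : t ≤ padicValNat p z.den := (padicValNat_dvd_iff_le z.den_nz).1 h
  have h2 : ¬ p ∣ nm z := fun hd =>
    hp.one_lt.ne' (Nat.eq_one_of_dvd_coprimes (nm_coprime_den z) hd ((dvd_pow_self p ht).trans h))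
  rw [gtail_val, padicValNat.eq_zero_of_not_dvd h2]
  omega

theorem gtail_card {c : ℚ} {A : Finset ℚ} (P Q : ℚ → Prop) [DecidablePred P] [DecidablePred Q]
    (h : ∀ a ∈ A, P (c * a) → Q a) : ((sc c A).filter P).card ≤ (A.filter Q).card := by
  refine le_trans (card_le_card (t := (A.filter Q).image fun a => c * a) fun z hz => ?_)
    card_image_le
  obtain ⟨h1, h2⟩ := mem_filter.1 hz
  obtain ⟨a, ha, rfl⟩ := mem_image.1 h1
  exact mem_image.2 ⟨a, mem_filter.2 ⟨ha, h a ha h2⟩, rfl⟩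

theorem gtail_tail {C : ℝ} {A : Finset ℚ} (hA : Pos A) (hC : 1 ≤ C) {r : ℚ}
    (hr : 0 < r)
    (h : ∀ p : ℕ, p.Prime → ∀ t : ℕ, t ≠ 0 →
      ((A.filter (fun a => -padicValRat p r + t ≤ padicValRat p a)).card : ℝ) * (p : ℝ) ^ t
        ≤ C * (A.card : ℝ) ∧
      ((A.filter (fun a => padicValRat p a ≤ -padicValRat p r - t)).card : ℝ) * (p : ℝ) ^ t
        ≤ C * (A.card : ℝ)) : Tail (sc r A) C := by
  intro p hp t
  have := Fact.mk hp
  rcases eq_or_ne t 0 with rfl | ht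
  · have h1 : ∀ (P : ℚ → Prop) [DecidablePred P],
        (((sc r A).filter P).card : ℝ) * (p : ℝ) ^ 0 ≤ C * ((sc r A).card : ℝ) := by
      intro P _
      have h2 : (((sc r A).filter P).card : ℝ) ≤ ((sc r A).card : ℝ) := by
        exact_mod_cast card_filter_le _ _
      have h3 : (0 : ℝ) ≤ ((sc r A).card : ℝ) := Nat.cast_nonneg _
      rw [pow_zero, mul_one]
      nlinarith
    exact ⟨h1 _, h1 _⟩
  · rw [card_sc hr]
    have hp0 : (0 : ℝ) ≤ (p : ℝ) ^ t := by positivity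
    refine ⟨le_trans (mul_le_mul_of_nonneg_right ?_ hp0) (h p hp t ht).1,
      le_trans (mul_le_mul_of_nonneg_right ?_ hp0) (h p hp t ht).2⟩
    · refine Nat.cast_le.2 (gtail_card _ _ fun a ha hd => ?_)
      have h1 := gtail_nm hp ht (mul_pos hr (hA a ha)) hd
      rw [padicValRat.mul hr.ne' (hA a ha).ne'] at h1
      omega
    · refine Nat.cast_le.2 (gtail_card _ _ fun a ha hd => ?_)
      have h1 := gtail_den hp ht hd
      rw [padicValRat.mul hr.ne' (hA a ha).ne'] at h1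
      omega

/-- after a common rescaling all valuations have geometric tails -/
theorem exists_tail (C : ℝ) : ∃ C' : ℝ, 1 ≤ C' ∧ ∀ A B : Finset ℚ, Pos A → Pos B →
    A.Nonempty → B.Nonempty → Slice A B C →
    ∃ c : ℚ, 0 < c ∧ Tail (sc c A) C' ∧ Tail (sc c B) C' := by
  obtain ⟨C', hC', hcen⟩ := centre C
  refine ⟨C', hC', fun A B hA hB hAn hBn hS => ?_⟩
  have hl : ∀ p : ℕ, ∃ l : ℤ, p.Prime → ∀ t : ℕ,
      ((A.filter (fun a => l + t ≤ padicValRat p a)).card : ℝ) * (p : ℝ) ^ t ≤ C' * (A.card : ℝ) ∧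
      ((A.filter (fun a => padicValRat p a ≤ l - t)).card : ℝ) * (p : ℝ) ^ t ≤ C' * (A.card : ℝ) ∧
      ((B.filter (fun b => l + t ≤ padicValRat p b)).card : ℝ) * (p : ℝ) ^ t ≤ C' * (B.card : ℝ) ∧
      ((B.filter (fun b => padicValRat p b ≤ l - t)).card : ℝ) * (p : ℝ) ^ t
        ≤ C' * (B.card : ℝ) := by
    intro p
    by_cases hp : p.Prime
    · obtain ⟨l, hl⟩ := hcen A B (padicValRat p) (padicValRat p) p (by exact_mod_cast hp.two_le)
        hAn hBn (hS p hp)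
      exact ⟨l, fun _ => hl⟩
    · exact ⟨0, fun h => absurd h hp⟩
  choose l hl using hl
  obtain ⟨s, hs⟩ : ∃ s : Finset ℕ,
      s = (A ∪ B).biUnion fun a => (nm a).primeFactors ∪ a.den.primeFactors := ⟨_, rfl⟩
  have hsp : ∀ p ∈ s, p.Prime := by
    intro p hp
    rw [hs] at hp
    obtain ⟨a, _, h⟩ := mem_biUnion.1 hp
    rcases mem_union.1 h with h | h <;> exact Nat.prime_of_mem_primeFactors h
  have hs0 : ∀ p : ℕ, p.Prime → p ∉ s → ∀ a ∈ A ∪ B, 0 < a → padicValRat p a = 0 := by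
    intro p hp hps a ha ha0
    have h1 : ¬ p ∣ nm a := fun hd => hps (hs ▸ mem_biUnion.2 ⟨a, ha,
      mem_union_left _ (Nat.mem_primeFactors.2 ⟨hp, hd, (nm_pos ha0).ne'⟩)⟩)
    have h2 : ¬ p ∣ a.den := fun hd => hps (hs ▸ mem_biUnion.2 ⟨a, ha,
      mem_union_right _ (Nat.mem_primeFactors.2 ⟨hp, hd, a.den_nz⟩)⟩)
    rw [gtail_val, padicValNat.eq_zero_of_not_dvd h1, padicValNat.eq_zero_of_not_dvd h2]
    rfl
  obtain ⟨c, hc, hv⟩ := gtail_exists s hsp fun p => -l p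
  have hz : ∀ D : Finset ℚ, Pos D → D ⊆ A ∪ B → ∀ p : ℕ, p.Prime → p ∉ s → ∀ t : ℕ, t ≠ 0 →
      ((D.filter (fun a => -padicValRat p c + t ≤ padicValRat p a)).card : ℝ) * (p : ℝ) ^ t
        ≤ C' * (D.card : ℝ) ∧
      ((D.filter (fun a => padicValRat p a ≤ -padicValRat p c - t)).card : ℝ) * (p : ℝ) ^ t
        ≤ C' * (D.card : ℝ) := by
    intro D hD hDs p hp hps t ht
    have h0 : (0 : ℝ) ≤ C' * (D.card : ℝ) := by positivity
    rw [hv p hp, if_neg hps, filter_eq_empty_iff.2, filter_eq_empty_iff.2]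
    · simpa using h0
    · intro a ha
      rw [hs0 p hp hps a (hDs ha) (hD a ha)]
      omega
    · intro a ha
      rw [hs0 p hp hps a (hDs ha) (hD a ha)]
      omega
  refine ⟨c, hc, gtail_tail hA hC' hc fun p hp t ht => ?_,
    gtail_tail hB hC' hc fun p hp t ht => ?_⟩
  · by_cases hps : p ∈ s
    · rw [hv p hp, if_pos hps, neg_neg]
      exact ⟨(hl p hp t).1, (hl p hp t).2.1⟩
    · exact hz A hA subset_union_left p hp hps t ht
  · by_cases hps : p ∈ s
    · rw [hv p hp, if_pos hps, neg_neg]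
      exact ⟨(hl p hp t).2.2.1, (hl p hp t).2.2.2⟩
    · exact hz B hB subset_union_right p hp hps t ht

end Pool.Agent.Lib.MP_4652a8_nt
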